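import Pool.Agent.Lib.MP_a267a3_lc.M.Spec

set_option autoImplicit false

namespace Pool.Agent.MPa267.M

open OnePoint

namespace Alg1Aux

universe u

variable {E V B : Type u} [Field E] [Group V] {K : Subfield E} {v : E} {m : ℕ}
  {C : E → V →* Equiv.Perm B}

theorem scale (h : Sys K v m C) (hN : ∀ ν, C 0 ν = 1 → C v ν = 1) (τ : V) {a : E} (ha : a ∈ K)
    (ha0 : a ≠ 0) : C (a * v) τ = C v τ := by
  have he : a * v ∉ K := by
    intro h1
    have h3 : a⁻¹ * (a * v) ∈ K := K.mul_mem (K.inv_mem ha) h1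
    rw [inv_mul_cancel_left₀ ha0] at h3
    exact h.hv h3
  obtain ⟨φ, hφ, hφK, hφC⟩ := h.sub _ he
  obtain ⟨τ', hτ'⟩ := hφC τ
  have h0 : C 0 τ' = C 0 τ := by rw [hτ', map_zero]
  have h1 : C v τ' = C (a * v) τ := by rw [hτ', hφ]
  have h2 : C 0 (τ' * τ⁻¹) = 1 := by rw [map_mul, map_inv, h0, mul_inv_cancel]
  have h3 := hN _ h2
  rw [map_mul, map_inv, h1, mul_inv_eq_one] at h3
  exact h3

end Alg1Aux

theorem tAlg1.{u} : S_Alg1.{u} := by
  intro E V B _ _ K v m C h hN τ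
  obtain ⟨s, hsK, hs0, hsm⟩ := h.card
  apply Equiv.ext
  intro b
  have h3 := h.rig 0 v h.hv τ b (C v τ b) ⟨s, hsK, hsm, fun a ha => by
    rw [zero_add, Alg1Aux.scale h hN τ (hsK ha) (ne_of_mem_of_not_mem ha hs0)]⟩ 0 K.zero_mem
  rw [zero_mul, add_zero] at h3
  exact h3.symm

end Pool.Agent.MPa267.M
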