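import Pool.Agent.Lib.MP_a267a3_lc.M.Spec

/-!
# MP_a267a3_lc, project PGL: `S_Alg2`
-/

set_option autoImplicit false

namespace Pool.Agent.MPa267.M

open OnePoint

universe u

namespace Alg2Aux

variable {E V B : Type u} [Field E] [Group V]

/-- The functions `w ↦ C w σ` with values in the subgroup `Z`. -/
def SA (Z : Subgroup (Equiv.Perm B)) [AddCommGroup (Additive Z)]
    (hadd : ∀ x y : Additive Z, (((x + y).toMul : Z) : Equiv.Perm B) =
      ((x.toMul : Z) : Equiv.Perm B) * ((y.toMul : Z) : Equiv.Perm B))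
    (C : E → V →* Equiv.Perm B) : AddSubgroup (E → Additive Z) :=
  have hzero : (((0 : Additive Z).toMul : Z) : Equiv.Perm B) = 1 := by
    have h := hadd 0 0
    rw [add_zero] at h
    exact (mul_eq_left.1 h.symm)
  { carrier := {f | ∃ σ : V, ∀ w, (((f w).toMul : Z) : Equiv.Perm B) = C w σ}
    add_mem' := by
      rintro f g ⟨σ, hσ⟩ ⟨σ', hσ'⟩
      refine ⟨σ * σ', fun w => ?_⟩
      rw [Pi.add_apply, hadd, hσ, hσ', map_mul]
    zero_mem' := ⟨1, fun w => by rw [Pi.zero_apply, hzero, map_one]⟩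
    neg_mem' := by
      rintro f ⟨σ, hσ⟩
      refine ⟨σ⁻¹, fun w => ?_⟩
      have h := hadd ((-f) w) (f w)
      rw [Pi.neg_apply, neg_add_cancel, hzero, hσ] at h
      rw [Pi.neg_apply, map_inv]
      exact eq_inv_of_mul_eq_one_left h.symm }

end Alg2Aux

open Alg2Aux in
/-- An additive family of permutations, from a noncentral element. -/
theorem tAlg2.{v} (hSel : S_Sel.{v}) (hDif : S_Dif.{v}) (hPol : S_Pol.{v}) : S_Alg2.{v} := by
  intro E V B _ _ K v m C hS hν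
  obtain ⟨Z, hZ, τ, hτ, hτ0, hτv⟩ := hSel E V B K v m C hS hν
  let _ : CommGroup Z :=
    { (inferInstance : Group Z) with
      mul_comm := fun x y => Subtype.ext (hZ x x.2 y y.2) }
  have hadd : ∀ x y : Additive Z, (((x + y).toMul : Z) : Equiv.Perm B) =
      ((x.toMul : Z) : Equiv.Perm B) * ((y.toMul : Z) : Equiv.Perm B) := fun x y => rfl
  have hzero : (((0 : Additive Z).toMul : Z) : Equiv.Perm B) = 1 := rfl
  have hsub : ∀ x y : Additive Z, (((x - y).toMul : Z) : Equiv.Perm B) =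
      ((x.toMul : Z) : Equiv.Perm B) * ((y.toMul : Z) : Equiv.Perm B)⁻¹ := by
    intro x y
    have h := hadd (x - y) y
    rw [sub_add_cancel] at h
    exact eq_mul_inv_of_mul_eq h.symm
  have hinj : ∀ x y : Additive Z, ((x.toMul : Z) : Equiv.Perm B) = ((y.toMul : Z) : Equiv.Perm B) →
      x = y := fun x y h => Additive.toMul.injective (Subtype.ext h)
  have htr : ∀ f ∈ SA Z hadd C, ∀ d : E, (fun w => f (w + d)) ∈ SA Z hadd C := by
    rintro f ⟨σ, hσ⟩ d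
    obtain ⟨σ', hσ'⟩ := hS.tr d σ
    exact ⟨σ', fun w => by rw [hσ', hσ]⟩
  have hfix : ∀ e, e ∉ K → ∃ φ : E →+* E, φ v = e ∧ (∀ a ∈ K, φ a = a) ∧
      ∀ f ∈ SA Z hadd C, (fun w => f (φ w)) ∈ SA Z hadd C := by
    intro e he
    obtain ⟨φ, h1, h2, h3⟩ := hS.sub e he
    refine ⟨φ, h1, h2, ?_⟩
    rintro f ⟨σ, hσ⟩
    obtain ⟨σ', hσ'⟩ := h3 σ
    exact ⟨σ', fun w => by rw [hσ', hσ]⟩
  have hrig : ∀ f ∈ SA Z hadd C, (∃ s : Finset E, (s : Set E) ⊆ K ∧ s.card = m ∧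
      ∀ a ∈ s, f (a * v) = 0) → f 0 = 0 := by
    rintro f ⟨σ, hσ⟩ ⟨s, hsK, hsm, hs⟩
    apply hinj
    rw [hσ, hzero]
    ext b
    have h := hS.rig 0 v hS.hv σ b b ⟨s, hsK, hsm, fun a ha => ?_⟩ 0 (zero_mem K)
    · rw [zero_mul, add_zero] at h
      rw [h]
      rfl
    · rw [zero_add, ← hσ, hs a ha, hzero]
      rfl
  have hL := hDif E (Additive Z) K v m (SA Z hadd C) hS.card hS.big htr hfix hrig
  have hf0 : (fun w => Additive.ofMul (⟨C w τ, hτ w⟩ : Z)) ∈ SA Z hadd C := ⟨τ, fun w => rfl⟩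
  obtain ⟨g, hg, l, hl, hgl⟩ := hPol E (Additive Z) m (SA Z hadd C) htr _ hf0 (hL _ hf0)
    ⟨0, v, fun h => by
      have h1 : C 0 τ = C v τ := congrArg (fun x : Additive Z => ((x.toMul : Z) : Equiv.Perm B)) h
      rw [hτ0] at h1
      exact hτv h1.symm⟩
  refine ⟨fun h => (((l h).toMul : Z) : Equiv.Perm B), fun h h' => ?_, ?_, fun h => ?_⟩
  · change (((l (h + h')).toMul : Z) : Equiv.Perm B) = _
    rw [map_add, hadd]
  · by_contra hcon
    push Not at hcon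
    apply hl
    ext1 h
    exact hinj _ _ ((hcon h).trans hzero.symm)
  · obtain ⟨σ, hσ⟩ := hg
    obtain ⟨σ', hσ'⟩ := hS.tr h σ
    refine ⟨σ' * σ⁻¹, fun w => ?_⟩
    change _ = (((l h).toMul : Z) : Equiv.Perm B)
    rw [← hgl h w, hsub, map_mul, map_inv, hσ', hσ, hσ]

end Pool.Agent.MPa267.M
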