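import Pool.Agent.Lib.MP_a267a3_lc.M.Spec

/-!
# MP_a267a3_lc: additive families of automorphisms of the algebraic numbers are trivial
-/

set_option autoImplicit false

namespace Pool.Agent.MPa267.M

open OnePoint Pool.Agent.MPa267.D1

universe u

namespace Aut0Aux

variable {F : Type u} [Field F] [CharZero F]

/-- every element of `k` is a root of a nonzero rational polynomial -/
theorem exists_poly (b : acl (∅ : Set F)) :
    ∃ P : Polynomial ℚ, P ≠ 0 ∧ Polynomial.aeval b P = 0 := by
  have h0 : ∀ x : Subfield.closure (∅ : Set F), ∃ q : ℚ, (q : F) = x := by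
    rintro ⟨x, hx⟩
    have h1 : Subfield.closure (∅ : Set F) ≤ (algebraMap ℚ F).fieldRange := by
      rw [Subfield.closure_le]
      exact Set.empty_subset _
    obtain ⟨q, hq⟩ := h1 hx
    exact ⟨q, by simpa using hq⟩
  have : Algebra.IsAlgebraic ℚ (Subfield.closure (∅ : Set F)) := by
    constructor
    intro x
    obtain ⟨q, hq⟩ := h0 x
    have : x = algebraMap ℚ (Subfield.closure (∅ : Set F)) q := by
      apply Subtype.ext
      rw [← hq]
      simp
    rw [this]
    exact isAlgebraic_algebraMap q
  have h2 : IsAlgebraic (Subfield.closure (∅ : Set F)) (b : F) := mem_acl.mp b.2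
  have h3 : IsAlgebraic ℚ (b : F) := h2.restrictScalars ℚ
  obtain ⟨P, hP, hPb⟩ := h3
  refine ⟨P, hP, ?_⟩
  apply Subtype.ext
  have := Polynomial.aeval_algebraMap_apply F b P
  have e : (algebraMap (acl (∅ : Set F)) F) b = (b : F) := rfl
  rw [e, hPb] at this
  have e2 : (algebraMap (acl (∅ : Set F)) F) (Polynomial.aeval b P) = ((Polynomial.aeval b P : acl (∅ : Set F)) : F) := rfl
  rw [e2] at this
  rw [← this]; rfl

end Aut0Aux

/-- **Aut0** -/
theorem tAut0 : S_Aut0.{u} := by
  classical
  intro F _ _ E _ _ lam hadd ha hm h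
  ext1 b
  obtain ⟨P, hP, hPb⟩ := Aut0Aux.exists_poly b
  -- ring automorphisms
  have key : ∀ g : E, ∀ x : acl (∅ : Set F), Polynomial.aeval (lam g x) P = lam g (Polynomial.aeval x P) := by
    intro g x
    let φ : acl (∅ : Set F) ≃+* acl (∅ : Set F) :=
      { lam g with
        map_mul' := hm g
        map_add' := ha g }
    have := Polynomial.aeval_algHom_apply (RingHom.toRatAlgHom φ.toRingHom) x P
    exact this
  have key0 : ∀ g : E, lam g 0 = 0 := by
    intro g
    have := ha g 0 0
    rw [add_zero] at this
    exact left_eq_add.mp this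
  have iff : ∀ g : E, ∀ x : acl (∅ : Set F), Polynomial.aeval (lam g x) P = 0 ↔ Polynomial.aeval x P = 0 := by
    intro g x
    rw [key]
    constructor
    · intro h
      apply (lam g).injective
      rw [h, key0]
    · intro h
      rw [h, key0]
  -- the finite root set
  have hfin : Finite {x : acl (∅ : Set F) // Polynomial.aeval x P = 0} := by
    have h1 : (P.map (algebraMap ℚ (acl (∅ : Set F)))) ≠ 0 := by
      rw [Ne, Polynomial.map_eq_zero]; exact hP
    have h2 : {x : acl (∅ : Set F) | Polynomial.aeval x P = 0}.Finite := by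
      refine Set.Finite.subset (Finset.finite_toSet (P.map (algebraMap ℚ (acl (∅ : Set F)))).roots.toFinset) ?_
      intro x hx
      simp only [Finset.mem_coe, Multiset.mem_toFinset]
      rw [Polynomial.mem_roots h1, Polynomial.IsRoot.def, Polynomial.eval_map_algebraMap]
      exact hx
    exact h2
  have := Fintype.ofFinite {x : acl (∅ : Set F) // Polynomial.aeval x P = 0}
  set M := Fintype.card (Equiv.Perm {x : acl (∅ : Set F) // Polynomial.aeval x P = 0}) with hM
  have hM0 : (M : E) ≠ 0 := by
    have : 0 < M := Fintype.card_pos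
    exact_mod_cast this.ne'
  have hpow : ∀ (j : ℕ) (g : E), lam ((j : E) * g) = (lam g) ^ j := by
    intro j g
    induction j with
    | zero =>
      have := hadd 0 0
      rw [add_zero] at this
      simp only [Nat.cast_zero, zero_mul, pow_zero]
      exact left_eq_mul.mp this
    | succ j ih =>
      rw [Nat.cast_succ, add_mul, one_mul, hadd, ih, pow_succ]
  have e1 : lam h = (lam (h / M)) ^ M := by
    rw [← hpow]
    congr 1
    field_simp
  rw [e1]
  have e2 := pow_card_eq_one (x := (lam (h / M)).subtypePerm (p := fun x => Polynomial.aeval x P = 0) (iff (h / M)))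
  rw [Equiv.Perm.subtypePerm_pow] at e2
  have e3 := congrArg (fun σ => ((σ ⟨b, hPb⟩ : {x : acl (∅ : Set F) // Polynomial.aeval x P = 0}) : acl (∅ : Set F))) e2
  simpa using e3

end Pool.Agent.MPa267.M
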