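import Pool.Agent.Lib.MP_a267a3_lc.M.Spec

/-!
# MP_a267a3_lc: automorphisms of order dividing `p` of the algebraic closure of the prime field
-/

set_option autoImplicit false

universe u

namespace Pool.Agent.MPa267.M

open OnePoint

namespace AutPAux

/-- elements of `acl ∅` in characteristic `p` are fixed by a power of Frobenius -/
theorem exists_pow {F : Type*} [Field F] (p : ℕ) [Fact p.Prime] [CharP F p] {b : F}
    (hb : b ∈ acl (∅ : Set F)) : ∃ r : ℕ, r ≠ 0 ∧ b ^ (p ^ r) = b := by
  rw [mem_acl, Subfield.closure_empty] at hb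
  have hp : p.Prime := Fact.out
  have hfin : Finite (⊥ : Subfield F) :=
    Nat.finite_of_card_ne_zero (by rw [Subfield.card_bot F p]; exact hp.ne_zero)
  have hint : IsIntegral (⊥ : Subfield F) b := hb.isIntegral
  let E : IntermediateField (⊥ : Subfield F) F := IntermediateField.adjoin (⊥ : Subfield F) {b}
  have hfd : FiniteDimensional (⊥ : Subfield F) E := IntermediateField.adjoin.finiteDimensional hint
  have hE : Finite E := Module.finite_of_finite (⊥ : Subfield F)
  let _ : Fintype E := Fintype.ofFinite E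
  have hcp : CharP E p := (algebraMap E F).charP (algebraMap E F).injective p
  obtain ⟨n, -, hn⟩ := FiniteField.card E p
  refine ⟨n, n.pos.ne', ?_⟩
  have hbE : b ∈ E := IntermediateField.mem_adjoin_simple_self _ b
  have h := FiniteField.pow_card (⟨b, hbE⟩ : E)
  rw [hn] at h
  have h2 := congrArg (fun x : E => (x : F)) h
  simpa using h2

open Polynomial in
/-- a field automorphism `T` with `T ^ p = 1` of an algebraically closed field of characteristic `p`
fixes the elements of finite fields -/
theorem fixed {k : Type*} [Field k] [IsAlgClosed k] (p : ℕ) [Fact p.Prime] [CharP k p]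
    (T : k →+* k) (hT : ∀ x, T^[p] x = x) {b : k} {r : ℕ} (hr : r ≠ 0)
    (hb : b ^ (p ^ r) = b) : T b = b := by
  have hp : p.Prime := Fact.out
  have hn : r * p ≠ 0 := Nat.mul_ne_zero hr hp.ne_zero
  let L : Subfield k := (iterateFrobenius k p (r * p)).eqLocusField (RingHom.id k)
  have hmem : ∀ x : k, x ∈ L ↔ x ^ (p ^ (r * p)) = x := by
    intro x
    change iterateFrobenius k p (r * p) x = x ↔ _
    rw [iterateFrobenius_def]
  -- cardinality
  have hsep : (X ^ (p ^ (r * p)) - X : k[X]).Separable :=
    galois_poly_separable p _ (dvd_pow_self p hn)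
  have hdeg : (X ^ (p ^ (r * p)) - X : k[X]).natDegree = p ^ (r * p) :=
    FiniteField.X_pow_card_pow_sub_X_natDegree_eq k hn hp.one_lt
  have hne : (X ^ (p ^ (r * p)) - X : k[X]) ≠ 0 :=
    FiniteField.X_pow_card_pow_sub_X_ne_zero k hn hp.one_lt
  have hroot : (X ^ (p ^ (r * p)) - X : k[X]).rootSet k = (L : Set k) := by
    ext x
    rw [mem_rootSet_of_ne hne, SetLike.mem_coe, hmem]
    simp [sub_eq_zero]
  have hcard : Nat.card L = p ^ (r * p) := by
    have h1 := card_rootSet_eq_natDegree (K := k) hsep (IsAlgClosed.splits _)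
    rw [hdeg, ← Nat.card_eq_fintype_card, hroot] at h1
    exact h1
  have hfin : Finite L := Nat.finite_of_card_ne_zero (by rw [hcard]; exact pow_ne_zero _ hp.ne_zero)
  have hcp : CharP L p := L.subtype.charP L.subtype.injective p
  let _ : Algebra (ZMod p) L := ZMod.algebra L p
  have hrank : Module.finrank (ZMod p) L = r * p := by
    let _ : Fintype L := Fintype.ofFinite L
    have h1 := Module.card_eq_pow_finrank (K := ZMod p) (V := L)
    rw [ZMod.card, ← Nat.card_eq_fintype_card, hcard] at h1
    exact (Nat.pow_right_injective hp.two_le h1).symm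
  -- restriction of `T`
  have hTL : ∀ x : k, x ∈ L → T x ∈ L := by
    intro x hx
    rw [hmem] at hx ⊢
    rw [← map_pow, hx]
  let TL : L →+* L := (T.comp L.subtype).codRestrict L (fun x => hTL x x.2)
  have hTLc : ∀ x : L, ((TL x : L) : k) = T x := fun x => rfl
  let TA : L →ₐ[ZMod p] L :=
    { TL with
      commutes' := fun c => by
        have : TL.comp (algebraMap (ZMod p) L) = algebraMap (ZMod p) L := Subsingleton.elim _ _
        exact DFunLike.congr_fun this c }
  have hTA : ∀ x : L, ((TA x : L) : k) = T x := fun x => rfl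
  obtain ⟨⟨i, hi⟩, hi2⟩ := (FiniteField.bijective_frobeniusAlgHom_pow (ZMod p) L).2 TA
  have hi3 : FiniteField.frobeniusAlgHom (ZMod p) L ^ i = TA := hi2
  have hTAp : TA ^ p = 1 := by
    ext x
    rw [AlgHom.coe_pow, AlgHom.one_apply]
    have : ∀ (m : ℕ) (y : L), ((TA^[m] y : L) : k) = T^[m] y := by
      intro m
      induction m with
      | zero => intro y; rfl
      | succ m ih => intro y; rw [Function.iterate_succ_apply, ih, hTA, Function.iterate_succ_apply]
    rw [this, hT]
  have hdvd : r * p ∣ i * p := by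
    rw [← hrank, ← FiniteField.orderOf_frobeniusAlgHom, orderOf_dvd_iff_pow_eq_one, pow_mul, hi3, hTAp]
  have hdvd2 : r ∣ i := Nat.dvd_of_mul_dvd_mul_right hp.pos hdvd
  obtain ⟨j, rfl⟩ := hdvd2
  have hbL : b ∈ L := by
    rw [hmem]
    have : ∀ m : ℕ, b ^ (p ^ (r * m)) = b := by
      intro m
      induction m with
      | zero => simp
      | succ m ih => rw [Nat.mul_succ, pow_add, pow_mul, ih, hb]
    exact this p
  have hbj : ∀ m : ℕ, b ^ (p ^ (r * m)) = b := by
    intro m
    induction m with
    | zero => simp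
    | succ m ih => rw [Nat.mul_succ, pow_add, pow_mul, ih, hb]
  have h1 : T b = ((TA ⟨b, hbL⟩ : L) : k) := (hTA ⟨b, hbL⟩).symm
  rw [h1, ← hi3, AlgHom.coe_pow, FiniteField.coe_frobeniusAlgHom, pow_iterate, ZMod.card]
  change ((⟨b, hbL⟩ : L) ^ (p ^ (r * j)) : L).1 = b
  rw [SubmonoidClass.coe_pow]
  exact hbj j

end AutPAux

open AutPAux in
theorem tAutP : S_AutP.{u} := by
  intro F _ _ p _ _ T hadd hmul hTp
  have hk : IsAlgClosed (acl (∅ : Set F)) := isAlgClosed_acl _
  have hcp : CharP (acl (∅ : Set F)) p :=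
    (acl (∅ : Set F)).subtype.charP (acl (∅ : Set F)).subtype.injective p
  have h0 : T 0 = 0 := by
    have := hadd 0 0
    rw [add_zero] at this
    exact left_eq_add.mp this
  have h1 : T 1 = 1 := by
    have h2 := hmul 1 1
    rw [mul_one] at h2
    have h3 : T 1 ≠ 0 := fun h => one_ne_zero (T.injective (h.trans h0.symm))
    exact (mul_eq_left₀ h3).mp h2.symm
  let TR : acl (∅ : Set F) →+* acl (∅ : Set F) :=
    { toFun := T, map_one' := h1, map_mul' := hmul, map_zero' := h0, map_add' := hadd }
  ext b
  obtain ⟨r, hr, hbr⟩ := exists_pow p b.2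
  have hb : b ^ (p ^ r) = b := Subtype.ext hbr
  have hit : ∀ x, TR^[p] x = x := by
    intro x
    have h4 : T^[p] x = x := by
      rw [← Equiv.Perm.coe_pow, hTp]
      rfl
    exact h4
  have := fixed p TR hit hr hb
  exact congrArg _ this

end Pool.Agent.MPa267.M
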