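import Pool.Agent.Lib.MP_a267a3_lc.M.Spec
import Pool.Agent.Lib.MP_a267a3_lc.PG.Base

/-!
# MP_a267a3_lc, M/Bas: basic facts on blocks
-/

set_option autoImplicit false

namespace Pool.Agent.MPa267.M

open OnePoint Pool.Agent.MPa267.D1

namespace BasAux

universe u

theorem toBl {F : Type u} [Field F] {H : Subgroup (Equiv.Perm (OnePoint F))} {n : ℕ}
    (s : St H n) : PG.Bl H n := ⟨s.hG, s.n5, s.mt, s.blk⟩

/-- an injective map on a finite subset of an infinite set into it extends to a larger finite subset -/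
theorem extend {X : Type u} [DecidableEq X] {D : Set X} (hD : D.Infinite) (A : Finset X) (f : X → X)
    (n : ℕ) (hA : A.card ≤ n) (hAD : (A : Set X) ⊆ D) (hf : Set.InjOn f (A : Set X))
    (hfD : ∀ a ∈ A, f a ∈ D) :
    ∃ (B : Finset X) (g : X → X), A ⊆ B ∧ B.card = n ∧ (B : Set X) ⊆ D ∧
      Set.InjOn g (B : Set X) ∧ (∀ b ∈ B, g b ∈ D) ∧ ∀ a ∈ A, g a = f a := by
  classical
  obtain ⟨C, hC, hCc⟩ := (hD.sdiff A.finite_toSet).exists_subset_card_eq (n - A.card)
  obtain ⟨C', hC', hCc'⟩ := (hD.sdiff (A.image f).finite_toSet).exists_subset_card_eq (n - A.card)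
  let e : C ≃ C' := Finset.equivOfCardEq (by rw [hCc, hCc'])
  let g : X → X := fun x => if h : x ∈ C then (e ⟨x, h⟩ : X) else f x
  have hdis : ∀ a ∈ A, a ∉ C := fun a ha h => (hC h).2 (Finset.mem_coe.2 ha)
  have gA : ∀ a ∈ A, g a = f a := fun a ha => dif_neg (hdis a ha)
  have gC : ∀ a (h : a ∈ C), g a = (e ⟨a, h⟩ : X) := fun a h => dif_pos h
  refine ⟨A ∪ C, g, Finset.subset_union_left, ?_, ?_, ?_, ?_, gA⟩
  · rw [Finset.card_union_of_disjoint, hCc]
    · omega
    · rw [Finset.disjoint_left]; exact hdis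
  · intro x hx
    rcases Finset.mem_union.1 (Finset.mem_coe.1 hx) with h | h
    · exact hAD h
    · exact (hC h).1
  · intro x hx y hy hxy
    rcases Finset.mem_union.1 (Finset.mem_coe.1 hx) with h | h <;>
      rcases Finset.mem_union.1 (Finset.mem_coe.1 hy) with h' | h'
    · rw [gA x h, gA y h'] at hxy
      exact hf h h' hxy
    · rw [gA x h, gC y h'] at hxy
      exfalso
      refine (hC' (e ⟨y, h'⟩).2).2 ?_
      rw [← hxy]
      exact Finset.mem_coe.2 (Finset.mem_image_of_mem _ h)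
    · rw [gC x h, gA y h'] at hxy
      exfalso
      refine (hC' (e ⟨x, h⟩).2).2 ?_
      rw [hxy]
      exact Finset.mem_coe.2 (Finset.mem_image_of_mem _ h')
    · rw [gC x h, gC y h'] at hxy
      have := e.injective (Subtype.ext hxy)
      exact congrArg Subtype.val this
  · intro b hb
    rcases Finset.mem_union.1 hb with h | h
    · rw [gA b h]; exact hfD b h
    · rw [gC b h]; exact (hC' (e ⟨b, h⟩).2).1

end BasAux

open BasAux

theorem tBas.{u} : S_Bas.{u} := by
  intro F _ _ H n s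
  classical
  have b : PG.Bl H n := toBl s
  have h2 : ∀ τ ∈ H, ∀ R R' : Set (OnePoint F), Blk H R → Blk H R' → ∀ A : Finset (OnePoint F),
      n ≤ A.card → (∀ a ∈ A, a ∈ R ∧ τ a ∈ R') → (τ : OnePoint F → OnePoint F) '' R = R' := by
    intro τ hτ R R' hR hR' A hA hAR
    refine b.eq_of_card (PG.IsBlk.image hR hτ) hR' (A.image τ) ?_ ?_ ?_
    · rwa [Finset.card_image_of_injective _ τ.injective]
    · intro x hx
      obtain ⟨a, ha, rfl⟩ := Finset.mem_image.1 (Finset.mem_coe.1 hx)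
      exact ⟨a, (hAR a ha).1, rfl⟩
    · intro x hx
      obtain ⟨a, ha, rfl⟩ := Finset.mem_image.1 (Finset.mem_coe.1 hx)
      exact (hAR a ha).2
  refine ⟨?_, h2, ?_, ?_, ?_, ?_, PG.isBlk_DD⟩
  · intro R R' hR hR' A hA h1 h2
    exact b.eq_of_card hR hR' A hA h1 h2
  · intro p q hq
    exact PG.isBlk_Ln s.hG p hq
  · intro A f hA hAD hf hfD
    obtain ⟨B, g, hAB, hBc, hBD, hg, hgD, hgf⟩ := extend PG.DD_infinite A f n hA hAD hf hfD
    obtain ⟨h, hh, hfix⟩ := s.mt B g hBc.le hg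
    refine ⟨h, hh, ?_, fun a ha => by rw [hfix a (hAB ha), hgf a ha]⟩
    refine h2 h hh _ _ PG.isBlk_DD PG.isBlk_DD B hBc.ge ?_
    intro a ha
    refine ⟨hBD ha, ?_⟩
    rw [hfix a ha]
    exact hgD a ha
  · intro R hR
    exact PG.IsBlk.infinite hR
  · intro R hR h hh
    exact PG.IsBlk.image hR hh

end Pool.Agent.MPa267.M
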