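import Pool.Agent.Lib.MP_a267a3_lc.M.Spec

/-!
# MP_a267a3_lc, M/Base0 (helper13): the points of small degree over the rational numbers
-/

set_option autoImplicit false

namespace Pool.Agent.MPa267.M

open OnePoint Pool.Agent.MPa267.D1

universe u

namespace Base0Aux

variable {F : Type u} [Field F]

/-- elements outside `k` are transcendental over `k` -/
theorem trans_k [IsAlgClosed F] {v : F} (hv : v ∉ acl (∅ : Set F)) :
    Transcendental (acl (∅ : Set F)) v := by
  haveI := isAlgClosed_acl (∅ : Set F)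
  intro hal
  apply hv
  have hint : IsIntegral (acl (∅ : Set F)) v := hal.isIntegral
  have h1 := IsAlgClosed.degree_eq_one_of_irreducible (acl (∅ : Set F)) (minpoly.irreducible hint)
  obtain ⟨a, ha⟩ := minpoly.mem_range_of_degree_eq_one (acl (∅ : Set F)) v h1
  rw [← ha]
  exact a.2

/-- the powers of `v`, divided by a constant, are linearly independent over `k` -/
theorem linInd [IsAlgClosed F] {v : F} (hv : v ∉ acl (∅ : Set F)) (d : ℕ) {c : F} (hc : c ≠ 0) :
    LinearIndependent (acl (∅ : Set F)) (fun i : Fin d => v ^ (i : ℕ) / c) := by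
  classical
  rw [Fintype.linearIndependent_iff]
  intro g hg i
  set p : Polynomial (acl (∅ : Set F)) :=
    ∑ j : Fin d, Polynomial.C (g j) * Polynomial.X ^ (j : ℕ) with hp
  have h1 : Polynomial.aeval v p = 0 := by
    have h2 : Polynomial.aeval v p = c * ∑ j : Fin d, g j • (v ^ (j : ℕ) / c) := by
      rw [hp, map_sum, Finset.mul_sum]
      refine Finset.sum_congr rfl fun j _ => ?_
      rw [map_mul, Polynomial.aeval_C, map_pow, Polynomial.aeval_X, Algebra.smul_def]
      field_simp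
    rw [h2, hg, mul_zero]
  have h3 : p = 0 := by
    by_contra h
    exact trans_k hv ⟨p, h, h1⟩
  have h4 : p.coeff (i : ℕ) = g i := by
    rw [hp, Polynomial.finsetSum_coeff, Finset.sum_eq_single i]
    · rw [Polynomial.coeff_C_mul_X_pow, if_pos rfl]
    · intro j _ hj
      rw [Polynomial.coeff_C_mul_X_pow, if_neg]
      intro h
      exact hj (Fin.ext h.symm)
    · intro h
      exact absurd (Finset.mem_univ i) h
  rw [← h4, h3, Polynomial.coeff_zero]

/-- the value of the polynomial with coefficients `a` -/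
def ev (v : F) {d : ℕ} (a : Fin d → F) : F := ∑ i, a i * v ^ (i : ℕ)

theorem sum_div (v : F) {d : ℕ} (a : Fin d → F) (c : F) :
    ∑ i, a i * (v ^ (i : ℕ) / c) = ev v a / c := by
  rw [ev, Finset.sum_div]
  refine Finset.sum_congr rfl fun i _ => ?_
  rw [mul_div_assoc]

/-- values of polynomials over the prime field -/
theorem aeval_eq [CharZero F] (v : F) (n : ℕ) (hn : 5 ≤ n) (P : Polynomial (⊥ : Subfield F))
    (hP : P.natDegree ≤ n - 2) :
    ∃ a : Fin (n - 1) → ℚ, Polynomial.aeval v P = ev v (fun i => (a i : F)) := by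
  have h0 : ∀ x ∈ (⊥ : Subfield F), ∃ q : ℚ, (q : F) = x := by
    intro x hx
    rw [Subfield.bot_eq_of_charZero] at hx
    obtain ⟨q, hq⟩ := hx
    exact ⟨q, by rw [← hq, eq_ratCast]⟩
  have h1 : ∀ i : ℕ, ∃ q : ℚ, (q : F) = (P.coeff i : F) := fun i => h0 _ (P.coeff i).2
  choose q hq using h1
  refine ⟨fun i => q i, ?_⟩
  rw [Polynomial.aeval_eq_sum_range' (n := n - 1) (by omega), ev,
    ← Fin.sum_univ_eq_sum_range (fun i => P.coeff i • v ^ i) (n - 1)]
  refine Finset.sum_congr rfl fun i _ => ?_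
  rw [hq, Algebra.smul_def]
  rfl

end Base0Aux

open Base0Aux

theorem tBase0 (_hEK : S_EK.{u}) (hBB : S_BoxB.{u}) : S_Base0.{u} := by
  classical
  intro F _ _ _ H n hSt v hv
  have hn := hSt.n5
  set d : ℕ := n - 1 with hd
  have hd2 : 2 ≤ d := by omega
  let T := Fin d → Fin (2 * (n - 1) + 1)
  let nv : T → (Fin d → F) := fun p i => ((p i : ℕ) : F)
  refine ⟨insert ∞ (insert ((0 : F) : OnePoint F) (Finset.univ.image
    (fun p : T × T => ((ev v (nv p.1) / ev v (nv p.2) : F) : OnePoint F)))), ?_⟩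
  intro τ hτ hfix
  have f1 : τ ∞ = ∞ := hfix ∞ (by simp)
  have f0 : τ ((0 : F) : OnePoint F) = ((0 : F) : OnePoint F) := hfix _ (by simp)
  have fb : ∀ a b : Fin d → ℕ, (∀ i, a i ≤ 2 * (n - 1)) → (∀ i, b i ≤ 2 * (n - 1)) →
      τ ((ev v (fun i => (a i : F)) / ev v (fun i => (b i : F)) : F) : OnePoint F) =
        ((ev v (fun i => (a i : F)) / ev v (fun i => (b i : F)) : F) : OnePoint F) := by
    intro a b ha hb
    refine hfix _ ?_
    rw [Finset.coe_insert, Finset.coe_insert, Finset.coe_image]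
    refine Or.inr (Or.inr ?_)
    refine ⟨((fun i => ⟨a i, by have := ha i; omega⟩ : T), (fun i => ⟨b i, by have := hb i; omega⟩ : T)),
      by simp, rfl⟩
  -- step 1
  have s1 : ∀ b : Fin d → ℕ, (∀ i, b i ≤ 2 * (n - 1)) → ev v (fun i => (b i : F)) ≠ 0 →
      ∀ a : Fin d → ℚ, τ ((ev v (fun i => (a i : F)) / ev v (fun i => (b i : F)) : F) : OnePoint F) =
        ((ev v (fun i => (a i : F)) / ev v (fun i => (b i : F)) : F) : OnePoint F) := by
    intro b hb hb0 a
    have h := hBB F H n hSt d (fun i => v ^ (i : ℕ) / ev v (fun i => (b i : F))) hd2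
      (linInd hv d hb0) τ hτ f1 (fun a' ha' => by
        rw [sum_div v (fun i => (a' i : F))]
        exact fb a' b ha' hb) a
    rw [sum_div v (fun i => (a i : F))] at h
    exact h
  -- step 2
  have s2 : ∀ a : Fin d → ℚ, ev v (fun i => (a i : F)) ≠ 0 → ∀ b : Fin d → ℚ,
      ev v (fun i => (b i : F)) ≠ 0 →
      τ ((ev v (fun i => (a i : F)) / ev v (fun i => (b i : F)) : F) : OnePoint F) =
        ((ev v (fun i => (a i : F)) / ev v (fun i => (b i : F)) : F) : OnePoint F) := by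
    intro a ha0 b hb0
    set J : Equiv.Perm (OnePoint F) := invP with hJ
    have hJH : J ∈ H := hSt.hG invP_mem_GG
    have hτ' : J * τ * J⁻¹ ∈ H := H.mul_mem (H.mul_mem hJH hτ) (H.inv_mem hJH)
    have j1 : J⁻¹ ∞ = ((0 : F) : OnePoint F) := by
      rw [Equiv.Perm.inv_eq_iff_eq, hJ, invP_zero]
    have j2 : J⁻¹ ((0 : F) : OnePoint F) = ∞ := by
      rw [Equiv.Perm.inv_eq_iff_eq, hJ, invP_infty]
    have j3 : ∀ x y : F, x ≠ 0 → y ≠ 0 →
        J⁻¹ ((x / y : F) : OnePoint F) = ((y / x : F) : OnePoint F) := by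
      intro x y hx hy
      rw [Equiv.Perm.inv_eq_iff_eq, hJ, invP_coe (div_ne_zero hy hx)]
      congr 1
      field_simp
    have g1 : (J * τ * J⁻¹) ∞ = ∞ := by
      rw [Equiv.Perm.mul_apply, Equiv.Perm.mul_apply, j1, f0, hJ, invP_zero]
    have h := hBB F H n hSt d (fun i => v ^ (i : ℕ) / ev v (fun i => (a i : F))) hd2
      (linInd hv d ha0) (J * τ * J⁻¹) hτ' g1 (fun b' hb' => by
        rw [sum_div v (fun i => (b' i : F))]
        by_cases hb'0 : ev v (fun i => (b' i : F)) = 0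
        · rw [hb'0, zero_div, Equiv.Perm.mul_apply, Equiv.Perm.mul_apply, j2, f1, hJ, invP_infty]
        · rw [Equiv.Perm.mul_apply, Equiv.Perm.mul_apply, j3 _ _ hb'0 ha0, s1 b' hb' hb'0 a,
            ← Equiv.Perm.eq_inv_iff_eq, j3 _ _ hb'0 ha0]) b
    rw [sum_div v (fun i => (b i : F)), Equiv.Perm.mul_apply, Equiv.Perm.mul_apply,
      ← Equiv.Perm.eq_inv_iff_eq, j3 _ _ hb0 ha0] at h
    exact h
  rintro x ⟨P, R, hP, hR, -, rfl⟩
  obtain ⟨a, ha⟩ := aeval_eq v n hn P hP
  obtain ⟨b, hb⟩ := aeval_eq v n hn R hR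
  rw [ha, hb]
  unfold pt
  by_cases hb0 : ev v (fun i => (b i : F)) = 0
  · rw [if_pos hb0]; exact f1
  · rw [if_neg hb0]
    by_cases ha0 : ev v (fun i => (a i : F)) = 0
    · rw [ha0, zero_div]; exact f0
    · exact s2 a ha0 b hb0

end Pool.Agent.MPa267.M
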