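import Pool.Agent.Lib.MP_a267a3_lc.M.Spec

/-!
# The box lemma in `ℚ^d`

A set of rational points which contains an integer box and is closed under the two-line rule contains all points.
-/

set_option autoImplicit false

namespace Pool.Agent.MPa267.M

open OnePoint

namespace BoxAAux

/-- An integer vector as a rational vector. -/
def cv {d : ℕ} (x : Fin d → ℤ) : Fin d → ℚ := fun i => (x i : ℚ)

/-- The two-line rule. -/
def Rule {d : ℕ} (n : ℕ) (S : Set (Fin d → ℚ)) : Prop :=
  ∀ v q q' : Fin d → ℚ, LinearIndependent ℚ ![q, q'] →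
    (∃ s : Finset ℚ, s.card = n - 1 ∧ ∀ c ∈ s, v + c • q ∈ S) →
    (∃ s : Finset ℚ, s.card = n - 1 ∧ ∀ c ∈ s, v + c • q' ∈ S) → v ∈ S

theorem pair_ind {d : ℕ} (q q' : Fin d → ℚ) (i j : Fin d) (h : q i * q' j - q j * q' i ≠ 0) :
    LinearIndependent ℚ ![q, q'] := by
  rw [LinearIndependent.pair_iff]
  intro s t hst
  have hi : s * q i + t * q' i = 0 := by
    have := congrFun hst i
    simpa using this
  have hj : s * q j + t * q' j = 0 := by
    have := congrFun hst j
    simpa using this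
  constructor
  · have : s * (q i * q' j - q j * q' i) = 0 := by linear_combination q' j * hi - q' i * hj
    exact (mul_eq_zero.1 this).resolve_right h
  · have : t * (q i * q' j - q j * q' i) = 0 := by linear_combination q i * hj - q j * hi
    exact (mul_eq_zero.1 this).resolve_right h

/-- The parameters: the values of an injective function on `1, ..., n - 1`. -/
theorem params (n : ℕ) (hn : 2 ≤ n) (f : ℤ → ℚ) (hf : Function.Injective f) (P : ℚ → Prop)
    (h : ∀ c : ℤ, 1 ≤ c → c ≤ (n : ℤ) - 1 → P (f c)) :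
    ∃ s : Finset ℚ, s.card = n - 1 ∧ ∀ c ∈ s, P c := by
  refine ⟨(Finset.Icc (1 : ℤ) ((n : ℤ) - 1)).image f, ?_, ?_⟩
  · rw [Finset.card_image_of_injective _ hf, Int.card_Icc]
    omega
  · intro c hc
    obtain ⟨a, ha, rfl⟩ := Finset.mem_image.1 hc
    rw [Finset.mem_Icc] at ha
    exact h a ha.1 ha.2

theorem rule_int {d n : ℕ} (hn : 2 ≤ n) {S : Set (Fin d → ℚ)} (hS : Rule n S)
    (v q q' : Fin d → ℤ) (i j : Fin d) (hdet : q i * q' j - q j * q' i ≠ 0)
    (h1 : ∀ c : ℤ, 1 ≤ c → c ≤ (n : ℤ) - 1 → cv (fun k => v k + c * q k) ∈ S)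
    (h2 : ∀ c : ℤ, 1 ≤ c → c ≤ (n : ℤ) - 1 → cv (fun k => v k + c * q' k) ∈ S) : cv v ∈ S := by
  have key : ∀ (u : Fin d → ℤ) (c : ℤ), cv v + ((c : ℤ) : ℚ) • cv u = cv (fun k => v k + c * u k) := by
    intro u c
    funext k
    simp [cv]
  refine hS (cv v) (cv q) (cv q') (pair_ind _ _ i j ?_) ?_ ?_
  · simp only [cv]
    exact_mod_cast hdet
  · refine params n hn (fun c : ℤ => (c : ℚ)) Int.cast_injective (fun c => cv v + c • cv q ∈ S) ?_
    intro c hc hc'
    show cv v + ((c : ℤ) : ℚ) • cv q ∈ S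
    rw [key]
    exact h1 c hc hc'
  · refine params n hn (fun c : ℤ => (c : ℚ)) Int.cast_injective (fun c => cv v + c • cv q' ∈ S) ?_
    intro c hc hc'
    show cv v + ((c : ℤ) : ℚ) • cv q' ∈ S
    rw [key]
    exact h2 c hc hc'

/-- The box with lower corner `b` is in `S`. -/
def Box {d : ℕ} (n : ℕ) (S : Set (Fin d → ℚ)) (b : Fin d → ℤ) : Prop :=
  ∀ x : Fin d → ℤ, (∀ i, b i ≤ x i ∧ x i ≤ b i + 2 * ((n : ℤ) - 1)) → cv x ∈ S

/-- Moving the box by `e = 1` or `e = -1` in the direction `i`. -/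
theorem box_step {d n : ℕ} (hd : 2 ≤ d) (hn : 2 ≤ n) {S : Set (Fin d → ℚ)} (hS : Rule n S)
    (b : Fin d → ℤ) (hb : Box n S b) (i : Fin d) (e : ℤ) (he : e = 1 ∨ e = -1) :
    Box n S (fun k => if k = i then b k + e else b k) := by
  intro x hx
  by_cases hin : b i ≤ x i ∧ x i ≤ b i + 2 * ((n : ℤ) - 1)
  · refine hb x fun k => ?_
    by_cases hk : k = i
    · rw [hk]; exact hin
    · have := hx k
      simpa [hk] using this
  -- another index
  obtain ⟨j, hj⟩ : ∃ j : Fin d, j ≠ i := by
    by_cases h0 : i = ⟨0, by omega⟩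
    · refine ⟨⟨1, by omega⟩, ?_⟩
      rw [h0]
      intro h
      exact absurd (congrArg Fin.val h) (by norm_num)
    · exact ⟨⟨0, by omega⟩, fun h => h0 h.symm⟩
  have hxi := hx i
  simp only [if_true] at hxi
  have hxk : ∀ k, k ≠ i → b k ≤ x k ∧ x k ≤ b k + 2 * ((n : ℤ) - 1) := by
    intro k hk
    have := hx k
    simpa [hk] using this
  have hxj := hxk j hj
  obtain ⟨δ, hδ, hδ'⟩ : ∃ δ : ℤ, (δ = 1 ∨ δ = -1) ∧ ∀ c : ℤ, 1 ≤ c → c ≤ (n : ℤ) - 1 →
      b j ≤ x j + c * δ ∧ x j + c * δ ≤ b j + 2 * ((n : ℤ) - 1) := by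
    by_cases hc : (n : ℤ) - 1 ≤ x j - b j
    · refine ⟨-1, Or.inr rfl, fun c h1 h2 => ?_⟩
      constructor <;> omega
    · refine ⟨1, Or.inl rfl, fun c h1 h2 => ?_⟩
      constructor <;> omega
  have hei : ∀ c : ℤ, 1 ≤ c → c ≤ (n : ℤ) - 1 →
      b i ≤ x i + c * -e ∧ x i + c * -e ≤ b i + 2 * ((n : ℤ) - 1) := by
    intro c h1 h2
    rcases he with rfl | rfl
    · constructor <;> omega
    · constructor <;> omega
  refine rule_int hn hS x (fun k => if k = i then -e else 0)
    (fun k => if k = i then -e else if k = j then δ else 0) i j ?_ ?_ ?_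
  · simp only [if_true, hj, if_false]
    rcases he with rfl | rfl <;> rcases hδ with rfl | rfl <;> norm_num
  · intro c h1 h2
    refine hb _ fun k => ?_
    by_cases hk : k = i
    · subst hk
      simpa using hei c h1 h2
    · simpa [hk] using hxk k hk
  · intro c h1 h2
    refine hb _ fun k => ?_
    by_cases hk : k = i
    · subst hk
      simpa using hei c h1 h2
    · by_cases hk' : k = j
      · subst hk'
        simpa [hk] using hδ' c h1 h2
      · simpa [hk, hk'] using hxk k hk

/-- Moving the box by an arbitrary amount in one direction. -/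
theorem box_move {d n : ℕ} (hd : 2 ≤ d) (hn : 2 ≤ n) {S : Set (Fin d → ℚ)} (hS : Rule n S)
    (b : Fin d → ℤ) (hb : Box n S b) (i : Fin d) (c : ℤ) :
    Box n S (fun k => if k = i then b k + c else b k) := by
  induction c using Int.induction_on with
  | zero => simpa using hb
  | succ m ih =>
    have := box_step hd hn hS _ ih i 1 (Or.inl rfl)
    have e : (fun k => if k = i then (if k = i then b k + (m : ℤ) else b k) + 1
        else (if k = i then b k + (m : ℤ) else b k)) =
        fun k => if k = i then b k + ((m : ℤ) + 1) else b k := by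
      funext k
      by_cases hk : k = i
      · simp [hk]; ring
      · simp [hk]
    rw [e] at this
    exact this
  | pred m ih =>
    have := box_step hd hn hS _ ih i (-1) (Or.inr rfl)
    have e : (fun k => if k = i then (if k = i then b k + (-(m : ℤ)) else b k) + -1
        else (if k = i then b k + (-(m : ℤ)) else b k)) =
        fun k => if k = i then b k + (-(m : ℤ) - 1) else b k := by
      funext k
      by_cases hk : k = i
      · simp [hk]; ring
      · simp [hk]
    rw [e] at this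
    exact this

theorem box_all {d n : ℕ} (hd : 2 ≤ d) (hn : 2 ≤ n) {S : Set (Fin d → ℚ)} (hS : Rule n S)
    (h0 : Box n S 0) (b : Fin d → ℤ) (s : Finset (Fin d)) :
    Box n S (fun k => if k ∈ s then b k else 0) := by
  induction s using Finset.induction_on with
  | empty =>
    have e : (fun k => if k ∈ (∅ : Finset (Fin d)) then b k else 0) = 0 := by
      funext k
      simp
    rw [e]
    exact h0
  | insert i s hi ih =>
    have := box_move hd hn hS _ ih i (b i)
    have e : (fun k => if k = i then (if k ∈ s then b k else 0) + b i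
        else (if k ∈ s then b k else 0)) = fun k => if k ∈ insert i s then b k else 0 := by
      funext k
      by_cases hk : k = i
      · subst hk; simp [hi]
      · simp [hk]
    rw [e] at this
    exact this

theorem int_mem {d n : ℕ} (hd : 2 ≤ d) (hn : 2 ≤ n) {S : Set (Fin d → ℚ)} (hS : Rule n S)
    (h0 : Box n S 0) (x : Fin d → ℤ) : cv x ∈ S := by
  have := box_all hd hn hS h0 x Finset.univ
  refine this x fun i => ?_
  simp only [Finset.mem_univ, if_true]
  constructor
  · exact le_refl _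
  · omega

/-- A common denominator. -/
theorem denom {d : ℕ} (v : Fin d → ℚ) : ∃ (N : ℤ) (z : Fin d → ℤ), 1 ≤ N ∧ ∀ i, (N : ℚ) * v i = z i := by
  have hpos : ∀ i, 0 < (v i).den := fun i => (v i).den_pos
  have hN : 0 < ∏ i, (v i).den := Finset.prod_pos fun i _ => hpos i
  have hz : ∀ i, ∃ z : ℤ, (((∏ i, (v i).den : ℕ) : ℤ) : ℚ) * v i = z := by
    intro i
    obtain ⟨k, hk⟩ := Finset.dvd_prod_of_mem (fun i => (v i).den) (Finset.mem_univ i)
    refine ⟨(v i).num * k, ?_⟩
    have hk' : ∏ i, (v i).den = (v i).den * k := hk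
    rw [hk']
    push_cast
    have := Rat.mul_den_eq_num (v i)
    linear_combination (k : ℚ) * this
  choose z hz using hz
  exact ⟨((∏ i, (v i).den : ℕ) : ℤ), z, by exact_mod_cast hN, hz⟩

/-- The line through a rational point and an integer point has many integer points. -/
theorem line_pts {d n : ℕ} (hn : 2 ≤ n) {S : Set (Fin d → ℚ)} (hI : ∀ x : Fin d → ℤ, cv x ∈ S)
    (v : Fin d → ℚ) (p : Fin d → ℤ) :
    ∃ s : Finset ℚ, s.card = n - 1 ∧ ∀ c ∈ s, v + c • (cv p - v) ∈ S := by
  obtain ⟨N, z, hN, hz⟩ := denom v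
  refine params n hn (fun c : ℤ => 1 + (c : ℚ) * N) ?_ (fun c => v + c • (cv p - v) ∈ S) ?_
  · intro a b hab
    have hN' : (N : ℚ) ≠ 0 := by
      have : N ≠ 0 := by omega
      exact_mod_cast this
    have h1 : (a : ℚ) * N = (b : ℚ) * N := by simpa using hab
    exact_mod_cast mul_right_cancel₀ hN' h1
  · intro c _ _
    have e : v + (1 + (c : ℚ) * N) • (cv p - v) = cv (fun k => p k + c * (N * p k - z k)) := by
      funext k
      simp only [Pi.add_apply, Pi.smul_apply, Pi.sub_apply, smul_eq_mul, cv]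
      push_cast
      linear_combination (-(c : ℚ)) * hz k
    show v + (1 + (c : ℚ) * N) • (cv p - v) ∈ S
    rw [e]
    exact hI _

end BoxAAux

open BoxAAux in
theorem tBoxA : S_BoxA := by
  intro d n hd hn S hS hbox
  have hR : Rule n S := hS
  have h0 : Box n S 0 := by
    intro x hx
    have h1 : ∀ i, 0 ≤ x i := fun i => (hx i).1
    have h2 : ∀ i, x i ≤ 2 * ((n : ℤ) - 1) := fun i => by
      have := (hx i).2
      simpa using this
    have := hbox (fun i => (x i).toNat) (fun i => by have := h1 i; have := h2 i; omega)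
    have e : (fun i => (((x i).toNat : ℕ) : ℚ)) = cv x := by
      funext i
      have h3 : (((x i).toNat : ℕ) : ℤ) = x i := Int.toNat_of_nonneg (h1 i)
      simp only [cv]
      exact_mod_cast h3
    rw [e] at this
    exact this
  have hI := int_mem hd hn hR h0
  refine Set.eq_univ_of_forall fun v => ?_
  let i0 : Fin d := ⟨0, by omega⟩
  let i1 : Fin d := ⟨1, by omega⟩
  have h01 : i1 ≠ i0 := by
    intro h
    exact absurd (congrArg Fin.val h) (by norm_num [i0, i1])
  let p : Fin d → ℤ := fun k => ⌊v k⌋ + 1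
  let p' : Fin d → ℤ := fun k => if k = i0 then ⌊v k⌋ + 2 else ⌊v k⌋ + 1
  have hpos : ∀ k, (0 : ℚ) < (⌊v k⌋ : ℚ) + 1 - v k := by
    intro k
    have := Int.lt_floor_add_one (v k)
    linarith
  refine hR v (cv p - v) (cv p' - v) (pair_ind _ _ i0 i1 ?_) (line_pts hn hI v p) (line_pts hn hI v p')
  have a0 : (cv p - v) i0 = (⌊v i0⌋ : ℚ) + 1 - v i0 := by simp [cv, p]
  have a1 : (cv p - v) i1 = (⌊v i1⌋ : ℚ) + 1 - v i1 := by simp [cv, p]
  have b0 : (cv p' - v) i0 = (⌊v i0⌋ : ℚ) + 2 - v i0 := by simp [cv, p']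
  have b1 : (cv p' - v) i1 = (⌊v i1⌋ : ℚ) + 1 - v i1 := by simp [cv, p', h01]
  rw [a0, a1, b0, b1]
  have h1 := hpos i1
  intro h
  nlinarith

end Pool.Agent.MPa267.M
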