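import Pool.Agent.Lib.MP_a267a3_lc.M.Spec

/-!
# MP_a267a3_lc, `M/Spec.lean`, statement `S_BoxB`: rational combinations
-/

set_option autoImplicit false

namespace Pool.Agent.MPa267.M

open OnePoint

universe u

namespace BoxBAux

/-- the linear combination with rational coefficients -/
def Phi {F : Type u} [Field F] {d : ℕ} (w : Fin d → F) (a : Fin d → ℚ) : F :=
  ∑ i, (a i : F) * w i

lemma Phi_add {F : Type u} [Field F] [CharZero F] {d : ℕ} (w : Fin d → F) (v q : Fin d → ℚ)
    (c : ℚ) : Phi w (v + c • q) = Phi w v + (c : F) * Phi w q := by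
  unfold Phi
  rw [Finset.mul_sum, ← Finset.sum_add_distrib]
  refine Finset.sum_congr rfl (fun i _ => ?_)
  rw [Pi.add_apply, Pi.smul_apply, smul_eq_mul]
  push_cast
  ring

lemma rat_mem {F : Type u} [Field F] (K : Subfield F) (c : ℚ) : (c : F) ∈ K :=
  SubfieldClass.ratCast_mem K c

/-- a nonzero minor -/
lemma minor {d : ℕ} (q q' : Fin d → ℚ) (h : LinearIndependent ℚ ![q, q']) :
    ∃ i j, q i * q' j ≠ q j * q' i := by
  by_contra hcon
  push Not at hcon
  rw [LinearIndependent.pair_iff] at h
  have hq : q ≠ 0 := by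
    intro hq
    have := (h 1 0 (by rw [hq, smul_zero, zero_smul, add_zero])).1
    exact one_ne_zero this
  obtain ⟨i, hi⟩ := Function.ne_iff.mp hq
  have h2 := h (q' i) (-q i) (by
    funext j
    rw [Pi.add_apply, Pi.smul_apply, Pi.smul_apply, smul_eq_mul, smul_eq_mul, Pi.zero_apply]
    linear_combination -hcon i j)
  exact hi (neg_eq_zero.mp h2.2)

/-- independence over `k` -/
lemma indep {F : Type u} [Field F] [CharZero F] (K : Subfield F) {d : ℕ} (w : Fin d → F)
    (hw : LinearIndependent K w) (q q' : Fin d → ℚ) (h : LinearIndependent ℚ ![q, q'])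
    (α β : F) (hα : α ∈ K) (hβ : β ∈ K) (h0 : α * Phi w q + β * Phi w q' = 0) :
    α = 0 ∧ β = 0 := by
  obtain ⟨i, j, hij⟩ := minor q q' h
  rw [Fintype.linearIndependent_iff] at hw
  have h1 := hw (fun i => ⟨α * (q i : F) + β * (q' i : F),
    K.add_mem (K.mul_mem hα (rat_mem K _)) (K.mul_mem hβ (rat_mem K _))⟩) (by
      rw [← h0]
      unfold Phi
      rw [Finset.mul_sum, Finset.mul_sum, ← Finset.sum_add_distrib]
      refine Finset.sum_congr rfl (fun i _ => ?_)
      rw [Subfield.smul_def, smul_eq_mul]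
      ring)
  have h2 : ∀ i, α * (q i : F) + β * (q' i : F) = 0 := fun i => congrArg Subtype.val (h1 i)
  have hm : ((q i : F) * (q' j : F) - (q j : F) * (q' i : F)) ≠ 0 := by
    intro hh
    apply hij
    have : (((q i * q' j - q j * q' i : ℚ)) : F) = 0 := by
      push_cast
      exact hh
    exact sub_eq_zero.mp (Rat.cast_eq_zero.mp this)
  refine ⟨?_, ?_⟩
  · have : α * ((q i : F) * (q' j : F) - (q j : F) * (q' i : F)) = 0 := by
      linear_combination (q' j : F) * h2 i - (q' i : F) * h2 j
    exact (mul_eq_zero.mp this).resolve_right hm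
  · have : β * ((q i : F) * (q' j : F) - (q j : F) * (q' i : F)) = 0 := by
      linear_combination (q i : F) * h2 j - (q j : F) * h2 i
    exact (mul_eq_zero.mp this).resolve_right hm

/-- a line with `n` fixed points, one of them `∞` -/
lemma line {F : Type u} [Field F] [IsAlgClosed F] [CharZero F] (hBas : S_Bas.{u})
    (H : Subgroup (Equiv.Perm (OnePoint F))) (n : ℕ) (hSt : St H n)
    (τ : Equiv.Perm (OnePoint F)) (hτ : τ ∈ H) (hinf : τ ∞ = ∞) (p r : F) (hr : r ≠ 0)
    (s : Finset ℚ) (hs : s.card = n - 1)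
    (hfix : ∀ c ∈ s, τ ((p + (c : F) * r : F) : OnePoint F) = ((p + (c : F) * r : F) : OnePoint F)) :
    τ (p : OnePoint F) ∈ Ln p r := by
  classical
  obtain ⟨-, hB2, hB3, -⟩ := hBas F H n hSt
  have hblk := hB3 p r hr
  have hinj : Function.Injective (fun c : ℚ => ((p + (c : F) * r : F) : OnePoint F)) := by
    intro a b hab
    have h1 : p + (a : F) * r = p + (b : F) * r := OnePoint.coe_injective hab
    exact Rat.cast_injective (mul_right_cancel₀ hr (add_left_cancel h1))
  have hni : (∞ : OnePoint F) ∉ s.image (fun c : ℚ => ((p + (c : F) * r : F) : OnePoint F)) := by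
    intro hh
    obtain ⟨c, -, hc⟩ := Finset.mem_image.mp hh
    exact OnePoint.coe_ne_infty _ hc
  have hcard : n ≤ (insert (∞ : OnePoint F)
      (s.image (fun c : ℚ => ((p + (c : F) * r : F) : OnePoint F)))).card := by
    rw [Finset.card_insert_of_notMem hni, Finset.card_image_of_injective _ hinj, hs]
    have := hSt.n5
    omega
  have himg := hB2 τ hτ (Ln p r) (Ln p r) hblk hblk _ hcard (by
    intro a ha
    rw [Finset.mem_insert] at ha
    rcases ha with rfl | ha
    · rw [hinf]
      exact ⟨Or.inl rfl, Or.inl rfl⟩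
    · obtain ⟨c, hc, rfl⟩ := Finset.mem_image.mp ha
      have h1 : ((p + (c : F) * r : F) : OnePoint F) ∈ Ln p r :=
        Or.inr ⟨(c : F), rat_mem _ c, rfl⟩
      refine ⟨h1, ?_⟩
      show τ ((p + (c : F) * r : F) : OnePoint F) ∈ Ln p r
      rw [hfix c hc]
      exact h1)
  have hp : (p : OnePoint F) ∈ Ln p r := Or.inr ⟨0, (acl (∅ : Set F)).zero_mem, by
    rw [zero_mul, add_zero]⟩
  rw [← himg]
  exact ⟨_, hp, rfl⟩

end BoxBAux

open BoxBAux in
theorem tBoxB (hBas : S_Bas.{u}) (hBoxA : S_BoxA) : S_BoxB.{u} := by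
  intro F _ _ _ H n hSt d w hd hw τ hτ hinf hbox
  have key := hBoxA d n hd (by have := hSt.n5; omega)
    {a | τ ((Phi w a : F) : OnePoint F) = ((Phi w a : F) : OnePoint F)} (by
      rintro v q q' hqq ⟨s, hs, hsS⟩ ⟨s', hs', hsS'⟩
      have hr : Phi w q ≠ 0 := by
        intro h0
        have := (indep (acl (∅ : Set F)) w hw q q' hqq 1 0 (Subfield.one_mem _)
          (Subfield.zero_mem _) (by rw [h0, mul_zero, zero_mul, add_zero])).1
        exact one_ne_zero this
      have hr' : Phi w q' ≠ 0 := by
        intro h0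
        have := (indep (acl (∅ : Set F)) w hw q q' hqq 0 1 (Subfield.zero_mem _)
          (Subfield.one_mem _) (by rw [h0, mul_zero, zero_mul, add_zero])).2
        exact one_ne_zero this
      have h1 := line hBas H n hSt τ hτ hinf (Phi w v) (Phi w q) hr s hs (fun c hc => by
        have := hsS c hc
        rwa [Set.mem_ofPred_eq, Phi_add] at this)
      have h2 := line hBas H n hSt τ hτ hinf (Phi w v) (Phi w q') hr' s' hs' (fun c hc => by
        have := hsS' c hc
        rwa [Set.mem_ofPred_eq, Phi_add] at this)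
      show τ ((Phi w v : F) : OnePoint F) = ((Phi w v : F) : OnePoint F)
      have hne : τ ((Phi w v : F) : OnePoint F) ≠ ∞ := by
        intro hh
        rw [← hinf] at hh
        exact OnePoint.coe_ne_infty _ (τ.injective hh)
      rcases h1 with h1 | ⟨c, hc, h1⟩
      · exact absurd h1 hne
      rcases h2 with h2 | ⟨c', hc', h2⟩
      · exact absurd h2 hne
      have h3 : Phi w v + c * Phi w q = Phi w v + c' * Phi w q' :=
        OnePoint.coe_injective (h1.symm.trans h2)
      have h4 := (indep (acl (∅ : Set F)) w hw q q' hqq c (-c') hc (Subfield.neg_mem _ hc')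
        (by linear_combination h3)).1
      rw [h1, h4, zero_mul, add_zero])
    (by
      intro a ha
      show τ ((Phi w (fun i => (a i : ℚ)) : F) : OnePoint F) =
        ((Phi w (fun i => (a i : ℚ)) : F) : OnePoint F)
      have h1 : Phi w (fun i => (a i : ℚ)) = ∑ i, (a i : F) * w i := by
        unfold Phi
        refine Finset.sum_congr rfl (fun i _ => ?_)
        rw [Rat.cast_natCast]
      rw [h1]
      exact hbox a ha)
  intro a
  have h1 : a ∈ {a | τ ((Phi w a : F) : OnePoint F) = ((Phi w a : F) : OnePoint F)} := by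
    rw [key]
    exact Set.mem_univ a
  exact h1

end Pool.Agent.MPa267.M
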