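import Pool.Agent.Lib.MP_a267a3_lc.M.Spec
import Pool.Agent.Lib.MP_a267a3_lc.PG.III.Tame
import Pool.Agent.Lib.MP_a267a3_lc.PG.Base

/-!
# MP_a267a3_lc, M/Chain: every block is equivariantly isomorphic to `D`
-/

set_option autoImplicit false

namespace Pool.Agent.MPa267.M

open OnePoint Pool.Agent.MPa267.D1

theorem tChain.{u} (hBas : S_Bas.{u}) (hTame : S_Tame.{u}) : S_Chain.{u} := by
  intro F _ _ H n s
  classical
  obtain ⟨b1, b2, b3, b4, b5, b6, b7⟩ := hBas F H n s
  -- `D` itself
  obtain ⟨A₀, hA₀D, hA₀c⟩ := (b5 _ b7).exists_subset_card_eq n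
  have hDD : PG.Tame H (DD F) (DD F) := by
    refine PG.Tame.of_preserve A₀ ?_
    intro τ hτ hfix
    refine b2 τ hτ _ _ b7 b7 A₀ hA₀c.ge ?_
    intro a ha
    exact ⟨hA₀D ha, by rw [hfix a ha]; exact hA₀D ha⟩
  have key : ∀ h ∈ H, PG.Tame H (DD F) ((h : OnePoint F → OnePoint F) '' DD F) := by
    refine PG.tame_all ({h : Equiv.Perm (OnePoint F) | h ∈ H ∧
      (h : OnePoint F → OnePoint F) '' DD F = DD F} ∪ Set.range (fun b : F => addP b)) ?_ hDD s.gen
    rintro g (⟨hg, hgD⟩ | ⟨c, rfl⟩)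
    · refine ⟨hg, Or.inl ⟨H.inv_mem hg, ?_⟩, by rw [hgD]; exact hDD⟩
      conv_lhs => rw [← hgD]
      exact PG.image_inv_image g (DD F)
    · refine ⟨s.hG (addP_mem_GG c), Or.inr ⟨-c, ?_⟩, ?_⟩
      · show addP (-c) = (addP c)⁻¹
        rw [eq_inv_iff_mul_eq_one]
        ext x : 1
        induction x using OnePoint.rec with
        | infty => rfl
        | coe x =>
          rw [Equiv.Perm.mul_apply, addP_coe, addP_coe, neg_add_cancel_left]
          rfl
      · show PG.Tame H (DD F) ((addP c : OnePoint F → OnePoint F) '' DD F)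
        by_cases hc : c ∈ acl (∅ : Set F)
        · have : (addP c : OnePoint F → OnePoint F) '' DD F = DD F := by
            ext x
            constructor
            · rintro ⟨y, hy, rfl⟩
              rcases hy with rfl | ⟨a, ha, rfl⟩
              · rw [addP_infty]; exact infty_mem_PP _
              · rw [addP_coe]; exact (coe_mem_PP _ _).2 (add_mem hc ha)
            · rintro (rfl | ⟨a, ha, rfl⟩)
              · exact ⟨∞, infty_mem_PP _, addP_infty c⟩
              · refine ⟨((-c + a : F) : OnePoint F), (coe_mem_PP _ _).2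
                  (add_mem (neg_mem hc) ha), ?_⟩
                rw [addP_coe, add_neg_cancel_left]
          rw [this]; exact hDD
        · obtain ⟨A, hA⟩ := hTame F H n s c hc
          refine ⟨addP c, s.hG (addP_mem_GG c), rfl, A, ?_⟩
          intro τ hτ hfix
          exact hA τ hτ hfix
  rintro R ⟨h, hh, rfl⟩
  obtain ⟨β, hβ, hβR, A, hA⟩ := key h hh
  exact ⟨β, hβ, hβR, A, fun τ hτ hfix => hA τ hτ hfix⟩

end Pool.Agent.MPa267.M
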