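import Pool.Agent.Lib.MP_a267a3_lc.M.Spec
import Pool.Agent.Lib.MP_a267a3_lc.AlgD

/-!
# MP_a267a3_lc: characteristic zero, end of the proof
-/

set_option autoImplicit false

namespace Pool.Agent.MPa267.M

open OnePoint Pool.Agent.MPa267.D1

namespace Char0Aux

universe u

variable {F : Type u} [Field F]

theorem inv_app {X : Type u} (e : Equiv.Perm X) (x : X) : e⁻¹ (e x) = x := e.symm_apply_apply x

theorem app_inv {X : Type u} (e : Equiv.Perm X) (x : X) : e (e⁻¹ x) = x := e.apply_symm_apply x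

omit [Field F] in
theorem image_mem_iff {h : Equiv.Perm (OnePoint F)} {D : Set (OnePoint F)}
    (hD : (h : OnePoint F → OnePoint F) '' D = D) (x : OnePoint F) : h x ∈ D ↔ x ∈ D := by
  constructor
  · intro hx
    rw [← hD] at hx
    obtain ⟨y, hy, hyx⟩ := hx
    rwa [← h.injective hyx]
  · intro hx
    rw [← hD]
    exact ⟨x, hx, rfl⟩

theorem addP_one_mem_iff {K : Subfield F} (x : OnePoint F) : addP (1 : F) x ∈ PP K ↔ x ∈ PP K := by
  induction x using OnePoint.rec with
  | infty => simp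
  | coe x =>
    rw [addP_coe, coe_mem_PP, coe_mem_PP]
    exact ⟨fun h => by simpa using K.sub_mem h K.one_mem, fun h => K.add_mem K.one_mem h⟩

/-- A finite set of `n` points in an infinite set. -/
theorem exists_finset_sub {X : Type u} {S : Set X} (hS : S.Infinite) (n : ℕ) :
    ∃ A : Finset X, (A : Set X) ⊆ S ∧ A.card = n := hS.exists_subset_card_eq n

/-- The line through `d` in direction `t ∉ k` meets `k` in `d`. -/
theorem ln_inter {K : Subfield F} {d t : F} (hK : K = acl (∅ : Set F)) (hd : d ∈ K) (ht : t ∉ K)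
    {x : OnePoint F} (hx : x ∈ Ln d t) (hxK : x ∈ PP K) : x = ∞ ∨ x = (d : OnePoint F) := by
  rcases hx with rfl | ⟨c, hc, rfl⟩
  · exact Or.inl rfl
  · rw [coe_mem_PP] at hxK
    rw [← hK] at hc
    have h1 : c * t ∈ K := by simpa using K.sub_mem hxK hd
    by_cases hc0 : c = 0
    · right
      rw [hc0, zero_mul, add_zero]
    · exfalso
      apply ht
      have := K.mul_mem (K.inv_mem hc) h1
      rwa [← mul_assoc, inv_mul_cancel₀ hc0, one_mul] at this

end Char0Aux

open Char0Aux in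
/-- **Char0**. -/
theorem tChar0.{u} (hBas : S_Bas.{u}) (hCom : S_Com.{u}) : S_Char0.{u} := by
  intro F _ _ _ hTD ⟨t, ht⟩ H n hSt
  classical
  obtain ⟨-, b2, b3, b4, b5, -, -⟩ := hBas F H n hSt
  have hkcl : IsAlgClosed (acl (∅ : Set F)) := isAlgClosed_acl _
  set k : Subfield F := acl (∅ : Set F) with hk
  have ht0 : t ≠ 0 := fun h => ht (h ▸ k.zero_mem)
  -- the element `h`
  obtain ⟨h, hhH, hhD, hhA⟩ : ∃ h ∈ H, (h : OnePoint F → OnePoint F) '' DD F = DD F ∧
      ∀ a ∈ ({∞, ((0 : F) : OnePoint F), ((1 : F) : OnePoint F), ((2 : F) : OnePoint F)} :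
        Finset (OnePoint F)), h a = if a = ((2 : F) : OnePoint F) then ((3 : F) : OnePoint F) else a := by
    refine b4 _ (fun a => if a = ((2 : F) : OnePoint F) then ((3 : F) : OnePoint F) else a) ?_ ?_ ?_ ?_
    · exact (Finset.card_le_four).trans (by have := hSt.n5; omega)
    · intro a ha
      simp only [Finset.coe_insert, Finset.coe_singleton, Set.mem_insert_iff,
        Set.mem_singleton_iff] at ha
      rcases ha with rfl | rfl | rfl | rfl
      · exact infty_mem_PP _
      · exact (coe_mem_PP _ _).2 k.zero_mem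
      · exact (coe_mem_PP _ _).2 k.one_mem
      · exact (coe_mem_PP _ _).2 (ofNat_mem k 2)
    · have h3 : ∀ a ∈ (({∞, ((0 : F) : OnePoint F), ((1 : F) : OnePoint F), ((2 : F) : OnePoint F)} :
          Finset (OnePoint F)) : Set (OnePoint F)), a ≠ ((3 : F) : OnePoint F) := by
        intro a ha
        simp only [Finset.coe_insert, Finset.coe_singleton, Set.mem_insert_iff,
          Set.mem_singleton_iff] at ha
        rcases ha with rfl | rfl | rfl | rfl
        · exact (coe_ne_infty _).symm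
        · rw [Ne, coe_eq_coe]; norm_num
        · rw [Ne, coe_eq_coe]; norm_num
        · rw [Ne, coe_eq_coe]; norm_num
      intro a ha b hb hab
      dsimp only at hab
      split_ifs at hab with h1 h2 h2
      · rw [h1, h2]
      · exact absurd hab.symm (h3 b hb)
      · exact absurd hab (h3 a ha)
      · exact hab
    · intro a ha
      simp only [Finset.mem_insert, Finset.mem_singleton] at ha
      split_ifs
      · exact (coe_mem_PP _ _).2 (ofNat_mem k 3)
      · rcases ha with rfl | rfl | rfl | rfl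
        · exact infty_mem_PP _
        · exact (coe_mem_PP _ _).2 k.zero_mem
        · exact (coe_mem_PP _ _).2 k.one_mem
        · exact (coe_mem_PP _ _).2 (ofNat_mem k 2)
  have hinf : h ∞ = ∞ := by
    rw [hhA ∞ (by simp), if_neg (coe_ne_infty _).symm]
  have h0 : h ((0 : F) : OnePoint F) = ((0 : F) : OnePoint F) := by
    rw [hhA _ (by simp), if_neg]
    rw [coe_eq_coe]; norm_num
  have h1 : h ((1 : F) : OnePoint F) = ((1 : F) : OnePoint F) := by
    rw [hhA _ (by simp), if_neg]
    rw [coe_eq_coe]; norm_num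
  have h2 : h ((2 : F) : OnePoint F) = ((3 : F) : OnePoint F) := by
    rw [hhA _ (by simp), if_pos rfl]
  have haddH : addP (1 : F) ∈ H := hSt.hG (addP_mem_GG 1)
  set c : Equiv.Perm (OnePoint F) := h * addP 1 * h⁻¹ with hc
  have hcH : c ∈ H := H.mul_mem (H.mul_mem hhH haddH) (H.inv_mem hhH)
  have hch : ∀ x, c (h x) = h (addP 1 x) := by
    intro x
    rw [hc, Equiv.Perm.mul_apply, Equiv.Perm.mul_apply, inv_app]
  have hmem : ∀ x, h x ∈ DD F ↔ x ∈ DD F := image_mem_iff hhD
  have hmemc : ∀ x, c x ∈ DD F ↔ x ∈ DD F := by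
    intro x
    obtain ⟨y, rfl⟩ := h.surjective x
    rw [hch, hmem, hmem]
    exact addP_one_mem_iff y
  -- `c` commutes with the elements of `H` which fix `DD F` pointwise
  have hcomm : ∀ κ ∈ H, Fx κ (DD F) → ∀ x, κ (c x) = c (κ x) := by
    intro κ hκ hfix x
    obtain ⟨y, rfl⟩ := h.surjective x
    have hκ' : h⁻¹ * κ * h ∈ H := H.mul_mem (H.mul_mem (H.inv_mem hhH) hκ) hhH
    have hfix' : Fx (h⁻¹ * κ * h) (DD F) := by
      intro z hz
      rw [Equiv.Perm.mul_apply, Equiv.Perm.mul_apply, hfix _ ((hmem z).2 hz),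
        inv_app]
    have h3 := hCom F hTD H n hSt _ hκ' hfix' y
    rw [Equiv.Perm.mul_apply, Equiv.Perm.mul_apply, Equiv.Perm.mul_apply, Equiv.Perm.mul_apply] at h3
    have h4 : κ (h (addP 1 y)) = h (addP 1 (h⁻¹ (κ (h y)))) := by
      rw [← h3, app_inv]
    rw [hch, h4, ← hch, app_inv]
  have hautfix : ∀ φ : F ≃+* F, (∀ a ∈ k, φ a = a) → Fx (autP φ) (DD F) := by
    rintro φ hφ x (rfl | ⟨a, ha, rfl⟩)
    · rfl
    · rw [autP_coe, hφ a ha]
  have hautH : ∀ φ : F ≃+* F, autP φ ∈ H := fun φ => hSt.hG (autP_mem_GG φ)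
  -- `c t = z`
  obtain ⟨z, hz, hzk⟩ : ∃ z : F, c (t : OnePoint F) = (z : OnePoint F) ∧ z ∉ k := by
    have h3 : c (t : OnePoint F) ∉ DD F := fun h4 => ht ((coe_mem_PP _ _).1 ((hmemc _).1 h4))
    rcases hcz : c (t : OnePoint F) with _ | z
    · exact absurd (infty_mem_PP _) (by rw [hcz] at h3; exact h3)
    · refine ⟨z, rfl, fun h4 => h3 ?_⟩
      rw [hcz]
      exact (coe_mem_PP _ _).2 h4
  obtain ⟨g, i, j, hg, hgz⟩ := moebius_of_same_stabiliser 1 k ht hzk (by
    intro φ hφ
    have h3 := hcomm _ (hautH φ) (hautfix φ hφ) (t : OnePoint F)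
    rw [hz, autP_coe, autP_coe] at h3
    constructor
    · intro h4
      rw [h4, hz] at h3
      exact coe_eq_coe.1 h3
    · intro h4
      rw [h4, ← hz] at h3
      exact (coe_eq_coe.1 (c.injective h3)).symm)
  rw [one_pow, one_pow, pow_one, pow_one] at hgz
  have hout : ∀ x, x ∉ DD F → c x = mob g x := by
    intro x hx
    induction x using OnePoint.rec with
    | infty => exact absurd (infty_mem_PP _) hx
    | coe x =>
      have hxk : x ∉ k := fun h4 => hx ((coe_mem_PP _ _).2 h4)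
      obtain ⟨φ, hφ, rfl⟩ := exists_aut_of_not_mem k ht hxk
      have h3 := hcomm _ (hautH φ) (hautfix φ hφ) (t : OnePoint F)
      rw [autP_coe] at h3
      rw [← h3, hz, hgz, ← Equiv.Perm.mul_apply, autP_mob_comm hg hφ, Equiv.Perm.mul_apply, autP_coe]
  -- `ζ`
  set ζ : Equiv.Perm (OnePoint F) := (mob g)⁻¹ * c with hζ
  have hζH : ζ ∈ H := H.mul_mem (H.inv_mem (hSt.hG (mob_mem_GG g))) hcH
  have hζout : ∀ x, x ∉ DD F → ζ x = x := by
    intro x hx
    rw [hζ, Equiv.Perm.mul_apply, hout x hx, inv_app]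
  have hζmem : ∀ x, ζ x ∈ DD F ↔ x ∈ DD F := by
    intro x
    rw [← hmemc x, ← mob_mem_PP hg (ζ x), hζ, Equiv.Perm.mul_apply, app_inv]
  have hline : ∀ d ∈ k, ∀ x ∈ Ln d t, ζ x ∈ Ln d t := by
    intro d hd x hx
    have hinfset : {y : OnePoint F | y ∈ Ln d t ∧ y ∉ DD F}.Infinite := by
      have h3 : (Ln d t).Infinite := b5 _ (b3 d t ht0)
      have h4 : ({∞, (d : OnePoint F)} : Set (OnePoint F)).Finite := Set.toFinite _
      refine (h3.sdiff h4).mono ?_
      rintro y ⟨hy1, hy2⟩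
      refine ⟨hy1, fun hy3 => hy2 ?_⟩
      exact ln_inter hk hd ht hy1 hy3
    obtain ⟨A, hA, hAc⟩ := exists_finset_sub hinfset n
    have h5 := b2 ζ hζH _ _ (b3 d t ht0) (b3 d t ht0) A hAc.ge (by
      intro a ha
      have h6 := hA ha
      refine ⟨h6.1, ?_⟩
      rw [hζout a h6.2]
      exact h6.1)
    rw [← h5]
    exact ⟨x, hx, rfl⟩
  have hζinf : ζ ∞ = ∞ := by
    have h3 : ∀ d ∈ k, ζ ∞ = ∞ ∨ ζ ∞ = (d : OnePoint F) := fun d hd =>
      ln_inter hk hd ht (hline d hd ∞ (Or.inl rfl)) ((hζmem ∞).2 (infty_mem_PP _))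
    rcases h3 0 k.zero_mem with h4 | h4
    · exact h4
    · rcases h3 1 k.one_mem with h5 | h5
      · exact h5
      · rw [h4, coe_eq_coe] at h5
        exact absurd h5 zero_ne_one
  have hζd : ∀ d ∈ k, ζ (d : OnePoint F) = (d : OnePoint F) := by
    intro d hd
    rcases ln_inter hk hd ht (hline d hd (d : OnePoint F) (Or.inr ⟨0, k.zero_mem, by simp⟩))
      ((hζmem _).2 ((coe_mem_PP _ _).2 hd)) with h4 | h4
    · rw [← hζinf] at h4
      exact absurd (ζ.injective h4) (coe_ne_infty _)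
    · exact h4
  have hceq : ∀ x ∈ DD F, c x = mob g x := by
    intro x hx
    have h3 : ζ x = x := by
      rcases hx with rfl | ⟨a, ha, rfl⟩
      · exact hζinf
      · exact hζd a ha
    have h4 : mob g (ζ x) = c x := by
      rw [hζ, Equiv.Perm.mul_apply, app_inv]
    rw [← h4, h3]
  -- the values of `mob g`
  have v1 : mob g ∞ = ∞ := by
    rw [← hceq ∞ (infty_mem_PP _)]
    have h3 := hch ∞
    rwa [hinf, addP_infty, hinf] at h3
  have hg10 : g 1 0 = 0 := by
    by_contra h3
    rw [mob_infty, if_neg h3] at v1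
    exact coe_ne_infty _ v1
  have hdet : g 0 0 * g 1 1 ≠ 0 := by
    have h3 : g.1.det ≠ 0 := g.det.ne_zero
    rw [Matrix.det_fin_two] at h3
    have h4 : g.1 1 0 = 0 := hg10
    rw [h4, mul_zero, sub_zero] at h3
    exact h3
  have hg11 : g 1 1 ≠ 0 := right_ne_zero_of_mul hdet
  have hval : ∀ x ∈ k, c (x : OnePoint F) = (((g 0 0 * x + g 0 1) / g 1 1 : F) : OnePoint F) := by
    intro x hx
    rw [hceq _ ((coe_mem_PP _ _).2 hx), mob_coe, hg10, zero_mul, zero_add, if_neg hg11]
  have v2 : g 0 1 = g 1 1 := by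
    have h3 := hval 0 k.zero_mem
    have h4 := hch ((0 : F) : OnePoint F)
    rw [h0, addP_coe, add_zero, h1] at h4
    rw [h4, coe_eq_coe, mul_zero, zero_add, eq_div_iff hg11, one_mul] at h3
    exact h3.symm
  have v3 : g 0 0 = 2 * g 1 1 := by
    have h3 := hval 1 k.one_mem
    have h4 := hch ((1 : F) : OnePoint F)
    rw [h1, addP_coe, one_add_one_eq_two, h2] at h4
    rw [h4, coe_eq_coe, mul_one, eq_div_iff hg11, v2] at h3
    linear_combination -h3
  have v4 : c ((-1 : F) : OnePoint F) = ((-1 : F) : OnePoint F) := by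
    rw [hval (-1) (k.neg_mem k.one_mem), coe_eq_coe, v2, v3, div_eq_iff hg11]
    ring
  obtain ⟨y, hy⟩ := h.surjective ((-1 : F) : OnePoint F)
  rw [← hy, hch] at v4
  have v5 := h.injective v4
  induction y using OnePoint.rec with
  | infty =>
    rw [hinf] at hy
    exact coe_ne_infty _ hy.symm
  | coe y =>
    rw [addP_coe, coe_eq_coe] at v5
    have v6 : (1 : F) = 0 := by linear_combination v5
    exact one_ne_zero v6

end Pool.Agent.MPa267.M
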