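import Pool.Agent.Lib.MP_a267a3_lc.M.CharPA

/-!
# MP_a267a3_lc, M/CharP: characteristic `p`
-/

set_option autoImplicit false

namespace Pool.Agent.MPa267.M

open OnePoint Pool.Agent.MPa267.D1

namespace CharPAux

universe u

variable {F : Type u} [Field F]

/-- the points of `R` outside `D` -/
abbrev XX (R : Set (OnePoint F)) : Type u := {x : OnePoint F // x ∈ R ∧ x ∉ DD F}

/-- restrictions of automorphisms over `k` -/
def LL (R : Set (OnePoint F)) : Subgroup (Equiv.Perm (XX R)) where
  carrier := {l | ∃ α : F ≃+* F, (∀ a ∈ acl (∅ : Set F), α a = a) ∧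
    ∀ x : XX R, ((l x : XX R) : OnePoint F) = autP α (x : OnePoint F)}
  mul_mem' := by
    rintro l l' ⟨α, h1, h2⟩ ⟨α', h1', h2'⟩
    refine ⟨α'.trans α, ?_, ?_⟩
    · intro a ha
      rw [RingEquiv.trans_apply, h1' a ha, h1 a ha]
    · intro x
      rw [Equiv.Perm.mul_apply, h2, h2', autP_mul]
      rfl
  one_mem' := ⟨RingEquiv.refl F, fun _ _ => rfl, fun x => by rw [autP_refl]; rfl⟩
  inv_mem' := by
    rintro l ⟨α, h1, h2⟩
    refine ⟨α.symm, ?_, ?_⟩
    · intro a ha
      rw [RingEquiv.symm_apply_eq]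
      exact (h1 a ha).symm
    · intro x
      rw [autP_symm]
      have h3 := h2 (l⁻¹ x)
      rw [apply_inv_self'] at h3
      rw [h3, inv_apply_self']

/-- an element of `Aut(F/L)` moves `a` within a finite set if `a` is algebraic over `L` -/
theorem finite_conj {t : F} (h1 : acl ({t} : Set F) = ⊤) (a : F) :
    ∃ S : Set F, S.Finite ∧ ∀ α : F ≃+* F, α t = t → α a ∈ S := by
  classical
  have ha : a ∈ acl ({t} : Set F) := by rw [h1]; exact Subfield.mem_top a
  rw [mem_acl] at ha
  obtain ⟨P, hP, hPa⟩ := ha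
  refine ⟨(P.rootSet F), Polynomial.rootSet_finite _ _, ?_⟩
  intro α hα
  rw [Polynomial.mem_rootSet]
  refine ⟨hP, ?_⟩
  have hfix : ∀ c ∈ Subfield.closure ({t} : Set F), α c = c := by
    intro c hc
    have : Subfield.closure ({t} : Set F) ≤ RingHom.eqLocusField (α : F →+* F) (RingHom.id F) := by
      rw [Subfield.closure_le]
      rintro x (rfl : x = t)
      exact hα
    exact this hc
  rw [Polynomial.aeval_def, Polynomial.eval₂_eq_sum_range] at hPa ⊢
  have h2 := congrArg α hPa
  rw [map_zero, map_sum] at h2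
  rw [← h2]
  refine Finset.sum_congr rfl ?_
  intro i _
  rw [map_mul, map_pow]
  congr 1
  exact (hfix _ (P.coeff i).2).symm

end CharPAux

open CharPAux

theorem tCharP.{u} (hBas : S_Bas.{u}) (hChain : S_Chain.{u}) (hTwo : S_Two.{u}) (hFrob : S_Frob.{u})
    (hCnt : S_Cnt.{u}) : S_CharP.{u} := by
  intro F _ _ p _ _ hTD htr H n s
  classical
  obtain ⟨t, ht⟩ := htr
  obtain ⟨b1, b2, b3, b4, b5, b6, b7⟩ := hBas F H n s
  obtain ⟨w1, w2⟩ := hTwo F H n s
  have hn := s.n5
  -- `Q`, `R`
  obtain ⟨Q, hQD, hQc⟩ := (b5 _ b7).exists_subset_card_eq (n - 1)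
  have htD : (t : OnePoint F) ∉ DD F := fun h => ht ((coe_mem_PP _ _).1 h)
  obtain ⟨R, ⟨hR, htR⟩, _⟩ := w2 Q (t : OnePoint F) hQc hQD htD
  obtain ⟨r1, r2, _⟩ := w1 Q R hR
  obtain ⟨β, hβ, hβR, A, hA⟩ := hChain F H n s R hR.blk
  -- Frobenius
  obtain ⟨j, φ, hj, hφk, hφB, hφfin⟩ := hFrob F p hTD ⟨t, ht⟩ (fc (A ∪ insert (t : OnePoint F) Q))
  have hφfix : ∀ x ∈ A ∪ insert (t : OnePoint F) Q, autP φ x = x :=
    fun x hx => autP_fix_of_fc hφB hx
  have hv : autP φ ∈ H := s.hG (autP_mem_GG φ)
  have htQ : (t : OnePoint F) ∉ Q := fun h => htD (hQD h)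
  have hvR : (autP φ : OnePoint F → OnePoint F) '' R = R := by
    refine b2 (autP φ) hv R R hR.blk hR.blk (insert (t : OnePoint F) Q) ?_ ?_
    · rw [Finset.card_insert_of_notMem htQ, hQc]; omega
    · intro a ha
      have ha' : a ∈ R := by
        rcases Finset.mem_insert.1 ha with rfl | ha
        · exact htR
        · exact hR.subR (Finset.mem_coe.2 ha)
      exact ⟨ha', by rw [hφfix a (Finset.mem_union_right _ ha)]; exact ha'⟩
  have hvD : (autP φ : OnePoint F → OnePoint F) '' DD F = DD F :=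
    (hA (autP φ) hv (fun a ha => hφfix a (Finset.mem_union_left _ (Finset.mem_coe.1 ha)))).1
  -- automorphisms over `k` which fix `A` fix `R`
  have hfixR : ∀ ψ : F ≃+* F, (∀ a ∈ acl (∅ : Set F), ψ a = a) → (∀ a ∈ A, autP ψ a = a) →
      ∀ x ∈ R, autP ψ x = x := by
    intro ψ hψ hψA x hx
    rw [← hβR] at hx
    obtain ⟨d, hd, rfl⟩ := hx
    have := (hA (autP ψ) (s.hG (autP_mem_GG ψ)) (fun a ha => hψA a (Finset.mem_coe.1 ha))).2 d hd
    rw [this, PG.autP_fix_DD hψ hd]
  -- the permutation `v` of `X`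
  have hmemv : ∀ x : OnePoint F, (autP φ x ∈ R ∧ autP φ x ∉ DD F) ↔ (x ∈ R ∧ x ∉ DD F) := by
    intro x
    have e1 : autP φ x ∈ R ↔ x ∈ R := by
      conv_lhs => rw [← hvR]
      exact (autP φ).injective.mem_set_image
    have e2 : autP φ x ∈ DD F ↔ x ∈ DD F := by
      conv_lhs => rw [← hvD]
      exact (autP φ).injective.mem_set_image
    rw [e1, e2]
  let v : Equiv.Perm (XX R) := (autP φ).subtypePerm hmemv
  have hvapp : ∀ x : XX R, ((v x : XX R) : OnePoint F) = autP φ (x : OnePoint F) := fun x => rfl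
  have hvpow : ∀ (m : ℕ) (x : XX R), (((v ^ m) x : XX R) : OnePoint F) =
      autP (φ ^ m) (x : OnePoint F) := by
    intro m
    induction m with
    | zero => intro x; rw [pow_zero, pow_zero]; show (x : OnePoint F) = autP (1 : F ≃+* F) x
              rw [show (1 : F ≃+* F) = RingEquiv.refl F from rfl, autP_refl]; rfl
    | succ m ih =>
      intro x
      rw [pow_succ, Equiv.Perm.mul_apply, ih, hvapp, autP_pow, autP_pow, pow_succ,
        Equiv.Perm.mul_apply]
  -- `X` is infinite
  have hXinf : {x : OnePoint F | x ∈ R ∧ x ∉ DD F}.Infinite := by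
    have h1 : {x : OnePoint F | x ∈ R ∧ x ∉ DD F} = R \ (Q : Set (OnePoint F)) := by
      ext x
      constructor
      · rintro ⟨h1, h2⟩
        exact ⟨h1, fun h3 => h2 (hR.sub h3)⟩
      · rintro ⟨h1, h2⟩
        refine ⟨h1, fun h3 => h2 ?_⟩
        rw [← r1]; exact ⟨h1, h3⟩
    rw [h1]
    exact (b5 R hR.blk).sdiff Q.finite_toSet
  have hXinf' : Infinite (XX R) := hXinf.to_subtype
  let y : XX R := ⟨(t : OnePoint F), htR, htD⟩
  refine hCnt (XX R) (LL R) v (p ^ j) (n - 2) y ?_ (by omega) ?_ ?_ ?_ ?_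
  · calc 2 ≤ p := (Fact.out : p.Prime).two_le
      _ = p ^ 1 := (pow_one p).symm
      _ ≤ p ^ j := Nat.pow_le_pow_right (Fact.out : p.Prime).pos hj
  · -- transitivity
    rintro ⟨x, hxR, hxD⟩
    obtain ⟨α, hα, hαx⟩ := PG.exists_KA htD hxD
    have hαR := r2 α hα (t : OnePoint F) x htR hxR htD hαx
    have hαD : (autP α : OnePoint F → OnePoint F) '' DD F = DD F :=
      PG.autP_image_of_fix hα (le_refl _)
    have hmem : ∀ x : OnePoint F, (autP α x ∈ R ∧ autP α x ∉ DD F) ↔ (x ∈ R ∧ x ∉ DD F) := by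
      intro x
      have e1 : autP α x ∈ R ↔ x ∈ R := by
        conv_lhs => rw [← hαR]
        exact (autP α).injective.mem_set_image
      have e2 : autP α x ∈ DD F ↔ x ∈ DD F := by
        conv_lhs => rw [← hαD]
        exact (autP α).injective.mem_set_image
      rw [e1, e2]
    refine ⟨(autP α).subtypePerm hmem, ⟨α, hα, fun x => rfl⟩, ?_⟩
    exact Subtype.ext hαx
  · -- finite stabiliser
    have hT1 : acl ({t} : Set F) = ⊤ := hTD t ht
    choose S hSfin hS using fun a : F => finite_conj hT1 a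
    let g : Equiv.Perm (XX R) → (fc A → F) := fun l =>
      if h : l ∈ LL R then fun a => Classical.choose h (a : F) else fun _ => 0
    have hTfin : (Set.univ.pi (fun a : fc A => S (a : F))).Finite :=
      Set.Finite.pi (fun a => hSfin (a : F))
    refine Set.Finite.of_injOn (f := g) (t := Set.univ.pi (fun a : fc A => S (a : F))) ?_ ?_ hTfin
    · rintro l ⟨hl, hly⟩ a _
      have h1 : g l = fun a : fc A => Classical.choose hl (a : F) := dif_pos hl
      rw [h1]
      obtain ⟨h2, h3⟩ := Classical.choose_spec hl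
      refine hS (a : F) _ ?_
      have h4 := h3 y
      rw [hly] at h4
      exact (coe_eq_coe.1 h4).symm
    · rintro l ⟨hl, hly⟩ l' ⟨hl', hly'⟩ hgg
      have h1 : g l = fun a : fc A => Classical.choose hl (a : F) := dif_pos hl
      have h1' : g l' = fun a : fc A => Classical.choose hl' (a : F) := dif_pos hl'
      rw [h1, h1'] at hgg
      obtain ⟨h2, h3⟩ := Classical.choose_spec hl
      obtain ⟨h2', h3'⟩ := Classical.choose_spec hl'
      set α := Classical.choose hl with hα
      set α' := Classical.choose hl' with hα'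
      have e1 : ∀ x ∈ R, autP (α'.trans α.symm) x = x := by
        refine hfixR (α'.trans α.symm) ?_ ?_
        · intro a ha
          rw [RingEquiv.trans_apply, h2' a ha, RingEquiv.symm_apply_eq]
          exact (h2 a ha).symm
        · intro a ha
          refine autP_fix_of_fc (A := A) ?_ ha
          intro b hb
          rw [RingEquiv.trans_apply, RingEquiv.symm_apply_eq]
          exact (congrFun hgg ⟨b, hb⟩).symm
      apply Equiv.ext
      intro x
      apply Subtype.ext
      rw [h3, h3']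
      have e2 := e1 (x : OnePoint F) x.2.1
      rw [autP_mul, autP_symm, Equiv.Perm.mul_apply, Equiv.Perm.inv_eq_iff_eq] at e2
      exact e2.symm
  · -- commuting with a power of `v`
    rintro l ⟨α, hα, hl⟩
    obtain ⟨m, hm, hmC⟩ := exists_pow_fix hφfin ((fc A).image α.symm)
    refine ⟨m, hm, ?_⟩
    have hφm : ∀ a ∈ acl (∅ : Set F), (φ ^ m).symm a ∈ acl (∅ : Set F) ∧
        (φ ^ m) ((φ ^ m).symm a) = a := by
      intro a ha
      refine ⟨?_, RingEquiv.apply_symm_apply _ _⟩
      -- `φ ^ m` maps `k` onto `k`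
      have h1 := (map_acl (φ ^ m) (s := (∅ : Set F)) (x := (φ ^ m).symm a))
      rw [Set.image_empty, RingEquiv.apply_symm_apply] at h1
      exact h1.1 ha
    have hφmA : ∀ a ∈ fc A, (φ ^ m) a = a := by
      intro a ha
      have h1 : (φ ^ 1) a = a := by
        rw [pow_one]
        exact hφB a (mem_fc.2 (Finset.mem_union_left _ (mem_fc.1 ha)))
      exact pow_fix_of_dvd (one_dvd m) h1
    have hψ : ∀ x ∈ R, autP (((φ ^ m).symm.trans (α.symm.trans (φ ^ m))).trans α) x = x := by
      refine hfixR _ ?_ ?_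
      · intro a ha
        obtain ⟨h1, h2⟩ := hφm a ha
        show α ((φ ^ m) (α.symm ((φ ^ m).symm a))) = a
        have h3 : α.symm ((φ ^ m).symm a) = (φ ^ m).symm a := by
          rw [RingEquiv.symm_apply_eq]
          exact (hα _ h1).symm
        rw [h3, h2, hα a ha]
      · intro a ha
        refine autP_fix_of_fc (A := A) ?_ ha
        intro b hb
        show α ((φ ^ m) (α.symm ((φ ^ m).symm b))) = b
        have h3 : (φ ^ m).symm b = b := by
          rw [RingEquiv.symm_apply_eq]
          exact (hφmA b hb).symm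
        rw [h3, hmC (α.symm b) (Finset.mem_image_of_mem _ hb), RingEquiv.apply_symm_apply]
    apply Equiv.ext
    intro x
    apply Subtype.ext
    rw [Equiv.Perm.mul_apply, Equiv.Perm.mul_apply, hl, hvpow, hvpow, hl]
    -- apply `hψ` to `φ^m (α x)`
    have e1 : autP (φ ^ m) (autP α (x : OnePoint F)) ∈ R := by
      rw [← hl x, ← hvpow]
      exact ((v ^ m) (l x)).2.1
    have e2 := hψ _ e1
    have e3 : autP (((φ ^ m).symm.trans (α.symm.trans (φ ^ m))).trans α)
        (autP (φ ^ m) (autP α (x : OnePoint F))) = autP α (autP (φ ^ m) (x : OnePoint F)) := by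
      generalize (x : OnePoint F) = z
      induction z using OnePoint.rec with
      | infty => rfl
      | coe z =>
        simp only [autP_coe]
        rw [coe_eq_coe]
        show α ((φ ^ m) (α.symm ((φ ^ m).symm ((φ ^ m) (α z))))) = α ((φ ^ m) z)
        rw [RingEquiv.symm_apply_apply, RingEquiv.symm_apply_apply]
    rw [← e3]
    exact e2
  · -- counting
    intro m hm
    obtain ⟨c1, c2⟩ := ncard_DD p hj hφk m hm
    have hfixA : ∀ a ∈ A, autP (φ ^ m) a = a := by
      intro a ha
      refine autP_fix_of_fc (A := A) ?_ ha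
      intro b hb
      have h1 : (φ ^ 1) b = b := by
        rw [pow_one]
        exact hφB b (mem_fc.2 (Finset.mem_union_left _ (mem_fc.1 hb)))
      exact pow_fix_of_dvd (one_dvd m) h1
    have hβv := (hA (autP (φ ^ m)) (s.hG (autP_mem_GG _))
      (fun a ha => hfixA a (Finset.mem_coe.1 ha))).2
    have hRset : {x : OnePoint F | x ∈ R ∧ autP (φ ^ m) x = x} =
        β '' {d : OnePoint F | d ∈ DD F ∧ autP (φ ^ m) d = d} := by
      ext x
      constructor
      · rintro ⟨hx, hx'⟩
        rw [← hβR] at hx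
        obtain ⟨d, hd, rfl⟩ := hx
        refine ⟨d, ⟨hd, ?_⟩, rfl⟩
        rw [hβv d hd] at hx'
        exact β.injective hx'
      · rintro ⟨d, ⟨hd, hd'⟩, rfl⟩
        refine ⟨?_, ?_⟩
        · rw [← hβR]; exact Set.mem_image_of_mem _ hd
        · show autP (φ ^ m) (β d) = β d
          rw [hβv d hd, hd']
    have hRfin : {x : OnePoint F | x ∈ R ∧ autP (φ ^ m) x = x}.Finite := by
      rw [hRset]; exact c1.image _
    have hRc : {x : OnePoint F | x ∈ R ∧ autP (φ ^ m) x = x}.ncard = (p ^ j) ^ m + 1 := by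
      rw [hRset, Set.ncard_image_of_injective _ β.injective, c2]
    have hQfix : ∀ x ∈ Q, autP (φ ^ m) x = x := by
      intro x hx
      refine autP_fix_of_fc (A := Q) ?_ hx
      intro b hb
      have h1 : (φ ^ 1) b = b := by
        rw [pow_one]
        exact hφB b (mem_fc.2 (Finset.mem_union_right _ (Finset.mem_insert_of_mem (mem_fc.1 hb))))
      exact pow_fix_of_dvd (one_dvd m) h1
    have hQsub : (Q : Set (OnePoint F)) ⊆ {x : OnePoint F | x ∈ R ∧ autP (φ ^ m) x = x} := by
      intro x hx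
      exact ⟨hR.subR hx, hQfix x (Finset.mem_coe.1 hx)⟩
    have hXset : (fun x : XX R => (x : OnePoint F)) '' {x : XX R | (v ^ m) x = x} =
        {x : OnePoint F | x ∈ R ∧ autP (φ ^ m) x = x} \ (Q : Set (OnePoint F)) := by
      ext x
      constructor
      · rintro ⟨z, hz, rfl⟩
        refine ⟨⟨z.2.1, ?_⟩, ?_⟩
        · show autP (φ ^ m) (z : OnePoint F) = z
          rw [← hvpow]
          exact congrArg Subtype.val hz
        · intro h
          exact z.2.2 (hQD h)
      · rintro ⟨⟨h1, h2⟩, h3⟩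
        have h4 : x ∉ DD F := fun h => h3 (by rw [← r1]; exact ⟨h1, h⟩)
        refine ⟨⟨x, h1, h4⟩, ?_, rfl⟩
        apply Subtype.ext
        rw [hvpow]
        exact h2
    have hinj : Function.Injective (fun x : XX R => (x : OnePoint F)) := Subtype.val_injective
    have hXc : {x : XX R | (v ^ m) x = x}.ncard = (p ^ j) ^ m + 1 - (n - 1) := by
      rw [← Set.ncard_image_of_injective _ hinj, hXset, Set.ncard_sdiff hQsub Q.finite_toSet, hRc,
        Set.ncard_coe_finset, hQc]
    have hle : n - 1 ≤ (p ^ j) ^ m + 1 := by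
      rw [← hRc, ← hQc, ← Set.ncard_coe_finset]
      exact Set.ncard_le_ncard hQsub hRfin
    refine ⟨?_, ?_⟩
    · refine Set.Finite.of_finite_image (f := fun x : XX R => (x : OnePoint F)) ?_ hinj.injOn
      rw [hXset]
      exact hRfin.subset Set.sdiff_subset
    · rw [hXc]; omega

end Pool.Agent.MPa267.M
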