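import Pool.Agent.Lib.MP_a267a3_lc.M.Spec

/-!
# MP_a267a3_lc, transcendence degree one: the counting argument
-/

set_option autoImplicit false

namespace Pool.Agent.MPa267.M

open OnePoint

namespace CntAux

/-- The elements of `Λ` which commute with `v ^ m`. -/
def Cm {X : Type*} (Λ : Subgroup (Equiv.Perm X)) (v : Equiv.Perm X) (m : ℕ) :
    Subgroup (Equiv.Perm X) where
  carrier := {l | l ∈ Λ ∧ l * v ^ m = v ^ m * l}
  mul_mem' := by
    rintro a b ⟨ha, ha'⟩ ⟨hb, hb'⟩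
    refine ⟨mul_mem ha hb, ?_⟩
    rw [mul_assoc, hb', ← mul_assoc, ha', mul_assoc]
  one_mem' := ⟨one_mem _, by rw [one_mul, mul_one]⟩
  inv_mem' := by
    rintro a ⟨ha, ha'⟩
    refine ⟨inv_mem ha, ?_⟩
    rw [inv_mul_eq_iff_eq_mul, ← mul_assoc, ha', mul_assoc, mul_inv_cancel, mul_one]

theorem card_Q {X : Type*} (Λ : Subgroup (Equiv.Perm X)) (v : Equiv.Perm X) (m : ℕ) (y : X)
    (ht : ∀ x : X, ∃ l ∈ Λ, l y = x) :
    Nat.card {l : Equiv.Perm X | l ∈ Λ ∧ (v ^ m) (l⁻¹ y) = l⁻¹ y} =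
      Nat.card {x : X | (v ^ m) x = x} * Nat.card {l : Equiv.Perm X | l ∈ Λ ∧ l y = y} := by
  choose s hs hsy using ht
  have hk : ∀ (x : X) (k : Equiv.Perm X), k y = y → (k * (s x)⁻¹)⁻¹ y = x := by
    intro x k hk
    have h1 : k⁻¹ y = y := Equiv.Perm.inv_eq_iff_eq.2 hk.symm
    rw [mul_inv_rev, inv_inv, Equiv.Perm.mul_apply, h1, hsy]
  rw [← Nat.card_prod]
  refine Nat.card_congr
    { toFun := fun l => (⟨l.1⁻¹ y, l.2.2⟩, ⟨l.1 * s (l.1⁻¹ y), mul_mem l.2.1 (hs _), by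
        rw [Equiv.Perm.mul_apply, hsy]
        exact (Equiv.Perm.inv_eq_iff_eq.1 rfl).symm⟩)
      invFun := fun p => ⟨p.2.1 * (s p.1.1)⁻¹, mul_mem p.2.2.1 (inv_mem (hs _)), by
        rw [hk p.1.1 p.2.1 p.2.2.2]
        exact p.1.2⟩
      left_inv := fun l => Subtype.ext (mul_inv_cancel_right _ _)
      right_inv := fun p => Prod.ext (Subtype.ext (hk p.1.1 p.2.1 p.2.2.2)) (Subtype.ext ?_) }
  change p.2.1 * (s p.1.1)⁻¹ * s ((p.2.1 * (s p.1.1)⁻¹)⁻¹ y) = p.2.1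
  rw [hk p.1.1 p.2.1 p.2.2.2, inv_mul_cancel_right]

theorem dvd_Q {X : Type*} (Λ : Subgroup (Equiv.Perm X)) (v : Equiv.Perm X) (m : ℕ) (y : X) :
    Nat.card (Cm Λ v m) ∣
      Nat.card {l : Equiv.Perm X | l ∈ Λ ∧ (v ^ m) (l⁻¹ y) = l⁻¹ y} := by
  have h : (QuotientGroup.mk : Equiv.Perm X → Equiv.Perm X ⧸ Cm Λ v m) ⁻¹'
      ((QuotientGroup.mk : Equiv.Perm X → Equiv.Perm X ⧸ Cm Λ v m) ''
        {l : Equiv.Perm X | l ∈ Λ ∧ (v ^ m) (l⁻¹ y) = l⁻¹ y}) =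
      {l : Equiv.Perm X | l ∈ Λ ∧ (v ^ m) (l⁻¹ y) = l⁻¹ y} := by
    refine Set.Subset.antisymm ?_ (Set.subset_preimage_image _ _)
    rintro l ⟨l', ⟨hl1, hl2⟩, he⟩
    rw [QuotientGroup.eq] at he
    obtain ⟨k, hk⟩ : ∃ k, k = l'⁻¹ * l := ⟨_, rfl⟩
    rw [← hk] at he
    have hl : l = l' * k := by rw [hk, mul_inv_cancel_left]
    have hki : (k⁻¹ * v ^ m : Equiv.Perm X) = v ^ m * k⁻¹ := (inv_mem he : k⁻¹ ∈ Cm Λ v m).2
    refine ⟨by rw [hl]; exact mul_mem hl1 he.1, ?_⟩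
    rw [hl, mul_inv_rev, Equiv.Perm.mul_apply, ← Equiv.Perm.mul_apply, ← hki,
      Equiv.Perm.mul_apply, hl2]
  have h2 := Nat.card_congr (QuotientGroup.preimageMkEquivSubgroupProdSet (Cm Λ v m)
    ((QuotientGroup.mk : Equiv.Perm X → Equiv.Perm X ⧸ Cm Λ v m) ''
        {l : Equiv.Perm X | l ∈ Λ ∧ (v ^ m) (l⁻¹ y) = l⁻¹ y}))
  rw [h, Nat.card_prod] at h2
  exact ⟨_, h2⟩

end CntAux

theorem tCnt.{u} : S_Cnt.{u} := by
  intro X _ Λ v q c y hq hc ht hfin hcomm hfix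
  obtain ⟨g, hg⟩ : ∃ g, g = Nat.card {l : Equiv.Perm X | l ∈ Λ ∧ l y = y} := ⟨_, rfl⟩
  have hg0 : 0 < g := by
    have := hfin.to_subtype
    have : Nonempty {l : Equiv.Perm X | l ∈ Λ ∧ l y = y} := ⟨⟨1, one_mem _, rfl⟩⟩
    rw [hg]
    exact Nat.card_pos
  have key : ∀ m, 1 ≤ m → Nat.card (CntAux.Cm Λ v m) ∣ (q ^ m - c) * g := by
    intro m hm
    have h1 := CntAux.dvd_Q Λ v m y
    have h2 : Nat.card {x : X | (v ^ m) x = x} = q ^ m - c := by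
      have h3 := (hfix m hm).2
      rw [Nat.card_coe_set_eq]
      omega
    rwa [CntAux.card_Q Λ v m y ht, h2, ← hg] at h1
  have bound : ∀ m, 1 ≤ m → c < q ^ m →
      Nat.card (CntAux.Cm Λ v m) ∣ c * (c - 1) * g := by
    intro m hm hcm
    have h1 := key m hm
    have h2 : Nat.card (CntAux.Cm Λ v m) ∣ (q ^ (m * 2) - c) * g := by
      refine dvd_trans (Subgroup.card_dvd_of_le ?_) (key (m * 2) (by omega))
      rintro l ⟨hl, hl'⟩
      refine ⟨hl, ?_⟩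
      rw [pow_mul]
      exact (Commute.pow_right (show Commute l (v ^ m) from hl') 2)
    obtain ⟨w, hw⟩ : ∃ w, q ^ m = c + w := ⟨q ^ m - c, by omega⟩
    obtain ⟨k, rfl⟩ : ∃ k, c = k + 1 := ⟨c - 1, by omega⟩
    rw [pow_mul, hw] at h2
    rw [hw, Nat.add_sub_cancel_left] at h1
    have h3 : ((k + 1 + w) ^ 2 - (k + 1)) = w * (w + 2 * (k + 1)) + (k + 1) * k := by
      refine Nat.sub_eq_of_eq_add ?_
      ring
    rw [h3, add_mul] at h2
    have h4 : Nat.card (CntAux.Cm Λ v m) ∣ w * (w + 2 * (k + 1)) * g := by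
      refine dvd_trans h1 ⟨w + 2 * (k + 1), by ring⟩
    exact (Nat.dvd_add_right h4).1 h2
  have hpos : 0 < c * (c - 1) * g :=
    Nat.mul_pos (Nat.mul_pos (by omega) (by omega)) hg0
  have hinf : (Λ : Set (Equiv.Perm X)).Infinite := by
    intro h
    have h1 : (Set.univ : Set X).Finite := by
      refine (h.image fun l => l y).subset ?_
      intro x _
      obtain ⟨l, hl, hlx⟩ := ht x
      exact ⟨l, hl, hlx⟩
    exact Set.infinite_univ h1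
  obtain ⟨T, hT, hTc⟩ := hinf.exists_subset_card_eq (c * (c - 1) * g + 1)
  choose! M hM1 hM using hcomm
  have hprod : 1 ≤ ∏ l ∈ T, M l := Finset.one_le_prod' fun l hl => hM1 l (hT hl)
  have hP : c ≤ c * ∏ l ∈ T, M l := Nat.le_mul_of_pos_right _ hprod
  have hcq : c < q ^ (c * ∏ l ∈ T, M l) :=
    lt_of_lt_of_le (Nat.lt_pow_self (by omega)) (Nat.pow_le_pow_right (by omega) hP)
  have hb := bound (c * ∏ l ∈ T, M l) (by omega) hcq
  have hne : Nat.card (CntAux.Cm Λ v (c * ∏ l ∈ T, M l)) ≠ 0 := by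
    intro h0
    rw [h0, zero_dvd_iff] at hb
    omega
  have : Finite (CntAux.Cm Λ v (c * ∏ l ∈ T, M l)) := Nat.finite_of_card_ne_zero hne
  have hsub : (T : Set (Equiv.Perm X)) ⊆
      (CntAux.Cm Λ v (c * ∏ l ∈ T, M l) : Set (Equiv.Perm X)) := by
    intro l hl
    refine ⟨hT hl, ?_⟩
    obtain ⟨j, hj⟩ := Dvd.dvd.mul_left (Finset.dvd_prod_of_mem M (Finset.mem_coe.1 hl)) c
    rw [hj, pow_mul]
    exact (Commute.pow_right (show Commute l (v ^ M l) from hM l (hT hl)) j)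
  have hle := Set.ncard_le_ncard hsub (Set.toFinite _)
  rw [Set.ncard_coe_finset, hTc] at hle
  have hle2 := Nat.le_of_dvd hpos hb
  have hle3 : (CntAux.Cm Λ v (c * ∏ l ∈ T, M l) : Set (Equiv.Perm X)).ncard =
      Nat.card (CntAux.Cm Λ v (c * ∏ l ∈ T, M l)) := (Nat.card_coe_set_eq _).symm
  omega

end Pool.Agent.MPa267.M
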