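import Pool.Agent.Lib.MP_a267a3_lc.M.Spec

set_option autoImplicit false

namespace Pool.Agent.MPa267.M

open OnePoint Pool.Agent.MPa267.D1

universe u

namespace ComAux

/-- `κ (y + a)` is finite and is not in `k`. -/
lemma fin_out {F : Type u} [Field F] (κ : Equiv.Perm (OnePoint F)) (hκ : Fx κ (DD F)) (y : F)
    (_hy : y ∉ acl (∅ : Set F)) : ∃ z : F, κ (y : OnePoint F) = (z : OnePoint F) := by
  have h1 : κ (y : OnePoint F) ≠ ∞ := by
    intro h
    have h2 : κ ∞ = ∞ := hκ ∞ (infty_mem_PP _)
    have h3 := κ.injective (h.trans h2.symm)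
    exact coe_ne_infty y h3
  obtain ⟨z, hz⟩ := ne_infty_iff_exists.mp h1
  exact ⟨z, hz.symm⟩

end ComAux

open ComAux in
theorem tCom (hL : S_LemF.{u}) : S_Com.{u} := by
  classical
  intro F _ _ _ hTD H n hSt κ hκH hκ x
  have hinf : κ ∞ = ∞ := hκ ∞ (infty_mem_PP _)
  have hn : 5 ≤ n := hSt.n5
  induction x using OnePoint.rec with
  | infty => rw [addP_infty, hinf, addP_infty]
  | coe y =>
    by_cases hy : y ∈ acl (∅ : Set F)
    · have h1 : κ (y : OnePoint F) = y := hκ _ ((coe_mem_PP _ _).mpr hy)
      rw [h1, addP_coe]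
      exact hκ _ ((coe_mem_PP _ _).mpr (add_mem (one_mem _) hy))
    · have hz : ∀ a : ℤ, ∃ z : F, κ ((y + a : F) : OnePoint F) = ((z + a : F) : OnePoint F) := by
        intro a
        have hya : (y + a : F) ∉ acl (∅ : Set F) := by
          intro h
          have := sub_mem h (intCast_mem (acl (∅ : Set F)) a)
          rw [add_sub_cancel_right] at this
          exact hy this
        obtain ⟨z, hz⟩ := fin_out κ hκ _ hya
        exact ⟨z - a, by rw [hz, sub_add_cancel]⟩
      choose w hw using hz
      have key : w 1 = w 0 := by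
        by_contra hne
        have hb : ∀ a₀ : ℤ, ((Finset.Ico (0 : ℤ) ((2 * n - 3 : ℕ) : ℤ)).filter
            (fun a => w a ≠ w a₀)).card ≤ n - 2 := by
          intro a₀
          by_contra hc
          push Not at hc
          obtain ⟨s, hs, hsc⟩ := Finset.exists_subset_card_eq (s := (Finset.Ico (0 : ℤ)
            ((2 * n - 3 : ℕ) : ℤ)).filter (fun a => w a ≠ w a₀)) (n := n - 1) (by omega)
          refine hL F hTD H n hSt κ hκH hκ y hy w hw s a₀ hsc ?_ ?_
          · intro h
            exact (Finset.mem_filter.mp (hs h)).2 rfl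
          · intro a ha
            exact (Finset.mem_filter.mp (hs ha)).2
        have hsub : Finset.Ico (0 : ℤ) ((2 * n - 3 : ℕ) : ℤ) ⊆
            ((Finset.Ico (0 : ℤ) ((2 * n - 3 : ℕ) : ℤ)).filter (fun a => w a ≠ w 0)) ∪
            ((Finset.Ico (0 : ℤ) ((2 * n - 3 : ℕ) : ℤ)).filter (fun a => w a ≠ w 1)) := by
          intro a ha
          rw [Finset.mem_union, Finset.mem_filter, Finset.mem_filter]
          by_cases h0 : w a = w 0
          · right
            refine ⟨ha, fun h1 => hne ?_⟩
            rw [← h1, h0]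
          · exact Or.inl ⟨ha, h0⟩
        have h1 := (Finset.card_le_card hsub).trans (Finset.card_union_le _ _)
        have h2 := hb 0
        have h3 := hb 1
        rw [Int.card_Ico, sub_zero, Int.toNat_natCast] at h1
        omega
      have e0 := hw 0
      have e1 := hw 1
      rw [Int.cast_zero, add_zero, add_zero] at e0
      rw [Int.cast_one, key] at e1
      rw [e0, addP_coe, addP_coe, add_comm (1 : F) y, e1, add_comm]

end Pool.Agent.MPa267.M
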