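import Pool.Agent.Lib.MP_a267a3_lc.M.Spec

/-!
# MP_a267a3_lc, Part I: raising the degree (I.3) (helper4)
-/

set_option autoImplicit false

namespace Pool.Agent.MPa267.M

open OnePoint Pool.Agent.MPa267.D1 Polynomial

universe u

namespace DegAux

variable {F : Type u} [Field F]

lemma pt_of_zero (a : F) {b : F} (h : b = 0) : pt a b = ∞ := by
  unfold pt
  exact if_pos h

lemma pt_of_ne (a : F) {b : F} (h : b ≠ 0) : pt a b = ((a / b : F) : OnePoint F) := by
  unfold pt
  exact if_neg h

lemma pt_mul {c : F} (hc : c ≠ 0) (a b : F) : pt (c * a) (c * b) = pt a b := by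
  by_cases hb : b = 0
  · rw [pt_of_zero _ hb, pt_of_zero]
    rw [hb, mul_zero]
  · rw [pt_of_ne _ hb, pt_of_ne _ (mul_ne_zero hc hb), mul_div_mul_left _ _ hc]

lemma pt_eq {a b a' b' : F} (h : pt a b = pt a' b') : a * b' = a' * b := by
  by_cases hb : b = 0
  · by_cases hb' : b' = 0
    · rw [hb, hb', mul_zero, mul_zero]
    · rw [pt_of_zero _ hb, pt_of_ne _ hb'] at h
      exact absurd h.symm (coe_ne_infty _)
  · by_cases hb' : b' = 0
    · rw [pt_of_ne _ hb, pt_of_zero _ hb'] at h
      exact absurd h (coe_ne_infty _)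
    · rw [pt_of_ne _ hb, pt_of_ne _ hb'] at h
      exact (div_eq_div_iff hb hb').mp (coe_eq_coe.1 h)

lemma mob_inf (a b c d : F) (h : a * d - b * c ≠ 0) : mob (mk2 a b c d h) ∞ = pt a c := by
  classical
  rw [mob_mk2_infty]
  by_cases hc : c = 0
  · rw [if_pos hc, pt_of_zero _ hc]
  · rw [if_neg hc, pt_of_ne _ hc]

lemma mob_co (a b c d : F) (h : a * d - b * c ≠ 0) (x : F) :
    mob (mk2 a b c d h) (x : OnePoint F) = pt (a * x + b) (c * x + d) := by
  classical
  rw [mob_mk2_coe]
  by_cases hc : c * x + d = 0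
  · rw [if_pos hc, pt_of_zero _ hc]
  · rw [if_neg hc, pt_of_ne _ hc]

lemma fix_of_root {K₀ : Subfield F} {v : F} {N : ℕ} {τ : Equiv.Perm (OnePoint F)}
    (hv : ∀ R : K₀[X], R ≠ 0 → aeval v R ≠ 0) (hfix : Fx τ (Kn K₀ v N)) {T U : K₀[X]} {r : K₀}
    (hT : T.natDegree ≤ N + 1) (hU : U.natDegree ≤ N + 1) (h0 : T ≠ 0 ∨ U ≠ 0)
    (eT : T.eval r = 0) (eU : U.eval r = 0) :
    τ (pt (aeval v T) (aeval v U)) = pt (aeval v T) (aeval v U) := by
  obtain ⟨T₁, hT₁⟩ := dvd_iff_isRoot.2 eT
  obtain ⟨U₁, hU₁⟩ := dvd_iff_isRoot.2 eU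
  have hX : (X - C r : K₀[X]) ≠ 0 := X_sub_C_ne_zero r
  have deg : ∀ W W₁ : K₀[X], W = (X - C r) * W₁ → W.natDegree ≤ N + 1 → W₁.natDegree ≤ N := by
    intro W W₁ hW hd
    by_cases h1 : W₁ = 0
    · rw [h1, natDegree_zero]
      exact Nat.zero_le _
    · rw [hW, natDegree_mul hX h1, natDegree_X_sub_C] at hd
      omega
  have h2 : pt (aeval v T) (aeval v U) = pt (aeval v T₁) (aeval v U₁) := by
    rw [hT₁, hU₁, map_mul, map_mul, pt_mul (hv _ hX)]
  rw [h2]
  refine hfix _ ⟨T₁, U₁, deg T T₁ hT₁ hT, deg U U₁ hU₁ hU, ?_, rfl⟩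
  rcases h0 with h | h
  · left
    intro h3
    apply h
    rw [hT₁, h3, mul_zero]
  · right
    intro h3
    apply h
    rw [hU₁, h3, mul_zero]

lemma circ {H : Subgroup (Equiv.Perm (OnePoint F))} {n : ℕ} (hG : GG F ≤ H)
    (hB : ∀ τ ∈ H, ∀ R R' : Set (OnePoint F), Blk H R → Blk H R' → ∀ A : Finset (OnePoint F),
      n ≤ A.card → (∀ a ∈ A, a ∈ R ∧ τ a ∈ R') → (τ : OnePoint F → OnePoint F) '' R = R')
    (g : GL (Fin 2) F) {τ : Equiv.Perm (OnePoint F)} (hτ : τ ∈ H) (S : Finset F)
    (hS : ∀ c ∈ S, c ∈ acl (∅ : Set F)) (hn : n ≤ S.card)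
    (hf : ∀ c ∈ S, τ (mob g (c : OnePoint F)) = mob g (c : OnePoint F)) :
    (τ : OnePoint F → OnePoint F) '' ((mob g : OnePoint F → OnePoint F) '' DD F) =
      (mob g : OnePoint F → OnePoint F) '' DD F := by
  classical
  have hb : Blk H ((mob g : OnePoint F → OnePoint F) '' DD F) := ⟨mob g, hG (mob_mem_GG g), rfl⟩
  refine hB τ hτ _ _ hb hb (S.image fun c : F => mob g (c : OnePoint F)) ?_ ?_
  · rw [Finset.card_image_of_injective]
    · exact hn
    · intro c d hcd
      exact coe_eq_coe.1 ((mob g).injective hcd)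
  · intro a ha
    obtain ⟨c, hc, rfl⟩ := Finset.mem_image.1 ha
    have h1 : mob g (c : OnePoint F) ∈ (mob g : OnePoint F → OnePoint F) '' DD F :=
      ⟨c, (coe_mem_PP _ _).2 (hS c hc), rfl⟩
    refine ⟨h1, ?_⟩
    rw [hf c hc]
    exact h1

end DegAux

open DegAux in
theorem tDeg : S_Bas.{u} → S_EK.{u} → S_Deg.{u} := by
  classical
  intro hBas hEK F _ _ H n hSt K₀ hK₀ v hv τ hτ N hN hfix
  obtain ⟨-, hB, -, -, -, -, -⟩ := hBas F H n hSt
  obtain ⟨-, hval, -, -, -⟩ := hEK F K₀ v hK₀.le hv
  have hn5 := hSt.n5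
  have hv0 : v ≠ 0 := by
    rintro rfl
    exact hv (acl (∅ : Set F)).zero_mem
  obtain ⟨ρ', hρ'K, hρ'0, hinj⟩ := hK₀.rho
  set ρ : K₀ := ⟨ρ', hρ'K⟩ with hρ
  have hρ0 : ρ ≠ 0 := fun h => hρ'0 (congrArg Subtype.val h)
  have hinj' : ∀ i j : ℕ, i ≤ 2 * n → j ≤ 2 * n → ρ ^ i = ρ ^ j → i = j := by
    intro i j hi hj h
    refine hinj hi hj ?_
    have := congrArg Subtype.val h
    exact this
  rintro x ⟨P₀, R₀, hP₀, hR₀, h0, rfl⟩
  -- coprime representatives
  obtain ⟨P, R, hcop, hP, hR, hx⟩ : ∃ P R : K₀[X], IsCoprime P R ∧ P.natDegree ≤ N + 1 ∧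
      R.natDegree ≤ N + 1 ∧ pt (aeval v P₀) (aeval v R₀) = pt (aeval v P) (aeval v R) := by
    set G := EuclideanDomain.gcd P₀ R₀ with hGdef
    have hG0 : G ≠ 0 := by
      intro h
      have := EuclideanDomain.gcd_eq_zero_iff.1 h
      rcases h0 with h1 | h1
      · exact h1 this.1
      · exact h1 this.2
    obtain ⟨P, hP⟩ := EuclideanDomain.gcd_dvd_left P₀ R₀
    obtain ⟨R, hR⟩ := EuclideanDomain.gcd_dvd_right P₀ R₀
    rw [← hGdef] at hP hR
    have deg : ∀ W W₁ : K₀[X], W = G * W₁ → W.natDegree ≤ N + 1 → W₁.natDegree ≤ N + 1 := by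
      intro W W₁ hW hd
      by_cases h1 : W₁ = 0
      · rw [h1, natDegree_zero]
        exact Nat.zero_le _
      · rw [hW, natDegree_mul hG0 h1] at hd
        omega
    refine ⟨P, R, ?_, deg P₀ P hP hP₀, deg R₀ R hR hR₀, ?_⟩
    · have h1 := EuclideanDomain.gcd_eq_gcd_ab P₀ R₀
      rw [← hGdef] at h1
      refine ⟨EuclideanDomain.gcdA P₀ R₀, EuclideanDomain.gcdB P₀ R₀, ?_⟩
      have h2 : G * (EuclideanDomain.gcdA P₀ R₀ * P + EuclideanDomain.gcdB P₀ R₀ * R) = G * 1 := by
        calc G * (EuclideanDomain.gcdA P₀ R₀ * P + EuclideanDomain.gcdB P₀ R₀ * R)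
            = (G * P) * EuclideanDomain.gcdA P₀ R₀ + (G * R) * EuclideanDomain.gcdB P₀ R₀ := by ring
          _ = P₀ * EuclideanDomain.gcdA P₀ R₀ + R₀ * EuclideanDomain.gcdB P₀ R₀ := by
              rw [← hP, ← hR]
          _ = G * 1 := by rw [← h1, mul_one]
      exact mul_left_cancel₀ hG0 h2
    · conv_lhs => rw [hP, hR, map_mul, map_mul]
      exact pt_mul (hval _ hG0) _ _
  rw [hx]
  by_cases hdeg : P.natDegree ≤ N ∧ R.natDegree ≤ N
  · refine hfix _ ⟨P, R, hdeg.1, hdeg.2, ?_, rfl⟩
    by_contra hcon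
    push Not at hcon
    rw [hcon.1, hcon.2] at hcop
    exact not_isCoprime_zero_zero hcop
  -- nodes
  set s : Finset ℕ := Finset.Icc 1 (n - 1) with hs
  have hnode : Set.InjOn (fun i : ℕ => ρ ^ i) (s : Set ℕ) := by
    intro i hi j hj h
    rw [hs, Finset.coe_Icc] at hi hj
    exact hinj' i j (by have := hi.2; omega) (by have := hj.2; omega) h
  set P' : K₀[X] := Lagrange.interpolate s (fun i => ρ ^ i) (fun i => -(ρ ^ i) * P.eval (ρ ^ i))
    with hP'
  set R' : K₀[X] := Lagrange.interpolate s (fun i => ρ ^ i) (fun i => -(ρ ^ i) * R.eval (ρ ^ i))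
    with hR'
  have eP' : ∀ i ∈ s, P'.eval (ρ ^ i) = -(ρ ^ i) * P.eval (ρ ^ i) := fun i hi =>
    Lagrange.eval_interpolate_at_node _ hnode hi
  have eR' : ∀ i ∈ s, R'.eval (ρ ^ i) = -(ρ ^ i) * R.eval (ρ ^ i) := fun i hi =>
    Lagrange.eval_interpolate_at_node _ hnode hi
  have hcard : s.card = n - 1 := by rw [hs, Nat.card_Icc]; omega
  have dgen : ∀ r : ℕ → K₀, (Lagrange.interpolate s (fun i => ρ ^ i) r).natDegree ≤ n - 2 := by
    intro r
    have h1 := Lagrange.degree_interpolate_lt r hnode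
    rw [hcard] at h1
    by_cases h2 : Lagrange.interpolate s (fun i => ρ ^ i) r = 0
    · rw [h2, natDegree_zero]
      exact Nat.zero_le _
    · rw [degree_eq_natDegree h2] at h1
      have h3 : (Lagrange.interpolate s (fun i => ρ ^ i) r).natDegree < n - 1 := by
        exact_mod_cast h1
      omega
  have dP' : P'.natDegree ≤ n - 2 := dgen _
  have dR' : R'.natDegree ≤ n - 2 := dgen _
  have h1s : 1 ∈ s := by rw [hs, Finset.mem_Icc]; omega
  have hPR' : P' ≠ 0 ∨ R' ≠ 0 := by
    by_contra hcon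
    push Not at hcon
    have h1 := eP' 1 h1s
    have h2 := eR' 1 h1s
    rw [hcon.1, eval_zero, pow_one] at h1
    rw [hcon.2, eval_zero, pow_one] at h2
    have h3 : P.eval ρ = 0 := by
      rcases mul_eq_zero.1 h1.symm with h | h
      · exact absurd (neg_eq_zero.1 h) hρ0
      · exact h
    have h4 : R.eval ρ = 0 := by
      rcases mul_eq_zero.1 h2.symm with h | h
      · exact absurd (neg_eq_zero.1 h) hρ0
      · exact h
    obtain ⟨a, b, hab⟩ := hcop
    have h5 := congrArg (eval ρ) hab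
    rw [eval_add, eval_mul, eval_mul, h3, h4, mul_zero, mul_zero, add_zero, eval_one] at h5
    exact zero_ne_one h5
  -- the determinant
  have hD : P * R' - P' * R ≠ 0 := by
    intro hcon
    have hcon' : P * R' = P' * R := sub_eq_zero.1 hcon
    rcases not_and_or.1 hdeg with h | h
    · push Not at h
      have hP0 : P ≠ 0 := by
        rintro rfl
        rw [natDegree_zero] at h
        omega
      have h1 : P ∣ P' := by
        have : P ∣ P' * R := ⟨R', hcon'.symm⟩
        exact hcop.dvd_of_dvd_mul_right this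
      have h2 : P' = 0 := eq_zero_of_dvd_of_natDegree_lt h1 (by omega)
      rw [h2, zero_mul] at hcon'
      rcases mul_eq_zero.1 hcon' with h3 | h3
      · exact hP0 h3
      · rcases hPR' with h4 | h4
        · exact h4 h2
        · exact h4 h3
    · push Not at h
      have hR0 : R ≠ 0 := by
        rintro rfl
        rw [natDegree_zero] at h
        omega
      have h1 : R ∣ R' := by
        have : R ∣ P * R' := ⟨P', by rw [hcon', mul_comm]⟩
        exact hcop.symm.dvd_of_dvd_mul_left this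
      have h2 : R' = 0 := eq_zero_of_dvd_of_natDegree_lt h1 (by omega)
      rw [h2, mul_zero] at hcon'
      rcases mul_eq_zero.1 hcon'.symm with h3 | h3
      · rcases hPR' with h4 | h4
        · exact h4 h3
        · exact h4 h2
      · exact hR0 h3
  have hD' : aeval v P * aeval v R' - aeval v P' * aeval v R ≠ 0 := by
    have := hval _ hD
    rwa [map_sub, map_mul, map_mul] at this
  have hD'' : aeval v P * (v * aeval v R') - (v * aeval v P') * aeval v R ≠ 0 := by
    have : aeval v P * (v * aeval v R') - (v * aeval v P') * aeval v R =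
        v * (aeval v P * aeval v R' - aeval v P' * aeval v R) := by ring
    rw [this]
    exact mul_ne_zero hv0 hD'
  -- `y`
  have hy : τ (pt (aeval v P') (aeval v R')) = pt (aeval v P') (aeval v R') :=
    hfix _ ⟨P', R', by omega, by omega, hPR', rfl⟩
  -- the first circle
  have hK : ∀ c : K₀, (c : F) ∈ acl (∅ : Set F) := fun c => hK₀.le c.2
  have hC : ∀ c : K₀, aeval v (C c : K₀[X]) = (c : F) := fun c => aeval_C v c
  have hcirc₁ := circ hSt.hG hB (mk2 (aeval v P) (aeval v P') (aeval v R) (aeval v R') hD') hτ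
    (insert 0 (s.image fun i => ((ρ ^ i : K₀) : F))) (by
      intro c hc
      rcases Finset.mem_insert.1 hc with rfl | hc
      · exact (acl (∅ : Set F)).zero_mem
      · obtain ⟨i, -, rfl⟩ := Finset.mem_image.1 hc
        exact hK _) (by
      rw [Finset.card_insert_of_notMem, Finset.card_image_of_injOn, hcard]
      · omega
      · intro i hi j hj h
        exact hnode hi hj (Subtype.ext h)
      · intro h
        obtain ⟨i, -, hi⟩ := Finset.mem_image.1 h
        have : (ρ ^ i : K₀) = 0 := Subtype.ext hi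
        exact pow_ne_zero i hρ0 this) (by
      intro c hc
      rcases Finset.mem_insert.1 hc with rfl | hc
      · rw [mob_co, mul_zero, mul_zero, zero_add, zero_add]
        exact hy
      · obtain ⟨i, hi, rfl⟩ := Finset.mem_image.1 hc
        have e1 : aeval v P * ((ρ ^ i : K₀) : F) + aeval v P' = aeval v (P * C (ρ ^ i) + P') := by
          rw [map_add, map_mul, hC]
        have e2 : aeval v R * ((ρ ^ i : K₀) : F) + aeval v R' = aeval v (R * C (ρ ^ i) + R') := by
          rw [map_add, map_mul, hC]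
        rw [mob_co, e1, e2]
        refine fix_of_root hval hfix (r := ρ ^ i) ?_ ?_ ?_ ?_ ?_
        · refine (natDegree_add_le _ _).trans (max_le ?_ (by omega))
          exact (natDegree_mul_C_le _ _).trans hP
        · refine (natDegree_add_le _ _).trans (max_le ?_ (by omega))
          exact (natDegree_mul_C_le _ _).trans hR
        · by_contra hcon
          push Not at hcon
          apply hD
          have a1 : P' = -(P * C (ρ ^ i)) := eq_neg_of_add_eq_zero_right hcon.1
          have a2 : R' = -(R * C (ρ ^ i)) := eq_neg_of_add_eq_zero_right hcon.2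
          rw [a1, a2]
          ring
        · rw [eval_add, eval_mul, eval_C, eP' i hi]
          ring
        · rw [eval_add, eval_mul, eval_C, eR' i hi]
          ring)
  -- the second circle
  have hcirc₂ := circ hSt.hG hB (mk2 (aeval v P) (v * aeval v P') (aeval v R) (v * aeval v R') hD'')
    hτ (insert 0 (s.image fun i => ((ρ ^ (2 * i) : K₀) : F))) (by
      intro c hc
      rcases Finset.mem_insert.1 hc with rfl | hc
      · exact (acl (∅ : Set F)).zero_mem
      · obtain ⟨i, -, rfl⟩ := Finset.mem_image.1 hc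
        exact hK _) (by
      rw [Finset.card_insert_of_notMem, Finset.card_image_of_injOn, hcard]
      · omega
      · intro i hi j hj h
        rw [hs, Finset.coe_Icc] at hi hj
        have := hinj' (2 * i) (2 * j) (by have := hi.2; omega) (by have := hj.2; omega)
          (Subtype.ext h)
        omega
      · intro h
        obtain ⟨i, -, hi⟩ := Finset.mem_image.1 h
        have : (ρ ^ (2 * i) : K₀) = 0 := Subtype.ext hi
        exact pow_ne_zero _ hρ0 this) (by
      intro c hc
      rcases Finset.mem_insert.1 hc with rfl | hc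
      · rw [mob_co, mul_zero, mul_zero, zero_add, zero_add, pt_mul hv0]
        exact hy
      · obtain ⟨i, hi, rfl⟩ := Finset.mem_image.1 hc
        have e1 : aeval v P * ((ρ ^ (2 * i) : K₀) : F) + v * aeval v P' =
            aeval v (P * C (ρ ^ (2 * i)) + X * P') := by
          rw [map_add, map_mul, map_mul, hC, aeval_X]
        have e2 : aeval v R * ((ρ ^ (2 * i) : K₀) : F) + v * aeval v R' =
            aeval v (R * C (ρ ^ (2 * i)) + X * R') := by
          rw [map_add, map_mul, map_mul, hC, aeval_X]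
        rw [mob_co, e1, e2]
        have dX : ∀ W : K₀[X], W.natDegree ≤ n - 2 → (X * W).natDegree ≤ N + 1 := by
          intro W hW
          refine natDegree_mul_le.trans ?_
          rw [natDegree_X]
          omega
        refine fix_of_root hval hfix (r := ρ ^ i) ?_ ?_ ?_ ?_ ?_
        · refine (natDegree_add_le _ _).trans (max_le ?_ (dX _ dP'))
          exact (natDegree_mul_C_le _ _).trans hP
        · refine (natDegree_add_le _ _).trans (max_le ?_ (dX _ dR'))
          exact (natDegree_mul_C_le _ _).trans hR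
        · by_contra hcon
          push Not at hcon
          apply hD
          have a1 : X * P' = -(P * C (ρ ^ (2 * i))) := eq_neg_of_add_eq_zero_right hcon.1
          have a2 : X * R' = -(R * C (ρ ^ (2 * i))) := eq_neg_of_add_eq_zero_right hcon.2
          have a3 : X * (P * R' - P' * R) = 0 := by
            have : X * (P * R' - P' * R) = P * (X * R') - (X * P') * R := by ring
            rw [this, a1, a2]
            ring
          exact (mul_eq_zero.1 a3).resolve_left X_ne_zero
        · rw [eval_add, eval_mul, eval_C, eval_mul, eval_X, eP' i hi, two_mul, pow_add]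
          ring
        · rw [eval_add, eval_mul, eval_C, eval_mul, eval_X, eR' i hi, two_mul, pow_add]
          ring)
  -- the intersection
  have hx₁ : pt (aeval v P) (aeval v R) ∈
      (mob (mk2 (aeval v P) (aeval v P') (aeval v R) (aeval v R') hD') : OnePoint F → OnePoint F) ''
        DD F := ⟨∞, infty_mem_PP _, mob_inf _ _ _ _ _⟩
  have hx₂ : pt (aeval v P) (aeval v R) ∈
      (mob (mk2 (aeval v P) (v * aeval v P') (aeval v R) (v * aeval v R') hD'') :
        OnePoint F → OnePoint F) '' DD F := ⟨∞, infty_mem_PP _, mob_inf _ _ _ _ _⟩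
  have hz₁ : τ (pt (aeval v P) (aeval v R)) ∈
      (mob (mk2 (aeval v P) (aeval v P') (aeval v R) (aeval v R') hD') : OnePoint F → OnePoint F) ''
        DD F := by
    rw [← hcirc₁]
    exact ⟨_, hx₁, rfl⟩
  have hz₂ : τ (pt (aeval v P) (aeval v R)) ∈
      (mob (mk2 (aeval v P) (v * aeval v P') (aeval v R) (v * aeval v R') hD'') :
        OnePoint F → OnePoint F) '' DD F := by
    rw [← hcirc₂]
    exact ⟨_, hx₂, rfl⟩
  obtain ⟨d, hd, hdz⟩ := hz₁
  obtain ⟨e, he, hez⟩ := hz₂
  rcases hd with rfl | ⟨c, hc, rfl⟩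
  · rw [← hdz, mob_inf]
  rcases he with rfl | ⟨c', hc', rfl⟩
  · rw [← hez, mob_inf]
  rw [mob_co] at hdz hez
  have h1 := pt_eq (hdz.trans hez.symm)
  have h2 : (c * v - c') * (aeval v P * aeval v R' - aeval v P' * aeval v R) = 0 := by
    linear_combination h1
  have h3 : c * v = c' := sub_eq_zero.1 ((mul_eq_zero.1 h2).resolve_right hD')
  have hc0 : c = 0 := by
    by_contra hne
    apply hv
    have : v = c⁻¹ * c' := by rw [← h3, ← mul_assoc, inv_mul_cancel₀ hne, one_mul]
    rw [this]
    exact (acl (∅ : Set F)).mul_mem ((acl (∅ : Set F)).inv_mem hc) hc'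
  rw [hc0, mul_zero, mul_zero, zero_add, zero_add, ← hy] at hdz
  have h4 := τ.injective hdz
  rw [← h4]
  exact hy

end Pool.Agent.MPa267.M
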