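import Pool.Agent.Lib.MP_a267a3_lc.M.Spec

/-!
# MP_a267a3_lc: iterated differences vanish (II.6)
-/

set_option autoImplicit false

namespace Pool.Agent.MPa267.M

open OnePoint

universe u

namespace DifAux

variable {E A : Type u} [Field E] [AddCommGroup A]

/-- Iterated differences in two variables. -/
def T : List (E × E) → (E → E → A) → E → E → A
  | [], G => G
  | x :: L, G => fun p e => T L G p e - T L G (p + x.1) (e - x.1 / x.2)

theorem T_form (a : E) (L : List (E × E)) (φ : E → A) :
    ∃ ψ : E → A, ∀ p e, T L (fun p e => φ (p + a * e)) p e = ψ (p + a * e) := by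
  induction L with
  | nil => exact ⟨φ, fun p e => rfl⟩
  | cons x L ih =>
    obtain ⟨ψ, hψ⟩ := ih
    refine ⟨fun y => ψ y - ψ (y + (x.1 - a * (x.1 / x.2))), fun p e => ?_⟩
    simp only [T]
    rw [hψ, hψ]
    congr 2
    ring

theorem T_zero (a : E) (ha : a ≠ 0) (L : List (E × E)) (φ : E → A) (hL : a ∈ L.map Prod.snd) (p e : E) :
    T L (fun p e => φ (p + a * e)) p e = 0 := by
  induction L generalizing p e with
  | nil => simp at hL
  | cons x L ih =>
    simp only [T]
    rw [List.map_cons, List.mem_cons] at hL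
    rcases hL with h | h
    · obtain ⟨ψ, hψ⟩ := T_form a L φ
      rw [hψ, hψ, ← h]
      have : p + x.1 + a * (e - x.1 / a) = p + a * e := by
        field_simp
        ring
      rw [this, sub_self]
    · rw [ih h, ih h, sub_self]

theorem T_const (L : List (E × E)) (f : E → A) (p e : E) :
    T L (fun p _ => f p) p e = ((-1 : ℤ) ^ L.length) • DL (L.map Prod.fst) f p := by
  induction L generalizing p e with
  | nil => simp [T, DL]
  | cons x L ih =>
    simp only [T, DL, List.map_cons, List.length_cons]
    rw [ih, ih, pow_succ, mul_neg_one, neg_smul, smul_sub]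
    abel

/-- All the occurring arguments are outside `K`. -/
def OK (K : Subfield E) : List (E × E) → E → Prop
  | [], e => e ∉ K
  | x :: L, e => OK K L e ∧ OK K L (e - x.1 / x.2)

theorem exists_shifts (K : Subfield E) (L : List (E × E)) :
    ∃ s : Finset E, ∀ e, (∀ x ∈ s, e - x ∉ K) → OK K L e := by
  classical
  induction L with
  | nil => exact ⟨{0}, fun e h => by
    have h1 := h 0 (Finset.mem_singleton_self 0)
    rw [sub_zero] at h1
    exact h1⟩
  | cons x L ih =>
    obtain ⟨s, hs⟩ := ih
    refine ⟨s ∪ s.image (fun y => y + x.1 / x.2), fun e h => ⟨hs e fun y hy => h y (Finset.mem_union_left _ hy),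
      hs _ fun y hy => ?_⟩⟩
    have h1 := h (y + x.1 / x.2) (Finset.mem_union_right _ (Finset.mem_image_of_mem _ hy))
    have h2 : e - x.1 / x.2 - y = e - (y + x.1 / x.2) := by ring
    rwa [h2]

theorem T_congr (K : Subfield E) (L : List (E × E)) (G G' : E → E → A)
    (h : ∀ p e, e ∉ K → G p e = G' p e) (p e : E) (he : OK K L e) : T L G p e = T L G' p e := by
  induction L generalizing p e with
  | nil => exact h p e he
  | cons x L ih =>
    simp only [T]
    rw [ih _ _ he.1, ih _ _ he.2]

theorem T_mem (K : Subfield E) (S : AddSubgroup (E → A)) (L : List (E × E)) (G : E → E → E → A)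
    (h : ∀ p e, e ∉ K → (fun x => G x p e) ∈ S) (p e : E) (he : OK K L e) :
    (fun x => T L (G x) p e) ∈ S := by
  induction L generalizing p e with
  | nil => exact h p e he
  | cons x L ih =>
    simp only [T]
    exact S.sub_mem (ih p e he.1) (ih _ _ he.2)

end DifAux

open DifAux in
theorem tDif.{v} : S_Dif.{v} := by
  classical
  intro E A _ _ K v m S hcard hbig htr hsub hrig f hf L hL
  obtain ⟨s, hsK, hs0, hsm⟩ := hcard
  choose! φ hφv hφK hφS using hsub
  let P : List (E × E) := List.zip L s.toList
  have hlen : L.length = s.toList.length := by rw [hL, Finset.length_toList, hsm]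
  have hfst : P.map Prod.fst = L := List.map_fst_zip hlen.le
  have hsnd : P.map Prod.snd = s.toList := List.map_snd_zip hlen.ge
  obtain ⟨B, hB⟩ := exists_shifts K P
  obtain ⟨e₀, he₀⟩ := hbig B
  have hok := hB e₀ he₀
  funext p₀
  let G : E → E → E → A := fun x p e => f (φ e x + p)
  have hmem : (fun x => T P (G x) p₀ e₀) ∈ S := by
    apply T_mem K S P G ?_ p₀ e₀ hok
    intro p e he
    exact hφS e he _ (htr f hf p)
  have hval : ∀ a ∈ s, T P (G (a * v)) p₀ e₀ = 0 := by
    intro a ha
    have haK : a ∈ K := hsK (Finset.mem_coe.2 ha)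
    have ha0 : a ≠ 0 := fun h => hs0 (h ▸ ha)
    have h1 : T P (G (a * v)) p₀ e₀ = T P (fun p e => f (p + a * e)) p₀ e₀ := by
      apply T_congr K P _ _ _ p₀ e₀ hok
      intro p e he
      change f (φ e (a * v) + p) = f (p + a * e)
      rw [map_mul, hφK e he a haK, hφv e he, add_comm]
    rw [h1]
    apply T_zero a ha0
    rw [hsnd, Finset.mem_toList]
    exact ha
  have h0 := hrig _ hmem ⟨s, hsK, hsm, hval⟩
  have h1 : T P (G 0) p₀ e₀ = ((-1 : ℤ) ^ P.length) • DL L f p₀ := by
    have h2 : G 0 = fun p _ => f p := by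
      funext p e
      change f (φ e 0 + p) = f p
      rw [map_zero, zero_add]
    rw [h2, T_const, hfst]
  have h3 : ((-1 : ℤ) ^ P.length) • DL L f p₀ = 0 := by
    rw [← h1]
    exact h0
  rcases neg_one_pow_eq_or ℤ P.length with h | h
  · rw [h, one_smul] at h3
    exact h3
  · rw [h, neg_smul, one_smul, neg_eq_zero] at h3
    exact h3

end Pool.Agent.MPa267.M
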