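import Pool.Agent.Lib.MP_a267a3_lc.M.Spec
import Pool.Agent.Lib.MP_a267a3_lc.AlgD

/-!
# MP_a267a3_lc, part M, task EK: the field `k₀(v)` (helper40)
-/

set_option autoImplicit false

namespace Pool.Agent.MPa267.M

open OnePoint

universe u

namespace EKAux

variable {F : Type u} [Field F]

private theorem transc [IsAlgClosed F] {v : F} (hv : v ∉ acl (∅ : Set F)) :
    Transcendental (acl (∅ : Set F)) v := by
  have := isAlgClosed_acl (F := F) (∅ : Set F)
  intro hal
  apply hv
  have hint : IsIntegral (acl (∅ : Set F)) v := hal.isIntegral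
  have h1 := IsAlgClosed.degree_eq_one_of_irreducible (acl (∅ : Set F)) (minpoly.irreducible hint)
  obtain ⟨a, ha⟩ := minpoly.mem_range_of_degree_eq_one (acl (∅ : Set F)) v h1
  rw [← ha]
  exact a.2

private theorem aeval_incl {K L : Subfield F} (h : K ≤ L) (v : F) (R : Polynomial K) :
    Polynomial.aeval v (R.map (Subfield.inclusion h)) = Polynomial.aeval v R := by
  rw [Polynomial.aeval_def, Polynomial.aeval_def, Polynomial.eval₂_map]
  rfl

private theorem map_ne {K L : Subfield F} (h : K ≤ L) {R : Polynomial K} (hR : R ≠ 0) :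
    R.map (Subfield.inclusion h) ≠ 0 :=
  (Polynomial.map_ne_zero_iff (Subfield.inclusion h).injective).2 hR

private theorem aeval_ne [IsAlgClosed F] {K₀ : Subfield F} (h : K₀ ≤ acl (∅ : Set F)) {v : F}
    (hv : v ∉ acl (∅ : Set F)) {R : Polynomial K₀} (hR : R ≠ 0) :
    Polynomial.aeval v R ≠ 0 := by
  intro h0
  refine transc hv ⟨R.map (Subfield.inclusion h), map_ne h hR, ?_⟩
  rw [aeval_incl, h0]

private theorem aeval_mem (K₀ : Subfield F) (v : F) (P : Polynomial K₀) :
    Polynomial.aeval v P ∈ EE K₀ v := by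
  have hv : v ∈ EE K₀ v := Subfield.subset_closure (Set.mem_insert v _)
  have hK : ∀ a : K₀, (a : F) ∈ EE K₀ v := fun a =>
    Subfield.subset_closure (Set.mem_insert_of_mem v a.2)
  rw [Polynomial.aeval_eq_sum_range]
  refine sum_mem fun i _ => ?_
  rw [Algebra.smul_def]
  exact mul_mem (hK _) (pow_mem hv i)

end EKAux

open EKAux in
/-- **EK** -/
theorem tEK.{w} : S_EK.{w} := by
  intro F _ _ K₀ v hK hv
  have h1 : ∀ x : F, x ∈ EE K₀ v ↔ ∃ P R : Polynomial K₀, R ≠ 0 ∧
      x = Polynomial.aeval v P / Polynomial.aeval v R := by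
    intro x
    constructor
    · intro hx
      obtain ⟨a, b, -, hb, hab⟩ := mem_closure_insert hx
      refine ⟨a, b, ?_, eq_div_of_mul_eq hb hab⟩
      rintro rfl
      exact hb (map_zero _)
    · rintro ⟨P, R, -, rfl⟩
      exact div_mem (aeval_mem K₀ v P) (aeval_mem K₀ v R)
  have h2 : ∀ R : Polynomial K₀, R ≠ 0 → Polynomial.aeval v R ≠ 0 := fun R hR =>
    aeval_ne hK hv hR
  refine ⟨h1, h2, ?_, ?_, ?_⟩
  · intro x hx hxk
    obtain ⟨P, R, hR, hxe⟩ := (h1 x).1 hx
    have hR' := h2 R hR
    have e1 : P.map (Subfield.inclusion hK) =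
        Polynomial.C (⟨x, hxk⟩ : acl (∅ : Set F)) * R.map (Subfield.inclusion hK) := by
      by_contra hne
      have hne' : P.map (Subfield.inclusion hK) -
          Polynomial.C (⟨x, hxk⟩ : acl (∅ : Set F)) * R.map (Subfield.inclusion hK) ≠ 0 :=
        sub_ne_zero.2 hne
      refine transc hv ⟨_, hne', ?_⟩
      rw [map_sub, map_mul, Polynomial.aeval_C, aeval_incl, aeval_incl]
      have e2 : Polynomial.aeval v P = x * Polynomial.aeval v R := by
        rw [hxe, div_mul_cancel₀ _ hR']
      rw [e2]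
      exact sub_self _
    have hl : R.leadingCoeff ≠ 0 := Polynomial.leadingCoeff_ne_zero.2 hR
    have e3 := congrArg (fun p : Polynomial (acl (∅ : Set F)) => ((p.coeff R.natDegree : acl (∅ : Set F)) : F)) e1
    simp only [Polynomial.coeff_map, Polynomial.coeff_C_mul] at e3
    have e4 : ((P.coeff R.natDegree : K₀) : F) = x * ((R.leadingCoeff : K₀) : F) := e3
    have hl' : ((R.leadingCoeff : K₀) : F) ≠ 0 := by
      intro h0
      exact hl (Subtype.ext h0)
    have e5 : x = ((P.coeff R.natDegree : K₀) : F) / ((R.leadingCoeff : K₀) : F) :=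
      (eq_div_of_mul_eq hl' e4.symm)
    rw [e5]
    exact div_mem (P.coeff R.natDegree).2 (R.leadingCoeff).2
  · intro s
    by_contra hcon
    push Not at hcon
    have hv' : v ∈ EE K₀ v := Subfield.subset_closure (Set.mem_insert v _)
    have hpow : ∀ i : ℕ, ∃ x : s, v ^ (i + 1) - (x : F) ∈ K₀ := by
      intro i
      obtain ⟨x, hx, hxK⟩ := hcon (v ^ (i + 1)) (pow_mem hv' _)
      exact ⟨⟨x, hx⟩, hxK⟩
    choose g hg using hpow
    obtain ⟨i, j, hij, hgij⟩ := Finite.exists_ne_map_eq_of_infinite g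
    have hmem : v ^ (i + 1) - v ^ (j + 1) ∈ K₀ := by
      have h3 := sub_mem (hg i) (hg j)
      rw [hgij] at h3
      have e : v ^ (i + 1) - (g j : F) - (v ^ (j + 1) - (g j : F)) =
          v ^ (i + 1) - v ^ (j + 1) := by ring
      rwa [e] at h3
    have hne : (Polynomial.X ^ (i + 1) - Polynomial.X ^ (j + 1) -
        Polynomial.C (⟨_, hmem⟩ : K₀) : Polynomial K₀) ≠ 0 := by
      intro h0
      have h4 := congrArg (fun p : Polynomial K₀ => p.coeff (i + 1)) h0
      simp only [Polynomial.coeff_sub, Polynomial.coeff_X_pow, Polynomial.coeff_C,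
        Polynomial.coeff_zero, if_true, Nat.succ_ne_zero, if_false, sub_zero] at h4
      rw [if_neg (by omega)] at h4
      norm_num at h4
    refine h2 _ hne ?_
    rw [map_sub, map_sub, map_pow, map_pow, Polynomial.aeval_X, Polynomial.aeval_C]
    exact sub_self _
  · intro σ hσ hσv x hx
    have hle : EE K₀ v ≤ (EE K₀ v).comap (σ : F →+* F) := by
      refine Subfield.closure_le.2 ?_
      intro y hy
      rcases hy with rfl | hy
      · exact hσv
      · show σ y ∈ EE K₀ v
        rw [hσ y (hK hy)]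
        exact Subfield.subset_closure (Set.mem_insert_of_mem v hy)
    exact hle hx

end Pool.Agent.MPa267.M
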