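import Pool.Agent.Lib.MP_a267a3_lc.M.Spec

/-!
# MP_a267a3_lc: finite generation, assembly of Part I
-/

set_option autoImplicit false

namespace Pool.Agent.MPa267.M

open OnePoint

namespace FGAux

universe u

variable {F : Type u} [Field F]

/-- Over a finite field there are finitely many polynomials of bounded degree. -/
theorem finite_poly (K₀ : Subfield F) (h : (K₀ : Set F).Finite) (N : ℕ) :
    {P : Polynomial K₀ | P.natDegree ≤ N}.Finite := by
  have : Finite K₀ := h
  refine Set.Finite.of_injOn (f := fun (P : Polynomial K₀) (i : Fin (N + 1)) => P.coeff i)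
    (t := Set.univ) (fun _ _ => Set.mem_univ _) ?_ Set.finite_univ
  intro P hP Q hQ hPQ
  ext1 i
  by_cases hi : i ≤ N
  · exact congrFun hPQ ⟨i, by omega⟩
  · rw [Polynomial.coeff_eq_zero_of_natDegree_lt (lt_of_le_of_lt hP (by omega)),
      Polynomial.coeff_eq_zero_of_natDegree_lt (lt_of_le_of_lt hQ (by omega))]

theorem finite_Kn (K₀ : Subfield F) (h : (K₀ : Set F).Finite) (v : F) (N : ℕ) :
    (Kn K₀ v N).Finite := by
  have h1 := (finite_poly K₀ h N).prod (finite_poly K₀ h N)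
  refine (h1.image fun PR => pt (Polynomial.aeval v PR.1) (Polynomial.aeval v PR.2)).subset ?_
  rintro x ⟨P, R, hP, hR, -, rfl⟩
  exact ⟨(P, R), ⟨hP, hR⟩, rfl⟩

end FGAux

/-- **FG**. -/
theorem tFG.{u} (hEK : S_EK.{u}) (hB : S_Base0.{u}) (hD : S_Deg.{u}) : S_FG.{u} := by
  intro F _ _ H n hSt K₀ hK v hv
  have hbase : ∃ A : Finset (OnePoint F), ∀ τ ∈ H, Fx τ (A : Set (OnePoint F)) →
      Fx τ (Kn K₀ v (n - 2)) := by
    rcases hK.fin with ⟨hc, hbot⟩ | hfin
    · rw [hbot]
      exact hB F H n hSt v hv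
    · refine ⟨(FGAux.finite_Kn K₀ hfin v (n - 2)).toFinset, fun τ _ h => ?_⟩
      rwa [Set.Finite.coe_toFinset] at h
  obtain ⟨A, hA⟩ := hbase
  refine ⟨A, fun τ hτ hfx => ?_⟩
  have hall : ∀ N : ℕ, n - 2 ≤ N → Fx τ (Kn K₀ v N) := by
    intro N hN
    induction N, hN using Nat.le_induction with
    | base => exact hA τ hτ hfx
    | succ N hN ih => exact hD F H n hSt K₀ hK v hv τ hτ N hN ih
  obtain ⟨h1, h2, -, -, -⟩ := hEK F K₀ v hK.le hv
  intro x hx
  rcases hx with rfl | ⟨a, ha, rfl⟩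
  · refine hall (n - 2) le_rfl ∞ ⟨1, 0, by simp, by simp, Or.inl one_ne_zero, ?_⟩
    unfold pt
    rw [map_zero, if_pos rfl]
  · obtain ⟨P, R, hR, rfl⟩ := (h1 a).mp ha
    refine hall (max (n - 2) (max P.natDegree R.natDegree)) (le_max_left _ _) _
      ⟨P, R, ?_, ?_, Or.inr hR, ?_⟩
    · exact (le_max_left _ _).trans (le_max_right _ _)
    · exact (le_max_right _ _).trans (le_max_right _ _)
    · unfold pt
      rw [if_neg (h2 R hR)]

end Pool.Agent.MPa267.M
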