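import Pool.Agent.Lib.MP_a267a3_lc.M.FTB
import Pool.Agent.Lib.MP_a267a3_lc.PV.DerC

/-!
# MP_a267a3_lc: `S_FT`
-/

set_option autoImplicit false

namespace Pool.Agent.MPa267.M

open OnePoint Pool.Agent.MPa267.D1 Pool.Agent.MPa267.PV

universe u

theorem tFT : S_FT.{u} := by
  intro F _ _ _ hT N y₁ hkN hyN hy₁ hA hst hne y W hy hW
  have hac : IsAlgClosed (acl (∅ : Set F)) := isAlgClosed_acl _
  have hch : CharZero (acl (∅ : Set F)) := inferInstance
  obtain ⟨A, hA⟩ := hA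
  exact FTAux.glue (FTAux.pvf hT (fun y hy ha f h1 h2 => mem_base y hy ha f h1 h2)) hkN hyN hy₁ hA hst hne y W hy hW

end Pool.Agent.MPa267.M
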