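import Pool.Agent.Lib.MP_a267a3_lc.M.Spec
import Pool.Agent.Lib.MP_a267a3_lc.AlgC

/-!
# MP_a267a3_lc: the coordinates of a block are finitely generated over `k` (characteristic zero)
-/

set_option autoImplicit false

namespace Pool.Agent.MPa267.M

open OnePoint Pool.Agent.MPa267.D1

namespace FinAux

universe u

variable {F : Type u} [Field F]

omit [Field F] in
/-- the finite coordinates of a finite set of points -/
lemma exists_coords (A : Finset (OnePoint F)) :
    ∃ A' : Finset F, ∀ x : F, (x : OnePoint F) ∈ A → x ∈ A' := by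
  classical
  refine ⟨A.preimage (fun x : F => (x : OnePoint F)) (fun x _ y _ h => coe_eq_coe.1 h), ?_⟩
  intro x hx
  exact Finset.mem_preimage.2 hx

/-- an automorphism over `K` fixes `P¹(K)` -/
lemma autP_fix (φ : F ≃+* F) (K : Subfield F) (h : ∀ a ∈ K, φ a = a) :
    ∀ d ∈ PP K, autP φ d = d := by
  rintro d (rfl | ⟨a, ha, rfl⟩)
  · exact autP_infty φ
  · rw [autP_coe, h a ha]

end FinAux

/-- **Fin** -/
theorem tFin.{u} (hChain : S_Chain.{u}) : S_Fin.{u} := by
  intro F _ _ _ H n hSt R hR
  obtain ⟨β, hβ, hβR, A, hA⟩ := hChain F H n hSt R hR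
  obtain ⟨A', hA'⟩ := FinAux.exists_coords A
  refine ⟨A', ?_⟩
  intro x hx
  induction x using OnePoint.rec with
  | infty => exact infty_mem_PP _
  | coe x =>
    rw [coe_mem_PP]
    have hfix : ∀ φ : F ≃+* F,
        (∀ a ∈ Subfield.closure ((acl (∅ : Set F) : Set F) ∪ (A' : Set F)), φ a = a) →
          φ x = x := by
      intro φ hφ
      have hk : ∀ a ∈ acl (∅ : Set F), φ a = a :=
        fun a ha => hφ a (Subfield.subset_closure (Or.inl ha))
      have hτ : autP φ ∈ H := hSt.hG (autP_mem_GG φ)
      have hFx : Fx (autP φ) (A : Set (OnePoint F)) := by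
        intro y hy
        induction y using OnePoint.rec with
        | infty => exact autP_infty φ
        | coe y =>
          rw [autP_coe, hφ y (Subfield.subset_closure (Or.inr (hA' y hy)))]
      obtain ⟨_, h2⟩ := hA (autP φ) hτ hFx
      rw [← hβR] at hx
      obtain ⟨d, hd, hdx⟩ := hx
      have h3 := h2 d hd
      rw [FinAux.autP_fix φ _ hk d hd, hdx, autP_coe] at h3
      exact coe_eq_coe.1 h3
    obtain ⟨i, hi⟩ := fixed_aut_pow_mem 1 _ hfix
    simpa using hi

end Pool.Agent.MPa267.M
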