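import Pool.Agent.Lib.MP_a267a3_lc.M.Spec

/-!
# MP_a267a3_lc: a constant `c_τ` is a field automorphism (note 4916, II.8)
-/

set_option autoImplicit false

namespace Pool.Agent.MPa267.M

open OnePoint

universe u

namespace FldAux

variable {F : Type u} [Field F]

theorem uniq {w : F} (hw : w ∉ acl (∅ : Set F)) {x y x' y' : F} (hx : x ∈ acl (∅ : Set F))
    (hy : y ∈ acl (∅ : Set F)) (hx' : x' ∈ acl (∅ : Set F)) (hy' : y' ∈ acl (∅ : Set F))
    (h : x + y * w = x' + y' * w) : x = x' ∧ y = y' := by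
  have h1 : y = y' := by
    by_contra hne
    apply hw
    have h2 : y - y' ≠ 0 := sub_ne_zero.2 hne
    have h3 : w = (x' - x) / (y - y') := by
      rw [eq_div_iff h2]
      linear_combination h
    rw [h3]
    exact div_mem (sub_mem hx' hx) (sub_mem hy hy')
  subst h1
  exact ⟨by linear_combination h, rfl⟩

/-- If `τ` maps the points `p + a q`, `a ∈ k₀`, to points of the line `p' + k q'`, it maps the line `p + k q`
into it. -/
theorem img [IsAlgClosed F] {H : Subgroup (Equiv.Perm (OnePoint F))} {n : ℕ} (hB : S_Bas.{u})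
    (hS : St H n) {K₀ : Subfield F} (hG : Good K₀ n) {τ : Equiv.Perm (OnePoint F)} (hτ : τ ∈ H)
    (hi : τ ∞ = ∞) {p q p' q' : F} (hq : q ≠ 0) (hq' : q' ≠ 0)
    (h : ∀ a ∈ K₀, ∃ c ∈ acl (∅ : Set F),
      τ ((p + a * q : F) : OnePoint F) = ((p' + c * q' : F) : OnePoint F))
    {c : F} (hc : c ∈ acl (∅ : Set F)) :
    ∃ c' ∈ acl (∅ : Set F),
      τ ((p + c * q : F) : OnePoint F) = ((p' + c' * q' : F) : OnePoint F) := by
  classical
  obtain ⟨-, h2, h3, -⟩ := hB F H n hS
  obtain ⟨ρ, hρ, hρ0, hinj⟩ := hG.rho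
  let A : Finset (OnePoint F) :=
    (Finset.range n).image fun i => ((p + ρ ^ i * q : F) : OnePoint F)
  have hA : n ≤ A.card := by
    rw [Finset.card_image_of_injOn, Finset.card_range]
    intro i hi j hj hij
    have h4 : p + ρ ^ i * q = p + ρ ^ j * q := OnePoint.coe_injective hij
    have h5 : ρ ^ i = ρ ^ j := mul_right_cancel₀ hq (add_left_cancel h4)
    have h6 := Finset.mem_range.1 (Finset.mem_coe.1 hi)
    have h7 := Finset.mem_range.1 (Finset.mem_coe.1 hj)
    exact hinj (show i ≤ 2 * n by omega) (show j ≤ 2 * n by omega) h5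
  have h6 := h2 τ hτ (Ln p q) (Ln p' q') (h3 p q hq) (h3 p' q' hq') A hA (by
    intro a ha
    obtain ⟨i, hi, rfl⟩ := Finset.mem_image.1 ha
    refine ⟨Or.inr ⟨ρ ^ i, hG.le (pow_mem hρ i), rfl⟩, ?_⟩
    obtain ⟨c, hc, h7⟩ := h (ρ ^ i) (pow_mem hρ i)
    exact Or.inr ⟨c, hc, h7⟩)
  have h8 : τ ((p + c * q : F) : OnePoint F) ∈ Ln p' q' := by
    rw [← h6]
    exact ⟨_, Or.inr ⟨c, hc, rfl⟩, rfl⟩
  rcases h8 with h9 | ⟨c', hc', h9⟩
  · rw [← hi] at h9
    exact absurd (τ.injective h9) (OnePoint.coe_ne_infty _)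
  · exact ⟨c', hc', h9⟩

end FldAux

open FldAux in
theorem tFld (hB : S_Bas.{u}) (hE : S_EK.{u}) : S_Fld.{u} := by
  intro F _ _ H n hS K₀ hG v hv τ hτ T hT
  obtain ⟨hτH, hfix⟩ : τ ∈ H ∧ Fx τ (PP (EE K₀ v)) := hτ
  obtain ⟨-, -, hE3, -, -⟩ := hE F K₀ v hG.le hv
  have hi : τ ∞ = ∞ := hfix _ (Or.inl rfl)
  have hKE : ∀ a ∈ K₀, a ∈ EE K₀ v := fun a ha =>
    Subfield.subset_closure (Set.mem_insert_of_mem _ ha)
  have hvE : v ∈ EE K₀ v := Subfield.subset_closure (Set.mem_insert _ _)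
  have hfE : ∀ w ∈ EE K₀ v, τ (w : OnePoint F) = (w : OnePoint F) := fun w hw =>
    hfix _ (Or.inr ⟨w, hw, rfl⟩)
  have hcE : ∀ w ∈ EE K₀ v, w ∉ K₀ → w ∉ acl (∅ : Set F) := fun w hw hw' h => hw' (hE3 w hw h)
  -- `T` is the identity on `k₀`
  have hT' : ∀ w ∈ EE K₀ v, ∀ b (hb : b ∈ acl (∅ : Set F)),
      τ ((w + b : F) : OnePoint F) = ((w + (T ⟨b, hb⟩ : F) : F) : OnePoint F) :=
    fun w hw b hb => hT w hw ⟨b, hb⟩
  have hTm : ∀ b, (T b : F) ∈ acl (∅ : Set F) := fun b => (T b).2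
  have hTK : ∀ a (ha : a ∈ K₀), (T ⟨a, hG.le ha⟩ : F) = a := by
    intro a ha
    have h1 := hT' 0 (zero_mem _) a (hG.le ha)
    rw [zero_add, zero_add, hfE a (hKE a ha)] at h1
    exact (OnePoint.coe_injective h1).symm
  have hT0 : ∀ b, b ≠ 0 → (T b : F) ≠ 0 := by
    intro b hb h
    apply hb
    apply T.injective
    apply Subtype.ext
    have h2 : (⟨0, hG.le (zero_mem K₀)⟩ : acl (∅ : Set F)) = 0 := rfl
    rw [h, ← h2, hTK 0 (zero_mem _)]
  -- (A)
  have hA : ∀ w ∈ EE K₀ v, w ∉ K₀ → ∀ b : acl (∅ : Set F),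
      τ (((b : F) * w : F) : OnePoint F) = (((T b : F) * w : F) : OnePoint F) := by
    intro w hw hw' b
    have hwk := hcE w hw hw'
    have hw0 : w ≠ 0 := fun h => hw' (h ▸ zero_mem _)
    have hw1 : w - 1 ≠ 0 := fun h => hw' (by rw [sub_eq_zero.1 h]; exact one_mem _)
    obtain ⟨x, hx, h1⟩ := img hB hS hG hτH hi (p := 0) (q := w) (p' := 0) (q' := w) hw0 hw0
      (fun a ha => ⟨a, hG.le ha, hfE _ (add_mem (zero_mem _) (mul_mem (hKE a ha) hw))⟩)
      b.2
    obtain ⟨y, hy, h2⟩ := img hB hS hG hτH hi (p := (b : F)) (q := w - 1) (p' := (T b : F))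
      (q' := w - 1) hw1 hw1
      (fun a ha => ⟨a, hG.le ha, by
        have h3 := hT (a * (w - 1))
          (mul_mem (hKE a ha) (sub_mem hw (one_mem _))) b
        rw [add_comm, add_comm (T b : F)]
        exact h3⟩)
      b.2
    have h4 : (b : F) + (b : F) * (w - 1) = 0 + (b : F) * w := by ring
    rw [h4, h1] at h2
    have h5 : (0 : F) + x * w = ((T b : F) - y) + y * w := by
      have := OnePoint.coe_injective h2
      linear_combination this
    obtain ⟨h6, h7⟩ := uniq hwk (zero_mem _) hx (sub_mem (hTm b) hy) hy h5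
    have h8 : x = (T b : F) := by rw [h7]; linear_combination h6
    rw [zero_add, zero_add, h8] at h1
    exact h1
  -- (B)
  have hBB : ∀ w ∈ EE K₀ v, w ∉ K₀ → ∀ b b' : acl (∅ : Set F),
      τ (((b : F) + (b' : F) * w : F) : OnePoint F) =
        (((T b : F) + (T b' : F) * w : F) : OnePoint F) := by
    intro w hw hw' b b'
    have hwk := hcE w hw hw'
    have hw0 : w ≠ 0 := fun h => hw' (h ▸ zero_mem _)
    by_cases hb' : b' = 0
    · subst hb'
      have h1 : (T 0 : F) = 0 := hTK 0 (zero_mem _)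
      have h2 := hT' 0 (zero_mem _) b b.2
      rw [h1, ZeroMemClass.coe_zero, zero_mul, add_zero, add_zero]
      rw [zero_add, zero_add] at h2
      exact h2
    · have hb0 : (b' : F) ≠ 0 := fun h => hb' (Subtype.ext h)
      obtain ⟨x, hx, h1⟩ := img hB hS hG hτH hi (p := (b' : F) * w) (q := (b' : F))
        (p' := (T b' : F) * w) (q' := (T b' : F)) hb0 (hT0 b' hb')
        (fun a ha => ⟨a, hG.le ha, by
          have h3 := hA (w + a) (add_mem hw (hKE a ha))
            (fun h => hw' (by simpa using sub_mem h ha)) b'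
          rw [mul_add, mul_add] at h3
          rw [mul_comm a, mul_comm a]
          exact h3⟩)
        (c := (b : F) / (b' : F)) (div_mem b.2 b'.2)
      obtain ⟨y, hy, h2⟩ := img hB hS hG hτH hi (p := (b : F)) (q := w) (p' := (T b : F))
        (q' := w) hw0 hw0
        (fun a ha => ⟨a, hG.le ha, by
          have h3 := hT (a * w) (mul_mem (hKE a ha) hw) b
          rw [add_comm, add_comm (T b : F)]
          exact h3⟩)
        b'.2
      have h4 : (b' : F) * w + (b : F) / (b' : F) * (b' : F) = (b : F) + (b' : F) * w := by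
        rw [div_mul_cancel₀ _ hb0, add_comm]
      rw [h4, h2] at h1
      have h5 : (T b : F) + y * w = x * (T b' : F) + (T b' : F) * w := by
        have := OnePoint.coe_injective h1
        linear_combination this
      obtain ⟨h6, h7⟩ := uniq hwk (hTm b) hy (mul_mem hx (hTm b')) (hTm b') h5
      rw [h2, h7]
  -- a point outside `k₀`
  have hvK : v ∉ K₀ := fun h => hv (hG.le h)
  have hv1 : v - 1 ∉ K₀ := fun h => hvK (by simpa using add_mem h (one_mem K₀))
  -- (C)
  have hC : ∀ a b, T (a + b) = T a + T b := by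
    intro a b
    have h1 := hBB v hvE hvK a b
    have h2 := hBB (v - 1) (sub_mem hvE (one_mem _)) hv1 (a + b) b
    have h3 : ((a + b : acl (∅ : Set F)) : F) + (b : F) * (v - 1) = (a : F) + (b : F) * v := by
      push_cast
      ring
    rw [h3, h1] at h2
    have h4 := OnePoint.coe_injective h2
    apply Subtype.ext
    push_cast
    linear_combination -h4
  -- (D)
  have hD : ∀ a (ha : a ∈ K₀) (b : acl (∅ : Set F)),
      (T (⟨a, hG.le ha⟩ * b) : F) = a * (T b : F) := by
    intro a ha b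
    by_cases ha0 : a = 0
    · subst ha0
      have h1 : (⟨0, hG.le ha⟩ : acl (∅ : Set F)) * b = ⟨0, hG.le ha⟩ := by
        apply Subtype.ext
        simp
      rw [h1, hTK 0 ha, zero_mul]
    · have hw2 : 1 + a * v ∉ K₀ := by
        intro h
        apply hvK
        have h1 : v = (1 + a * v - 1) / a := by
          rw [eq_div_iff ha0]
          ring
        rw [h1]
        exact div_mem (sub_mem h (one_mem _)) ha
      have h2 := hA (1 + a * v) (add_mem (one_mem _) (mul_mem (hKE a ha) hvE)) hw2 b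
      have h3 := hBB v hvE hvK b (⟨a, hG.le ha⟩ * b)
      have h4 : (b : F) + ((⟨a, hG.le ha⟩ * b : acl (∅ : Set F)) : F) * v =
          (b : F) * (1 + a * v) := by
        push_cast
        ring
      rw [h4, h2] at h3
      have h5 : (T b : F) + (a * (T b : F)) * v =
          (T b : F) + (T (⟨a, hG.le ha⟩ * b) : F) * v := by
        have := OnePoint.coe_injective h3
        linear_combination this
      exact (uniq hv (hTm _) (mul_mem (hG.le ha) (hTm b)) (hTm _) (hTm _) h5).2.symm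
  refine ⟨hC, ?_⟩
  -- (E)
  intro x b
  have hq : ∀ b : acl (∅ : Set F), (1 : F) + (b : F) * v ≠ 0 := by
    intro b h
    have h1 : (1 : F) + (b : F) * v = 0 + 0 * v := by rw [h]; ring
    exact one_ne_zero (uniq hv (one_mem _) b.2 (zero_mem _) (zero_mem _) h1).1
  obtain ⟨y, hy, h1⟩ := img hB hS hG hτH hi (p := 0) (q := 1 + (b : F) * v) (p' := 0)
    (q' := 1 + (T b : F) * v) (hq b) (hq (T b))
    (fun a ha => ⟨a, hG.le ha, by
      have h3 := hBB v hvE hvK ⟨a, hG.le ha⟩ (⟨a, hG.le ha⟩ * b)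
      rw [hTK a ha, hD a ha b] at h3
      have h4 : (a : F) + ((⟨a, hG.le ha⟩ * b : acl (∅ : Set F)) : F) * v =
          0 + a * (1 + (b : F) * v) := by
        push_cast
        ring
      rw [h4] at h3
      rw [h3]
      congr 1
      ring⟩)
    x.2
  have h2 := hBB v hvE hvK x (x * b)
  have h3 : (x : F) + ((x * b : acl (∅ : Set F)) : F) * v = 0 + (x : F) * (1 + (b : F) * v) := by
    push_cast
    ring
  rw [h3, h1] at h2
  have h4 : y + (y * (T b : F)) * v = (T x : F) + (T (x * b) : F) * v := by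
    have := OnePoint.coe_injective h2
    linear_combination this
  obtain ⟨h5, h6⟩ := uniq hv hy (mul_mem hy (hTm b)) (hTm x) (hTm _) h4
  apply Subtype.ext
  push_cast
  rw [← h6, h5]

end Pool.Agent.MPa267.M
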