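import Pool.Agent.Lib.MP_a267a3_lc.M.Spec

/-!
# MP_a267a3_lc: Frobenius on the field of constants extended to `F` with finite orbits
-/

set_option autoImplicit false

namespace Pool.Agent.MPa267.M

open OnePoint Pool.Agent.MPa267.D1

universe u

namespace FrobAux

variable {F : Type u} [Field F]

theorem pow_fix (v : F ≃+* F) (m n : ℕ) (x : F) (h : (v ^ m) x = x) : (v ^ (m * n)) x = x := by
  induction n with
  | zero => simp
  | succ n ih =>
    rw [Nat.mul_succ, pow_add, RingAut.mul_apply, h, ih]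

theorem finite_orbit (v : F ≃+* F) (L : Subfield F) (hv : ∀ a ∈ L, v a = a) (x : F)
    (hx : IsAlgebraic L x) : ∃ m : ℕ, 1 ≤ m ∧ (v ^ m) x = x := by
  classical
  obtain ⟨P, hP, hPx⟩ := hx
  have hmap : P.map (algebraMap L F) ≠ 0 :=
    (Polynomial.map_ne_zero_iff (algebraMap L F).injective).2 hP
  have hroot : ∀ y : F, Polynomial.aeval y P = 0 → Polynomial.aeval (v y) P = 0 := by
    intro y hy
    have h1 := Polynomial.hom_eval₂ P (algebraMap L F) (v : F →+* F) y
    have h2 : (v : F →+* F).comp (algebraMap L F) = algebraMap L F := by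
      ext a
      exact hv a a.2
    rw [h2, ← Polynomial.aeval_def, ← Polynomial.aeval_def, hy, map_zero] at h1
    exact h1.symm
  have hall : ∀ i : ℕ, Polynomial.aeval ((v ^ i) x) P = 0 := by
    intro i
    induction i with
    | zero => simpa using hPx
    | succ i ih =>
      rw [pow_succ', RingAut.mul_apply]
      exact hroot _ ih
  have hmem : ∀ i : ℕ, (v ^ i) x ∈ (P.map (algebraMap L F)).roots.toFinset := by
    intro i
    rw [Multiset.mem_toFinset, Polynomial.mem_roots hmap, Polynomial.IsRoot, Polynomial.eval_map,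
      ← Polynomial.aeval_def]
    exact hall i
  obtain ⟨i, j, hij, hf⟩ := Finite.exists_ne_map_eq_of_infinite
    (fun i : ℕ => (⟨(v ^ i) x, hmem i⟩ : (P.map (algebraMap L F)).roots.toFinset))
  have hf' : (v ^ i) x = (v ^ j) x := congrArg Subtype.val hf
  have key : ∀ i j : ℕ, i < j → (v ^ i) x = (v ^ j) x → ∃ m : ℕ, 1 ≤ m ∧ (v ^ m) x = x := by
    intro i j hlt h
    refine ⟨j - i, by omega, ?_⟩
    have h3 : j = i + (j - i) := by omega
    rw [h3, pow_add, RingAut.mul_apply] at h
    exact ((v ^ i).injective h).symm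
  rcases lt_or_gt_of_ne hij with h | h
  · exact key i j h hf'
  · exact key j i h hf'.symm

end FrobAux

open FrobAux in
theorem tFrob : S_Frob.{u} := by
  classical
  intro F _ _ p _ _ hTD ⟨t, ht⟩ B
  have hK : IsAlgClosed (acl (∅ : Set F)) := isAlgClosed_acl _
  have : CharP (acl (∅ : Set F)) p := inferInstance
  have : ExpChar (acl (∅ : Set F)) p := inferInstance
  have : PerfectRing (acl (∅ : Set F)) p := inferInstance
  obtain ⟨φ₀, hφ₀⟩ := exists_aut_extend (acl (∅ : Set F)) (frobeniusEquiv (acl (∅ : Set F)) p)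
  have h1 : φ₀ t ∉ acl (∅ : Set F) := by
    intro h
    apply ht
    have h2 := hφ₀ ((frobeniusEquiv (acl (∅ : Set F)) p).symm ⟨φ₀ t, h⟩)
    rw [RingEquiv.apply_symm_apply] at h2
    have h3 := φ₀.injective h2
    rw [← h3]
    exact ((frobeniusEquiv (acl (∅ : Set F)) p).symm ⟨φ₀ t, h⟩).2
  obtain ⟨ψ, hψ, hψt⟩ := exists_aut_of_not_mem (acl (∅ : Set F)) h1 ht
  set v : F ≃+* F := ψ * φ₀ with hv
  have hvt : v t = t := by rw [hv, RingAut.mul_apply, hψt]
  have hvK : ∀ x ∈ acl (∅ : Set F), v x = x ^ p := by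
    intro x hx
    have h2 := hφ₀ ⟨x, hx⟩
    have h3 : ((frobeniusEquiv (acl (∅ : Set F)) p ⟨x, hx⟩ : acl (∅ : Set F)) : F) = x ^ p := by
      rw [frobeniusEquiv_def]
      rfl
    rw [h3] at h2
    rw [hv, RingAut.mul_apply]
    have h4 : φ₀ x = x ^ p := h2
    rw [h4]
    exact hψ _ (pow_mem hx p)
  have hvL : ∀ a ∈ Subfield.closure ({t} : Set F), v a = a := by
    have hle : Subfield.closure ({t} : Set F) ≤
        RingHom.eqLocusField (v : F →+* F) (RingHom.id F) := by
      rw [Subfield.closure_le]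
      intro y hy
      rw [Set.mem_singleton_iff] at hy
      subst hy
      exact hvt
    intro a ha
    exact hle ha
  have horb : ∀ x : F, ∃ m : ℕ, 1 ≤ m ∧ (v ^ m) x = x := by
    intro x
    refine finite_orbit v _ hvL x ?_
    rw [← mem_acl, hTD t ht]
    exact Subfield.mem_top x
  choose m hm1 hmx using horb
  have hpow : ∀ j : ℕ, ∀ x ∈ acl (∅ : Set F), (v ^ j) x = x ^ p ^ j := by
    intro j
    induction j with
    | zero => intro x _; simp
    | succ j ih =>
      intro x hx
      rw [pow_succ, RingAut.mul_apply, hvK x hx, ih _ (pow_mem hx p), ← pow_mul, ← pow_succ']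
  refine ⟨∏ b ∈ B, m b, v ^ (∏ b ∈ B, m b), Finset.one_le_prod' fun b _ => hm1 b, hpow _, ?_, ?_⟩
  · intro b hb
    obtain ⟨c, hc⟩ := Finset.dvd_prod_of_mem m hb
    rw [hc]
    exact pow_fix v (m b) c b (hmx b)
  · intro x
    refine ⟨m x, hm1 x, ?_⟩
    rw [← pow_mul, mul_comm]
    exact pow_fix v (m x) _ x (hmx x)

end Pool.Agent.MPa267.M
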