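import Pool.Agent.Lib.MP_a267a3_lc.M.Spec
import Pool.Agent.Lib.MP_a267a3_lc.PG.Base
import Pool.Agent.Lib.MP_a267a3_lc.AlgC

/-!
# MP_a267a3_lc, M/LemF: Lemma F (V.8 of note 4916)
-/

set_option autoImplicit false

namespace Pool.Agent.MPa267.M

open OnePoint Pool.Agent.MPa267.D1

namespace LemFAux

universe u

variable {F : Type u} [Field F]

theorem int_mem (L : Subfield F) (a : ℤ) : (a : F) ∈ L := by
  exact intCast_mem L a

theorem addP_mem_PP {L : Subfield F} {b : F} (hb : b ∈ L) (x : OnePoint F) :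
    addP b x ∈ PP L ↔ x ∈ PP L := by
  induction x using OnePoint.rec with
  | infty => simp
  | coe x =>
    rw [addP_coe, coe_mem_PP, coe_mem_PP]
    constructor
    · intro h
      have := L.sub_mem h hb
      rwa [add_sub_cancel_left] at this
    · intro h; exact L.add_mem hb h

theorem addP_image_DD {b : F} (hb : b ∈ acl (∅ : Set F)) :
    (addP b : OnePoint F → OnePoint F) '' DD F = DD F := by
  apply Set.Subset.antisymm
  · rintro _ ⟨x, hx, rfl⟩
    exact (addP_mem_PP hb x).2 hx
  · intro x hx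
    refine ⟨(addP b)⁻¹ x, ?_, apply_inv_self' _ x⟩
    rw [← addP_mem_PP hb]
    rwa [apply_inv_self']

theorem addP_autP {b : F} (φ : F ≃+* F) (h : φ b = b) : addP b * autP φ = autP φ * addP b := by
  ext x
  induction x using OnePoint.rec with
  | infty => rfl
  | coe x =>
    simp only [Equiv.Perm.mul_apply, autP_coe, addP_coe, map_add, h]

/-- `V.2`: a block of type II contains no two points with a difference in `k`. -/
theorem noDiff [IsAlgClosed F] [CharZero F] {H : Subgroup (Equiv.Perm (OnePoint F))} {n : ℕ}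
    (st : St H n) {Q : Finset (OnePoint F)} {R : Set (OnePoint F)} (hR : TII H n Q R)
    (h3 : ∀ g ∈ H, (g : OnePoint F → OnePoint F) '' DD F = DD F →
      (∀ (φ : F ≃+* F), (∀ a ∈ acl (∅ : Set F), φ a = a) → g * autP φ = autP φ * g) →
      ∀ r : OnePoint F, r ∈ R → r ∉ DD F → g r ∈ R →
        (g : OnePoint F → OnePoint F) '' R = R ∧
          (g : OnePoint F → OnePoint F) '' (Q : Set (OnePoint F)) = Q)
    {ρ b : F} (hρ : ρ ∉ acl (∅ : Set F)) (hρR : (ρ : OnePoint F) ∈ R) (hb : b ∈ acl (∅ : Set F))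
    (hρb : ((ρ + b : F) : OnePoint F) ∈ R) : b = 0 := by
  classical
  by_contra hb0
  have hn := st.n5
  obtain ⟨-, hQ⟩ := h3 (addP b) (st.hG (addP_mem_GG b)) (addP_image_DD hb)
    (fun φ hφ => addP_autP φ (hφ b hb)) (ρ : OnePoint F) hρR (fun h => hρ (PG.coe_mem_DD.1 h))
    (by rw [addP_coe, add_comm]; exact hρb)
  -- a finite point of `Q`
  obtain ⟨q, hq, hqi⟩ : ∃ q ∈ Q, q ≠ ∞ := by
    by_contra hcon
    push Not at hcon
    have : Q ⊆ {∞} := fun x hx => Finset.mem_singleton.2 (hcon x hx)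
    have := Finset.card_le_card this
    rw [hR.card, Finset.card_singleton] at this
    omega
  obtain ⟨q₀, rfl⟩ : ∃ q₀ : F, q = (q₀ : OnePoint F) := by
    induction q using OnePoint.rec with
    | infty => exact absurd rfl hqi
    | coe x => exact ⟨x, rfl⟩
  have hall : ∀ i : ℕ, ((i * b + q₀ : F) : OnePoint F) ∈ (Q : Set (OnePoint F)) := by
    intro i
    induction i with
    | zero => simpa using hq
    | succ i ih =>
      rw [← hQ]
      refine ⟨_, ih, ?_⟩
      rw [addP_coe]
      congr 1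
      push_cast
      ring
  have hinj : Function.Injective (fun i : ℕ => (((i * b + q₀ : F)) : OnePoint F)) := by
    intro i j hij
    have h1 : (i * b + q₀ : F) = j * b + q₀ := coe_eq_coe.1 hij
    have h2 : (i : F) * b = j * b := add_right_cancel h1
    have h4 : (i : F) = j := mul_right_cancel₀ hb0 h2
    exact_mod_cast h4
  exact (Set.infinite_of_injective_forall_mem hinj hall) Q.finite_toSet

end LemFAux

open LemFAux in
theorem tLemF.{u} (hBas : S_Bas.{u}) (hTwo : S_Two.{u}) (hPlace : S_Place.{u}) : S_LemF.{u} := by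
  intro F _ _ _ htd H n st κ hκ hκD y₀ hy₀ w hw T a₀ hT ha₀ hne
  classical
  obtain ⟨b1, b2, b3, b4, b5, b6, b7⟩ := hBas F H n st
  obtain ⟨t1, t2⟩ := hTwo F H n st
  have hn := st.n5
  have hak : ∀ a : ℤ, (a : F) ∈ acl (∅ : Set F) := fun a => int_mem _ a
  have wk : ∀ a, w a ∉ acl (∅ : Set F) := by
    intro a ha
    have h1 : ((w a + a : F) : OnePoint F) ∈ DD F :=
      PG.coe_mem_DD.2 ((acl (∅ : Set F)).add_mem ha (hak a))
    have h2 := hκD _ h1
    rw [← hw a] at h2
    have h3 := κ.injective h2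
    rw [hw a] at h3
    have h4 : w a + a = y₀ + a := coe_eq_coe.1 h3
    exact hy₀ (add_right_cancel h4 ▸ ha)
  have wD : ∀ a, (w a : OnePoint F) ∉ DD F := fun a h => wk a (PG.coe_mem_DD.1 h)
  have yD : (y₀ : OnePoint F) ∉ DD F := fun h => hy₀ (PG.coe_mem_DD.1 h)
  obtain ⟨Q, L, hQc, hQD, hkL, hyL, hWL, hin, hout⟩ := hPlace F htd H n st (w a₀) (T.image w) (wk a₀)
    (by
      intro x hx
      obtain ⟨a, ha, rfl⟩ := Finset.mem_image.1 hx
      exact ⟨wk a, hne a ha⟩)
  have hDL : DD F ⊆ PP L := PP_mono hkL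
  have haL : ∀ a : ℤ, (a : F) ∈ L := fun a => int_mem _ a
  choose B hB using fun a : ℤ => (t2 Q (w a : OnePoint F) hQc hQD (wD a)).exists
  obtain ⟨R, hR, hyR⟩ := (t2 Q (y₀ : OnePoint F) hQc hQD yD).exists
  have hQmem : ∀ (a : ℤ), ∀ q ∈ Q, addP (a : F) q ∈ DD F := fun a q hq =>
    (addP_mem_PP (hak a) q).2 (hQD (Finset.mem_coe.2 hq))
  have hya : ∀ a : ℤ, ((y₀ + a : F) : OnePoint F) = addP (a : F) (y₀ : OnePoint F) := by
    intro a; rw [addP_coe, add_comm]
  have hwa : ∀ a : ℤ, ((w a + a : F) : OnePoint F) = addP (a : F) (w a : OnePoint F) := by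
    intro a; rw [addP_coe, add_comm]
  -- the finite set of `n` points in `t_a '' R`
  let A : ℤ → Finset (OnePoint F) := fun a =>
    insert ((y₀ + a : F) : OnePoint F) (Q.image (addP (a : F)))
  have hAc : ∀ a, n ≤ (A a).card := by
    intro a
    have h1 : ((y₀ + a : F) : OnePoint F) ∉ Q.image (addP (a : F)) := by
      intro h
      obtain ⟨q, hq, hqe⟩ := Finset.mem_image.1 h
      have h2 := hQmem a q hq
      rw [hqe] at h2
      have h3 := PG.coe_mem_DD.1 h2
      apply hy₀
      have := (acl (∅ : Set F)).sub_mem h3 (hak a)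
      rwa [add_sub_cancel_right] at this
    rw [Finset.card_insert_of_notMem h1, Finset.card_image_of_injective _ (addP (a : F)).injective,
      hQc]
    omega
  have hAR : ∀ a, ∀ x ∈ A a, x ∈ (addP (a : F) : OnePoint F → OnePoint F) '' R := by
    intro a x hx
    rcases Finset.mem_insert.1 hx with rfl | hx
    · rw [hya a]; exact ⟨_, hyR, rfl⟩
    · obtain ⟨q, hq, rfl⟩ := Finset.mem_image.1 hx
      exact ⟨q, hR.subR (Finset.mem_coe.2 hq), rfl⟩
  have hblkR : ∀ a : ℤ, Blk H ((addP (a : F) : OnePoint F → OnePoint F) '' R) := fun a =>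
    b6 R hR.blk _ (st.hG (addP_mem_GG _))
  have hblkB : ∀ a : ℤ, Blk H ((addP (a : F) : OnePoint F → OnePoint F) '' B a) := fun a =>
    b6 (B a) (hB a).1.blk _ (st.hG (addP_mem_GG _))
  have key2 : ∀ a : ℤ, (κ : OnePoint F → OnePoint F) '' ((addP (a : F) : OnePoint F → OnePoint F) '' R)
      = (addP (a : F) : OnePoint F → OnePoint F) '' B a := by
    intro a
    refine b2 κ hκ _ _ (hblkR a) (hblkB a) (A a) (hAc a) ?_
    intro x hx
    refine ⟨hAR a x hx, ?_⟩
    rcases Finset.mem_insert.1 hx with rfl | hx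
    · rw [hw a, hwa a]; exact ⟨_, (hB a).2, rfl⟩
    · obtain ⟨q, hq, rfl⟩ := Finset.mem_image.1 hx
      rw [hκD _ (hQmem a q hq)]
      exact ⟨q, (hB a).1.subR (Finset.mem_coe.2 hq), rfl⟩
  -- the main step
  have main : ∀ γ : F ≃+* F, (∀ x ∈ L, γ x = x) →
      ∀ z ∈ (addP (a₀ : F) : OnePoint F → OnePoint F) '' R, autP γ (κ z) = κ z := by
    intro γ hγ
    have hγP : ∀ x ∈ PP L, autP γ x = x := by
      rintro x (rfl | ⟨a, ha, rfl⟩)
      · rfl
      · rw [autP_coe, hγ a ha]
    set τ : Equiv.Perm (OnePoint F) := κ⁻¹ * autP γ * κ with hτ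
    have hτH : τ ∈ H := H.mul_mem (H.mul_mem (H.inv_mem hκ) (st.hG (autP_mem_GG γ))) hκ
    have hτx : ∀ x, κ x ∈ PP L → τ x = x := by
      intro x hx
      rw [hτ, Equiv.Perm.mul_apply, Equiv.Perm.mul_apply, hγP _ hx]
      exact inv_apply_self' κ x
    have hτD : ∀ d ∈ DD F, τ d = d := by
      intro d hd
      apply hτx
      rw [hκD d hd]
      exact hDL hd
    have c3 : ∀ a ∈ T, ∀ x ∈ (addP (a : F) : OnePoint F → OnePoint F) '' R, τ x = x := by
      intro a ha x hx
      apply hτx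
      have h1 : κ x ∈ (addP (a : F) : OnePoint F → OnePoint F) '' B a := by
        rw [← key2 a]; exact ⟨x, hx, rfl⟩
      obtain ⟨z, hz, hze⟩ := h1
      rw [← hze, addP_mem_PP (haL a)]
      exact hin (w a) (Finset.mem_image_of_mem w ha) (B a) (hB a).1 (hB a).2 hz
    have c4 : (τ : OnePoint F → OnePoint F) '' ((addP (a₀ : F) : OnePoint F → OnePoint F) '' R) =
        (addP (a₀ : F) : OnePoint F → OnePoint F) '' R := by
      refine b2 τ hτH _ _ (hblkR a₀) (hblkR a₀) (A a₀) (hAc a₀) ?_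
      intro x hx
      have h1 := hAR a₀ x hx
      refine ⟨h1, ?_⟩
      have h2 : τ x = x := by
        rcases Finset.mem_insert.1 hx with rfl | hx
        · apply hτx
          rw [hw a₀, hwa a₀, addP_mem_PP (haL a₀)]
          exact (coe_mem_PP _ _).2 hyL
        · obtain ⟨q, hq, rfl⟩ := Finset.mem_image.1 hx
          exact hτD _ (hQmem a₀ q hq)
      rw [h2]; exact h1
    -- `τ` fixes the translate of `R`
    have c5 : ∀ z ∈ (addP (a₀ : F) : OnePoint F → OnePoint F) '' R, τ z = z := by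
      rintro _ ⟨r, hr, rfl⟩
      by_cases hrD : r ∈ DD F
      · exact hτD _ ((addP_mem_PP (hak a₀) r).2 hrD)
      obtain ⟨ρ, rfl, hρ⟩ := PG.exists_coe_of_not_mem_DD hrD
      have hline : (τ : OnePoint F → OnePoint F) '' Ln ρ 1 = Ln ρ 1 := by
        let A' : Finset (OnePoint F) := insert ∞ (T.image fun a : ℤ => ((ρ + a : F) : OnePoint F))
        have hinj : Function.Injective fun a : ℤ => ((ρ + a : F) : OnePoint F) := by
          intro i j hij
          have h1 : (ρ + i : F) = ρ + j := coe_eq_coe.1 hij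
          have h2 : (i : F) = j := add_left_cancel h1
          exact_mod_cast h2
        have hc : n ≤ A'.card := by
          have h1 : (∞ : OnePoint F) ∉ T.image fun a : ℤ => ((ρ + a : F) : OnePoint F) := by
            intro h
            obtain ⟨a, -, ha⟩ := Finset.mem_image.1 h
            exact coe_ne_infty _ ha
          rw [Finset.card_insert_of_notMem h1, Finset.card_image_of_injective _ hinj, hT]
          omega
        refine b2 τ hτH _ _ (b3 ρ 1 one_ne_zero) (b3 ρ 1 one_ne_zero) A' hc ?_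
        intro x hx
        rcases Finset.mem_insert.1 hx with rfl | hx
        · refine ⟨Or.inl rfl, ?_⟩
          rw [hτD _ PG.infty_mem_DD]; exact Or.inl rfl
        · obtain ⟨a, ha, rfl⟩ := Finset.mem_image.1 hx
          have h1 : ((ρ + a : F) : OnePoint F) ∈ Ln ρ 1 := Or.inr ⟨a, hak a, by rw [mul_one]⟩
          refine ⟨h1, ?_⟩
          have h2 : τ ((ρ + a : F) : OnePoint F) = ((ρ + a : F) : OnePoint F) := by
            apply c3 a ha
            refine ⟨_, hr, ?_⟩
            rw [addP_coe, add_comm]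
          show τ ((ρ + a : F) : OnePoint F) ∈ Ln ρ 1
          rw [h2]; exact h1
      have hx1 : addP (a₀ : F) (ρ : OnePoint F) ∈ Ln ρ 1 :=
        Or.inr ⟨a₀, hak a₀, by rw [addP_coe, mul_one, add_comm]⟩
      have hx2 : τ (addP (a₀ : F) (ρ : OnePoint F)) ∈ Ln ρ 1 := by
        rw [← hline]; exact ⟨_, hx1, rfl⟩
      have hx3 : τ (addP (a₀ : F) (ρ : OnePoint F)) ∈
          (addP (a₀ : F) : OnePoint F → OnePoint F) '' R := by
        rw [← c4]; exact ⟨_, ⟨_, hr, rfl⟩, rfl⟩
      rcases hx2 with h | ⟨c, hc, h⟩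
      · exfalso
        have h5 : τ (addP (a₀ : F) (ρ : OnePoint F)) = τ ∞ := by
          rw [h, hτD _ PG.infty_mem_DD]
        have h6 := τ.injective h5
        rw [addP_coe] at h6
        exact coe_ne_infty _ h6
      · rw [h] at hx3
        obtain ⟨r', hr', he⟩ := hx3
        obtain ⟨ρ', rfl⟩ : ∃ ρ' : F, r' = (ρ' : OnePoint F) := by
          induction r' using OnePoint.rec with
          | infty => rw [addP_infty] at he; exact absurd he.symm (coe_ne_infty _)
          | coe x => exact ⟨x, rfl⟩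
        rw [addP_coe] at he
        have he' : (a₀ : F) + ρ' = ρ + c * 1 := coe_eq_coe.1 he
        have hρ' : ρ' = ρ + (c - a₀) := by linear_combination he'
        rw [hρ'] at hr'
        have hz := noDiff st hR (t1 Q R hR).2.2 hρ hr ((acl (∅ : Set F)).sub_mem hc (hak a₀)) hr'
        have hca : c = a₀ := sub_eq_zero.1 hz
        rw [h, hca, addP_coe, mul_one, add_comm]
    intro z hz
    have h1 := c5 z hz
    rw [hτ, Equiv.Perm.mul_apply, Equiv.Perm.mul_apply] at h1
    have h2 := congrArg κ h1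
    rw [apply_inv_self'] at h2
    exact h2
  -- the contradiction
  refine hout (B a₀) (hB a₀).1 (hB a₀).2 ?_
  intro x hx
  induction x using OnePoint.rec with
  | infty => exact infty_mem_PP L
  | coe ξ =>
    rw [coe_mem_PP]
    have hfix : ∀ γ : F ≃+* F, (∀ x ∈ L, γ x = x) → γ ξ = ξ := by
      intro γ hγ
      have h1 : addP (a₀ : F) (ξ : OnePoint F) ∈
          (κ : OnePoint F → OnePoint F) '' ((addP (a₀ : F) : OnePoint F → OnePoint F) '' R) := by
        rw [key2 a₀]; exact ⟨_, hx, rfl⟩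
      obtain ⟨z, hz, hze⟩ := h1
      have h2 := main γ hγ z hz
      rw [hze, addP_coe, autP_coe] at h2
      have h3 : γ ((a₀ : F) + ξ) = (a₀ : F) + ξ := coe_eq_coe.1 h2
      rw [map_add, map_intCast] at h3
      exact add_left_cancel h3
    obtain ⟨i, hi⟩ := fixed_aut_pow_mem 1 L hfix
    simpa using hi

end Pool.Agent.MPa267.M
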