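import Pool.Agent.Lib.MP_a267a3_lc.M.Spec

set_option autoImplicit false

namespace Pool.Agent.MPa267.M

open OnePoint

namespace NilAux

universe u

variable {E V B : Type u} [Field E] [Group V] {K : Subfield E} {v : E} {m : ℕ}
  {C : E → V →* Equiv.Perm B}

theorem one_step (h : Sys K v m C) {a : E} (ha : a ∈ K) (ha0 : a ≠ 0) :
    (C 0).ker.map (C v) ≤ (C (a * v)).ker.map (C 0) := by
  rintro g ⟨ν, hν, rfl⟩
  have he : -(a⁻¹ * v) ∉ K := by
    intro h1
    have h2 : a⁻¹ * v ∈ K := by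
      have := K.neg_mem h1
      rwa [neg_neg] at this
    have h3 : a * (a⁻¹ * v) ∈ K := K.mul_mem ha h2
    rw [mul_inv_cancel_left₀ ha0] at h3
    exact h.hv h3
  obtain ⟨φ, hφ, hφK, hφC⟩ := h.sub _ he
  obtain ⟨ν₁, hν₁⟩ := hφC ν
  obtain ⟨τ, hτ⟩ := h.tr (-(a * v)) ν₁
  refine ⟨τ, ?_, ?_⟩
  · change C (a * v) τ = 1
    rw [hτ, add_neg_cancel, hν₁, map_zero]
    exact hν
  · rw [hτ, zero_add, hν₁, map_neg, map_mul, hφK a ha, hφ]
    have h4 : -(a * -(a⁻¹ * v)) = v := by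
      rw [mul_neg, neg_neg, mul_inv_cancel_left₀ ha0]
    rw [h4]

theorem step (h : Sys K v m C) : ∀ (j : ℕ) (s : Finset E), (s : Set E) ⊆ K → (0 : E) ∉ s →
    s.card = j + 1 →
    lcs ((C 0).ker.map (C v)) j ≤ (⨅ a ∈ s, (C (a * v)).ker).map (C 0) := by
  classical
  intro j
  induction j with
  | zero =>
    intro s hs h0 hc
    obtain ⟨a, rfl⟩ := Finset.card_eq_one.1 hc
    have ha : a ∈ K := hs (by simp)
    have ha0 : a ≠ 0 := fun h1 => h0 (by simp [h1])
    rw [Finset.iInf_singleton]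
    exact one_step h ha ha0
  | succ j ih =>
    intro s hs h0 hc
    obtain ⟨a, s', ha', rfl, hc'⟩ := Finset.card_eq_succ.1 hc
    have ha : a ∈ K := hs (by simp)
    have ha0 : a ≠ 0 := fun h1 => h0 (by simp [h1])
    have h1 := ih s' (fun x hx => hs (by simp [Finset.mem_coe.1 hx]))
      (fun hx => h0 (Finset.mem_insert_of_mem hx)) hc'
    have h2 := one_step h ha ha0
    have hn : (⨅ x ∈ s', (C (x * v)).ker).Normal := by
      refine ⟨fun n hn g => ?_⟩
      simp only [Subgroup.mem_iInf] at hn ⊢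
      intro x hx
      exact (inferInstance : (C (x * v)).ker.Normal).conj_mem n (hn x hx) g
    rw [Finset.iInf_insert]
    change ⁅(C 0).ker.map (C v), lcs ((C 0).ker.map (C v)) j⁆ ≤ _
    refine (Subgroup.commutator_mono h2 h1).trans ?_
    rw [← Subgroup.map_commutator]
    exact Subgroup.map_mono (Subgroup.commutator_le_inf _ _)

end NilAux

open NilAux in
theorem tNil.{u} : S_Nil.{u} := by
  intro E V B _ _ K v m C h
  obtain ⟨s, hs, h0, hc⟩ := h.card
  have hm := h.m2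
  have h1 := step h (m - 1) s hs h0 (by omega)
  rw [eq_bot_iff]
  refine h1.trans ?_
  rintro g ⟨τ, hτ, rfl⟩
  rw [Subgroup.mem_bot]
  simp only [SetLike.mem_coe, Subgroup.mem_iInf, MonoidHom.mem_ker] at hτ
  ext b
  have h2 := h.rig 0 v h.hv τ b b ⟨s, hs, hc, fun a ha => by
    rw [zero_add, hτ a ha]
    rfl⟩ 0 K.zero_mem
  rw [zero_mul, add_zero] at h2
  rw [h2]
  rfl

end Pool.Agent.MPa267.M
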