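import Pool.Agent.Lib.MP_a267a3_lc.M.Spec
import Pool.Agent.Lib.MP_a267a3_lc.AlgD

/-!
# MP_a267a3_lc, M/Ntr: a block of type II is not rational over `k(y)`
-/

set_option autoImplicit false

namespace Pool.Agent.MPa267.M

open OnePoint Pool.Agent.MPa267.D1

namespace NtrAux

universe u

variable {F : Type u} [Field F]

/-- a Moebius map fixing `0, 1, ∞` is the identity -/
theorem mob_eq_one {g : GL (Fin 2) F} (h0 : mob g ((0 : F) : OnePoint F) = (0 : F))
    (h1 : mob g ((1 : F) : OnePoint F) = (1 : F)) (hi : mob g ∞ = ∞) : mob g = 1 := by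
  classical
  rw [mob_infty] at hi
  have h10 : g 1 0 = 0 := by
    by_contra h
    rw [if_neg h] at hi
    exact coe_ne_infty _ hi
  rw [mob_coe, h10] at h0 h1
  simp only [zero_add, mul_zero, mul_one] at h0 h1
  have h11 : g 1 1 ≠ 0 := by
    intro h
    rw [if_pos h] at h0
    exact infty_ne_coe _ h0
  rw [if_neg h11, coe_eq_coe] at h0 h1
  have h01 : g 0 1 = 0 := by
    rcases div_eq_zero_iff.1 h0 with h | h
    · exact h
    · exact absurd h h11
  rw [div_eq_one_iff_eq h11, h01, add_zero] at h1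
  ext x : 1
  rw [Equiv.Perm.one_apply]
  induction x using OnePoint.rec with
  | infty => rw [mob_infty, if_pos h10]
  | coe x =>
    rw [mob_coe, h10, h01, h1]
    simp only [zero_mul, zero_add, add_zero]
    rw [if_neg h11, coe_eq_coe, mul_div_cancel_left₀ _ h11]

theorem mem_top (x : OnePoint F) : x ∈ PP (⊤ : Subfield F) := by
  induction x using OnePoint.rec with
  | infty => exact infty_mem_PP _
  | coe x => exact (coe_mem_PP _ _).2 trivial

/-- a Moebius map is determined by its values at three points -/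
theorem mob_eq_of_three {g g' : GL (Fin 2) F} {x y z : OnePoint F} (hxy : x ≠ y) (hxz : x ≠ z)
    (hyz : y ≠ z) (h1 : mob g x = mob g' x) (h2 : mob g y = mob g' y) (h3 : mob g z = mob g' z) :
    mob g = mob g' := by
  obtain ⟨h, -, e1, e2, e3⟩ := mob_three (K := ⊤) hxy hxz hyz (mem_top x) (mem_top y) (mem_top z)
  have key : ∀ w v : OnePoint F, mob h w = v → mob g v = mob g' v →
      mob (h⁻¹ * (g'⁻¹ * (g * h))) w = w := by
    intro w v hw hv
    rw [mob_mul, mob_mul, mob_mul, mob_inv, mob_inv, Equiv.Perm.mul_apply, Equiv.Perm.mul_apply,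
      Equiv.Perm.mul_apply, hw, hv, inv_apply_self', ← hw, inv_apply_self']
  have e4 := mob_eq_one (key _ _ e1 h1) (key _ _ e2 h2) (key _ _ e3 h3)
  rw [mob_mul, mob_mul, mob_mul, mob_inv, mob_inv] at e4
  have e5 : (mob g')⁻¹ * (mob g * mob h) = mob h := by
    rw [inv_mul_eq_one] at e4
    exact e4.symm
  have e6 : mob g * mob h = mob g' * mob h := by
    rw [inv_mul_eq_iff_eq_mul] at e5
    exact e5
  exact mul_right_cancel e6

/-- an automorphism over `k` which fixes `y` fixes `k(y)` -/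
theorem fix_kk {y : F} {φ : F ≃+* F} (hφ : ∀ a ∈ acl (∅ : Set F), φ a = a) (hy : φ y = y) {z : F}
    (hz : z ∈ D1.kk y) : φ z = z := by
  have h1 : Set.EqOn (φ : F →+* F) (RingHom.id F)
      (insert y ((acl (∅ : Set F) : Subfield F) : Set F)) := by
    intro w hw
    rcases hw with rfl | hw
    · exact hy
    · exact hφ w hw
  exact RingHom.eqOn_field_closure h1 hz

theorem coe_DD (x : F) : (x : OnePoint F) ∈ DD F ↔ x ∈ acl (∅ : Set F) := coe_mem_PP _ _

/-- every point of the block outside `D` is the image of `y` under a Moebius map preserving `Q` -/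
theorem main_step [IsAlgClosed F] [CharZero F] {H : Subgroup (Equiv.Perm (OnePoint F))}
    {n : ℕ} (hSt : St H n) {Q : Finset (OnePoint F)} {R : Set (OnePoint F)}
    (h2 : ∀ (φ : F ≃+* F), (∀ a ∈ acl (∅ : Set F), φ a = a) → ∀ r s : OnePoint F, r ∈ R → s ∈ R →
      r ∉ DD F → autP φ r = s → (autP φ : OnePoint F → OnePoint F) '' R = R)
    (h3 : ∀ g ∈ H, (g : OnePoint F → OnePoint F) '' DD F = DD F →
      (∀ (φ : F ≃+* F), (∀ a ∈ acl (∅ : Set F), φ a = a) → g * autP φ = autP φ * g) →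
      ∀ r : OnePoint F, r ∈ R → r ∉ DD F → g r ∈ R →
        (g : OnePoint F → OnePoint F) '' R = R ∧
          (g : OnePoint F → OnePoint F) '' (Q : Set (OnePoint F)) = Q)
    {y : F} (hyR : (y : OnePoint F) ∈ R) (hy : y ∉ acl (∅ : Set F)) (hsub : R ⊆ PP (D1.kk y))
    {r : OnePoint F} (hr : r ∈ R) (hrD : r ∉ DD F) :
    ∃ g : GL (Fin 2) F, mob g (y : OnePoint F) = r ∧
      (mob g : OnePoint F → OnePoint F) '' (Q : Set (OnePoint F)) = Q := by
  have := isAlgClosed_acl (∅ : Set F)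
  have hyD : (y : OnePoint F) ∉ DD F := fun h => hy ((coe_DD y).1 h)
  have hrinf : r ≠ ∞ := by
    rintro rfl
    exact hrD (infty_mem_PP _)
  obtain ⟨x, rfl⟩ := ne_infty_iff_exists.1 hrinf
  have hx : x ∉ acl (∅ : Set F) := fun h => hrD ((coe_DD x).2 h)
  have hxk : x ∈ D1.kk y := (coe_mem_PP _ _).1 (hsub hr)
  obtain ⟨α, hα, hαx⟩ := exists_aut_of_not_mem (acl (∅ : Set F)) hx hy
  have hαR := h2 α hα (x : OnePoint F) (y : OnePoint F) hr hyR hrD (by rw [autP_coe, hαx])
  have hαy : α y ∈ D1.kk y := by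
    have e1 : autP α (y : OnePoint F) ∈ R := by
      rw [← hαR]
      exact Set.mem_image_of_mem _ hyR
    rw [autP_coe] at e1
    exact (coe_mem_PP _ _).1 (hsub e1)
  have hst : ∀ φ : F ≃+* F, (∀ a ∈ acl (∅ : Set F), φ a = a) → (φ y = y ↔ φ x = x) := by
    intro φ hφ
    refine ⟨fun h => fix_kk hφ h hxk, fun h => ?_⟩
    have hψ : ∀ a ∈ acl (∅ : Set F), (α.symm.trans (φ.trans α)) a = a := by
      intro a ha
      have e1 : α.symm a = a := by
        rw [RingEquiv.symm_apply_eq, hα a ha]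
      simp only [RingEquiv.trans_apply]
      rw [e1, hφ a ha, hα a ha]
    have hψy : (α.symm.trans (φ.trans α)) y = y := by
      have e1 : α.symm y = x := by
        rw [RingEquiv.symm_apply_eq, hαx]
      simp only [RingEquiv.trans_apply]
      rw [e1, h, hαx]
    have e2 := fix_kk hψ hψy hαy
    simp only [RingEquiv.trans_apply, RingEquiv.symm_apply_apply] at e2
    exact α.injective e2
  obtain ⟨g, i, j, hg, hgx⟩ := moebius_of_same_stabiliser 1 (acl (∅ : Set F)) hy hx hst
  simp only [one_pow, pow_one] at hgx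
  refine ⟨g, hgx.symm, ?_⟩
  have hgD : (mob g : OnePoint F → OnePoint F) '' DD F = DD F := by
    ext z
    constructor
    · rintro ⟨w, hw, rfl⟩
      exact (mob_mem_PP hg w).2 hw
    · intro hz
      refine ⟨(mob g)⁻¹ z, ?_, apply_inv_self' _ _⟩
      rw [← mob_inv]
      exact (mob_mem_PP (GLK_inv hg) z).2 hz
  refine (h3 (mob g) (hSt.hG (mob_mem_GG g)) hgD (fun φ hφ => (autP_mob_comm hg hφ).symm)
    (y : OnePoint F) hyR hyD ?_).2
  rw [← hgx]
  exact hr

end NtrAux

theorem tNtr.{u} (hBas : S_Bas.{u}) (hTwo : S_Two.{u}) : S_Ntr.{u} := by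
  classical
  intro F _ _ _ H n hSt Q R hT y hyR hy hsub
  obtain ⟨hQ, h2, h3⟩ := (hTwo F H n hSt).1 Q R hT
  have hinf : R.Infinite := (hBas F H n hSt).2.2.2.2.1 R hT.blk
  have hcard : 2 < Q.card := by
    rw [hT.card]
    have := hSt.n5
    omega
  obtain ⟨q₁, q₂, q₃, m1, m2, m3, n12, n13, n23⟩ := Finset.two_lt_card_iff.1 hcard
  have hinf' : (R \ (Q : Set (OnePoint F))).Infinite := hinf.sdiff Q.finite_toSet
  have hstep : ∀ r : OnePoint F, r ∈ R \ (Q : Set (OnePoint F)) →
      ∃ g : GL (Fin 2) F, mob g (y : OnePoint F) = r ∧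
        (mob g : OnePoint F → OnePoint F) '' (Q : Set (OnePoint F)) = Q := by
    intro r hr
    refine NtrAux.main_step hSt h2 h3 hyR hy hsub hr.1 fun hrD => hr.2 ?_
    rw [← hQ]
    exact ⟨hr.1, hrD⟩
  choose! G hG1 hG2 using hstep
  have hmaps : Set.MapsTo (fun r => (mob (G r) q₁, mob (G r) q₂, mob (G r) q₃))
      (R \ (Q : Set (OnePoint F))) ((Q ×ˢ Q ×ˢ Q : Finset _) : Set _) := by
    intro r hr
    have key : ∀ q ∈ Q, mob (G r) q ∈ Q := by
      intro q hq
      have e1 : mob (G r) q ∈ (mob (G r) : OnePoint F → OnePoint F) '' (Q : Set (OnePoint F)) :=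
        Set.mem_image_of_mem _ hq
      rw [hG2 r hr] at e1
      exact e1
    rw [Finset.mem_coe, Finset.mem_product, Finset.mem_product]
    exact ⟨key _ m1, key _ m2, key _ m3⟩
  refine hinf' (Set.Finite.of_injOn hmaps ?_ (Finset.finite_toSet _))
  intro r hr s hs hrs
  simp only [Prod.mk.injEq] at hrs
  have e1 := NtrAux.mob_eq_of_three n12 n13 n23 hrs.1 hrs.2.1 hrs.2.2
  rw [← hG1 r hr, ← hG1 s hs, e1]

end Pool.Agent.MPa267.M
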