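import Pool.Agent.Lib.MP_a267a3_lc.M.Spec

/-!
# MP_a267a3_lc, part M: polynomial functions contain affine functions (`S_Pol`)
-/

set_option autoImplicit false

namespace Pool.Agent.MPa267.M

open OnePoint Pool.Agent.MPa267.D1

universe u

namespace PolAux

lemma DL_delta {E A : Type*} [AddCommGroup E] [AddCommGroup A] (f : E → A) (h : E) :
    ∀ L : List E, DL L (fun w => f (w + h) - f w) = fun w => DL L f (w + h) - DL L f w
  | [] => rfl
  | k :: L => by
    have ih := DL_delta f h L
    funext w
    have e : ∀ (g : E → A) (x : E), DL (k :: L) g x = DL L g (x + k) - DL L g x := fun _ _ => rfl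
    rw [e, ih, e, e]
    have h1 : w + k + h = w + h + k := add_right_comm w k h
    show (DL L f (w + k + h) - DL L f (w + k)) - (DL L f (w + h) - DL L f w) =
      (DL L f (w + h + k) - DL L f (w + h)) - (DL L f (w + k) - DL L f w)
    rw [h1]
    abel

lemma main {E A : Type*} [AddCommGroup E] [AddCommGroup A] (S : AddSubgroup (E → A))
    (htr : ∀ f ∈ S, ∀ d : E, (fun w => f (w + d)) ∈ S) :
    ∀ (m : ℕ) (f : E → A), f ∈ S → (∀ L : List E, L.length = m → DL L f = 0) →
      (∃ x y, f x ≠ f y) → ∃ g ∈ S, ∃ l : E →+ A, l ≠ 0 ∧ ∀ h w, g (w + h) - g w = l h := by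
  intro m
  induction m with
  | zero =>
    intro f _ h0 hne
    obtain ⟨x, y, hxy⟩ := hne
    have : f = 0 := h0 [] rfl
    exact absurd (by rw [this]; rfl) hxy
  | succ m ih =>
    intro f hf h0 hne
    by_cases hc : ∃ h : E, ∃ x y, f (x + h) - f x ≠ f (y + h) - f y
    · obtain ⟨h, x, y, hxy⟩ := hc
      refine ih (fun w => f (w + h) - f w) (S.sub_mem (htr f hf h) hf) ?_ ⟨x, y, hxy⟩
      intro L hL
      rw [DL_delta]
      exact h0 (h :: L) (by simp [hL])
    · push Not at hc
      refine ⟨f, hf, AddMonoidHom.mk' (fun h => f (0 + h) - f 0) ?_, ?_, ?_⟩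
      · intro a b
        have := hc b 0 (0 + a)
        have e : (0 : E) + (a + b) = 0 + a + b := (add_assoc 0 a b).symm
        rw [e, this]
        abel
      · intro hl
        obtain ⟨x, y, hxy⟩ := hne
        have key : ∀ z, f z = f 0 := by
          intro z
          have h1 : f (0 + z) - f 0 = 0 := DFunLike.congr_fun hl z
          rw [zero_add] at h1
          exact sub_eq_zero.mp h1
        exact hxy ((key x).trans (key y).symm)
      · intro h w
        exact hc h w 0

end PolAux

theorem tPol : S_Pol.{u} := by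
  intro E A _ _ m S htr f hf h0 hne
  exact PolAux.main S htr m f hf h0 hne

end Pool.Agent.MPa267.M
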