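import Pool.Agent.Lib.MP_a267a3_lc.M.Spec

/-!
# MP_a267a3_lc: the system of permutations of `k` (II.1 - II.3)
-/

set_option autoImplicit false

namespace Pool.Agent.MPa267.M

open OnePoint Pool.Agent.MPa267.D1

universe u

namespace SysCAux

section

variable {F : Type u} [Field F] [IsAlgClosed F] {H : Subgroup (Equiv.Perm (OnePoint F))} {n : ℕ}

omit [IsAlgClosed F] in
/-- Many elements of `K₀`. -/
theorem exists_set {K₀ : Subfield F} (hg : Good K₀ n) (m : ℕ) (hm : m ≤ n) :
    ∃ s : Finset F, (∀ a ∈ s, a ∈ K₀ ∧ a ≠ 0) ∧ s.card = m := by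
  classical
  obtain ⟨ρ, hρ, hρ0, hinj⟩ := hg.rho
  refine ⟨(Finset.range m).image (fun i => ρ ^ (i + 1)), ?_, ?_⟩
  · intro a ha
    obtain ⟨i, -, rfl⟩ := Finset.mem_image.1 ha
    exact ⟨pow_mem hρ _, pow_ne_zero _ hρ0⟩
  · rw [Finset.card_image_of_injOn, Finset.card_range]
    intro i hi j hj hij
    have hi' : i < m := Finset.mem_range.1 (Finset.mem_coe.1 hi)
    have hj' : j < m := Finset.mem_range.1 (Finset.mem_coe.1 hj)
    have h1 : i + 1 = j + 1 := hinj (by simp only [Set.mem_ofPred_eq]; omega)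
      (by simp only [Set.mem_ofPred_eq]; omega) hij
    omega

omit [Field F] [IsAlgClosed F] in
theorem coe_inj {a b : F} (h : (a : OnePoint F) = (b : OnePoint F)) : a = b := OnePoint.coe_injective h

/-- The line through two sets of `n - 1` points. -/
theorem line_map (s : St H n) (hB : S_Bas.{u}) {τ : Equiv.Perm (OnePoint F)} (hτ : τ ∈ H) (hi : τ ∞ = ∞)
    {p q p' q' : F} (hq : q ≠ 0) (hq' : q' ≠ 0) (S : Finset F) (hS : n - 1 ≤ S.card)
    (h : ∀ a ∈ S, a ∈ acl (∅ : Set F) ∧ τ ((p + a * q : F) : OnePoint F) ∈ Ln p' q') :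
    (τ : OnePoint F → OnePoint F) '' Ln p q = Ln p' q' := by
  classical
  obtain ⟨-, b2, b3, -⟩ := hB F H n s
  let f : F → OnePoint F := fun a => ((p + a * q : F) : OnePoint F)
  have hf : Function.Injective f := by
    intro a b hab
    have h1 : p + a * q = p + b * q := coe_inj hab
    exact mul_right_cancel₀ hq (add_left_cancel h1)
  have hii : (∞ : OnePoint F) ∉ S.image f := by
    intro h1
    obtain ⟨a, -, ha⟩ := Finset.mem_image.1 h1
    exact OnePoint.coe_ne_infty _ ha
  refine b2 τ hτ _ _ (b3 p q hq) (b3 p' q' hq') (insert ∞ (S.image f)) ?_ ?_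
  · rw [Finset.card_insert_of_notMem hii, Finset.card_image_of_injective _ hf]
    omega
  · intro x hx
    rcases Finset.mem_insert.1 hx with rfl | hx
    · exact ⟨Or.inl rfl, by rw [hi]; exact Or.inl rfl⟩
    · obtain ⟨a, ha, rfl⟩ := Finset.mem_image.1 hx
      exact ⟨Or.inr ⟨a, (h a ha).1, rfl⟩, (h a ha).2⟩

omit [IsAlgClosed F] in
/-- The value of `τ` on a point of the line. -/
theorem line_val {τ : Equiv.Perm (OnePoint F)} (hi : τ ∞ = ∞) {p q p' q' : F}
    (h : (τ : OnePoint F → OnePoint F) '' Ln p q = Ln p' q') {a : F} (ha : a ∈ acl (∅ : Set F)) :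
    ∃ c ∈ acl (∅ : Set F), τ ((p + a * q : F) : OnePoint F) = ((p' + c * q' : F) : OnePoint F) := by
  have h1 : τ ((p + a * q : F) : OnePoint F) ∈ Ln p' q' := by
    rw [← h]
    exact ⟨_, Or.inr ⟨a, ha, rfl⟩, rfl⟩
  rcases h1 with h1 | ⟨c, hc, h1⟩
  · rw [← hi] at h1
    exact absurd (τ.injective h1) (OnePoint.coe_ne_infty _)
  · exact ⟨c, hc, h1⟩

/-- The line `w + k` is invariant. -/
theorem val (s : St H n) (hB : S_Bas.{u}) {K₀ : Subfield F} (hg : Good K₀ n) {v : F}
    {τ : Equiv.Perm (OnePoint F)} (hτ : τ ∈ VV H (EE K₀ v)) {w : F} (hw : w ∈ EE K₀ v) (b : acl (∅ : Set F)) :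
    ∃ c : acl (∅ : Set F), τ ((w + (b : F) : F) : OnePoint F) = ((w + (c : F) : F) : OnePoint F) := by
  obtain ⟨S, hS, hc⟩ := exists_set hg n le_rfl
  have hi : τ ∞ = ∞ := hτ.2 _ (infty_mem_PP _)
  have hle : K₀ ≤ EE K₀ v := fun x hx => Subfield.subset_closure (Set.mem_insert_of_mem _ hx)
  have h1 : (τ : OnePoint F → OnePoint F) '' Ln w 1 = Ln w 1 := by
    refine line_map s hB hτ.1 hi one_ne_zero one_ne_zero S (by omega) fun a ha => ⟨hg.le (hS a ha).1, ?_⟩
    rw [hτ.2 _ ((coe_mem_PP _ _).2 (add_mem hw (mul_mem (hle (hS a ha).1) (one_mem _))))]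
    exact Or.inr ⟨a, hg.le (hS a ha).1, rfl⟩
  obtain ⟨c, hc, h2⟩ := line_val hi h1 b.2
  rw [mul_one, mul_one] at h2
  exact ⟨⟨c, hc⟩, h2⟩

end

end SysCAux

open SysCAux in
theorem tSysC.{v'} : S_Bas.{v'} → S_EK.{v'} → S_SysC.{v'} := by
  classical
  intro hB hE F _ _ H n s K₀ hg v hv hvk
  obtain ⟨-, -, e3, e4, e5⟩ := hE F K₀ v hg.le hvk
  have hle : K₀ ≤ EE K₀ v := fun x hx => Subfield.subset_closure (Set.mem_insert_of_mem _ hx)
  have hval : ∀ (w : EE K₀ v) (τ : VV H (EE K₀ v)) (b : acl (∅ : Set F)), ∃ c : acl (∅ : Set F),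
      (τ : Equiv.Perm (OnePoint F)) (((w : F) + (b : F) : F) : OnePoint F) =
        (((w : F) + (c : F) : F) : OnePoint F) := fun w τ b => val s hB hg τ.2 w.2 b
  choose c hc using hval
  have huniq : ∀ (w : EE K₀ v) (τ : VV H (EE K₀ v)) (b d : acl (∅ : Set F)),
      (τ : Equiv.Perm (OnePoint F)) (((w : F) + (b : F) : F) : OnePoint F) =
        (((w : F) + (d : F) : F) : OnePoint F) → c w τ b = d := by
    intro w τ b d h
    rw [hc] at h
    exact Subtype.ext (add_left_cancel (coe_inj h))
  have hone : ∀ w b, c w 1 b = b := fun w b => huniq w 1 b b rfl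
  have hmul : ∀ w σ τ b, c w (σ * τ) b = c w σ (c w τ b) := by
    intro w σ τ b
    apply huniq
    rw [Subgroup.coe_mul, Equiv.Perm.mul_apply, hc, hc]
  let C : (EE K₀ v) → (VV H (EE K₀ v)) →* Equiv.Perm (acl (∅ : Set F)) := fun w =>
    { toFun := fun τ =>
        { toFun := c w τ
          invFun := c w τ⁻¹
          left_inv := fun b => by rw [← hmul, inv_mul_cancel, hone]
          right_inv := fun b => by rw [← hmul, mul_inv_cancel, hone] }
      map_one' := Equiv.ext fun b => hone w b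
      map_mul' := fun σ τ => Equiv.ext fun b => hmul w σ τ b }
  have hC : ∀ w τ b, C w τ b = c w τ b := fun _ _ _ => rfl
  have hCext : ∀ (w w' : EE K₀ v) (τ τ' : VV H (EE K₀ v)),
      (∀ b : acl (∅ : Set F), (τ' : Equiv.Perm (OnePoint F)) (((w' : F) + (b : F) : F) : OnePoint F) =
        (((w' : F) + (c w τ b : F) : F) : OnePoint F)) → C w' τ' = C w τ := by
    intro w w' τ τ' h
    apply Equiv.ext
    intro b
    rw [hC, hC]
    exact huniq w' τ' b _ (h b)
  have hcl : IsAlgClosed (acl (∅ : Set F)) := isAlgClosed_acl _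
  refine ⟨C, fun w τ b => hc w τ b, ?_⟩
  have hn5 := s.n5
  exact
    { m2 := by omega
      card := by
        obtain ⟨S, hS, hcS⟩ := exists_set hg (n - 1) (by omega)
        refine ⟨S.subtype (· ∈ EE K₀ v), ?_, ?_, ?_⟩
        · intro x hx
          rw [Finset.mem_coe, Finset.mem_subtype] at hx
          exact (hS _ hx).1
        · intro h0
          rw [Finset.mem_subtype] at h0
          exact (hS _ h0).2 rfl
        · rw [Finset.card_subtype, Finset.filter_true_of_mem fun x hx => hle (hS x hx).1, hcS]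
      big := by
        intro t
        obtain ⟨e, he, h⟩ := e4 (t.image Subtype.val)
        exact ⟨⟨e, he⟩, fun x hx => h x (Finset.mem_image_of_mem _ hx)⟩
      hv := fun h => hvk (hg.le h)
      tr := by
        intro d τ
        have h1 : (addP (d : F))⁻¹ * (τ : Equiv.Perm (OnePoint F)) * addP (d : F) ∈ VV H (EE K₀ v) := by
          refine ⟨mul_mem (mul_mem (inv_mem (s.hG (addP_mem_GG _))) τ.2.1) (s.hG (addP_mem_GG _)), ?_⟩
          intro x hx
          have h2 : addP (d : F) x ∈ PP (EE K₀ v) := by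
            induction x using OnePoint.rec with
            | infty => exact infty_mem_PP _
            | coe x =>
              rw [addP_coe, coe_mem_PP]
              exact add_mem d.2 ((coe_mem_PP _ _).1 hx)
          rw [Equiv.Perm.mul_apply, Equiv.Perm.mul_apply, τ.2.2 _ h2, Equiv.Perm.inv_eq_iff_eq]
        refine ⟨⟨_, h1⟩, fun w => ?_⟩
        apply hCext
        intro b
        change ((addP (d : F))⁻¹ * (τ : Equiv.Perm (OnePoint F)) * addP (d : F)) _ = _
        rw [Equiv.Perm.mul_apply, Equiv.Perm.mul_apply, addP_coe, Equiv.Perm.inv_eq_iff_eq, addP_coe]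
        have h2 : (d : F) + ((w : F) + (b : F)) = ((w + d : EE K₀ v) : F) + (b : F) := by
          rw [Subfield.coe_add]; ring
        have h3 : (d : F) + ((w : F) + (c (w + d) τ b : F)) =
            ((w + d : EE K₀ v) : F) + (c (w + d) τ b : F) := by
          rw [Subfield.coe_add]; ring
        rw [h2, h3, hc]
      sub := by
        intro e he
        have hek : (e : F) ∉ acl (∅ : Set F) := fun h => he (e3 _ e.2 h)
        obtain ⟨σ, hσk, hσv⟩ := exists_aut_of_not_mem (acl (∅ : Set F)) hvk hek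
        have hσE : ∀ x ∈ EE K₀ v, σ x ∈ EE K₀ v := e5 σ hσk (by rw [hσv]; exact e.2)
        let φ : (EE K₀ v) →+* (EE K₀ v) :=
          ((σ : F →+* F).comp (EE K₀ v).subtype).codRestrict (EE K₀ v) fun x => hσE x x.2
        have hφ : ∀ x : EE K₀ v, ((φ x : EE K₀ v) : F) = σ x := fun x => rfl
        refine ⟨φ, Subtype.ext hσv, fun a ha => Subtype.ext (hσk _ (hg.le ha)), fun τ => ?_⟩
        have h1 : (autP σ)⁻¹ * (τ : Equiv.Perm (OnePoint F)) * autP σ ∈ VV H (EE K₀ v) := by
          refine ⟨mul_mem (mul_mem (inv_mem (s.hG (autP_mem_GG _))) τ.2.1) (s.hG (autP_mem_GG _)), ?_⟩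
          intro x hx
          have h2 : autP σ x ∈ PP (EE K₀ v) := by
            induction x using OnePoint.rec with
            | infty => exact infty_mem_PP _
            | coe x =>
              rw [autP_coe, coe_mem_PP]
              exact hσE _ ((coe_mem_PP _ _).1 hx)
          rw [Equiv.Perm.mul_apply, Equiv.Perm.mul_apply, τ.2.2 _ h2, Equiv.Perm.inv_eq_iff_eq]
        refine ⟨⟨_, h1⟩, fun w => ?_⟩
        apply hCext
        intro b
        change ((autP σ)⁻¹ * (τ : Equiv.Perm (OnePoint F)) * autP σ) _ = _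
        rw [Equiv.Perm.mul_apply, Equiv.Perm.mul_apply, autP_coe, Equiv.Perm.inv_eq_iff_eq, autP_coe,
          map_add, map_add, hσk _ b.2, hσk _ (c (φ w) τ b).2, ← hφ, hc]
      rig := by
        intro w₀ w₁ hw₁ τ b b' hex a ha
        obtain ⟨S, hSK, hSc, hS⟩ := hex
        have hw₁k : (w₁ : F) ∉ acl (∅ : Set F) := fun h => hw₁ (e3 _ w₁.2 h)
        have hw₁0 : (w₁ : F) ≠ 0 := fun h => hw₁k (by rw [h]; exact zero_mem _)
        have hi : (τ : Equiv.Perm (OnePoint F)) ∞ = ∞ := τ.2.2 _ (infty_mem_PP _)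
        have hl : ((τ : Equiv.Perm (OnePoint F)) : OnePoint F → OnePoint F) '' Ln ((w₀ : F) + b) (w₁ : F) =
            Ln ((w₀ : F) + b') (w₁ : F) := by
          refine line_map s hB τ.2.1 hi hw₁0 hw₁0 (S.image Subtype.val) ?_ ?_
          · rw [Finset.card_image_of_injective _ Subtype.val_injective, hSc]
          · intro x hx
            obtain ⟨y, hy, rfl⟩ := Finset.mem_image.1 hx
            have hyK : (y : F) ∈ acl (∅ : Set F) := hg.le (hSK (Finset.mem_coe.2 hy))
            refine ⟨hyK, ?_⟩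
            have h2 : (w₀ : F) + b + y * w₁ = ((w₀ + y * w₁ : EE K₀ v) : F) + (b : F) := by
              rw [Subfield.coe_add, Subfield.coe_mul]; ring
            rw [h2, hc]
            refine Or.inr ⟨y, hyK, ?_⟩
            have h3 : c (w₀ + y * w₁) τ b = b' := hS y hy
            rw [h3, Subfield.coe_add, Subfield.coe_mul]
            congr 1
            ring
        have hak : (a : F) ∈ acl (∅ : Set F) := hg.le ha
        obtain ⟨d, hd, h2⟩ := line_val hi hl hak
        have h3 : (w₀ : F) + b + (a : F) * w₁ = ((w₀ + a * w₁ : EE K₀ v) : F) + (b : F) := by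
          rw [Subfield.coe_add, Subfield.coe_mul]; ring
        rw [h3, hc, Subfield.coe_add, Subfield.coe_mul] at h2
        have h4 := coe_inj h2
        rw [hC]
        by_cases had : (a : F) = d
        · rw [had] at h4
          apply Subtype.ext
          linear_combination h4
        · exfalso
          apply hw₁k
          have h5 : (a : F) - d ≠ 0 := sub_ne_zero.2 had
          have h6 : (w₁ : F) = ((b' : F) - (c (w₀ + a * w₁) τ b : F)) / ((a : F) - d) := by
            rw [eq_div_iff h5]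
            linear_combination h4
          rw [h6]
          exact div_mem (sub_mem b'.2 (c _ τ b).2) (sub_mem hak hd)
      zero := by
        intro τ h0 e he
        apply Equiv.ext
        intro b
        rw [hC]
        apply huniq
        have h1 : (e : F) + b ∈ acl (∅ : Set F) := add_mem (hg.le he) b.2
        have h2 := hc 0 τ ⟨(e : F) + b, h1⟩
        have h3 : c 0 τ ⟨(e : F) + b, h1⟩ = ⟨(e : F) + b, h1⟩ := by
          have := congrArg (fun g : Equiv.Perm (acl (∅ : Set F)) => g ⟨(e : F) + b, h1⟩) h0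
          exact this
        rw [h3] at h2
        have h4 : ((0 : EE K₀ v) : F) + ((e : F) + b) = (e : F) + b := by
          rw [Subfield.coe_zero, zero_add]
        rw [show ((0 : EE K₀ v) : F) + ((⟨(e : F) + b, h1⟩ : acl (∅ : Set F)) : F) = (e : F) + b from h4] at h2
        exact h2 }

end Pool.Agent.MPa267.M
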