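import Pool.Agent.Lib.MP_a267a3_lc.M.Spec

/-!
# MP_a267a3_lc: `TameA`, assembly of Part II
-/

set_option autoImplicit false

namespace Pool.Agent.MPa267.M

open OnePoint Pool.Agent.MPa267.D1

namespace TameAAux

variable {F : Type*} [Field F]

/-- characteristic zero: the prime field is admissible -/
theorem good_zero [CharZero F] (n : ℕ) : Good (⊥ : Subfield F) n := by
  refine ⟨bot_le, ⟨2, ?_, two_ne_zero, ?_⟩, Or.inl ⟨inferInstance, rfl⟩⟩
  · exact ofNat_mem _ 2
  · intro i _ j _ hij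
    have h1 : ((2 ^ i : ℕ) : F) = ((2 ^ j : ℕ) : F) := by
      push_cast
      exact hij
    exact Nat.pow_right_injective le_rfl (Nat.cast_injective h1)

/-- characteristic `p`: a finite field with many roots of unity -/
theorem good_p [IsAlgClosed F] (p : ℕ) [Fact p.Prime] [CharP F p] (n : ℕ) :
    ∃ K₀ : Subfield F, Good K₀ n := by
  classical
  have hp : p.Prime := Fact.out
  have hp0 : (p : F) = 0 := CharP.cast_eq_zero F p
  set m : ℕ := 2 * n * p + 1 with hm
  have hmF : (m : F) ≠ 0 := by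
    rw [hm]
    push_cast
    rw [hp0, mul_zero, zero_add]
    exact one_ne_zero
  have hmn : 2 * n < m := by
    have := Nat.le_mul_of_pos_right (2 * n) hp.pos
    omega
  have hne : NeZero (m : F) := ⟨hmF⟩
  have hne' : NeZero m := ⟨by omega⟩
  obtain ⟨ζ, hζ⟩ := HasEnoughRootsOfUnity.exists_primitiveRoot F m
  have hcop : Nat.Coprime p m := by
    rw [hp.coprime_iff_not_dvd]
    intro h
    have h2 : p ∣ 1 := by
      have h3 : p ∣ 2 * n * p := Dvd.intro_left _ rfl
      exact (Nat.dvd_add_right h3).1 h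
    exact hp.one_lt.ne' (Nat.dvd_one.1 h2)
  set k : ℕ := Nat.totient m with hk
  have hkpos : 0 < k := Nat.totient_pos.2 (by omega)
  have hmod : p ^ k ≡ 1 [MOD m] := Nat.ModEq.pow_totient hcop
  have hq1 : 1 < p ^ k := Nat.one_lt_pow hkpos.ne' hp.one_lt
  have hdvd : m ∣ p ^ k - 1 := (Nat.modEq_iff_dvd' hq1.le).1 hmod.symm
  have hζq : ζ ^ (p ^ k) = ζ := by
    obtain ⟨c, hc⟩ := hdvd
    have h1 : p ^ k = m * c + 1 := by omega
    rw [h1, pow_succ, pow_mul, hζ.pow_eq_one, one_pow, one_mul]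
  let K₀ : Subfield F := (iterateFrobenius F p k).eqLocusField (RingHom.id F)
  have hmem : ∀ x : F, x ∈ K₀ ↔ x ^ (p ^ k) = x := fun x => Iff.rfl
  refine ⟨K₀, ?_, ⟨ζ, (hmem ζ).2 hζq, hζ.ne_zero hne'.out, ?_⟩, Or.inr ?_⟩
  · intro x hx
    have hx' := (hmem x).1 hx
    by_cases hx0 : x = 0
    · rw [hx0]
      exact zero_mem _
    · apply UU_subset_acl
      refine ⟨p ^ k - 1, ?_, ?_⟩
      · rw [Nat.cast_sub hq1.le]
        push_cast
        rw [hp0, zero_pow hkpos.ne', zero_sub]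
        exact neg_ne_zero.2 one_ne_zero
      · have h1 : x ^ (p ^ k - 1) * x = 1 * x := by
          rw [← pow_succ, Nat.sub_add_cancel hq1.le, hx', one_mul]
        exact mul_right_cancel₀ hx0 h1
  · intro i hi j hj hij
    change i ≤ 2 * n at hi
    change j ≤ 2 * n at hj
    exact hζ.pow_inj (by omega) (by omega) hij
  · have hpoly : (Polynomial.X ^ (p ^ k) - Polynomial.X : Polynomial F) ≠ 0 :=
      FiniteField.X_pow_card_sub_X_ne_zero F hq1
    refine Set.Finite.subset (Polynomial.X ^ (p ^ k) - Polynomial.X : Polynomial F).roots.toFinset.finite_toSet ?_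
    intro x hx
    have hx' := (hmem x).1 hx
    rw [Finset.mem_coe, Multiset.mem_toFinset, Polynomial.mem_roots hpoly]
    simp [Polynomial.IsRoot, hx']

/-- an admissible small field exists -/
theorem exists_good [IsAlgClosed F] (n : ℕ) : ∃ K₀ : Subfield F, Good K₀ n := by
  obtain ⟨p, hp⟩ := CharP.exists F
  rcases CharP.char_is_prime_or_zero F p with h | h
  · have : Fact p.Prime := ⟨h⟩
    exact good_p p n
  · subst h
    have : CharZero F := CharP.charP_to_charZero F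
    exact ⟨⊥, good_zero n⟩

/-- an additive family of permutations turns multiples into powers -/
theorem lam_nsmul {E B : Type*} [AddGroup E] (lam : E → Equiv.Perm B)
    (hadd : ∀ h h', lam (h + h') = lam h * lam h') (h : E) (k : ℕ) : lam (k • h) = lam h ^ k := by
  have h0 : lam 0 = 1 := by
    have h1 := hadd 0 0
    rw [add_zero] at h1
    exact mul_left_cancel (h1.symm.trans (mul_one _).symm)
  induction k with
  | zero => rw [zero_smul, pow_zero, h0]
  | succ k ih => rw [succ_nsmul, hadd, ih, pow_succ]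

end TameAAux

open TameAAux in
/-- **TameA** -/
theorem tTameA.{u} (hBas : S_Bas.{u}) (_hEK : S_EK.{u}) (hFinGen : S_FinGen.{u}) (hAlg1 : S_Alg1.{u})
    (hAlg2 : S_Alg2.{u}) (hSysC : S_SysC.{u}) (hFld : S_Fld.{u}) (hAut0 : S_Aut0.{u})
    (hAutP : S_AutP.{u}) : S_TameA.{u} := by
  intro F _ _ H n hSt v hv
  classical
  obtain ⟨-, hB2, -, -, hB5, -, hB7⟩ := hBas F H n hSt
  obtain ⟨K₀, hK₀⟩ := exists_good (F := F) n
  obtain ⟨A, hA⟩ := hFinGen F H n hSt K₀ hK₀ v hv
  have hvE : v ∈ EE K₀ v := Subfield.subset_closure (Set.mem_insert _ _)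
  obtain ⟨C, hC, hSys⟩ := hSysC F H n hSt K₀ hK₀ v hvE hv
  have key : ∀ τ : VV H (EE K₀ v), C ⟨v, hvE⟩ τ = C 0 τ := by
    refine hAlg1 _ _ _ _ _ _ C hSys ?_
    intro ν hν
    by_contra hne
    obtain ⟨lam, hadd, ⟨h₁, hh₁⟩, hex⟩ := hAlg2 _ _ _ _ _ _ C hSys ⟨ν, hν, hne⟩
    have hring : ∀ h, (∀ a b, lam h (a + b) = lam h a + lam h b) ∧
        ∀ a b, lam h (a * b) = lam h a * lam h b := by
      intro h
      obtain ⟨τ, hτ⟩ := hex h
      refine hFld F H n hSt K₀ hK₀ v hv τ.1 τ.2 (lam h) ?_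
      intro w hw b
      rw [← hτ ⟨w, hw⟩]
      exact hC ⟨w, hw⟩ τ b
    obtain ⟨p, hp⟩ := CharP.exists F
    rcases CharP.char_is_prime_or_zero F p with h | h
    · have : Fact p.Prime := ⟨h⟩
      refine hh₁ (hAutP F p (lam h₁) (hring h₁).1 (hring h₁).2 ?_)
      have hz : p • h₁ = 0 := by
        apply Subtype.ext
        have h2 : ((p • h₁ : EE K₀ v) : F) = p • (h₁ : F) := rfl
        rw [h2, nsmul_eq_mul, CharP.cast_eq_zero F p, zero_mul]
        rfl
      rw [← lam_nsmul lam hadd, hz]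
      have h3 := lam_nsmul lam hadd h₁ 0
      rw [zero_smul, pow_zero] at h3
      exact h3
    · subst h
      have hF : CharZero F := CharP.charP_to_charZero F
      have hE : CharZero (EE K₀ v) := (EE K₀ v).subtype.charZero
      exact hh₁ (hAut0 F (EE K₀ v) lam hadd (fun h => (hring h).1) (fun h => (hring h).2) h₁)
  obtain ⟨B, hBsub, hBcard⟩ := (hB5 (DD F) hB7).exists_subset_card_eq n
  refine ⟨A ∪ B, fun τ hτ hfix => ?_⟩
  have hfixE : Fx τ (PP (EE K₀ v)) := hA τ hτ fun x hx => hfix x (by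
    rw [Finset.coe_union]
    exact Or.inl hx)
  have hfixB : ∀ x ∈ B, τ x = x := fun x hx => hfix x (by
    rw [Finset.coe_union]
    exact Or.inr hx)
  refine ⟨hB2 τ hτ _ _ hB7 hB7 B hBcard.ge fun a ha => ⟨hBsub ha, ?_⟩, ?_⟩
  · rw [hfixB a ha]
    exact hBsub ha
  · rintro d (rfl | ⟨b, hb, rfl⟩)
    · have hinf : τ ∞ = ∞ := hfixE ∞ (Or.inl rfl)
      have h1 : addP v (∞ : OnePoint F) = ∞ := rfl
      rw [h1, hinf, h1]
    · have h0 := hC 0 ⟨τ, hτ, hfixE⟩ ⟨b, hb⟩
      have h1 := hC ⟨v, hvE⟩ ⟨τ, hτ, hfixE⟩ ⟨b, hb⟩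
      rw [key] at h1
      have h0' : τ (b : OnePoint F) = ((C 0 ⟨τ, hτ, hfixE⟩ ⟨b, hb⟩ : F) : OnePoint F) := by
        have h2 : (((0 : EE K₀ v) : F) + b : F) = b := zero_add b
        have h3 : (((0 : EE K₀ v) : F) + (C 0 ⟨τ, hτ, hfixE⟩ ⟨b, hb⟩ : F) : F) =
            (C 0 ⟨τ, hτ, hfixE⟩ ⟨b, hb⟩ : F) := zero_add _
        rw [← h3, ← h0]
        exact congrArg τ (congrArg (fun x : F => (x : OnePoint F)) h2.symm)
      rw [h0']
      exact h1

end Pool.Agent.MPa267.M
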