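import Pool.Agent.Lib.MP_a267a3_lc.M.Spec
import Pool.Agent.Lib.MP_a267a3_lc.PG.Base

/-!
# MP_a267a3_lc, M/Two: blocks of type II
-/

set_option autoImplicit false

namespace Pool.Agent.MPa267.M

open OnePoint Pool.Agent.MPa267.D1

theorem tTwo.{u} (hBas : S_Bas.{u}) : S_Two.{u} := by
  intro F _ _ H n s
  classical
  obtain ⟨b1, b2, b3, b4, b5, b6, b7⟩ := hBas F H n s
  have hn := s.n5
  -- the trace on `D`
  have t1 : ∀ (Q : Finset (OnePoint F)) (R : Set (OnePoint F)), TII H n Q R →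
      R ∩ DD F = (Q : Set (OnePoint F)) := by
    intro Q R hR
    apply Set.Subset.antisymm
    · rintro x ⟨hxR, hxD⟩
      by_contra hx
      apply hR.ne
      have hx' : x ∉ Q := fun h => hx (Finset.mem_coe.2 h)
      refine b1 R (DD F) hR.blk b7 (insert x Q) ?_ ?_ ?_
      · rw [Finset.card_insert_of_notMem hx', hR.card]; omega
      · rw [Finset.coe_insert]; exact Set.insert_subset hxR hR.subR
      · rw [Finset.coe_insert]; exact Set.insert_subset hxD hR.sub
    · intro x hx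
      exact ⟨hR.subR hx, hR.sub hx⟩
  have t2 : ∀ (Q : Finset (OnePoint F)) (R : Set (OnePoint F)), TII H n Q R →
      ∀ (φ : F ≃+* F), (∀ a ∈ acl (∅ : Set F), φ a = a) → ∀ r s : OnePoint F, r ∈ R → s ∈ R →
        r ∉ DD F → autP φ r = s → (autP φ : OnePoint F → OnePoint F) '' R = R := by
    intro Q R hR φ hφ r s' hr hs hrD hφr
    have hrQ : r ∉ Q := fun h => hrD (hR.sub (Finset.mem_coe.2 h))
    refine b2 (autP φ) (s.hG (autP_mem_GG φ)) R R hR.blk hR.blk (insert r Q) ?_ ?_
    · rw [Finset.card_insert_of_notMem hrQ, hR.card]; omega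
    · intro a ha
      rcases Finset.mem_insert.1 ha with rfl | ha
      · exact ⟨hr, by rw [hφr]; exact hs⟩
      · refine ⟨hR.subR (Finset.mem_coe.2 ha), ?_⟩
        rw [PG.autP_fix_DD hφ (hR.sub (Finset.mem_coe.2 ha))]
        exact hR.subR (Finset.mem_coe.2 ha)
  refine ⟨?_, ?_⟩
  · intro Q R hR
    refine ⟨t1 Q R hR, t2 Q R hR, ?_⟩
    intro g hg hgD hcomm r hr hrD hgr
    -- all points of `R` outside `D` are mapped into `R`
    have e1 : ∀ x ∈ R \ DD F, g x ∈ R := by
      rintro x ⟨hxR, hxD⟩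
      obtain ⟨φ, hφ, hφr⟩ := PG.exists_KA hrD hxD
      have h1 : g x = autP φ (g r) := by
        have h2 := congrArg (fun σ : Equiv.Perm (OnePoint F) => σ r) (hcomm φ hφ)
        simp only [Equiv.Perm.mul_apply] at h2
        rw [hφr] at h2
        exact h2
      rw [h1, ← t2 Q R hR φ hφ r x hr hxR hrD hφr]
      exact Set.mem_image_of_mem _ hgr
    have e2 : (R \ DD F).Infinite := by
      have h1 : R \ DD F = R \ (Q : Set (OnePoint F)) := by
        ext x
        constructor
        · rintro ⟨h1, h2⟩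
          exact ⟨h1, fun h3 => h2 (hR.sub h3)⟩
        · rintro ⟨h1, h2⟩
          refine ⟨h1, fun h3 => h2 ?_⟩
          rw [← t1 Q R hR]; exact ⟨h1, h3⟩
      rw [h1]
      exact (b5 R hR.blk).sdiff Q.finite_toSet
    obtain ⟨B, hB, hBc⟩ := e2.exists_subset_card_eq n
    have e3 : (g : OnePoint F → OnePoint F) '' R = R := by
      refine b2 g hg R R hR.blk hR.blk B hBc.ge ?_
      intro a ha
      exact ⟨(hB (Finset.mem_coe.2 ha)).1, e1 a (hB (Finset.mem_coe.2 ha))⟩
    refine ⟨e3, ?_⟩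
    rw [← t1 Q R hR, Set.image_inter g.injective, e3, hgD]
  · intro Q y hQc hQD hy
    have hyQ : y ∉ Q := fun h => hy (hQD (Finset.mem_coe.2 h))
    have hc : (insert y Q).card = n := by
      rw [Finset.card_insert_of_notMem hyQ, hQc]; omega
    obtain ⟨R, ⟨hR, hAR⟩, huniq⟩ := s.blk (insert y Q) hc
    have hyR : y ∈ R := hAR (Finset.mem_coe.2 (Finset.mem_insert_self _ _))
    refine ⟨R, ⟨⟨hR, hQc, hQD, ?_, ?_⟩, hyR⟩, ?_⟩
    · intro x hx
      exact hAR (Finset.mem_coe.2 (Finset.mem_insert_of_mem (Finset.mem_coe.1 hx)))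
    · intro h
      rw [h] at hyR
      exact hy hyR
    · rintro R' ⟨hR', hyR'⟩
      apply huniq
      refine ⟨hR'.blk, ?_⟩
      rw [Finset.coe_insert]
      exact Set.insert_subset hyR' hR'.subR

end Pool.Agent.MPa267.M
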