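import Pool.Agent.Lib.MP_a267a3_lc.M.Skel
import Pool.Agent.Lib.MP_a267a3_lc.M.Bas
import Pool.Agent.Lib.MP_a267a3_lc.M.EK
import Pool.Agent.Lib.MP_a267a3_lc.M.Chain
import Pool.Agent.Lib.MP_a267a3_lc.M.Two
import Pool.Agent.Lib.MP_a267a3_lc.M.Frob
import Pool.Agent.Lib.MP_a267a3_lc.M.Cnt
import Pool.Agent.Lib.MP_a267a3_lc.M.CharP
import Pool.Agent.Lib.MP_a267a3_lc.M.Fin
import Pool.Agent.Lib.MP_a267a3_lc.M.Ntr
import Pool.Agent.Lib.MP_a267a3_lc.M.Place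
import Pool.Agent.Lib.MP_a267a3_lc.M.LemF
import Pool.Agent.Lib.MP_a267a3_lc.M.Com
import Pool.Agent.Lib.MP_a267a3_lc.M.Char0
import Pool.Agent.Lib.MP_a267a3_lc.M.BoxA
import Pool.Agent.Lib.MP_a267a3_lc.M.BoxB
import Pool.Agent.Lib.MP_a267a3_lc.M.Base0
import Pool.Agent.Lib.MP_a267a3_lc.M.Deg
import Pool.Agent.Lib.MP_a267a3_lc.M.FG
import Pool.Agent.Lib.MP_a267a3_lc.M.Alg1
import Pool.Agent.Lib.MP_a267a3_lc.M.Nil
import Pool.Agent.Lib.MP_a267a3_lc.M.Sel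
import Pool.Agent.Lib.MP_a267a3_lc.M.Dif
import Pool.Agent.Lib.MP_a267a3_lc.M.Pol
import Pool.Agent.Lib.MP_a267a3_lc.M.Alg2
import Pool.Agent.Lib.MP_a267a3_lc.M.SysC
import Pool.Agent.Lib.MP_a267a3_lc.M.Fld
import Pool.Agent.Lib.MP_a267a3_lc.M.Aut0
import Pool.Agent.Lib.MP_a267a3_lc.M.AutP
import Pool.Agent.Lib.MP_a267a3_lc.M.TameA
import Pool.Agent.Lib.MP_a267a3_lc.M.FT

/-!
# MP_a267a3_lc: the main theorem
-/

set_option autoImplicit false

namespace Pool.Agent.MPa267.M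

open OnePoint Pool.Agent.MPa267.D1

universe u

/-- the two final statements -/
theorem all_main : S_CharP.{u} ∧ S_Char0.{u} :=
  skel tBas.{u} tEK.{u} tBoxA tBoxB.{u} tBase0.{u} tDeg.{u} tFG.{u} tAlg1.{u} tNil.{u} tSel.{u}
    tDif.{u} tPol.{u} tAlg2.{u} tSysC.{u} tFld.{u} tAut0.{u} tAutP.{u} tTameA.{u} tChain.{u} tTwo.{u}
    tFrob.{u} tCnt.{u} tCharP.{u} tFin.{u} tNtr.{u} tFT.{u} tPlace.{u} tLemF.{u} tCom.{u} tChar0.{u}

/-- the main theorem: `PΓL₂(F)` is maximal-closed -/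
theorem maximal_all (F : Type u) [Field F] [IsAlgClosed F]
    (hna : ¬ Algebra.IsAlgebraic (⊥ : Subfield F) F) :
    ∀ G : Set (Equiv.Perm (Projectivization F (Fin 2 → F))),
      (∀ σ : Equiv.Perm (Projectivization F (Fin 2 → F)),
        σ ∈ G ↔ ∃ (φ : F ≃+* F)
          (f : (Fin 2 → F) →ₛₗ[φ.toRingHom] (Fin 2 → F))
          (hf : Function.Injective f),
          ⇑σ = Projectivization.map f hf) →
      ((∀ σ : Equiv.Perm (Projectivization F (Fin 2 → F)),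
          (∀ A : Finset (Projectivization F (Fin 2 → F)),
            ∃ g ∈ G, ∀ x ∈ A, g x = σ x) → σ ∈ G) ∧
        G ≠ Set.univ ∧
        ∀ H : Subgroup (Equiv.Perm (Projectivization F (Fin 2 → F))),
          (∀ σ : Equiv.Perm (Projectivization F (Fin 2 → F)),
            (∀ A : Finset (Projectivization F (Fin 2 → F)),
              ∃ h ∈ H, ∀ x ∈ A, h x = σ x) → σ ∈ H) →
          G ⊆ (H : Set (Equiv.Perm (Projectivization F (Fin 2 → F)))) →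
          (H : Set (Equiv.Perm (Projectivization F (Fin 2 → F)))) = G ∨ H = ⊤) :=
  proj_all all_main.1 all_main.2 F hna

end Pool.Agent.MPa267.M
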