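import Pool.Agent.Lib.MP_a267a3_lc.M.Spec
import Pool.Agent.Lib.MP_a267a3_lc.PG.Base

/-!
# MP_a267a3_lc, M/CharPA: fixed points of powers of Frobenius, finite coordinates
-/

set_option autoImplicit false

namespace Pool.Agent.MPa267.M

open OnePoint Pool.Agent.MPa267.D1

namespace CharPAux

universe u

variable {F : Type u} [Field F]

/-- finite coordinates of a finite set of points -/
noncomputable def fc (A : Finset (OnePoint F)) : Finset F :=
  A.preimage (fun x : F => (x : OnePoint F)) (fun _ _ _ _ h => coe_eq_coe.1 h)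

omit [Field F] in
theorem mem_fc {A : Finset (OnePoint F)} {a : F} : a ∈ fc A ↔ (a : OnePoint F) ∈ A :=
  Finset.mem_preimage

theorem autP_fix_of_fc {A : Finset (OnePoint F)} {φ : F ≃+* F} (h : ∀ a ∈ fc A, φ a = a)
    {x : OnePoint F} (hx : x ∈ A) : autP φ x = x := by
  induction x using OnePoint.rec with
  | infty => exact autP_infty φ
  | coe a => rw [autP_coe, h a (mem_fc.2 hx)]

theorem pow_succ_apply (φ : F ≃+* F) (m : ℕ) (x : F) : (φ ^ (m + 1)) x = (φ ^ m) (φ x) := by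
  rw [pow_succ]; rfl

theorem autP_pow (φ : F ≃+* F) (m : ℕ) : autP (φ ^ m) = autP φ ^ m := by
  induction m with
  | zero => rw [pow_zero, pow_zero]; exact autP_refl
  | succ m ih =>
    rw [pow_succ, pow_succ, ← ih]
    exact autP_mul (φ ^ m) φ

theorem pow_fix_of_dvd {φ : F ≃+* F} {x : F} {m M : ℕ} (h : m ∣ M) (hx : (φ ^ m) x = x) :
    (φ ^ M) x = x := by
  obtain ⟨c, rfl⟩ := h
  induction c with
  | zero => rw [Nat.mul_zero, pow_zero]; rfl
  | succ c ih =>
    rw [Nat.mul_succ, pow_add]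
    change (φ ^ (m * c)) ((φ ^ m) x) = x
    rw [hx, ih]

theorem exists_pow_fix {φ : F ≃+* F} (hφ : ∀ x : F, ∃ m : ℕ, 1 ≤ m ∧ (φ ^ m) x = x)
    (C : Finset F) : ∃ M : ℕ, 1 ≤ M ∧ ∀ x ∈ C, (φ ^ M) x = x := by
  classical
  induction C using Finset.induction_on with
  | empty => exact ⟨1, le_refl 1, fun x hx => absurd hx (Finset.notMem_empty x)⟩
  | insert a C _ ih =>
    obtain ⟨M, hM, hMC⟩ := ih
    obtain ⟨m, hm, hma⟩ := hφ a
    refine ⟨m * M, Nat.mul_pos hm hM, ?_⟩
    intro x hx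
    rcases Finset.mem_insert.1 hx with rfl | hx
    · exact pow_fix_of_dvd (Dvd.intro M rfl) hma
    · exact pow_fix_of_dvd (Dvd.intro_left m rfl) (hMC x hx)

/-- the powers of a Frobenius lift on `k` -/
theorem pow_on_k {p j : ℕ} {φ : F ≃+* F} (hφ : ∀ x ∈ acl (∅ : Set F), φ x = x ^ p ^ j) (m : ℕ) :
    ∀ x ∈ acl (∅ : Set F), (φ ^ m) x = x ^ (p ^ j) ^ m := by
  induction m with
  | zero => intro x _; rw [pow_zero, pow_zero, pow_one]; rfl
  | succ m ih =>
    intro x hx
    rw [pow_succ_apply, hφ x hx, ih _ (pow_mem hx _), ← pow_mul, ← pow_succ']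

/-- the fixed points of the `N`-th power of Frobenius -/
theorem card_fixed [IsAlgClosed F] (p : ℕ) [Fact p.Prime] [CharP F p] (N : ℕ) (hN : 1 ≤ N) :
    {x : F | x ^ p ^ N = x}.Finite ∧ {x : F | x ^ p ^ N = x}.ncard = p ^ N ∧
      ∀ x : F, x ^ p ^ N = x → x ∈ acl (∅ : Set F) := by
  classical
  have hp : p.Prime := Fact.out
  have h1 : 1 < p ^ N := Nat.one_lt_pow (by omega) hp.one_lt
  have hne : ∀ (K : Type u) [Field K], (Polynomial.X ^ p ^ N - Polynomial.X : Polynomial K) ≠ 0 :=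
    fun K _ => FiniteField.X_pow_card_sub_X_ne_zero K h1
  have hdeg : (Polynomial.X ^ p ^ N - Polynomial.X : Polynomial F).natDegree = p ^ N :=
    FiniteField.X_pow_card_sub_X_natDegree_eq F h1
  have hsep : (Polynomial.X ^ p ^ N - Polynomial.X : Polynomial F).Separable :=
    galois_poly_separable p (p ^ N) (dvd_pow_self p (by omega))
  have hset : {x : F | x ^ p ^ N = x} =
      ((Polynomial.X ^ p ^ N - Polynomial.X : Polynomial F).rootSet F) := by
    ext x
    rw [Polynomial.mem_rootSet]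
    constructor
    · intro hx
      refine ⟨hne F, ?_⟩
      rw [map_sub, map_pow, Polynomial.aeval_X]
      exact sub_eq_zero.2 hx
    · rintro ⟨_, hx⟩
      rw [map_sub, map_pow, Polynomial.aeval_X] at hx
      exact sub_eq_zero.1 hx
  refine ⟨?_, ?_, ?_⟩
  · rw [hset]; exact Polynomial.rootSet_finite _ _
  · rw [hset, Set.ncard_eq_toFinset_card', Set.toFinset_card,
      Polynomial.card_rootSet_eq_natDegree hsep (IsAlgClosed.splits _), hdeg]
  · intro x hx
    rw [mem_acl]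
    refine ⟨Polynomial.X ^ p ^ N - Polynomial.X, hne _, ?_⟩
    rw [map_sub, map_pow, Polynomial.aeval_X]
    exact sub_eq_zero.2 hx

/-- the number of fixed points of the `m`-th power of a Frobenius lift on `D` -/
theorem ncard_DD [IsAlgClosed F] (p : ℕ) [Fact p.Prime] [CharP F p] {j : ℕ} (hj : 1 ≤ j)
    {φ : F ≃+* F} (hφ : ∀ x ∈ acl (∅ : Set F), φ x = x ^ p ^ j) (m : ℕ) (hm : 1 ≤ m) :
    {d : OnePoint F | d ∈ DD F ∧ autP (φ ^ m) d = d}.Finite ∧
      {d : OnePoint F | d ∈ DD F ∧ autP (φ ^ m) d = d}.ncard = (p ^ j) ^ m + 1 := by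
  have hjm : 1 ≤ j * m := Nat.mul_pos hj hm
  obtain ⟨h1, h2, h3⟩ := card_fixed (F := F) p (j * m) hjm
  have hset : {d : OnePoint F | d ∈ DD F ∧ autP (φ ^ m) d = d} =
      insert ∞ ((fun x : F => (x : OnePoint F)) '' {x : F | x ^ p ^ (j * m) = x}) := by
    ext d
    constructor
    · rintro ⟨hd, hd'⟩
      rcases hd with rfl | ⟨a, ha, rfl⟩
      · exact Set.mem_insert _ _
      · refine Set.mem_insert_of_mem _ ⟨a, ?_, rfl⟩
        rw [autP_coe, coe_eq_coe, pow_on_k hφ m a ha, ← pow_mul] at hd'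
        exact hd'
    · rintro (rfl | ⟨a, ha, rfl⟩)
      · exact ⟨infty_mem_PP _, autP_infty _⟩
      · have hak : a ∈ acl (∅ : Set F) := h3 a ha
        refine ⟨(coe_mem_PP _ _).2 hak, ?_⟩
        show autP (φ ^ m) (a : OnePoint F) = (a : OnePoint F)
        rw [autP_coe, coe_eq_coe, pow_on_k hφ m a hak, ← pow_mul]
        exact ha
  have hinj : Function.Injective (fun x : F => (x : OnePoint F)) := fun x y h => coe_eq_coe.1 h
  have hni : (∞ : OnePoint F) ∉ (fun x : F => (x : OnePoint F)) '' {x : F | x ^ p ^ (j * m) = x} := by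
    rintro ⟨x, _, hx⟩
    exact coe_ne_infty x hx
  rw [hset]
  refine ⟨(h1.image _).insert _, ?_⟩
  rw [Set.ncard_insert_of_notMem hni (h1.image _), Set.ncard_image_of_injective _ hinj, h2, pow_mul]

end CharPAux

end Pool.Agent.MPa267.M
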