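import Pool.Agent.Lib.MP_a267a3_lc.M.Spec
import Pool.Agent.Lib.MP_a267a3_lc.PV.Ser

/-!
# MP_a267a3_lc: the field half of Part V, glue

From the facts on embeddings `F → Om k` (`PV`) the statement `S_FT`.
-/

set_option autoImplicit false

namespace Pool.Agent.MPa267.M.FTAux

open OnePoint Pool.Agent.MPa267.D1 Pool.Agent.MPa267.PV

universe u

section

variable {F : Type u} [Field F]

/-- the elements of `F` mapped into `k((s))` -/
noncomputable def LL (e : F →+* Om (acl (∅ : Set F))) : Subfield F :=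
  ((jo (acl (∅ : Set F))).fieldRange).comap e

theorem mem_LL (e : F →+* Om (acl (∅ : Set F))) (x : F) : x ∈ LL e ↔ ∃ φ, e x = jo (acl (∅ : Set F)) φ := by
  constructor
  · rintro ⟨φ, hφ⟩
    exact ⟨φ, hφ.symm⟩
  · rintro ⟨φ, hφ⟩
    exact ⟨φ, hφ.symm⟩

theorem acl_le_LL (e : F →+* Om (acl (∅ : Set F))) (he : Emb (acl (∅ : Set F)) e) : acl (∅ : Set F) ≤ LL e := by
  intro c hc
  rw [mem_LL]
  exact ⟨lo _ (PowerSeries.C ⟨c, hc⟩), he ⟨c, hc⟩⟩

/-- closure of `k` and `y`, two ways -/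
theorem adjoin_le (y : F) (x : F) (hx : x ∈ IntermediateField.adjoin (acl (∅ : Set F)) ({y} : Set F)) : x ∈ kk y := by
  have h : ((IntermediateField.adjoin (acl (∅ : Set F)) ({y} : Set F) : Set F)) ⊆ (kk y : Set F) := by
    intro z hz
    have hz' : z ∈ Subfield.closure (Set.range (algebraMap (acl (∅ : Set F)) F) ∪ {y}) := hz
    refine (Subfield.closure_le.2 ?_) hz'
    rintro w (⟨c, rfl⟩ | hw)
    · exact Subfield.subset_closure (Set.mem_insert_of_mem _ c.2)
    · rw [Set.mem_singleton_iff] at hw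
      rw [hw]
      exact Subfield.subset_closure (Set.mem_insert _ _)
  exact h hx

theorem fix_kk {y : F} (β : F ≃+* F) (hβ : ∀ a ∈ acl (∅ : Set F), β a = a) (hy : β y = y) : ∀ x ∈ kk y, β x = x := by
  intro x hx
  have h : kk y ≤ (β : F →+* F).eqLocusField (RingHom.id F) := by
    unfold kk
    rw [Subfield.closure_le]
    rintro z (rfl | hz)
    · exact hy
    · exact hβ z hz
  exact h hx

/-- for embeddings over `k`, the composite with an automorphism over `k` -/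
theorem emb_comp {e : F →+* Om (acl (∅ : Set F))} (he : Emb (acl (∅ : Set F)) e) (α : F ≃+* F)
    (hα : ∀ a ∈ acl (∅ : Set F), α a = a) : Emb (acl (∅ : Set F)) (e.comp (α : F →+* F)) := by
  intro c
  change e (α (c : F)) = _
  rw [hα c c.2]
  exact he c

end

/-- The facts of `PV` for `F`. -/
structure PVF (F : Type u) [Field F] : Prop where
  alg : ∀ u : F, u ∉ acl (∅ : Set F) → ∀ z : F, IsAlgebraic (IntermediateField.adjoin (acl (∅ : Set F)) ({u} : Set F)) z
  good_place : ∀ (u z : F), IsAlgebraic (IntermediateField.adjoin (acl (∅ : Set F)) ({u} : Set F)) z →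
    ∃ S : Set (acl (∅ : Set F)), S.Finite ∧ ∀ e : F →+* Om (acl (∅ : Set F)), Emb (acl (∅ : Set F)) e →
      ∀ w : PowerSeries (acl (∅ : Set F)), e u = io (acl (∅ : Set F)) w → PowerSeries.constantCoeff w ∉ S →
        ∃ f : PowerSeries (acl (∅ : Set F)), e z = io (acl (∅ : Set F)) f
  good_emb : ∀ (u : F), u ∉ Set.range (algebraMap (acl (∅ : Set F)) F) →
    (∀ z : F, IsAlgebraic (IntermediateField.adjoin (acl (∅ : Set F)) ({u} : Set F)) z) →
    ∀ (V : Set F), V.Finite → (∀ v ∈ V, v ≠ 0) → ∀ (T : Set (acl (∅ : Set F))), T.Finite →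
      ∃ (x : acl (∅ : Set F)) (e : F →+* Om (acl (∅ : Set F))), x ∉ T ∧ Emb (acl (∅ : Set F)) e ∧
        e u = io (acl (∅ : Set F)) (PowerSeries.C x + PowerSeries.X) ∧
        ∀ v ∈ V, ∃ f : PowerSeries (acl (∅ : Set F)), PowerSeries.constantCoeff f ≠ 0 ∧ e v = io (acl (∅ : Set F)) f
  mem_base : ∀ (u : F), u ∉ Set.range (algebraMap (acl (∅ : Set F)) F) →
    (∀ z : F, IsAlgebraic (IntermediateField.adjoin (acl (∅ : Set F)) ({u} : Set F)) z) → ∀ f : F,
    (∀ (x : acl (∅ : Set F)) (e : F →+* Om (acl (∅ : Set F))), Emb (acl (∅ : Set F)) e →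
      e u = io (acl (∅ : Set F)) (PowerSeries.C x + PowerSeries.X) → ∃ φ : LaurentSeries (acl (∅ : Set F)), e f = jo _ φ) →
    (∀ e : F →+* Om (acl (∅ : Set F)), Emb (acl (∅ : Set F)) e →
      e u = jo (acl (∅ : Set F)) (HahnSeries.single (-1) 1) → ∃ φ : LaurentSeries (acl (∅ : Set F)), e f = jo _ φ) →
    f ∈ IntermediateField.adjoin (acl (∅ : Set F)) ({u} : Set F)
  exists_aut : ∀ (w w' : F), (∀ z : F, IsAlgebraic (IntermediateField.adjoin (acl (∅ : Set F)) ({w} : Set F)) z) →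
    (∀ z : F, IsAlgebraic (IntermediateField.adjoin (acl (∅ : Set F)) ({w'} : Set F)) z) →
    ∀ e e' : F →+* Om (acl (∅ : Set F)), Emb (acl (∅ : Set F)) e → Emb (acl (∅ : Set F)) e' → e w = e' w' →
      ∃ α : F ≃+* F, (∀ c : acl (∅ : Set F), α (algebraMap _ F c) = algebraMap _ F c) ∧ α w = w' ∧ ∀ z, e' (α z) = e z
  exists_scale : ∀ t : acl (∅ : Set F), t ≠ 0 → ∃ θ : Om (acl (∅ : Set F)) ≃+* Om (acl (∅ : Set F)),
    (∀ c : acl (∅ : Set F), θ (io _ (PowerSeries.C c)) = io _ (PowerSeries.C c)) ∧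
    θ (io _ PowerSeries.X) = io _ (PowerSeries.C t * PowerSeries.X) ∧
    (∀ z, (∃ φ, z = jo (acl (∅ : Set F)) φ) ↔ ∃ φ, θ z = jo (acl (∅ : Set F)) φ)

section

variable {F : Type u} [Field F]

theorem jo_single_mul (k : Type u) [Field k] :
    io k PowerSeries.X * jo k (HahnSeries.single (-1) 1) = 1 := by
  have h : lo k PowerSeries.X = HahnSeries.single 1 1 := by
    change HahnSeries.ofPowerSeries ℤ k PowerSeries.X = _
    exact HahnSeries.ofPowerSeries_X
  change jo k (lo k PowerSeries.X) * _ = 1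
  rw [← map_mul, h, HahnSeries.single_mul_single]
  simp only [mul_one]
  have h2 : (HahnSeries.single ((1 : ℤ) + -1) (1 : k)) = 1 := by
    simp
  rw [h2, map_one]

/-- Step 1: a bad embedding, normalised. -/
theorem step1 (P : PVF F) {N : Subfield F} {y₁ : F} (hkN : acl (∅ : Set F) ≤ N) (hyN : y₁ ∈ N)
    (hy : y₁ ∉ acl (∅ : Set F)) (hne : N ≠ kk y₁) :
    ∃ (g₀ : GL (Fin 2) F) (u' : F) (e₀ : F →+* Om (acl (∅ : Set F))), GLK (acl (∅ : Set F)) g₀ ∧
      mob g₀ (y₁ : OnePoint F) = (u' : OnePoint F) ∧ Emb (acl (∅ : Set F)) e₀ ∧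
      e₀ u' = io (acl (∅ : Set F)) PowerSeries.X ∧ ∃ f ∈ N, ∀ φ, e₀ f ≠ jo _ φ := by
  classical
  have hyr : y₁ ∉ Set.range (algebraMap (acl (∅ : Set F)) F) := by
    rintro ⟨c, rfl⟩
    exact hy c.2
  by_contra hcon
  apply hne
  apply le_antisymm
  · intro f hf
    apply adjoin_le
    apply P.mem_base y₁ hyr (P.alg y₁ hy) f
    · intro x e he hex
      by_contra h2
      push Not at h2
      apply hcon
      refine ⟨mk2 1 (-(x : F)) 0 1 (by simp), y₁ - x, e, ?_, ?_, he, ?_, f, hf, h2⟩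
      · exact GLK_mk2 _ (one_mem _) (neg_mem x.2) (zero_mem _) (one_mem _)
      · rw [mob_mk2_coe]
        simp [sub_eq_add_neg]
      · rw [map_sub, hex]
        have h3 : e (x : F) = io (acl (∅ : Set F)) (PowerSeries.C x) := he x
        rw [h3, map_add]
        ring
    · intro e he hex
      by_contra h2
      push Not at h2
      apply hcon
      have hy0 : y₁ ≠ 0 := by
        rintro rfl
        exact hy (zero_mem _)
      refine ⟨mk2 0 1 1 0 (by simp), y₁⁻¹, e, ?_, ?_, he, ?_, f, hf, h2⟩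
      · exact GLK_mk2 _ (zero_mem _) (one_mem _) (one_mem _) (zero_mem _)
      · rw [mob_mk2_coe]
        simp [hy0]
      · rw [map_inv₀, hex]
        exact (eq_inv_of_mul_eq_one_left (jo_single_mul _)).symm
  · unfold kk
    rw [Subfield.closure_le]
    rintro z (rfl | hz)
    · exact hyN
    · exact hkN hz

theorem not_mem_of_mob {y₁ u' : F} (hy : y₁ ∉ acl (∅ : Set F)) {g₀ : GL (Fin 2) F} (hg : GLK (acl (∅ : Set F)) g₀)
    (h : mob g₀ (y₁ : OnePoint F) = (u' : OnePoint F)) : u' ∉ acl (∅ : Set F) := by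
  intro hu
  have h1 : mob g₀ (y₁ : OnePoint F) ∈ PP (acl (∅ : Set F)) := by
    rw [h]
    exact Or.inr ⟨u', hu, rfl⟩
  rw [mob_mem_PP hg] at h1
  rcases h1 with h1 | ⟨a, ha, h1⟩
  · exact OnePoint.coe_ne_infty _ h1
  · rw [OnePoint.coe_eq_coe] at h1
    rw [h1] at hy
    exact hy ha

theorem mob_aut {y₁ u' : F} {g₀ : GL (Fin 2) F} (hg : GLK (acl (∅ : Set F)) g₀)
    (h : mob g₀ (y₁ : OnePoint F) = (u' : OnePoint F)) (α : F ≃+* F) (hα : ∀ a ∈ acl (∅ : Set F), α a = a) :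
    mob g₀ ((α y₁ : F) : OnePoint F) = ((α u' : F) : OnePoint F) := by
  have h1 := autP_mob_comm hg hα
  have h2 := congrArg (fun σ : Equiv.Perm (OnePoint F) => σ (y₁ : OnePoint F)) h1
  simp only [Equiv.Perm.mul_apply, autP_coe] at h2
  rw [← h2, h, autP_coe]

/-- Step 2: every embedding with `u' ↦ s` is bad. -/
theorem step2 (P : PVF F) {N : Subfield F} {y₁ : F}
    (hst : ∀ β : F ≃+* F, (∀ a ∈ acl (∅ : Set F), β a = a) → β y₁ = y₁ → ∀ x ∈ N, β x ∈ N)
    {g₀ : GL (Fin 2) F} {u' : F} (hu : u' ∉ acl (∅ : Set F)) (hg : GLK (acl (∅ : Set F)) g₀)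
    (h : mob g₀ (y₁ : OnePoint F) = (u' : OnePoint F))
    {e₀ : F →+* Om (acl (∅ : Set F))} (he₀ : Emb (acl (∅ : Set F)) e₀)
    (h₀ : e₀ u' = io (acl (∅ : Set F)) PowerSeries.X) {f : F} (hf : f ∈ N) (hbad : ∀ φ, e₀ f ≠ jo _ φ)
    (e : F →+* Om (acl (∅ : Set F))) (he : Emb (acl (∅ : Set F)) e)
    (hX : e u' = io (acl (∅ : Set F)) PowerSeries.X) : ∃ f ∈ N, ∀ φ, e f ≠ jo _ φ := by
  obtain ⟨α, hα, hαu, hαe⟩ := P.exists_aut u' u' (P.alg u' hu) (P.alg u' hu) e₀ e he₀ he (by rw [h₀, hX])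
  have hα' : ∀ a ∈ acl (∅ : Set F), α a = a := fun a ha => hα ⟨a, ha⟩
  have h1 : α y₁ = y₁ := by
    have h2 := mob_aut hg h α hα'
    rw [hαu, ← h] at h2
    have h3 := (mob g₀).injective h2
    exact OnePoint.coe_eq_coe.1 h3
  refine ⟨α f, hst α hα' h1 f hf, fun φ hφ => hbad φ ?_⟩
  rw [← hαe, hφ]

/-- Step 3: outside a finite set of residues every embedding is good. -/
theorem step3 (P : PVF F) {N : Subfield F} {A : Finset F}
    (hA : N ≤ Subfield.closure ((acl (∅ : Set F) : Set F) ∪ (A : Set F))) {u' : F} (hu : u' ∉ acl (∅ : Set F)) :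
    ∃ S : Set (acl (∅ : Set F)), S.Finite ∧ ∀ e : F →+* Om (acl (∅ : Set F)), Emb (acl (∅ : Set F)) e →
      ∀ w : PowerSeries (acl (∅ : Set F)), e u' = io (acl (∅ : Set F)) w → PowerSeries.constantCoeff w ∉ S →
        N ≤ LL e := by
  classical
  choose S hS hS' using fun a : F => P.good_place u' a (P.alg u' hu a)
  refine ⟨⋃ a ∈ A, S a, A.finite_toSet.biUnion (fun a _ => hS a), ?_⟩
  intro e he w hw hc
  refine hA.trans ?_
  rw [Subfield.closure_le]
  rintro z (hz | hz)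
  · exact acl_le_LL e he hz
  · have h1 : PowerSeries.constantCoeff w ∉ S z := fun h => hc (Set.mem_biUnion hz h)
    obtain ⟨f, hf⟩ := hS' z e he w hw h1
    exact (mem_LL e z).2 ⟨lo _ f, hf⟩

/-- Step 5: a good scaling factor. -/
theorem step5 {k : Type u} [Field k] [Infinite k] {S : Set k} (hS : S.Finite) {ι : Type*} (W : Finset ι) (c : ι → k)
    (hc : ∀ w ∈ W, c w ≠ 0) : ∃ t : k, t ≠ 0 ∧ ∀ w ∈ W, t * c w ∉ S := by
  classical
  have h1 : ((⋃ w ∈ W, {t : k | t * c w ∈ S}) ∪ {0} : Set k).Finite := by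
    refine Set.Finite.union (W.finite_toSet.biUnion fun w hw => ?_) (Set.finite_singleton 0)
    exact hS.preimage (fun a _ b _ hab => mul_right_cancel₀ (hc w hw) hab)
  obtain ⟨t, ht⟩ := h1.exists_notMem
  refine ⟨t, fun h => ht (Or.inr h), fun w hw h => ht (Or.inl ?_)⟩
  exact Set.mem_biUnion hw h

/-- the glue -/
theorem glue [IsAlgClosed F] (P : PVF F) {N : Subfield F} {y₁ : F} (hkN : acl (∅ : Set F) ≤ N)
    (hyN : y₁ ∈ N) (hy₁ : y₁ ∉ acl (∅ : Set F)) {A : Finset F}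
    (hA : N ≤ Subfield.closure ((acl (∅ : Set F) : Set F) ∪ (A : Set F)))
    (hst : ∀ β : F ≃+* F, (∀ a ∈ acl (∅ : Set F), β a = a) → β y₁ = y₁ → ∀ x ∈ N, β x ∈ N)
    (hne : N ≠ kk y₁) (y : F) (W : Finset F) (hy : y ∉ acl (∅ : Set F))
    (hW : ∀ w ∈ W, w ∉ acl (∅ : Set F) ∧ w ≠ y) :
    ∃ (g : GL (Fin 2) F) (L : Subfield F), GLK (acl (∅ : Set F)) g ∧ acl (∅ : Set F) ≤ L ∧ y ∈ L ∧ (∀ w ∈ W, w ∈ L) ∧
        (∀ w ∈ W, ∀ α : F ≃+* F, (∀ a ∈ acl (∅ : Set F), α a = a) →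
          mob g ((α y₁ : F) : OnePoint F) = (w : OnePoint F) → ∀ x ∈ N, α x ∈ L) ∧
        (∀ α : F ≃+* F, (∀ a ∈ acl (∅ : Set F), α a = a) →
          mob g ((α y₁ : F) : OnePoint F) = (y : OnePoint F) → ∃ x ∈ N, α x ∉ L) := by
  classical
  obtain ⟨g₀, u', e₀, hg₀, hgu, he₀, h₀, f, hf, hbad⟩ := step1 P hkN hyN hy₁ hne
  have hu : u' ∉ acl (∅ : Set F) := not_mem_of_mob hy₁ hg₀ hgu
  obtain ⟨S, hS, hSe⟩ := step3 P hA hu
  have hyr : y ∉ Set.range (algebraMap (acl (∅ : Set F)) F) := by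
    rintro ⟨c, rfl⟩
    exact hy c.2
  obtain ⟨x, e, -, he, hey, hV⟩ := P.good_emb y hyr (P.alg y hy) ((W.image fun w => w - y : Finset F) : Set F)
    (Finset.finite_toSet _) (by
      intro v hv
      rw [Finset.mem_coe, Finset.mem_image] at hv
      obtain ⟨w, hw, rfl⟩ := hv
      exact sub_ne_zero.2 (hW w hw).2) ∅ Set.finite_empty
  have hV' : ∀ w : F, ∃ f : PowerSeries (acl (∅ : Set F)), w ∈ W → PowerSeries.constantCoeff f ≠ 0 ∧
      e (w - y) = io (acl (∅ : Set F)) f := by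
    intro w
    by_cases hw : w ∈ W
    · obtain ⟨f, h1, h2⟩ := hV (w - y) (by
        rw [Finset.mem_coe]
        exact Finset.mem_image_of_mem _ hw)
      exact ⟨f, fun _ => ⟨h1, h2⟩⟩
    · exact ⟨0, fun h => absurd h hw⟩
  choose fw hfw using hV'
  have hac : IsAlgClosed (acl (∅ : Set F)) := isAlgClosed_acl _
  have hinf : Infinite (acl (∅ : Set F)) := IsAlgClosed.instInfinite
  obtain ⟨t, ht, htW⟩ := step5 hS W (fun w => PowerSeries.constantCoeff (fw w)) (fun w hw => (hfw w hw).1)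
  have ht' : (t : F) ≠ 0 := fun h => ht (Subtype.ext h)
  obtain ⟨θ, hθc, hθX, hθ⟩ := P.exists_scale t ht
  set g : GL (Fin 2) F := mk2 ((t : F)⁻¹) (x : F) 0 1 (by simpa using ht') * g₀ with hg
  have hgα : ∀ α : F ≃+* F, (∀ a ∈ acl (∅ : Set F), α a = a) →
      mob g ((α y₁ : F) : OnePoint F) = (((t : F)⁻¹ * α u' + x : F) : OnePoint F) := by
    intro α hα
    rw [hg, mob_mul, Equiv.Perm.mul_apply, mob_aut hg₀ hgu α hα, mob_mk2_coe]
    simp
  have hex : e (x : F) = io (acl (∅ : Set F)) (PowerSeries.C x) := he x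
  have het : e (t : F) = io (acl (∅ : Set F)) (PowerSeries.C t) := he t
  refine ⟨g, LL e, ?_, acl_le_LL e he, ?_, ?_, ?_, ?_⟩
  · exact GLK_mul (GLK_mk2 _ (inv_mem t.2) x.2 (zero_mem _) (one_mem _)) hg₀
  · exact (mem_LL e y).2 ⟨lo _ _, hey⟩
  · intro w hw
    have h1 : e w = io (acl (∅ : Set F)) (fw w + (PowerSeries.C x + PowerSeries.X)) := by
      have h2 := (hfw w hw).2
      rw [map_sub, sub_eq_iff_eq_add] at h2
      rw [h2, hey, ← map_add]
    exact (mem_LL e w).2 ⟨lo _ _, h1⟩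
  · intro w hw α hα hm
    rw [hgα α hα, OnePoint.coe_eq_coe] at hm
    have h1 : α u' = t * (w - x) := by
      rw [← hm]
      field_simp
      ring
    have h2 := hSe (e.comp (α : F →+* F)) (emb_comp he α hα) (PowerSeries.C t * (fw w + PowerSeries.X)) (by
      change e (α u') = _
      have h3 := (hfw w hw).2
      have h4 : w - x = (w - y) + (y - x) := by ring
      rw [h1, map_mul, het, h4, map_add, h3, map_sub, hey, hex, map_mul, map_add, map_add]
      ring) (by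
      rw [map_mul, map_add, PowerSeries.constantCoeff_C, PowerSeries.constantCoeff_X, add_zero]
      exact htW w hw)
    intro z hz
    have h5 := h2 hz
    rw [mem_LL] at h5 ⊢
    exact h5
  · intro α hα hm
    rw [hgα α hα, OnePoint.coe_eq_coe] at hm
    have h1 : α u' = t * (y - x) := by
      rw [← hm]
      field_simp
      ring
    have hEα := emb_comp he α hα
    obtain ⟨f', hf', hb⟩ := step2 P hst hu hg₀ hgu he₀ h₀ hf hbad
      ((θ.symm : Om (acl (∅ : Set F)) →+* Om (acl (∅ : Set F))).comp (e.comp (α : F →+* F))) (by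
        intro c
        change θ.symm ((e.comp (α : F →+* F)) (c : F)) = _
        have h2 := hEα c
        have h3 : (e.comp (α : F →+* F)) (c : F) = io _ (PowerSeries.C c) := h2
        rw [h3, RingEquiv.symm_apply_eq, hθc]) (by
        change θ.symm (e (α u')) = _
        rw [h1, map_mul, het, map_sub, hey, hex, RingEquiv.symm_apply_eq, hθX, map_mul, map_add]
        ring)
    refine ⟨f', hf', fun h => ?_⟩
    rw [mem_LL] at h
    have h6 := (hθ (θ.symm (e (α f')))).2 (by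
      rw [RingEquiv.apply_symm_apply]
      exact h)
    obtain ⟨φ, hφ⟩ := h6
    exact hb φ hφ

end

end Pool.Agent.MPa267.M.FTAux
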