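import Pool.Agent.Lib.MP_a267a3_lc.M.FTA
import Pool.Agent.Lib.MP_a267a3_lc.PV.Ext
import Pool.Agent.Lib.MP_a267a3_lc.PV.Scale

/-!
# MP_a267a3_lc: `S_FT` from the facts of `PV`
-/

set_option autoImplicit false

namespace Pool.Agent.MPa267.M.FTAux

open OnePoint Pool.Agent.MPa267.D1 Pool.Agent.MPa267.PV

universe u

variable {F : Type u} [Field F]

theorem alg_over' (hT : TD1 F) {x : F} (hx : x ∉ acl (∅ : Set F)) (z : F) :
    IsAlgebraic (IntermediateField.adjoin (acl (∅ : Set F)) ({x} : Set F)) z := by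
  have h1 : z ∈ acl ({x} : Set F) := by
    rw [hT x hx]
    exact Subfield.mem_top z
  rw [mem_acl] at h1
  obtain ⟨p, hp, hz⟩ := h1
  have hle : Subfield.closure ({x} : Set F) ≤
      (IntermediateField.adjoin (acl (∅ : Set F)) ({x} : Set F)).toSubfield := by
    rw [Subfield.closure_le]
    rintro w hw
    rw [Set.mem_singleton_iff] at hw
    rw [hw]
    exact IntermediateField.mem_adjoin_simple_self _ x
  let i : Subfield.closure ({x} : Set F) →+* IntermediateField.adjoin (acl (∅ : Set F)) ({x} : Set F) :=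
    Subfield.inclusion hle
  refine ⟨p.map i, (Polynomial.map_ne_zero_iff i.injective).2 hp, ?_⟩
  rw [Polynomial.aeval_def, Polynomial.eval₂_map]
  exact hz

theorem pvf (hT : TD1 F) [IsAlgClosed F] [CharZero F]
    (hb : ∀ (y : F), y ∉ Set.range (algebraMap (acl (∅ : Set F)) F) →
    (∀ z : F, IsAlgebraic (IntermediateField.adjoin (acl (∅ : Set F)) ({y} : Set F)) z) → ∀ f : F,
    (∀ (x : acl (∅ : Set F)) (e : F →+* Om (acl (∅ : Set F))), Emb (acl (∅ : Set F)) e →
      e y = io (acl (∅ : Set F)) (PowerSeries.C x + PowerSeries.X) → ∃ φ : LaurentSeries (acl (∅ : Set F)), e f = jo _ φ) →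
    (∀ e : F →+* Om (acl (∅ : Set F)), Emb (acl (∅ : Set F)) e →
      e y = jo (acl (∅ : Set F)) (HahnSeries.single (-1) 1) → ∃ φ : LaurentSeries (acl (∅ : Set F)), e f = jo _ φ) →
    f ∈ IntermediateField.adjoin (acl (∅ : Set F)) ({y} : Set F)) : PVF F := by
  have hac : IsAlgClosed (acl (∅ : Set F)) := isAlgClosed_acl _
  have hch : CharZero (acl (∅ : Set F)) := inferInstance
  exact
    { alg := fun y hy z => alg_over' hT hy z
      good_place := fun y z hz => good_place y z hz
      good_emb := fun y hy ha V hV h0 T hT' => good_emb y hy ha V hV h0 T hT'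
      mem_base := hb
      exists_aut := fun w w' ha ha' e e' he he' h => exists_aut w w' ha ha' e e' he he' h
      exists_scale := fun t ht => by
        obtain ⟨θ, h1, h2, h3, -⟩ := exists_scale t ht
        exact ⟨θ, h1, h2, h3⟩ }

end Pool.Agent.MPa267.M.FTAux
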