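import Pool.Agent.Lib.MP_a267a3_lc.M.Red
import Pool.Agent.Lib.MP_a267a3_lc.D1.Fin1

/-!
# MP_a267a3_lc: `PΓL₂(F)` is maximal-closed, all transcendence degrees at least one

Assembly from the two final statements `S_CharP` and `S_Char0`.
-/

set_option autoImplicit false

namespace Pool.Agent.MPa267.M

open OnePoint Pool.Agent.MPa267.D1

universe u

/-- the theorem on the projective line, transcendence degree one -/
theorem line_one (cP : S_CharP.{u}) (c0 : S_Char0.{u}) (F : Type u) [Field F] [IsAlgClosed F]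
    (h1 : TD1 F) (htr : ∃ t : F, t ∉ acl (∅ : Set F)) (H : Subgroup (Equiv.Perm (OnePoint F)))
    (hG : GG F ≤ H) (hcl : IsClosedP H) : H ≤ GG F ∨ H = ⊤ := by
  by_contra hcon
  have hne : ¬ H ≤ GG F := fun h => hcon (Or.inl h)
  have hne' : H ≠ ⊤ := fun h => hcon (Or.inr h)
  obtain ⟨H₀, n, hst⟩ := tRed F h1 htr H hG hcl hne hne'
  rcases CharP.exists' F with hz | ⟨p, hp, hcp⟩
  · exact c0 F h1 htr H₀ n hst
  · exact cP F p h1 htr H₀ n hst

/-- transport to `Projectivization` -/
theorem proj_of_line (F : Type u) [Field F] [IsAlgClosed F]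
    (htr : ∃ t : F, t ∉ acl (∅ : Set F))
    (hline : ∀ H : Subgroup (Equiv.Perm (OnePoint F)), GG F ≤ H → IsClosedP H →
      H ≤ GG F ∨ H = ⊤) :
    ∀ G : Set (Equiv.Perm (Projectivization F (Fin 2 → F))),
      (∀ σ : Equiv.Perm (Projectivization F (Fin 2 → F)),
        σ ∈ G ↔ ∃ (φ : F ≃+* F)
          (f : (Fin 2 → F) →ₛₗ[φ.toRingHom] (Fin 2 → F))
          (hf : Function.Injective f),
          ⇑σ = Projectivization.map f hf) →
      ((∀ σ : Equiv.Perm (Projectivization F (Fin 2 → F)),
          (∀ A : Finset (Projectivization F (Fin 2 → F)),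
            ∃ g ∈ G, ∀ x ∈ A, g x = σ x) → σ ∈ G) ∧
        G ≠ Set.univ ∧
        ∀ H : Subgroup (Equiv.Perm (Projectivization F (Fin 2 → F))),
          (∀ σ : Equiv.Perm (Projectivization F (Fin 2 → F)),
            (∀ A : Finset (Projectivization F (Fin 2 → F)),
              ∃ h ∈ H, ∀ x ∈ A, h x = σ x) → σ ∈ H) →
          G ⊆ (H : Set (Equiv.Perm (Projectivization F (Fin 2 → F)))) →
          (H : Set (Equiv.Perm (Projectivization F (Fin 2 → F)))) = G ∨ H = ⊤) := by
  classical
  intro G hG
  have hG' : ∀ σ, σ ∈ G ↔ toLine σ ∈ GG F := fun σ => (hG σ).trans (semilinear_iff σ)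
  -- transport of closedness
  have tr : ∀ H : Set (Equiv.Perm (Projectivization F (Fin 2 → F))),
      ∀ H' : Set (Equiv.Perm (OnePoint F)), (∀ σ, σ ∈ H ↔ toLine σ ∈ H') →
      ((∀ σ : Equiv.Perm (Projectivization F (Fin 2 → F)),
          (∀ A : Finset (Projectivization F (Fin 2 → F)),
            ∃ g ∈ H, ∀ x ∈ A, g x = σ x) → σ ∈ H) ↔
       (∀ σ : Equiv.Perm (OnePoint F),
          (∀ A : Finset (OnePoint F), ∃ g ∈ H', ∀ x ∈ A, g x = σ x) → σ ∈ H')) := by
    intro H H' hHH
    constructor
    · intro h σ hσ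
      have h1 := h (toLine.symm σ) (by
        intro A
        obtain ⟨g, hg, hgA⟩ := hσ (A.image (equivProjectivization F).symm)
        refine ⟨toLine.symm g, (hHH _).2 (by simpa using hg), ?_⟩
        intro x hxA
        have := hgA _ (Finset.mem_image_of_mem _ hxA)
        simp only [toLine, Equiv.permCongrHom, Equiv.permCongr]
        simpa using this)
      simpa using (hHH _).1 h1
    · intro h σ hσ
      rw [hHH]
      apply h
      intro A
      obtain ⟨g, hg, hgA⟩ := hσ (A.image (equivProjectivization F))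
      refine ⟨toLine g, (hHH _).1 hg, ?_⟩
      intro x hxA
      have := hgA _ (Finset.mem_image_of_mem _ hxA)
      simp only [toLine, Equiv.permCongrHom, Equiv.permCongr]
      simpa using this
  refine ⟨?_, ?_, ?_⟩
  · exact (tr G ((GG F : Subgroup (Equiv.Perm (OnePoint F))) : Set (Equiv.Perm (OnePoint F)))
      hG').2 (fun σ hσ => GG_closed σ hσ)
  · intro h
    apply GG_ne_top (F := F) htr
    rw [eq_top_iff]
    intro τ _
    have := (hG' (toLine.symm τ)).1 (by rw [h]; trivial)
    simpa using this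
  · intro H hH hGH
    have hHH : ∀ σ, σ ∈ (H : Set (Equiv.Perm (Projectivization F (Fin 2 → F)))) ↔
        toLine σ ∈ ((H.map (toLine (F := F)).toMonoidHom : Subgroup _) :
          Set (Equiv.Perm (OnePoint F))) := by
      intro σ
      simp
    have hcl : IsClosedP (H.map (toLine (F := F)).toMonoidHom) :=
      (tr _ _ hHH).1 hH
    have hle : GG F ≤ H.map (toLine (F := F)).toMonoidHom := by
      intro τ hτ
      have h1 : toLine.symm τ ∈ G := (hG' _).2 (by simpa using hτ)
      have h2 := (hHH _).1 (hGH h1)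
      simpa using h2
    rcases hline _ hle hcl with h | h
    · left
      apply Set.Subset.antisymm _ hGH
      intro σ hσ
      exact (hG' σ).2 (h ((hHH σ).1 hσ))
    · right
      rw [eq_top_iff]
      intro σ _
      exact (hHH σ).2 (by rw [h]; trivial)

/-- the theorem for all algebraically closed fields which are not algebraic over the prime field -/
theorem proj_all (cP : S_CharP.{u}) (c0 : S_Char0.{u}) (F : Type u) [Field F] [IsAlgClosed F]
    (hna : ¬ Algebra.IsAlgebraic (⊥ : Subfield F) F) :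
    ∀ G : Set (Equiv.Perm (Projectivization F (Fin 2 → F))),
      (∀ σ : Equiv.Perm (Projectivization F (Fin 2 → F)),
        σ ∈ G ↔ ∃ (φ : F ≃+* F)
          (f : (Fin 2 → F) →ₛₗ[φ.toRingHom] (Fin 2 → F))
          (hf : Function.Injective f),
          ⇑σ = Projectivization.map f hf) →
      ((∀ σ : Equiv.Perm (Projectivization F (Fin 2 → F)),
          (∀ A : Finset (Projectivization F (Fin 2 → F)),
            ∃ g ∈ G, ∀ x ∈ A, g x = σ x) → σ ∈ G) ∧
        G ≠ Set.univ ∧
        ∀ H : Subgroup (Equiv.Perm (Projectivization F (Fin 2 → F))),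
          (∀ σ : Equiv.Perm (Projectivization F (Fin 2 → F)),
            (∀ A : Finset (Projectivization F (Fin 2 → F)),
              ∃ h ∈ H, ∀ x ∈ A, h x = σ x) → σ ∈ H) →
          G ⊆ (H : Set (Equiv.Perm (Projectivization F (Fin 2 → F)))) →
          (H : Set (Equiv.Perm (Projectivization F (Fin 2 → F)))) = G ∨ H = ⊤) := by
  by_cases h2 : ∃ x : Fin 2 → F, AlgebraicIndependent (⊥ : Subfield F) x
  · exact main_proj F h2
  · have htr : ∃ t : F, t ∉ acl (∅ : Set F) := by
      by_contra hcon
      apply hna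
      refine ⟨fun t => ?_⟩
      have ht : t ∈ acl (∅ : Set F) := by
        by_contra ht
        exact hcon ⟨t, ht⟩
      rwa [mem_acl, Subfield.closure_empty] at ht
    have h1 : TD1 F := td1_of_no_pair (fun x hx => h2 ⟨x, hx⟩)
    exact proj_of_line F htr (line_one cP c0 F h1 htr)

end Pool.Agent.MPa267.M
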