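import Pool.Agent.Lib.MP_a267a3_lc.M.Spec

/-!
# MP_a267a3_lc: a place which separates the blocks (Part V, from the field theory)
-/

set_option autoImplicit false

namespace Pool.Agent.MPa267.M

open OnePoint Pool.Agent.MPa267.D1

universe u

namespace PlaceAux

variable {F : Type u} [Field F]

theorem mob_DD {g : GL (Fin 2) F} (hg : GLK (acl (∅ : Set F)) g) (x : OnePoint F) :
    mob g x ∈ DD F ↔ x ∈ DD F := mob_mem_PP hg x

theorem coe_not_mem_DD {x : F} (hx : x ∉ acl (∅ : Set F)) : (x : OnePoint F) ∉ DD F := by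
  intro h
  exact hx ((coe_mem_PP _ _).1 h)

theorem autP_fix {φ : F ≃+* F} (hφ : ∀ a ∈ acl (∅ : Set F), φ a = a) {x : OnePoint F}
    (hx : x ∈ DD F) : autP φ x = x := by
  rcases hx with rfl | ⟨a, ha, rfl⟩
  · rfl
  · rw [autP_coe, hφ a ha]

/-- every block through `mob g Q₁` and a point outside `D` is a conjugate of `R₁` -/
theorem key [IsAlgClosed F] {H : Subgroup (Equiv.Perm (OnePoint F))} {n : ℕ} (s : St H n)
    (bas6 : ∀ R : Set (OnePoint F), Blk H R → ∀ h ∈ H, Blk H ((h : OnePoint F → OnePoint F) '' R))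
    (two2 : ∀ (Q : Finset (OnePoint F)) (y : OnePoint F), Q.card = n - 1 →
      (Q : Set (OnePoint F)) ⊆ DD F → y ∉ DD F → ∃! R : Set (OnePoint F), TII H n Q R ∧ y ∈ R)
    {Q₁ Q : Finset (OnePoint F)} {R₁ : Set (OnePoint F)} (hR1 : TII H n Q₁ R₁) {y : F}
    (hy : y ∉ acl (∅ : Set F)) (hyR1 : (y : OnePoint F) ∈ R₁) {g : GL (Fin 2) F}
    (hg : GLK (acl (∅ : Set F)) g) (hQ : (Q : Set (OnePoint F)) = mob g '' (Q₁ : Set (OnePoint F)))
    (hQc : Q.card = n - 1) {w : F} (hw : w ∉ acl (∅ : Set F)) {R : Set (OnePoint F)}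
    (hR : TII H n Q R) (hwR : (w : OnePoint F) ∈ R) :
    ∃ α : F ≃+* F, (∀ a ∈ acl (∅ : Set F), α a = a) ∧
      mob g ((α y : F) : OnePoint F) = (w : OnePoint F) ∧ R = mob g '' (autP α '' R₁) := by
  have hwD : (w : OnePoint F) ∉ DD F := coe_not_mem_DD hw
  obtain ⟨z, hz⟩ : ∃ z : OnePoint F, mob g z = w := ⟨(mob g)⁻¹ w, apply_inv_self' _ _⟩
  have hzD : z ∉ DD F := by
    intro h
    exact hwD (hz ▸ (mob_DD hg z).2 h)
  induction z using OnePoint.rec with
  | infty => exact absurd (infty_mem_PP _) hzD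
  | coe z =>
    have hz' : z ∉ acl (∅ : Set F) := fun h => hzD ((coe_mem_PP _ _).2 h)
    have := isAlgClosed_acl (F := F) (∅ : Set F)
    obtain ⟨α, hα, hαy⟩ := exists_aut_of_not_mem (acl (∅ : Set F)) hy hz'
    refine ⟨α, hα, by rw [hαy]; exact hz, ?_⟩
    have hwR' : (w : OnePoint F) ∈ mob g '' (autP α '' R₁) :=
      ⟨(z : OnePoint F), ⟨(y : OnePoint F), hyR1, by rw [autP_coe, hαy]⟩, hz⟩
    have hT : TII H n Q (mob g '' (autP α '' R₁)) := by
      refine ⟨?_, hQc, hR.sub, ?_, ?_⟩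
      · exact bas6 _ (bas6 _ hR1.blk _ (s.hG (autP_mem_GG α))) _ (s.hG (mob_mem_GG g))
      · rw [hQ]
        rintro _ ⟨q, hq, rfl⟩
        exact ⟨q, ⟨q, hR1.subR hq, autP_fix hα (hR1.sub hq)⟩, rfl⟩
      · intro h
        rw [h] at hwR'
        exact hwD hwR'
    exact (two2 Q w hQc hR.sub hwD).unique ⟨hR, hwR⟩ ⟨hT, hwR'⟩

end PlaceAux

open PlaceAux in
/-- **Place** -/
theorem tPlace (hBas : S_Bas.{u}) (hTwo : S_Two.{u}) (hFin : S_Fin.{u}) (hNtr : S_Ntr.{u})
    (hFT : S_FT.{u}) : S_Place.{u} := by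
  classical
  intro F _ _ _ h1 H n s y W hy hW
  obtain ⟨-, -, -, -, bas5, bas6, bas7⟩ := hBas F H n s
  obtain ⟨two1, two2⟩ := hTwo F H n s
  have hyD : (y : OnePoint F) ∉ DD F := coe_not_mem_DD hy
  obtain ⟨Q₁, hQ1D, hQ1c⟩ := (bas5 _ bas7).exists_subset_card_eq (n - 1)
  obtain ⟨R₁, ⟨hR1, hyR1⟩, -⟩ := two2 Q₁ (y : OnePoint F) hQ1c hQ1D hyD
  let N : Subfield F := Subfield.closure ((acl (∅ : Set F) : Set F) ∪ {x : F | (x : OnePoint F) ∈ R₁})
  have hkN : acl (∅ : Set F) ≤ N := fun x hx => Subfield.subset_closure (Or.inl hx)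
  have hRN : ∀ x : F, (x : OnePoint F) ∈ R₁ → x ∈ N := fun x hx => Subfield.subset_closure (Or.inr hx)
  have hNle : ∀ (K : Subfield F), acl (∅ : Set F) ≤ K → (∀ x : F, (x : OnePoint F) ∈ R₁ → x ∈ K) →
      N ≤ K := by
    intro K h1 h2
    refine Subfield.closure_le.2 ?_
    rintro x (hx | hx)
    · exact h1 hx
    · exact h2 x hx
  have hfg : ∃ A : Finset F, N ≤ Subfield.closure ((acl (∅ : Set F) : Set F) ∪ (A : Set F)) := by
    obtain ⟨A, hA⟩ := hFin F H n s R₁ hR1.blk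
    refine ⟨A, hNle _ (fun x hx => Subfield.subset_closure (Or.inl hx)) ?_⟩
    intro x hx
    exact (coe_mem_PP _ _).1 (hA hx)
  have hst : ∀ β : F ≃+* F, (∀ a ∈ acl (∅ : Set F), β a = a) → β y = y → ∀ x ∈ N, β x ∈ N := by
    intro β hβ hβy x hx
    have e := (two1 Q₁ R₁ hR1).2.1 β hβ y y hyR1 hyR1 hyD (by rw [autP_coe, hβy])
    have h3 : N ≤ N.comap (β : F →+* F) := by
      refine hNle _ ?_ ?_
      · intro a ha
        rw [Subfield.mem_comap]
        change β a ∈ N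
        rw [hβ a ha]; exact hkN ha
      · intro r hr
        rw [Subfield.mem_comap]
        change β r ∈ N
        apply hRN
        rw [← e]
        exact ⟨r, hr, autP_coe β r⟩
    exact h3 hx
  have hne : N ≠ D1.kk y := by
    intro e
    apply hNtr F H n s Q₁ R₁ hR1 y hyR1 hy
    intro x hx
    induction x using OnePoint.rec with
    | infty => exact infty_mem_PP _
    | coe x => rw [coe_mem_PP, ← e]; exact hRN x hx
  obtain ⟨g, L, hg, hkL, hyL, hWL, hW1, hy1⟩ :=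
    hFT F h1 N y hkN (hRN y hyR1) hy hfg hst hne y W hy hW
  have hgL : GLK L g := fun i j => hkL (hg i j)
  have hQc : (Q₁.image (mob g)).card = n - 1 := by
    rw [Finset.card_image_of_injective _ (mob g).injective]; exact hQ1c
  have hQs : ((Q₁.image (mob g) : Finset (OnePoint F)) : Set (OnePoint F)) =
      mob g '' (Q₁ : Set (OnePoint F)) := Finset.coe_image
  refine ⟨Q₁.image (mob g), L, hQc, ?_, hkL, hyL, hWL, ?_, ?_⟩
  · rw [hQs]
    rintro _ ⟨q, hq, rfl⟩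
    exact (mob_DD hg q).2 (hQ1D hq)
  · intro w hw R hR hwR
    obtain ⟨α, hα, hαw, rfl⟩ := key s bas6 two2 hR1 hy hyR1 hg hQs hQc (hW w hw).1 hR hwR
    rintro _ ⟨_, ⟨r, hr, rfl⟩, rfl⟩
    rw [mob_mem_PP hgL]
    induction r using OnePoint.rec with
    | infty => exact infty_mem_PP _
    | coe r =>
      rw [autP_coe, coe_mem_PP]
      exact hW1 w hw α hα hαw r (hRN r hr)
  · intro R hR hyR hcon
    obtain ⟨α, hα, hαy, rfl⟩ := key s bas6 two2 hR1 hy hyR1 hg hQs hQc hy hR hyR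
    obtain ⟨x, hxN, hxL⟩ := hy1 α hα hαy
    apply hxL
    have h3 : N ≤ L.comap (α : F →+* F) := by
      refine hNle _ ?_ ?_
      · intro a ha
        rw [Subfield.mem_comap]
        change α a ∈ L
        rw [hα a ha]; exact hkL ha
      · intro r hr
        rw [Subfield.mem_comap]
        change α r ∈ L
        have h4 : mob g (autP α (r : OnePoint F)) ∈ PP L := hcon ⟨_, ⟨_, hr, rfl⟩, rfl⟩
        rw [mob_mem_PP hgL, autP_coe, coe_mem_PP] at h4
        exact h4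
    exact h3 hxN

end Pool.Agent.MPa267.M
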