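import Pool.Agent.Lib.MP_a267a3_lc.M.Spec
import Pool.Agent.Lib.MP_a267a3_lc.D1.All

/-!
# MP_a267a3_lc: reduction to a group generated by the stabiliser of `D` and the translations
-/

set_option autoImplicit false

namespace Pool.Agent.MPa267.M

open OnePoint Pool.Agent.MPa267.D1

universe u

namespace RedAux

variable {F : Type u} [Field F]

/-- multiplication by `-w²` as a product of translations and inversions -/
theorem mulP_neg_sq {w : F} (hw : w ≠ 0) :
    mulP (-(w ^ 2)) = addP w * (invP * (addP (-w⁻¹) * (invP * (addP w * invP)))) := by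
  have h2 : -(w ^ 2) ≠ 0 := neg_ne_zero.2 (pow_ne_zero 2 hw)
  ext x : 1
  simp only [Equiv.Perm.mul_apply]
  induction x using OnePoint.rec with
  | infty =>
    rw [mulP_infty, invP_infty, addP_coe, add_zero, invP_coe hw, addP_coe, neg_add_cancel,
      invP_zero, addP_infty]
  | coe x =>
    rw [mulP_coe h2]
    by_cases hx : x = 0
    · subst hx
      rw [invP_zero, addP_infty, invP_infty, addP_coe, add_zero,
        invP_coe (neg_ne_zero.2 (inv_ne_zero hw)), addP_coe, coe_eq_coe]
      field_simp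
      ring
    · rw [invP_coe hx, addP_coe]
      by_cases h3 : w + x⁻¹ = 0
      · rw [h3, invP_zero, addP_infty, invP_infty, addP_coe, add_zero, coe_eq_coe]
        have h4 : w * x = -1 := by
          field_simp at h3
          linear_combination h3
        linear_combination (-w) * h4
      · have h5 : w * x + 1 ≠ 0 := by
          intro h6
          apply h3
          field_simp
          linear_combination h6
        have h6 : -w⁻¹ + (w + x⁻¹)⁻¹ = -(w * (w * x + 1))⁻¹ := by
          have h7 : w + x⁻¹ = (w * x + 1) / x := by field_simp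
          rw [h7]
          field_simp
          ring
        have h8 : -(w * (w * x + 1))⁻¹ ≠ 0 := neg_ne_zero.2 (inv_ne_zero (mul_ne_zero hw h5))
        rw [invP_coe h3, addP_coe, h6, invP_coe h8, addP_coe, coe_eq_coe]
        rw [inv_neg, inv_inv]
        ring

/-- a group containing the translations and the inversion contains all Moebius transformations -/
theorem mob_mem [IsAlgClosed F] {K : Subgroup (Equiv.Perm (OnePoint F))} (ha : ∀ b : F, addP b ∈ K)
    (hi : (invP : Equiv.Perm (OnePoint F)) ∈ K) (g : GL (Fin 2) F) : mob g ∈ K := by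
  classical
  have hm : ∀ a : F, mulP a ∈ K := by
    intro a
    by_cases h0 : a = 0
    · subst h0; rw [mulP_zero]; exact one_mem _
    · obtain ⟨w, hw⟩ := IsAlgClosed.exists_pow_nat_eq (-a) (n := 2) (by norm_num)
      have hw0 : w ≠ 0 := by
        rintro rfl
        apply h0
        have : (0 : F) = -a := by simpa using hw
        simpa using this.symm
      have h1 : a = -(w ^ 2) := by rw [hw, neg_neg]
      rw [h1, mulP_neg_sq hw0]
      exact mul_mem (ha _) (mul_mem hi (mul_mem (ha _) (mul_mem hi (mul_mem (ha _) hi))))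
  have hdet : g 0 0 * g 1 1 - g 0 1 * g 1 0 ≠ 0 := by
    have := g.det_ne_zero
    rwa [Matrix.det_fin_two] at this
  by_cases hc : g 1 0 = 0
  · have hd : g 1 1 ≠ 0 := by
      intro h; apply hdet; rw [hc, h]; ring
    have haa : g 0 0 ≠ 0 := by
      intro h; apply hdet; rw [hc, h]; ring
    have e : mob g = addP (g 0 1 / g 1 1) * mulP (g 0 0 / g 1 1) := by
      ext x : 1
      rw [Equiv.Perm.mul_apply]
      induction x using OnePoint.rec with
      | infty => rw [mob_infty, if_pos hc, mulP_infty, addP_infty]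
      | coe x =>
        rw [mob_coe, hc, zero_mul, zero_add, if_neg hd, mulP_coe (div_ne_zero haa hd), addP_coe,
          coe_eq_coe]
        field_simp
        ring
    rw [e]
    exact mul_mem (ha _) (hm _)
  · have hq : g 0 1 - g 0 0 * g 1 1 / g 1 0 ≠ 0 := by
      intro h
      apply hdet
      field_simp at h
      linear_combination -h
    have e : mob g = addP (g 0 0 / g 1 0) * (mulP (g 0 1 - g 0 0 * g 1 1 / g 1 0) *
        (invP * (addP (g 1 1) * mulP (g 1 0)))) := by
      ext x : 1
      simp only [Equiv.Perm.mul_apply]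
      induction x using OnePoint.rec with
      | infty =>
        rw [mob_infty, if_neg hc, mulP_infty, addP_infty, invP_infty, mulP_coe hq, mul_zero,
          addP_coe, add_zero]
      | coe x =>
        rw [mob_coe, mulP_coe hc, addP_coe]
        by_cases h : g 1 0 * x + g 1 1 = 0
        · have h' : g 1 1 + g 1 0 * x = 0 := by rw [add_comm]; exact h
          rw [if_pos h, h', invP_zero, mulP_infty, addP_infty]
        · have h' : g 1 1 + g 1 0 * x ≠ 0 := by rw [add_comm]; exact h
          have h2 : (g 1 1 + g 1 0 * x)⁻¹ * (g 1 0 * x + g 1 1) = 1 := by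
            rw [add_comm (g 1 1)]; exact inv_mul_cancel₀ h
          rw [if_neg h, invP_coe h', mulP_coe hq, addP_coe, coe_eq_coe, div_eq_iff h, add_mul,
            mul_assoc, h2, mul_one]
          field_simp
          ring
    rw [e]
    exact mul_mem (ha _) (mul_mem (hm _) (mul_mem hi (mul_mem (ha _) (hm _))))

/-- a Moebius map fixing `0, 1, ∞` is the identity -/
theorem mob_eq_one {g : GL (Fin 2) F} (h0 : mob g ((0 : F) : OnePoint F) = (0 : F))
    (h1 : mob g ((1 : F) : OnePoint F) = (1 : F)) (hi : mob g ∞ = ∞) : mob g = 1 := by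
  classical
  rw [mob_infty] at hi
  have h10 : g 1 0 = 0 := by
    by_contra h
    rw [if_neg h] at hi
    exact coe_ne_infty _ hi
  rw [mob_coe, h10] at h0 h1
  simp only [zero_add, mul_zero, mul_one] at h0 h1
  have h11 : g 1 1 ≠ 0 := by
    intro h
    rw [if_pos h] at h0
    exact infty_ne_coe _ h0
  rw [if_neg h11, coe_eq_coe] at h0 h1
  have h01 : g 0 1 = 0 := by
    rcases div_eq_zero_iff.1 h0 with h | h
    · exact h
    · exact absurd h h11
  rw [div_eq_one_iff_eq h11, h01, add_zero] at h1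
  ext x : 1
  rw [Equiv.Perm.one_apply]
  induction x using OnePoint.rec with
  | infty => rw [mob_infty, if_pos h10]
  | coe x =>
    rw [mob_coe, h10, h01, h1]
    simp only [zero_mul, zero_add, add_zero]
    rw [if_neg h11, coe_eq_coe, mul_div_cancel_left₀ _ h11]

theorem autP_mem_DD (φ : F ≃+* F) (x : OnePoint F) : autP φ x ∈ DD F ↔ x ∈ DD F := by
  induction x using OnePoint.rec with
  | infty => simp
  | coe x =>
    rw [autP_coe, coe_mem_PP, coe_mem_PP]
    have := map_acl φ (s := (∅ : Set F)) (x := x)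
    rwa [Set.image_empty] at this

theorem image_DD_of_iff {h : Equiv.Perm (OnePoint F)} (hh : ∀ x, h x ∈ DD F ↔ x ∈ DD F) :
    (h : OnePoint F → OnePoint F) '' DD F = DD F := by
  ext y
  constructor
  · rintro ⟨x, hx, rfl⟩; exact (hh x).2 hx
  · intro hy
    exact ⟨h⁻¹ y, (hh _).1 (by rwa [apply_inv_self']), apply_inv_self' _ _⟩

theorem acl_infinite [IsAlgClosed F] : (acl (∅ : Set F) : Set F).Infinite :=
  (UU_infinite (F := F)).mono UU_subset_acl

theorem DD_infinite [IsAlgClosed F] : (DD F).Infinite := by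
  refine Set.Infinite.mono ?_ ((acl_infinite (F := F)).image (f := fun x : F => (x : OnePoint F))
    (fun x _ y _ h => coe_eq_coe.1 h))
  rintro _ ⟨x, hx, rfl⟩
  exact (coe_mem_PP _ _).2 hx

theorem invP_image_DD : (invP : Equiv.Perm (OnePoint F)) '' DD F = DD F := by
  apply image_DD_of_iff
  intro x
  rw [invP_eq_mob]
  exact mob_mem_PP (GLK_mk2 _ (zero_mem _) (one_mem _) (one_mem _) (zero_mem _)) x

/-- two algebraic elements different from `0, 1` which are not conjugate -/
theorem exists_pair [IsAlgClosed F] : ∃ a b : F, a ∈ acl (∅ : Set F) ∧ b ∈ acl (∅ : Set F) ∧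
    a ≠ 0 ∧ a ≠ 1 ∧ b ≠ 0 ∧ b ≠ 1 ∧ a ^ 2 - a - 1 = 0 ∧ b ^ 2 - b - 1 ≠ 0 := by
  classical
  obtain ⟨a, ha⟩ : ∃ a : F, a ^ 2 - a - 1 = 0 := by
    have hdeg : (Polynomial.X ^ 2 - Polynomial.X - 1 : Polynomial F).degree ≠ 0 := by
      have : (Polynomial.X ^ 2 - Polynomial.X - 1 : Polynomial F).degree = 2 := by
        compute_degree!
      rw [this]; decide
    obtain ⟨a, ha⟩ := IsAlgClosed.exists_root _ hdeg
    exact ⟨a, by simpa using ha⟩
  have ha0 : a ≠ 0 := by
    rintro rfl
    simp at ha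
  have ha1 : a ≠ 1 := by
    rintro rfl
    simp at ha
  have haacl : a ∈ acl (∅ : Set F) := by
    rw [mem_acl]
    refine ⟨Polynomial.X ^ 2 - Polynomial.X - 1, ?_, by simpa using ha⟩
    intro h
    have := congrArg (fun p => Polynomial.coeff p 0) h
    simp at this
  obtain ⟨b, hb, hb'⟩ := (acl_infinite (F := F)).exists_notMem_finset {0, 1, a, 1 - a}
  simp only [Finset.mem_insert, Finset.mem_singleton, not_or] at hb'
  obtain ⟨hb0, hb1, hba, hbb⟩ := hb'
  refine ⟨a, b, haacl, hb, ha0, ha1, hb0, hb1, ha, ?_⟩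
  intro h
  have h1 : (b - a) * (b - (1 - a)) = 0 := by linear_combination h - ha
  rcases mul_eq_zero.1 h1 with h2 | h2
  · exact hba (sub_eq_zero.1 h2)
  · exact hbb (sub_eq_zero.1 h2)

end RedAux

open RedAux in
/-- **Red** -/
theorem tRed : S_Red.{u} := by
  classical
  intro F _ _ h1 htr H hG hcl hne hne'
  obtain ⟨n, -, hn5, hMT, -, hblk⟩ := line_main exc_all h1 htr H hG hcl hne hne'
  obtain ⟨H₀, hH₀⟩ : ∃ H₀ : Subgroup (Equiv.Perm (OnePoint F)), H₀ = Subgroup.closure
      ({h : Equiv.Perm (OnePoint F) | h ∈ H ∧ (h : OnePoint F → OnePoint F) '' DD F = DD F} ∪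
        Set.range (fun b : F => addP b)) := ⟨_, rfl⟩
  have hle : H₀ ≤ H := by
    rw [hH₀, Subgroup.closure_le]
    rintro _ (⟨h, -⟩ | ⟨b, rfl⟩)
    · exact h
    · exact hG (addP_mem_GG b)
  have hst : ∀ h ∈ H, (h : OnePoint F → OnePoint F) '' DD F = DD F → h ∈ H₀ := by
    intro h hh hh'
    rw [hH₀]
    exact Subgroup.subset_closure (Or.inl ⟨hh, hh'⟩)
  have hadd : ∀ b : F, addP b ∈ H₀ := by
    intro b
    rw [hH₀]
    exact Subgroup.subset_closure (Or.inr ⟨b, rfl⟩)
  have hinv : (invP : Equiv.Perm (OnePoint F)) ∈ H₀ := hst _ (hG invP_mem_GG) invP_image_DD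
  have hG₀ : GG F ≤ H₀ := by
    rintro _ ⟨g, φ, rfl⟩
    exact mul_mem (mob_mem hadd hinv g)
      (hst _ (hG (autP_mem_GG φ)) (image_DD_of_iff (autP_mem_DD φ)))
  have key : ∀ τ ∈ H, ∀ A : Finset (OnePoint F), A.card = n → (A : Set (OnePoint F)) ⊆ DD F →
      (∀ a ∈ A, τ a ∈ DD F) → (τ : OnePoint F → OnePoint F) '' DD F = DD F := by
    intro τ hτ A hA hAD hAτ
    obtain ⟨P, -, hP⟩ := hblk (A.image τ)
      (by rw [Finset.card_image_of_injective _ τ.injective, hA])
    have e1 := hP (τ '' DD F) ⟨⟨τ, hτ, rfl⟩, by rw [Finset.coe_image]; exact Set.image_mono hAD⟩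
    have e2 := hP (DD F) ⟨⟨1, one_mem _, by simp⟩, by
      rw [Finset.coe_image]
      rintro _ ⟨a, ha, rfl⟩
      exact hAτ a ha⟩
    rw [e1, e2]
  have hcl₀ : IsClosedP H₀ := by
    intro σ hσ
    have hσH : σ ∈ H := by
      apply hcl
      intro A
      obtain ⟨h, hh, hhA⟩ := hσ A
      exact ⟨h, hle hh, hhA⟩
    obtain ⟨A₀, hA₀, hA₀c⟩ := (DD_infinite (F := F)).exists_subset_card_eq n
    obtain ⟨h, hh, hhA⟩ := hσ A₀
    have h3 := hst (h⁻¹ * σ) (mul_mem (inv_mem (hle hh)) hσH) (by
      apply key _ (mul_mem (inv_mem (hle hh)) hσH) A₀ hA₀c hA₀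
      intro a ha
      rw [Equiv.Perm.mul_apply, ← hhA a ha, inv_apply_self']
      exact hA₀ ha)
    have h4 := mul_mem hh h3
    rwa [mul_inv_cancel_left] at h4
  have hne₀ : ¬ H₀ ≤ GG F := by
    intro hcon
    obtain ⟨a, b, ha, hb, ha0, ha1, hb0, hb1, haa, hbb⟩ := exists_pair (F := F)
    have hDa : (a : OnePoint F) ∈ DD F := (coe_mem_PP _ _).2 ha
    have hDb : (b : OnePoint F) ∈ DD F := (coe_mem_PP _ _).2 hb
    have hS : ((({∞, ((0 : F) : OnePoint F), ((1 : F) : OnePoint F), (a : OnePoint F)} :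
        Finset (OnePoint F)) : Set (OnePoint F))) ⊆ DD F := by
      intro x hx
      simp only [Finset.coe_insert, Finset.coe_singleton, Set.mem_insert_iff,
        Set.mem_singleton_iff] at hx
      rcases hx with rfl | rfl | rfl | rfl
      · exact infty_mem_PP _
      · exact (coe_mem_PP _ _).2 (zero_mem _)
      · exact (coe_mem_PP _ _).2 (one_mem _)
      · exact hDa
    obtain ⟨s', hs1, hs2, hs3⟩ := (DD_infinite (F := F)).exists_superset_ncard_eq hS
      (Finset.finite_toSet _) (k := n) (by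
        rw [Set.ncard_coe_finset]
        exact (Finset.card_le_four).trans (by omega))
    have hfin : s'.Finite := Set.finite_of_ncard_pos (by omega)
    have hf : ∀ x ∈ DD F, Equiv.swap (a : OnePoint F) b x ∈ DD F := by
      intro x hx
      rw [Equiv.swap_apply_def]
      split_ifs
      · exact hDb
      · exact hDa
      · exact hx
    have hcard : hfin.toFinset.card = n := by
      rw [← Set.ncard_eq_toFinset_card _ hfin, hs3]
    have hsub : (hfin.toFinset : Set (OnePoint F)) ⊆ DD F := by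
      rw [hfin.coe_toFinset]; exact hs2
    obtain ⟨h, hh, hhf⟩ := hMT hfin.toFinset (Equiv.swap (a : OnePoint F) b)
      hcard.le ((Equiv.swap (a : OnePoint F) b).injective.injOn)
    have hh' := hst h hh (key h hh hfin.toFinset hcard hsub (fun x hx => by
      rw [hhf x hx]
      exact hf x (hsub hx)))
    obtain ⟨g, φ, hgφ⟩ := hcon hh'
    have hmem : ∀ x : OnePoint F, x ∈ ({∞, ((0 : F) : OnePoint F), ((1 : F) : OnePoint F),
        (a : OnePoint F)} : Finset (OnePoint F)) → h x = Equiv.swap (a : OnePoint F) b x := by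
      intro x hx
      exact hhf x (hfin.mem_toFinset.2 (hs1 hx))
    have e0 : h ((0 : F) : OnePoint F) = (0 : F) := by
      rw [hmem _ (by simp), Equiv.swap_apply_of_ne_of_ne]
      · exact fun h => ha0 (coe_eq_coe.1 h).symm
      · exact fun h => hb0 (coe_eq_coe.1 h).symm
    have e1 : h ((1 : F) : OnePoint F) = (1 : F) := by
      rw [hmem _ (by simp), Equiv.swap_apply_of_ne_of_ne]
      · exact fun h => ha1 (coe_eq_coe.1 h).symm
      · exact fun h => hb1 (coe_eq_coe.1 h).symm
    have ei : h ∞ = ∞ := by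
      rw [hmem _ (by simp), Equiv.swap_apply_of_ne_of_ne]
      · exact infty_ne_coe _
      · exact infty_ne_coe _
    have ea : h (a : OnePoint F) = b := by
      rw [hmem _ (by simp), Equiv.swap_apply_left]
    rw [hgφ, Equiv.Perm.mul_apply, autP_coe, map_zero] at e0
    rw [hgφ, Equiv.Perm.mul_apply, autP_coe, map_one] at e1
    rw [hgφ, Equiv.Perm.mul_apply, autP_infty] at ei
    rw [hgφ, mob_eq_one e0 e1 ei, one_mul, autP_coe, coe_eq_coe] at ea
    apply hbb
    rw [← ea, ← map_pow, ← map_sub, ← map_one φ, ← map_sub, haa, map_zero]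
  obtain ⟨m, -, hm5, hMT', -, hblk'⟩ := line_main exc_all h1 htr H₀ hG₀ hcl₀ hne₀ (by
    rintro rfl
    exact hne' (top_le_iff.1 hle))
  refine ⟨H₀, m, hG₀, hm5, hMT', hblk', ?_⟩
  have h5 : Subgroup.closure
      ({h : Equiv.Perm (OnePoint F) | h ∈ H ∧ (h : OnePoint F → OnePoint F) '' DD F = DD F} ∪
        Set.range (fun b : F => addP b)) ≤ Subgroup.closure
      ({h : Equiv.Perm (OnePoint F) | h ∈ H₀ ∧ (h : OnePoint F → OnePoint F) '' DD F = DD F} ∪
        Set.range (fun b : F => addP b)) := by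
    apply Subgroup.closure_mono
    rintro x (⟨hx, hx'⟩ | hx)
    · exact Or.inl ⟨hst x hx hx', hx'⟩
    · exact Or.inr hx
  rwa [← hH₀] at h5

end Pool.Agent.MPa267.M

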