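import Pool.Agent.Lib.MP_a267a3_lc.M.Spec

/-!
# MP_a267a3_lc, task Sel
-/

set_option autoImplicit false

namespace Pool.Agent.MPa267.M

namespace SelAux

theorem lcs_map {G G' : Type*} [Group G] [Group G'] (f : G →* G') (N : Subgroup G) (i : ℕ) :
    (lcs N i).map f = lcs (N.map f) i := by
  induction i with
  | zero => rfl
  | succ i ih =>
    change (⁅N, lcs N i⁆).map f = ⁅N.map f, lcs (N.map f) i⁆
    rw [Subgroup.map_commutator, ih]

theorem lcs_mono {G : Type*} [Group G] {N N' : Subgroup G} (h : N ≤ N') (i : ℕ) : lcs N i ≤ lcs N' i := by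
  induction i with
  | zero => exact h
  | succ i ih => exact Subgroup.commutator_mono h ih

theorem lcs_le {G : Type*} [Group G] (N : Subgroup G) (i : ℕ) : lcs N i ≤ N := by
  induction i with
  | zero => exact le_refl _
  | succ i ih =>
    change ⁅N, lcs N i⁆ ≤ N
    rw [Subgroup.commutator_le]
    intro a ha b hb
    exact mul_mem (mul_mem (mul_mem ha (ih hb)) (inv_mem ha)) (inv_mem (ih hb))

end SelAux

open SelAux in
theorem tSel.{u} (hNil : S_Nil.{u}) : S_Sel.{u} := by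
  classical
  intro E V B _ _ K v m C h hν
  obtain ⟨ν, hν0, hνv⟩ := hν
  have hle : ∀ w, ((C 0).ker.map (C w)) ≤ (C 0).ker.map (C v) := by
    intro w
    rintro g ⟨τ, hτ, rfl⟩
    by_cases hw : w ∈ K
    · rw [h.zero τ hτ w hw]
      exact one_mem _
    · obtain ⟨φ, hφ, -, hφC⟩ := h.sub w hw
      obtain ⟨τ', hτ'⟩ := hφC τ
      refine ⟨τ', ?_, ?_⟩
      · change C 0 τ' = 1
        rw [hτ', map_zero]
        exact hτ
      · rw [hτ', hφ]
  have hex : ∃ i, lcs ((C 0).ker.map (C v)) i = ⊥ := ⟨m - 1, hNil E V B K v m C h⟩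
  have hi := Nat.find_spec hex
  have hmin := fun j (hj : j < Nat.find hex) => Nat.find_min hex hj
  have hi0 : Nat.find hex ≠ 0 := by
    intro h0
    rw [h0] at hi
    have h1 : C v ν ∈ lcs ((C 0).ker.map (C v)) 0 := ⟨ν, hν0, rfl⟩
    rw [hi, Subgroup.mem_bot] at h1
    exact hνv h1
  obtain ⟨s, hs⟩ := Nat.exists_eq_succ_of_ne_zero hi0
  have hbot : lcs ((C 0).ker.map (C v)) (s + 1) = ⊥ := by
    rw [← Nat.succ_eq_add_one, ← hs]
    exact hi
  have hne : lcs ((C 0).ker.map (C v)) s ≠ ⊥ := hmin s (by omega)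
  refine ⟨lcs ((C 0).ker.map (C v)) s, ?_, ?_⟩
  · intro x hx y hy
    have h2 := Subgroup.commutator_mem_commutator (H₁ := (C 0).ker.map (C v))
      (H₂ := lcs ((C 0).ker.map (C v)) s) (lcs_le _ _ hx) hy
    change _ ∈ lcs ((C 0).ker.map (C v)) (s + 1) at h2
    rw [hbot, Subgroup.mem_bot] at h2
    exact commutatorElement_eq_one_iff_mul_comm.1 h2
  · obtain ⟨⟨g, hg⟩, hg1'⟩ := Subgroup.ne_bot_iff_exists_ne_one.1 hne
    have hg1 : g ≠ 1 := fun h' => hg1' (Subtype.ext h')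
    rw [← lcs_map] at hg
    obtain ⟨τ, hτ, rfl⟩ := hg
    refine ⟨τ, fun w => ?_, lcs_le _ _ hτ, hg1⟩
    have h3 : C w τ ∈ (lcs (C 0).ker s).map (C w) := ⟨τ, hτ, rfl⟩
    rw [lcs_map] at h3
    exact lcs_mono (hle w) s h3

end Pool.Agent.MPa267.M
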