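import Pool.Agent.Lib.MP_a267a3_lc.M.Final

/-!
# MP_a267a3_lc: the assembly of all statements
-/

set_option autoImplicit false

namespace Pool.Agent.MPa267.M

open OnePoint Pool.Agent.MPa267.D1

universe u

/-- the two final statements from all the tasks -/
theorem skel
    (tBas : S_Bas.{u}) (tEK : S_EK.{u})
    (tBoxA : S_BoxA) (tBoxB : S_Bas.{u} → S_BoxA → S_BoxB.{u})
    (tBase0 : S_EK.{u} → S_BoxB.{u} → S_Base0.{u})
    (tDeg : S_Bas.{u} → S_EK.{u} → S_Deg.{u})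
    (tFG : S_EK.{u} → S_Base0.{u} → S_Deg.{u} → S_FG.{u})
    (tAlg1 : S_Alg1.{u}) (tNil : S_Nil.{u}) (tSel : S_Nil.{u} → S_Sel.{u})
    (tDif : S_Dif.{u}) (tPol : S_Pol.{u})
    (tAlg2 : S_Sel.{u} → S_Dif.{u} → S_Pol.{u} → S_Alg2.{u})
    (tSysC : S_Bas.{u} → S_EK.{u} → S_SysC.{u})
    (tFld : S_Bas.{u} → S_EK.{u} → S_Fld.{u})
    (tAut0 : S_Aut0.{u}) (tAutP : S_AutP.{u})
    (tTameA : S_Bas.{u} → S_EK.{u} → S_FinGen.{u} → S_Alg1.{u} → S_Alg2.{u} → S_SysC.{u} →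
      S_Fld.{u} → S_Aut0.{u} → S_AutP.{u} → S_TameA.{u})
    (tChain : S_Bas.{u} → S_Tame.{u} → S_Chain.{u})
    (tTwo : S_Bas.{u} → S_Two.{u})
    (tFrob : S_Frob.{u}) (tCnt : S_Cnt.{u})
    (tCharP : S_Bas.{u} → S_Chain.{u} → S_Two.{u} → S_Frob.{u} → S_Cnt.{u} → S_CharP.{u})
    (tFin : S_Chain.{u} → S_Fin.{u})
    (tNtr : S_Bas.{u} → S_Two.{u} → S_Ntr.{u})
    (tFT : S_FT.{u})
    (tPlace : S_Bas.{u} → S_Two.{u} → S_Fin.{u} → S_Ntr.{u} → S_FT.{u} → S_Place.{u})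
    (tLemF : S_Bas.{u} → S_Two.{u} → S_Place.{u} → S_LemF.{u})
    (tCom : S_LemF.{u} → S_Com.{u})
    (tChar0 : S_Bas.{u} → S_Com.{u} → S_Char0.{u}) : S_CharP.{u} ∧ S_Char0.{u} := by
  have hBoxB : S_BoxB.{u} := tBoxB tBas tBoxA
  have hBase0 : S_Base0.{u} := tBase0 tEK hBoxB
  have hDeg : S_Deg.{u} := tDeg tBas tEK
  have hFG : S_FinGen.{u} := tFG tEK hBase0 hDeg
  have hAlg2 : S_Alg2.{u} := tAlg2 (tSel tNil) tDif tPol
  have hTame : S_Tame.{u} :=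
    tTameA tBas tEK hFG tAlg1 hAlg2 (tSysC tBas tEK) (tFld tBas tEK) tAut0 tAutP
  have hChain : S_Chain.{u} := tChain tBas hTame
  have hTwo : S_Two.{u} := tTwo tBas
  refine ⟨tCharP tBas hChain hTwo tFrob tCnt, ?_⟩
  have hPlace : S_Place.{u} := tPlace tBas hTwo (tFin hChain) (tNtr tBas hTwo) tFT
  exact tChar0 tBas (tCom (tLemF tBas hTwo hPlace))

end Pool.Agent.MPa267.M
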