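import Pool.Agent.Lib.MP_a267a3_lc.D1.Spec

/-!
# MP_a267a3_lc: `PΓL₂(F)` is maximal-closed also in transcendence degree one

The whole paper proof is in note 4916 on MP_a267a3_lc. Here: definitions and the statements `S_*`.

Every `def S_Foo : Prop` is one task: write `Pool/Agent/Lib/MP_a267a3_lc/M/Foo.lean`, first line
`import Pool.Agent.Lib.MP_a267a3_lc.M.Spec`, `namespace Pool.Agent.MPa267.M`, `open OnePoint`, final theorem
`theorem tFoo.{u} (hyps S_Bar.{u} as allowed in the docstring, in the given order) : S_Foo.{u}`, helper lemmas in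
the namespace `Pool.Agent.MPa267.M.FooAux`. All tasks are independent: allowed statements are hypotheses.

Library (namespace `Pool.Agent.MPa267`, folder `Pool/Agent/Lib/MP_a267a3_lc`): `Defs.lean` (`MT`, `IsClosedP`,
`PP`, `mulP`, `addP`, `autP`, `invP`, `mob`, `GLK`, `acl`), `Basic.lean` (how they act: `mob_mul`, `mob_infty`, `mob_coe`,
`mk2`, `mob_mk2_coe`, `mulP_coe`, `addP_coe`, `autP_coe`, `autP_mul`, `autP_symm`, `autP_mob`, `autP_mob_comm`, `GG`,
`mem_GG`, `mob_mem_GG`, `autP_mem_GG`, `addP_mem_GG`, `mob_mem_PP`, `mob_three`, `coe_mem_PP`, `PP_mono`),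
`AlgA.lean` (`mem_acl`, `subset_acl`, `acl_mono`, `acl_le`, `isAlgClosed_acl`, `map_acl`), `AlgB.lean`
(`exists_aut_of_not_mem`: elements outside an algebraically closed subfield are conjugate over it;
`exists_aut_extend`), `AlgC.lean` (`fixed_aut_pow_mem`: the field fixed by `Aut(F/L)`), `AlgD.lean`
(`mem_closure_insert`, `moebius_of_same_stabiliser`), `AlgE.lean`, `D1/Setup.lean` (`DD F = PP (acl ∅)`, the line
`P¹(k)`), `D1/Spec.lean` (`TD1 F`: transcendence degree at most one; `D1.kk x` is the field `k(x)`).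
-/

set_option autoImplicit false

namespace Pool.Agent.MPa267.M

open OnePoint Pool.Agent.MPa267.D1

universe u

/-! ## Definitions -/

section Defs

variable {F : Type u} [Field F]

/-- `R` is a block: a translate of `D = P¹(k)` under `H`. -/
def Blk (H : Subgroup (Equiv.Perm (OnePoint F))) (R : Set (OnePoint F)) : Prop :=
  ∃ h ∈ H, R = (h : OnePoint F → OnePoint F) '' DD F

/-- The standing assumptions: `H` is `n`-transitive, the blocks form a Steiner `n`-system and `H` is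
generated by the stabiliser of `D` and the translations `x ↦ b + x`. -/
structure St (H : Subgroup (Equiv.Perm (OnePoint F))) (n : ℕ) : Prop where
  hG : GG F ≤ H
  n5 : 5 ≤ n
  mt : MT H n
  blk : ∀ A : Finset (OnePoint F), A.card = n → ∃! P : Set (OnePoint F), Blk H P ∧ (A : Set (OnePoint F)) ⊆ P
  gen : H ≤ Subgroup.closure ({h : Equiv.Perm (OnePoint F) | h ∈ H ∧
    (h : OnePoint F → OnePoint F) '' DD F = DD F} ∪ Set.range (fun b : F => addP b))

/-- The line `p + k q` with its point at infinity. -/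
def Ln (p q : F) : Set (OnePoint F) :=
  {x | x = ∞ ∨ ∃ c ∈ acl (∅ : Set F), x = ((p + c * q : F) : OnePoint F)}

/-- The field `k₀(u)`. -/
def EE (K₀ : Subfield F) (v : F) : Subfield F := Subfield.closure (insert v (K₀ : Set F))

/-- The point `a / b` of the projective line (`∞` if `b = 0`). -/
noncomputable def pt (a b : F) : OnePoint F := by
  classical exact if b = 0 then ∞ else ((a / b : F) : OnePoint F)

/-- The points `P(u)/R(u)` with polynomials `P, R` over `k₀`, not both zero, of degree at most `N`. -/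
def Kn (K₀ : Subfield F) (v : F) (N : ℕ) : Set (OnePoint F) :=
  {x | ∃ P R : Polynomial K₀, P.natDegree ≤ N ∧ R.natDegree ≤ N ∧ (P ≠ 0 ∨ R ≠ 0) ∧
    x = pt (Polynomial.aeval v P) (Polynomial.aeval v R)}

/-- The admissible small fields `k₀ ⊆ k`: the prime field in characteristic zero, or a finite field with an
element `ρ` of order larger than `2 n`. -/
structure Good (K₀ : Subfield F) (n : ℕ) : Prop where
  le : K₀ ≤ acl (∅ : Set F)
  rho : ∃ ρ ∈ K₀, ρ ≠ 0 ∧ Set.InjOn (fun i : ℕ => ρ ^ i) {i | i ≤ 2 * n}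
  fin : (CharZero F ∧ K₀ = ⊥) ∨ (K₀ : Set F).Finite

/-- `τ` fixes every point of `S`. -/
def Fx (τ : Equiv.Perm (OnePoint F)) (S : Set (OnePoint F)) : Prop := ∀ x ∈ S, τ x = x

/-- A block of type II: it contains the `n - 1` points `Q` of `D` and a point outside `D`. -/
structure TII (H : Subgroup (Equiv.Perm (OnePoint F))) (n : ℕ) (Q : Finset (OnePoint F))
    (R : Set (OnePoint F)) : Prop where
  blk : Blk H R
  card : Q.card = n - 1
  sub : (Q : Set (OnePoint F)) ⊆ DD F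
  subR : (Q : Set (OnePoint F)) ⊆ R
  ne : R ≠ DD F

end Defs

/-- Descending series of a subgroup: `lcs N 0 = N`, `lcs N (i+1) = [N, lcs N i]`. -/
def lcs {G : Type*} [Group G] (N : Subgroup G) : ℕ → Subgroup G
  | 0 => N
  | i + 1 => ⁅N, lcs N i⁆

/-- Iterated differences `Δ_{h₁} Δ_{h₂} ... f`, `Δ_h f (w) = f (w + h) - f w`. -/
def DL {E A : Type*} [Add E] [Sub A] : List E → (E → A) → E → A
  | [], f => f
  | h :: L, f => fun w => DL L f (w + h) - DL L f w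

/-- The abstract system of Part II: `V` a group, `C w : V → Sym B` for `w ∈ E`. -/
structure Sys {E V B : Type*} [Field E] [Group V] (K : Subfield E) (v : E) (m : ℕ)
    (C : E → V →* Equiv.Perm B) : Prop where
  m2 : 2 ≤ m
  card : ∃ s : Finset E, (s : Set E) ⊆ K ∧ (0 : E) ∉ s ∧ s.card = m
  big : ∀ s : Finset E, ∃ e : E, ∀ x ∈ s, e - x ∉ K
  hv : v ∉ K
  tr : ∀ (d : E) (τ : V), ∃ τ' : V, ∀ w, C w τ' = C (w + d) τ
  sub : ∀ e, e ∉ K → ∃ φ : E →+* E, φ v = e ∧ (∀ a ∈ K, φ a = a) ∧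
    ∀ τ : V, ∃ τ' : V, ∀ w, C w τ' = C (φ w) τ
  rig : ∀ (w₀ w₁ : E), w₁ ∉ K → ∀ (τ : V) (b b' : B),
    (∃ s : Finset E, (s : Set E) ⊆ K ∧ s.card = m ∧ ∀ a ∈ s, C (w₀ + a * w₁) τ b = b') →
      ∀ a ∈ K, C (w₀ + a * w₁) τ b = b'
  zero : ∀ τ, C 0 τ = 1 → ∀ e ∈ K, C e τ = 1

/-! ## Base -/

/-- **Red** (reduction; 120 lines; hypothesis allowed: none; you may import `D1.All` (for `D1.line_main`, `D1.exc_all`)).
PROOF. `line_main exc_all` for `H`: `n ≥ 5`, `MT H n`, blocks. Let `H₀` be the closure in `gen`. `GG F ≤ H₀`: `autP φ` preserves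
`DD F` (`map_acl`); `mob g`: `s(x) = -1/x` and `x ↦ 1/x`, `x ↦ -x` preserve `DD F`; `t_β s t_{1/β} s t_β s` is multiplication by
`β²` (`β ≠ 0`), so all multiplications are in `H₀` (`F` algebraically closed); `(ax+b)/(cx+d) = a/c - (ad-bc)/(c²(x+d/c))`
for `c ≠ 0`. `H₀ ≤ H`, so `H₀ ≠ ⊤`. `H₀` closed: `σ` a limit of `H₀`; `σ ∈ H`; take `h ∈ H₀` with `h = σ` on `n` points of `DD F`;
`h⁻¹σ ∈ H` fixes `n` points of `DD F`, so it maps the block `DD F` to itself, so it is in `H₀`. `¬ H₀ ≤ GG F`: take `b ∈ k` with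
`b² = b + 1` (so `b ≠ 0, 1`) and `b' ∈ k`, `b' ≠ 0, 1`, `b'² ≠ b' + 1`; by `MT H n` (`n ≥ 5`, extend to `n` points of `DD F`) there is
`h ∈ H` with `∞, 0, 1, b ↦ ∞, 0, 1, b'` mapping `n` points of `DD F` into `DD F`, so `h '' DD F = DD F`, `h ∈ H₀`; an element of `GG F`
fixing `∞, 0, 1` is some `autP φ`, and `φ b` is a root of `x² = x + 1`. So `line_main` applies to `H₀`, giving the new `n`. -/
def S_Red : Prop := ∀ (F : Type u) [Field F] [IsAlgClosed F], TD1 F → (∃ t : F, t ∉ acl (∅ : Set F)) →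
  ∀ H : Subgroup (Equiv.Perm (OnePoint F)), GG F ≤ H → IsClosedP H → ¬ H ≤ GG F → H ≠ ⊤ →
    ∃ (H₀ : Subgroup (Equiv.Perm (OnePoint F))) (n : ℕ), St H₀ n

/-- **Bas** (basic facts; 100 lines).
PROOF. (1) uniqueness in `blk` for an `n`-subset of `A`. (2) `τ '' R` is a block containing `A`. (3) `Ln p q = (addP p * mulP q) '' DD F`
for `q ≠ 0`. (4) choose `n` points containing `A` and an injective extension of `f` with values in `DD F` (infinite), `MT H n`, (1).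
(5) `addP`-images. -/
def S_Bas : Prop := ∀ (F : Type u) [Field F] [IsAlgClosed F] (H : Subgroup (Equiv.Perm (OnePoint F))) (n : ℕ), St H n →
  (∀ R R' : Set (OnePoint F), Blk H R → Blk H R' → ∀ A : Finset (OnePoint F), n ≤ A.card →
      (A : Set (OnePoint F)) ⊆ R → (A : Set (OnePoint F)) ⊆ R' → R = R') ∧
  (∀ τ ∈ H, ∀ R R' : Set (OnePoint F), Blk H R → Blk H R' → ∀ A : Finset (OnePoint F), n ≤ A.card →
      (∀ a ∈ A, a ∈ R ∧ τ a ∈ R') → (τ : OnePoint F → OnePoint F) '' R = R') ∧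
  (∀ p q : F, q ≠ 0 → Blk H (Ln p q)) ∧
  (∀ (A : Finset (OnePoint F)) (f : OnePoint F → OnePoint F), A.card ≤ n → (A : Set (OnePoint F)) ⊆ DD F →
      Set.InjOn f (A : Set (OnePoint F)) → (∀ a ∈ A, f a ∈ DD F) →
      ∃ h ∈ H, (h : OnePoint F → OnePoint F) '' DD F = DD F ∧ ∀ a ∈ A, h a = f a) ∧
  (∀ R : Set (OnePoint F), Blk H R → R.Infinite) ∧
  (∀ R : Set (OnePoint F), Blk H R → ∀ h ∈ H, Blk H ((h : OnePoint F → OnePoint F) '' R)) ∧
  Blk H (DD F)

/-- **EK** (60 lines). `E = k₀(v)`, `v ∉ k`: elements are `P(v)/R(v)`; `E ∩ k = k₀`; `E` is large over `k₀`; every `σ`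
over `k` maps `E` into `E` if `σ v ∈ E`.
PROOF. (1) `Subfield.closure` of `insert v K₀`: the set of such quotients is a subfield. (2) `P(v)/R(v) = c ∈ k` gives
`P = c R` as polynomials over `k` (`v` is transcendental over `k = acl ∅`), a coefficient of `R` which is `≠ 0` gives `c ∈ K₀`.
(3) the powers of `v`: `v^i - v^j ∉ K₀` for `i ≠ j` positive, pigeonhole: for `x ∈ s` at most one `i` has `v^i - x ∈ K₀`. (4) clear. -/
def S_EK : Prop := ∀ (F : Type u) [Field F] [IsAlgClosed F] (K₀ : Subfield F) (v : F), K₀ ≤ acl (∅ : Set F) → v ∉ acl (∅ : Set F) →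
  (∀ x : F, x ∈ EE K₀ v ↔ ∃ P R : Polynomial K₀, R ≠ 0 ∧ x = Polynomial.aeval v P / Polynomial.aeval v R) ∧
  (∀ R : Polynomial K₀, R ≠ 0 → Polynomial.aeval v R ≠ 0) ∧
  (∀ x ∈ EE K₀ v, x ∈ acl (∅ : Set F) → x ∈ K₀) ∧
  (∀ s : Finset F, ∃ e ∈ EE K₀ v, ∀ x ∈ s, e - x ∉ K₀) ∧
  (∀ σ : F ≃+* F, (∀ a ∈ acl (∅ : Set F), σ a = a) → σ v ∈ EE K₀ v → ∀ x ∈ EE K₀ v, σ x ∈ EE K₀ v)

/-! ## Part I: finite generation -/

/-- **FinGen** (main statement of Part I). A finite subset of `P¹(k₀(v))` controls `P¹(k₀(v))`. -/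
def S_FinGen : Prop := ∀ (F : Type u) [Field F] [IsAlgClosed F] (H : Subgroup (Equiv.Perm (OnePoint F))) (n : ℕ), St H n →
  ∀ (K₀ : Subfield F), Good K₀ n → ∀ v : F, v ∉ acl (∅ : Set F) →
    ∃ A : Finset (OnePoint F), ∀ τ ∈ H, Fx τ (A : Set (OnePoint F)) → Fx τ (PP (EE K₀ v))

/-! ## Part II: tameness -/

/-- **Tame** (main statement of Part II). -/
def S_Tame : Prop := ∀ (F : Type u) [Field F] [IsAlgClosed F] (H : Subgroup (Equiv.Perm (OnePoint F))) (n : ℕ), St H n →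
  ∀ v : F, v ∉ acl (∅ : Set F) → ∃ A : Finset (OnePoint F), ∀ τ ∈ H, Fx τ (A : Set (OnePoint F)) →
    (τ : OnePoint F → OnePoint F) '' DD F = DD F ∧ ∀ d ∈ DD F, τ (addP v d) = addP v (τ d)

/-! ## Part III: every block is equivariantly isomorphic to `D` -/

/-- **Chain** (70 lines; hypotheses `S_Bas`, `S_Tame`).
PROOF. Let `M` be the set of `h ∈ H` for which the statement holds for `R = h '' DD F`. (i) `h '' DD F = DD F`: `β = 1`, `A` any
`n` points of `DD F` (`S_Bas` (2)). (ii) `h = addP b`: `b ∈ k` is case (i); else `β = addP b`, `S_Tame`. (iii) if `h, h' ∈ M` with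
`(β₂, A₂)` for `h '' DD F` and `(β, A)` for `h' '' DD F` then `(h β h⁻¹ β₂, h '' A ∪ A₂)` works for `(h h') '' DD F`: for `d ∈ DD F`
`x = h⁻¹ β₂ d ∈ DD F`; `h⁻¹ τ h` fixes `A`, so `τ h β x = h (h⁻¹ τ h) β x = h β (h⁻¹ τ h) x = h β h⁻¹ (τ β₂ d) = h β h⁻¹ β₂ (τ d)`.
Every element of `H` is a product of elements as in (i), (ii) (inverses are again such), `gen`. -/
def S_Chain : Prop := ∀ (F : Type u) [Field F] [IsAlgClosed F] (H : Subgroup (Equiv.Perm (OnePoint F))) (n : ℕ), St H n →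
  ∀ R : Set (OnePoint F), Blk H R → ∃ β ∈ H, (β : OnePoint F → OnePoint F) '' DD F = R ∧
    ∃ A : Finset (OnePoint F), ∀ τ ∈ H, Fx τ (A : Set (OnePoint F)) →
      (τ : OnePoint F → OnePoint F) '' DD F = DD F ∧ ∀ d ∈ DD F, τ (β d) = β (τ d)

/-- **Two** (blocks of type II; 90 lines; hypothesis `S_Bas`).
PROOF. (1) `|R ∩ DD F| ≤ n - 1` by uniqueness. (2) `autP φ ∈ H` fixes `Q`, so `autP φ '' R` and `R` share `Q` and `s`.
(3) for `s ∈ R`, `s ∉ DD F` take `φ` over `k` with `φ r = s` (`exists_aut_of_not_mem`): `g s = autP φ (g r) ∈ autP φ '' R = R`.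
So `g '' R` and `R` share infinitely many points; `g '' Q = g '' (R ∩ DD F) = R ∩ DD F`. (4) existence: `blk` for `Q ∪ {y}`. -/
def S_Two : Prop := ∀ (F : Type u) [Field F] [IsAlgClosed F] (H : Subgroup (Equiv.Perm (OnePoint F))) (n : ℕ), St H n →
  (∀ (Q : Finset (OnePoint F)) (R : Set (OnePoint F)), TII H n Q R →
    R ∩ DD F = (Q : Set (OnePoint F)) ∧
    (∀ (φ : F ≃+* F), (∀ a ∈ acl (∅ : Set F), φ a = a) → ∀ r s : OnePoint F, r ∈ R → s ∈ R → r ∉ DD F →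
      autP φ r = s → (autP φ : OnePoint F → OnePoint F) '' R = R) ∧
    (∀ g ∈ H, (g : OnePoint F → OnePoint F) '' DD F = DD F →
      (∀ (φ : F ≃+* F), (∀ a ∈ acl (∅ : Set F), φ a = a) → g * autP φ = autP φ * g) →
      ∀ r : OnePoint F, r ∈ R → r ∉ DD F → g r ∈ R →
        (g : OnePoint F → OnePoint F) '' R = R ∧ (g : OnePoint F → OnePoint F) '' (Q : Set (OnePoint F)) = Q)) ∧
  (∀ (Q : Finset (OnePoint F)) (y : OnePoint F), Q.card = n - 1 → (Q : Set (OnePoint F)) ⊆ DD F → y ∉ DD F →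
    ∃! R : Set (OnePoint F), TII H n Q R ∧ y ∈ R)

/-! ## Part IV: characteristic `p` -/

/-- **Frob** (50 lines).
PROOF. Frobenius on `k = acl ∅` (an automorphism of `k`), extended to `F` by `exists_aut_extend`; compose with an automorphism over `k`
so that `t ↦ t` (`exists_aut_of_not_mem`): `v₀`. Every `x ∈ F` is algebraic over the field `closure {t}`, which `v₀` fixes pointwise
(`TD1`, `mem_acl`), so the `v₀`-orbit of `x` is in the finite set of roots of its minimal polynomial and `v₀^m x = x` for some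
`m ≥ 1`. For `B` take the product of the `m`: `v = v₀^j`, `j ≥ 1`. -/
def S_Frob : Prop := ∀ (F : Type u) [Field F] [IsAlgClosed F] (p : ℕ) [Fact p.Prime] [CharP F p], TD1 F →
  (∃ t : F, t ∉ acl (∅ : Set F)) → ∀ B : Finset F, ∃ (j : ℕ) (φ : F ≃+* F), 1 ≤ j ∧
    (∀ x ∈ acl (∅ : Set F), φ x = x ^ p ^ j) ∧ (∀ b ∈ B, φ b = b) ∧
    ∀ x : F, ∃ m : ℕ, 1 ≤ m ∧ (φ ^ m) x = x

/-- **Cnt** (counting, abstract; 100 lines).
PROOF. `g` = order of the stabiliser of `y`; all stabilisers are conjugate, order `g`. `Λ_m = {λ ∈ Λ | λ v^m = v^m λ}` acts on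
`Ω_m = Fix(v^m)`, `|Ω_m| = q^m - c`. Let `q^m > c`. Orbits of `Λ_m` in `Ω_m` are finite and stabilisers are finite, so `a_m = |Λ_m|` is finite,
and `a_m ∣ g |Ω_m|` (orbit length `a_m/s`, `s ∣ g`). `Λ_m ≤ Λ_{2m}`, so `a_m ∣ a_{2m} ∣ g (q^{2m} - c)`. With
`x² - c = (x - c)(x + c) + c(c - 1)`, `x = q^m`: `a_m ∣ g c (c-1)`, so `a_m ≤ N := g c (c-1)`. If `Λ` had `N + 1` elements they would all
commute with one `v^m`, `m` a large common multiple. So `Λ` is finite, `Ω = Λ y` is finite: contradiction. -/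
def S_Cnt : Prop := ∀ (X : Type u) [Infinite X] (Λ : Subgroup (Equiv.Perm X)) (v : Equiv.Perm X) (q c : ℕ) (y : X),
  2 ≤ q → 2 ≤ c → (∀ x : X, ∃ l ∈ Λ, l y = x) → {l : Equiv.Perm X | l ∈ Λ ∧ l y = y}.Finite →
  (∀ l ∈ Λ, ∃ m : ℕ, 1 ≤ m ∧ l * v ^ m = v ^ m * l) →
  (∀ m : ℕ, 1 ≤ m → {x : X | (v ^ m) x = x}.Finite ∧ {x : X | (v ^ m) x = x}.ncard + c = q ^ m) → False

/-- **CharP** (120 lines; hypotheses `S_Bas`, `S_Chain`, `S_Two`, `S_Frob`, `S_Cnt`).
PROOF. Note 4916, Part IV. `Q ⊆ DD F` with `n - 1` points, `y = t ∉ k`, `R` (`S_Two` (4)), `(β, A)` from `S_Chain`; `φ, j` from `S_Frob` for the finite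
coordinates of `A ∪ Q ∪ {t}`; `q = p^j`, `v = autP φ`. `v ∈ H` fixes `Q` and `t`, so `v '' R = R`. For `m ≥ 1` `v^m` fixes `A`, so for `d ∈ DD F`:
`v^m (β d) = β (v^m d)`, hence `v^m` fixes exactly `q^m + 1` points of `R` (`∞` and the roots of `x^(q^m) = x` in `k`), `n - 1` of them are `Q`.
`X = {x // x ∈ R ∧ x ∉ DD F}` (infinite), `c = n - 2`. `Λ` = restrictions to `X` of the `autP α`, `α` over `k` with `autP α '' R = R`: transitive by
`S_Two` (2). Two such `α, α'` which agree on `A` agree on `R` (`τ = autP (α⁻¹α')` fixes `A` and `DD F`, so `τ β d = β τ d = β d`); if `α t = t` then `α` moves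
each finite coordinate `a` of `A` within the roots of its minimal polynomial over `k(t)` (`TD1`): the stabiliser of `t` is finite. For `α` take `m ≥ 1` such that
`φ^m` fixes the coordinates of `(autP α)⁻¹ A`: `α φ^m α⁻¹ φ^{-m}` is the identity on `k` and on `A`, so on `R`. `S_Cnt`. -/
def S_CharP : Prop := ∀ (F : Type u) [Field F] [IsAlgClosed F] (p : ℕ) [Fact p.Prime] [CharP F p], TD1 F →
  (∃ t : F, t ∉ acl (∅ : Set F)) → ∀ (H : Subgroup (Equiv.Perm (OnePoint F))) (n : ℕ), ¬ St H n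

/-! ## Part V: characteristic zero -/

/-- **Fin** (40 lines; hypothesis `S_Chain`).
PROOF. `(β, A)` from `S_Chain`, `A'` = finite coordinates of `A`, `L = closure (k ∪ A')`. `φ` over `L`: `autP φ ∈ H` fixes `A` and `DD F`, so it fixes `R` pointwise
(`τ β d = β τ d = β d`). A finite point `x` of `R` is fixed by all `φ` over `L`, so `x ∈ L` (`fixed_aut_pow_mem` with `p = 1`). -/
def S_Fin : Prop := ∀ (F : Type u) [Field F] [IsAlgClosed F] [CharZero F] (H : Subgroup (Equiv.Perm (OnePoint F))) (n : ℕ), St H n →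
  ∀ R : Set (OnePoint F), Blk H R → ∃ A : Finset F, R ⊆ PP (Subfield.closure ((acl (∅ : Set F) : Set F) ∪ (A : Set F)))

/-- **Ntr** (80 lines; hypotheses `S_Bas`, `S_Two`).
PROOF. Note 4916, V.3. Suppose `R ⊆ P¹(k(y))`. For `r ∈ R`, `r ∉ DD F`: `r ∈ k(y)`. Take `α` over `k` with `α r = y`; `autP α '' R = R` (`S_Two` (2)), so
`α y ∈ k(y)`, `y ∈ k(α⁻¹ y) = k(r)`. So `r` and `y` have the same stabiliser in `Aut(F/k)` and `r = mob g y` with `GLK k g` (`moebius_of_same_stabiliser`,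
`p = 1`). `mob g` commutes with all `autP φ` over `k` (`autP_mob_comm`), so by `S_Two` (3) `mob g '' Q = Q`. Infinitely many `r`, but `mob g` is determined by its values
at three points of `Q` (`n - 1 ≥ 4`), so only finitely many `mob g` map `Q` to `Q`. -/
def S_Ntr : Prop := ∀ (F : Type u) [Field F] [IsAlgClosed F] [CharZero F] (H : Subgroup (Equiv.Perm (OnePoint F))) (n : ℕ), St H n →
  ∀ (Q : Finset (OnePoint F)) (R : Set (OnePoint F)), TII H n Q R → ∀ y : F, (y : OnePoint F) ∈ R → y ∉ acl (∅ : Set F) →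
    ¬ R ⊆ PP (D1.kk y)

/-- **FT** (pure field theory: the interface to Parts V.4-V.7). `N` is a finitely generated extension of `k(y₁)`, stable under
the automorphisms of `F` over `k(y₁)`, and different from `k(y₁)`. For `y ∉ k` and finitely many `w ∉ k`, `w ≠ y`, there are
`g ∈ PGL₂(k)` and a subfield `L` containing `k`, `y` and the `w`, such that the conjugates of `N` over `g⁻¹ w` are in `L` and those over
`g⁻¹ y` are not (`L` = the elements which are Laurent series at a suitable place). -/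
def S_FT : Prop := ∀ (F : Type u) [Field F] [IsAlgClosed F] [CharZero F], TD1 F →
  ∀ (N : Subfield F) (y₁ : F), acl (∅ : Set F) ≤ N → y₁ ∈ N → y₁ ∉ acl (∅ : Set F) →
    (∃ A : Finset F, N ≤ Subfield.closure ((acl (∅ : Set F) : Set F) ∪ (A : Set F))) →
    (∀ β : F ≃+* F, (∀ a ∈ acl (∅ : Set F), β a = a) → β y₁ = y₁ → ∀ x ∈ N, β x ∈ N) →
    N ≠ D1.kk y₁ →
    ∀ (y : F) (W : Finset F), y ∉ acl (∅ : Set F) → (∀ w ∈ W, w ∉ acl (∅ : Set F) ∧ w ≠ y) →
      ∃ (g : GL (Fin 2) F) (L : Subfield F), GLK (acl (∅ : Set F)) g ∧ acl (∅ : Set F) ≤ L ∧ y ∈ L ∧ (∀ w ∈ W, w ∈ L) ∧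
        (∀ w ∈ W, ∀ α : F ≃+* F, (∀ a ∈ acl (∅ : Set F), α a = a) →
          mob g ((α y₁ : F) : OnePoint F) = (w : OnePoint F) → ∀ x ∈ N, α x ∈ L) ∧
        (∀ α : F ≃+* F, (∀ a ∈ acl (∅ : Set F), α a = a) →
          mob g ((α y₁ : F) : OnePoint F) = (y : OnePoint F) → ∃ x ∈ N, α x ∉ L)

/-- **Place** (90 lines; hypotheses `S_Bas`, `S_Two`, `S_Fin`, `S_Ntr`, `S_FT`).
PROOF. Take any `Q₁ ⊆ DD F` with `n - 1` points, `y₁ ∉ k`, `R₁` (`S_Two` (4)); `N = closure (k ∪ {y₁} ∪ finite coordinates of R₁)`. Hypotheses of `S_FT`: finitely generated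
by `S_Fin` (add `y₁`); stable: `β` over `k` with `β y₁ = y₁` has `autP β '' R₁ = R₁` (`S_Two` (2)); `N ≠ k(y₁)` by `S_Ntr`. Get `g, L`. `Q = mob g '' Q₁`. For `w ∈ W` (or
`w = y`) and the block `R` through `Q` and `w`: `(mob g)⁻¹ w` is finite and not in `k`, `= α y₁` with `α` over `k`; `mob g '' (autP α '' R₁)` is a block of type II through `Q` and
`w`, so it is `R`. For `w ∈ W`: the finite coordinates of `autP α '' R₁` are in `L`, and `mob g` preserves `PP L` (`mob_mem_PP`). For `y`: if `R ⊆ PP L` then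
`autP α '' R₁ ⊆ PP L`, so `α` maps `N` into `L` (`k ≤ L`, `α y₁ ∈ L`): contradiction. -/
def S_Place : Prop := ∀ (F : Type u) [Field F] [IsAlgClosed F] [CharZero F], TD1 F →
  ∀ (H : Subgroup (Equiv.Perm (OnePoint F))) (n : ℕ), St H n →
    ∀ (y : F) (W : Finset F), y ∉ acl (∅ : Set F) → (∀ w ∈ W, w ∉ acl (∅ : Set F) ∧ w ≠ y) →
      ∃ (Q : Finset (OnePoint F)) (L : Subfield F), Q.card = n - 1 ∧ (Q : Set (OnePoint F)) ⊆ DD F ∧
        acl (∅ : Set F) ≤ L ∧ y ∈ L ∧ (∀ w ∈ W, w ∈ L) ∧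
        (∀ w ∈ W, ∀ R : Set (OnePoint F), TII H n Q R → (w : OnePoint F) ∈ R → R ⊆ PP L) ∧
        (∀ R : Set (OnePoint F), TII H n Q R → (y : OnePoint F) ∈ R → ¬ R ⊆ PP L)

/-- **LemF** (120 lines; hypotheses `S_Bas`, `S_Two`, `S_Place`). Here `w a` is the finite value of `κ (y₀ + a) - a`.
PROOF. Note 4916, V.8. `S_Place` for `y = w a₀` and `W = {w a | a ∈ s}`: `Q, L`. `R` = block through `Q` and `y₀`. For `γ` over `L`, `τ = κ⁻¹ * autP γ * κ ∈ H` fixes `DD F` pointwise and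
`y₀ + a` for `a ∈ s ∪ {a₀}`. `κ` maps `t_a '' R` (`t_a = addP a`) to `t_a '' R_a`, `R_a` the block through `Q` and `w a` (both contain `t_a '' Q ⊆ DD F` and `w a + a`).
For `a ∈ s`, `R_a ⊆ PP L`, so `autP γ` fixes `t_a '' R_a` pointwise (`a ∈ L`) and `τ` fixes `t_a '' R` pointwise. Let `r ∈ R`, `r ∉ DD F`. The line `Ln r 1` contains `∞` and the `n - 1` points
`r + a`, `a ∈ s`, all fixed by `τ`, so `τ '' Ln r 1 = Ln r 1`; `τ` preserves `t_{a₀} '' R`; so `τ (r + a₀) = r + c` with `c ∈ k` and `r + (c - a₀) ∈ R`, hence `c = a₀` by: if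
`r ∈ R`, `r ∉ DD F` and `r + b ∈ R`, `b ∈ k`, `b ≠ 0` then by `S_Two` (3) `addP b '' Q = Q`, impossible in characteristic zero (`Q` has a finite point, the set of its finite points is invariant under
`x ↦ b + x`). So `autP γ` fixes `κ (t_{a₀} '' R) = t_{a₀} '' R_{a₀}` pointwise for all `γ` over `L`; `fixed_aut_pow_mem` (`p = 1`): `R_{a₀} ⊆ PP L`. Contradiction. -/
def S_LemF : Prop := ∀ (F : Type u) [Field F] [IsAlgClosed F] [CharZero F], TD1 F →
  ∀ (H : Subgroup (Equiv.Perm (OnePoint F))) (n : ℕ), St H n →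
    ∀ κ ∈ H, Fx κ (DD F) → ∀ (y₀ : F), y₀ ∉ acl (∅ : Set F) → ∀ (w : ℤ → F),
      (∀ a : ℤ, κ (((y₀ + a : F)) : OnePoint F) = ((w a + a : F) : OnePoint F)) →
      ∀ (s : Finset ℤ) (a₀ : ℤ), s.card = n - 1 → a₀ ∉ s → ¬ ∀ a ∈ s, w a ≠ w a₀

/-- **Com** (40 lines; hypothesis `S_LemF`).
PROOF. `κ` maps `DD F` to itself pointwise, so `κ (y₀ + a)` is finite and not in `k`: it is `w a + a`. If `w 1 ≠ w 0`, every `a` in `J = {0, ..., 2n - 4}` has `w a ≠ w 0` or `w a ≠ w 1`; by `S_LemF` each of the sets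
`{a ∈ J | w a ≠ w 0}`, `{a ∈ J | w a ≠ w 1}` has at most `n - 2` elements (a subset with `n - 1` elements does not contain `0`, resp. `1`), so `2n - 3 ≤ 2n - 4`. -/
def S_Com : Prop := ∀ (F : Type u) [Field F] [IsAlgClosed F] [CharZero F], TD1 F →
  ∀ (H : Subgroup (Equiv.Perm (OnePoint F))) (n : ℕ), St H n →
    ∀ κ ∈ H, Fx κ (DD F) → ∀ x : OnePoint F, κ (addP 1 x) = addP 1 (κ x)

/-- **Char0** (120 lines; hypotheses `S_Bas`, `S_Com`).
PROOF. Note 4916, V.10. `S_Bas` (4): `h ∈ H`, `h '' DD F = DD F`, `h : ∞, 0, 1, 2 ↦ ∞, 0, 1, 3`. `c = h * addP 1 * h⁻¹`. For `κ ∈ H` fixing `DD F` pointwise, `h⁻¹ κ h` fixes `DD F` pointwise, so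
`c` commutes with `κ` (`S_Com`), in particular with `autP φ`, `φ` over `k`. `c '' DD F = DD F`. Let `t ∉ k`: `c t = z` finite, `z ∉ k`; `φ t = t ↔ φ z = z` for `φ` over `k`, so `z = mob g t` with
`GLK k g` (`moebius_of_same_stabiliser`, `p = 1`), and `c x = mob g x` for all `x ∉ DD F` (`x = φ t`, `autP_mob_comm`). `ζ = (mob g)⁻¹ * c ∈ H` fixes all points outside `DD F`; the line `Ln d t`
(`d ∈ k`) meets `DD F` in `∞, d`, and `Ln t 1` meets `DD F` in `∞`: both are blocks with infinitely many fixed points, so are invariant; so `ζ ∞ = ∞` and `ζ d = d`. So `c = mob g`. `c ∞ = ∞`, so `c x = α x + β` on finite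
points, `α, β ∈ k`; `c` has no fixed point in `k` (`c x = x` gives `h⁻¹ x = ∞`), so `α = 1`; `c 0 = h 1 = 1`, so `β = 1`; but `c 1 = h 2 = 3 ≠ 2`. -/
def S_Char0 : Prop := ∀ (F : Type u) [Field F] [IsAlgClosed F] [CharZero F], TD1 F →
  (∃ t : F, t ∉ acl (∅ : Set F)) → ∀ (H : Subgroup (Equiv.Perm (OnePoint F))) (n : ℕ), ¬ St H n

/-! ## Part I, details -/

/-- **BoxA** (combinatorics in `ℚ^d`; 120 lines).
PROOF. `m = 2(n-1)`. Shift the box: for `b ∈ ℤ^d` let `B(b)` = the integer points `x` with `b_i ≤ x_i ≤ b_i + m`. If `B(b) ⊆ S` then `B(b ± e_i) ⊆ S`: a new point `v` has `v_i = b_i + m + 1` (or `b_i - 1`); take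
`j ≠ i`; the direction `∓e_i` gives `n - 1` points of `B(b)` on the line through `v`; `v_j - b_j ≥ n - 1` or `≤ n - 1`, so one of the directions `∓e_i - e_j`, `∓e_i + e_j` gives `n - 1` points of `B(b)`.
So all integer points are in `S`. A rational `v`: for an integer point `p`, `N (p - v)` is integral for some `N ≥ 1` (`N` a common denominator of `v`) and `p + j N (p - v)`, `j = 1, ..., n-1` are distinct points of the line through `v` in
direction `p - v` (if `p ≠ v`); choose integer `p, p'` with `p - v`, `p' - v` linearly independent (`d ≥ 2`). -/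
def S_BoxA : Prop := ∀ (d n : ℕ), 2 ≤ d → 2 ≤ n → ∀ S : Set (Fin d → ℚ),
  (∀ v q q' : Fin d → ℚ, LinearIndependent ℚ ![q, q'] →
    (∃ s : Finset ℚ, s.card = n - 1 ∧ ∀ c ∈ s, v + c • q ∈ S) →
    (∃ s : Finset ℚ, s.card = n - 1 ∧ ∀ c ∈ s, v + c • q' ∈ S) → v ∈ S) →
  (∀ a : Fin d → ℕ, (∀ i, a i ≤ 2 * (n - 1)) → (fun i => (a i : ℚ)) ∈ S) → S = Set.univ

/-- **BoxB** (80 lines; hypotheses `S_Bas`, `S_BoxA`).
PROOF. `S = {a : Fin d → ℚ | τ fixes Σ a_i w_i}`; the box is in `S`. Rule: let `v, q, q'` be as in `S_BoxA`. `p = Σ v_i w_i`, `r = Σ q_i w_i`, `r' = Σ q'_i w_i` are such that `r, r'` are linearly independent over `k` (the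
`w_i` are, and the rational matrix `(q, q')` has a nonzero `2×2` minor). `Ln p r` contains `∞` and the `n - 1` fixed points `p + c r`, so `τ '' Ln p r = Ln p r` (`S_Bas` (2)), same for `r'`; the two lines share only `∞` and `p`, so `τ p ∈ {∞, p}`, and `τ ∞ = ∞`. -/
def S_BoxB : Prop := ∀ (F : Type u) [Field F] [IsAlgClosed F] [CharZero F] (H : Subgroup (Equiv.Perm (OnePoint F))) (n : ℕ), St H n →
  ∀ (d : ℕ) (w : Fin d → F), 2 ≤ d → LinearIndependent (acl (∅ : Set F)) w → ∀ τ ∈ H, τ ∞ = ∞ →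
    (∀ a : Fin d → ℕ, (∀ i, a i ≤ 2 * (n - 1)) → τ ((∑ i, (a i : F) * w i : F) : OnePoint F) = ((∑ i, (a i : F) * w i : F) : OnePoint F)) →
    ∀ a : Fin d → ℚ, τ ((∑ i, (a i : F) * w i : F) : OnePoint F) = ((∑ i, (a i : F) * w i : F) : OnePoint F)

/-- **Base0** (100 lines; hypotheses `S_EK`, `S_BoxB`).
PROOF. Note 4916, I.2. `N = n - 2`, `d = N + 1 = n - 1 ≥ 4`. `Box` = the polynomials `Σ_{i ≤ N} a_i X^i`, `a_i ∈ {0, ..., 2(n-1)}`. `A = {∞, 0} ∪ {P(v)/R(v) | P, R ∈ Box, R ≠ 0}`. Let `τ ∈ H` fix `A`. For `R ∈ Box`, `R ≠ 0`: `S_BoxB` for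
`w_i = v^i / R(v)` (linearly independent over `k` since `v` is transcendental over `k`): `τ` fixes `P(v)/R(v)` for all `P` over `ℚ` of degree `≤ N`. Then for a fixed `P ≠ 0` of degree `≤ N` apply `S_BoxB` to
`τ' = invP * τ * invP⁻¹` (`τ' ∞ = ∞` since `τ 0 = 0`) and `w_i = v^i / P(v)`: `τ'` fixes `R(v)/P(v)` for `R ∈ Box` (`R = 0`: `τ' 0 = 0` since `τ ∞ = ∞`), hence for all `R`; so `τ` fixes `P(v)/R(v)`. Here `K₀ = ⊥` and its elements are the images of `ℚ`. -/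
def S_Base0 : Prop := ∀ (F : Type u) [Field F] [IsAlgClosed F] [CharZero F] (H : Subgroup (Equiv.Perm (OnePoint F))) (n : ℕ), St H n →
  ∀ v : F, v ∉ acl (∅ : Set F) → ∃ A : Finset (OnePoint F), ∀ τ ∈ H, Fx τ (A : Set (OnePoint F)) → Fx τ (Kn (⊥ : Subfield F) v (n - 2))

/-- **Deg** (140 lines; hypotheses `S_Bas`, `S_EK`).
PROOF. Note 4916, I.3. `x = P(v)/R(v)`; dividing by the gcd we may assume `P, R` coprime; if both degrees are `≤ N` done. `r_i = ρ^i`, `i = 1, ..., n-1` (distinct, nonzero). By Lagrange interpolation there are `P', R'` of degree `≤ n - 2` with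
`P'(r_i) = - r_i P(r_i)`, `R'(r_i) = - r_i R(r_i)`. `y = pt P'(v) R'(v)` is fixed (degree `≤ n-2 ≤ N`; `(P', R') ≠ 0` since `(P(r_1), R(r_1)) ≠ 0`). `P R' ≠ P' R` (else, `P, R` coprime of degree exactly `N + 1` for one of them, `(P', R')` would be a
polynomial multiple of `(P, R)`). Circle `C₁` = image of `DD F` under the Moebius map with columns `(P(v), R(v))`, `(P'(v), R'(v))`: its points are `x` and `pt (c P + P')(v) (c R + R')(v)`, `c ∈ k`. For `c = r_i` both polynomials are divisible by `X - r_i` and nonzero as a pair, so the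
point has degree `≤ N` and is fixed; with `y` (`c = 0`) these are `n` distinct fixed points of the block `C₁`, so `τ '' C₁ = C₁`. The same with `(X P', X R')` and `c = r_i² = ρ^{2i}`: block `C₂`, `τ '' C₂ = C₂`, contains `x` and `y`. `C₁ ∩ C₂ = {x, y}` (a common point with
`c (X) = c'`, i.e. `c v = c'` only for `c = c' = 0`). `τ y = y`, so `τ x = x`. -/
def S_Deg : Prop := ∀ (F : Type u) [Field F] [IsAlgClosed F] (H : Subgroup (Equiv.Perm (OnePoint F))) (n : ℕ), St H n →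
  ∀ (K₀ : Subfield F), Good K₀ n → ∀ v : F, v ∉ acl (∅ : Set F) → ∀ τ ∈ H, ∀ N : ℕ, n - 2 ≤ N →
    Fx τ (Kn K₀ v N) → Fx τ (Kn K₀ v (N + 1))

/-- **FG** (assembly of Part I; 40 lines; hypotheses `S_EK`, `S_Base0`, `S_Deg`).
PROOF. `Good.fin`: in characteristic zero `S_Base0`; if `K₀` is finite, `Kn K₀ v (n-2)` is a finite set, take it as `A`. Then induction with `S_Deg`, and every point of `PP (EE K₀ v)` is in some `Kn K₀ v N` (`S_EK` (1)). -/
def S_FG : Prop := S_FinGen.{u}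

/-! ## Part II, details -/

/-- **Alg1** (30 lines). PROOF. Note 4916, II.10. For `a ∈ K`, `a ≠ 0`, `sub` with `e = a v`: `τ'` with `C 0 τ' = C 0 τ`, `C v τ' = C (a v) τ`; `ν = τ' τ⁻¹` has `C 0 ν = 1`, so `C v ν = 1`, `C (a v) τ = C v τ`. By `rig`
(`w₀ = 0`, `w₁ = v`, the set from `card`) for every `b`: `C 0 τ b = C v τ b`. -/
def S_Alg1 : Prop := ∀ (E V B : Type u) [Field E] [Group V] (K : Subfield E) (v : E) (m : ℕ) (C : E → V →* Equiv.Perm B),
  Sys K v m C → (∀ ν, C 0 ν = 1 → C v ν = 1) → ∀ τ, C v τ = C 0 τ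

/-- **Nil** (80 lines). PROOF. Note 4916, II.3-II.4. `𝒩 = (ker (C 0)).map (C v)`. For `a ∈ K`, `a ≠ 0` and `g ∈ 𝒩` there is `τ` with `C (a v) τ = 1`, `C 0 τ = g`: `g = C v ν`, `C 0 ν = 1`; `sub` with `e = -a⁻¹ v`: `ν₁` with `C w ν₁ = C (φ w) ν`,
`φ (-a v) = v`; then `tr` with `d = - a v`. For `s ⊆ K \ {0}` finite with `j + 1` elements: `lcs 𝒩 j ≤ (⨅_{a ∈ s} ker (C (a v))).map (C 0)` by induction on `j` (the commutator of `ker (C (a v))` and `⨅ ker` is in both, they are normal; `Subgroup.map_commutator`).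
For `s.card = m` (`card`) the right side is `⊥` by `rig` (`w₀ = 0`, `w₁ = v`, `b' = b`). -/
def S_Nil : Prop := ∀ (E V B : Type u) [Field E] [Group V] (K : Subfield E) (v : E) (m : ℕ) (C : E → V →* Equiv.Perm B),
  Sys K v m C → lcs ((C 0).ker.map (C v)) (m - 1) = ⊥

/-- **Sel** (80 lines; hypothesis `S_Nil`). PROOF. Note 4916, II.5. `N = ker (C 0)`, `𝒩 = N.map (C v)`; for `w ∉ K`, `N.map (C w) ≤ 𝒩` (`sub` with `e = w`); for `w ∈ K` it is `⊥` (`zero`). `𝒩 ≠ ⊥`, let `s` be maximal with `lcs 𝒩 s ≠ ⊥`, `Z = lcs 𝒩 s`: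
`⁅Z, Z⁆ ≤ ⁅𝒩, Z⁆ = ⊥`. `(lcs N s).map (C w) ≤ Z` for all `w`, `= Z` for `w = v` (`Subgroup.map_commutator`, monotonicity). Take `τ ∈ lcs N s` with `C v τ ≠ 1`. -/
def S_Sel : Prop := ∀ (E V B : Type u) [Field E] [Group V] (K : Subfield E) (v : E) (m : ℕ) (C : E → V →* Equiv.Perm B),
  Sys K v m C → (∃ ν, C 0 ν = 1 ∧ C v ν ≠ 1) → ∃ Z : Subgroup (Equiv.Perm B), (∀ x ∈ Z, ∀ y ∈ Z, x * y = y * x) ∧
    ∃ τ : V, (∀ w, C w τ ∈ Z) ∧ C 0 τ = 1 ∧ C v τ ≠ 1

/-- **Dif** (110 lines). PROOF. Note 4916, II.6. `L = [h_1, ..., h_m]`, `a_i` distinct elements of `K \ {0}` (`card`). For `G : E × E → A` and pairs `v_i = (h_i, -h_i/a_i)` let `alt` be the iterated difference of `G` in the directions `v_i`. Choose `e₀ ∈ E` with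
`e₀ - Σ_{i ∈ ε} h_i/a_i ∉ K` for all subsets `ε` (`big`). For `e ∉ K` let `φ_e` be as in `sub`. `Φ(w)` = alternating sum over `ε` of `f (φ_{e_ε} w + d_ε)`, `e_ε = e₀ - Σ_ε h_i/a_i`, `d_ε = p₀ + Σ_ε h_i`: it is in `𝒮` (`tr`, `sub`). `Φ(a v)` is the iterated difference of
`(d, e) ↦ f (d + a e)` at `(p₀, e₀)`; for `a = a_j` this function is invariant under `v_j`, so `Φ(a_j v) = 0`. By `rig` `Φ(0) = 0`, which is `DL L f p₀ = 0`. -/
def S_Dif : Prop := ∀ (E A : Type u) [Field E] [AddCommGroup A] (K : Subfield E) (v : E) (m : ℕ) (S : AddSubgroup (E → A)),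
  (∃ s : Finset E, (s : Set E) ⊆ K ∧ (0 : E) ∉ s ∧ s.card = m) → (∀ s : Finset E, ∃ e : E, ∀ x ∈ s, e - x ∉ K) →
  (∀ f ∈ S, ∀ d : E, (fun w => f (w + d)) ∈ S) →
  (∀ e, e ∉ K → ∃ φ : E →+* E, φ v = e ∧ (∀ a ∈ K, φ a = a) ∧ ∀ f ∈ S, (fun w => f (φ w)) ∈ S) →
  (∀ f ∈ S, (∃ s : Finset E, (s : Set E) ⊆ K ∧ s.card = m ∧ ∀ a ∈ s, f (a * v) = 0) → f 0 = 0) →
  ∀ f ∈ S, ∀ L : List E, L.length = m → DL L f = 0

/-- **Pol** (50 lines). PROOF. Note 4916, II.7. Some `DL [h] f ≠ 0`. Take the largest `j ≤ m - 1` such that `DL L f ≠ 0` for some `L` of length `j`; `L = h₁ :: L'`, `g = DL L' f ∈ S`; `DL (h :: h' :: L') f = 0`, so `w ↦ g (w + h') - g w` is a constant `l h'`; `l` is additive, `l h₁ ≠ 0`. -/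
def S_Pol : Prop := ∀ (E A : Type u) [AddCommGroup E] [AddCommGroup A] (m : ℕ) (S : AddSubgroup (E → A)),
  (∀ f ∈ S, ∀ d : E, (fun w => f (w + d)) ∈ S) → ∀ f ∈ S, (∀ L : List E, L.length = m → DL L f = 0) → (∃ x y, f x ≠ f y) →
  ∃ g ∈ S, ∃ l : E →+ A, l ≠ 0 ∧ ∀ h w, g (w + h) - g w = l h

/-- **Alg2** (80 lines; hypotheses `S_Sel`, `S_Dif`, `S_Pol`). PROOF. `Z`, `τ` from `S_Sel`. `A = Additive Z` (a commutative group). `S` = the functions `w ↦ C w σ ∈ Z` for the `σ ∈ V` with `C w σ ∈ Z` for all `w` (additive subgroup; closed under translations by `tr`, under `sub`; rigidity from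
`Sys.rig`, `w₀ = 0`, `w₁ = v`, `b' = b`). `S_Dif`, `S_Pol`: `g ∈ S` and `l ≠ 0`; `lam h = l h`; `w ↦ g (w + h) - g w` is in `S`. -/
def S_Alg2 : Prop := ∀ (E V B : Type u) [Field E] [Group V] (K : Subfield E) (v : E) (m : ℕ) (C : E → V →* Equiv.Perm B),
  Sys K v m C → (∃ ν, C 0 ν = 1 ∧ C v ν ≠ 1) → ∃ lam : E → Equiv.Perm B, (∀ h h', lam (h + h') = lam h * lam h') ∧
    (∃ h, lam h ≠ 1) ∧ ∀ h, ∃ τ : V, ∀ w, C w τ = lam h

/-- The group `V` of Part II. -/
def VV {F : Type u} [Field F] (H : Subgroup (Equiv.Perm (OnePoint F))) (E : Subfield F) : Subgroup (Equiv.Perm (OnePoint F)) where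
  carrier := {τ | τ ∈ H ∧ Fx τ (PP E)}
  mul_mem' := by
    rintro a b ⟨ha, ha'⟩ ⟨hb, hb'⟩
    refine ⟨mul_mem ha hb, fun x hx => ?_⟩
    rw [Equiv.Perm.mul_apply, hb' x hx, ha' x hx]
  one_mem' := ⟨one_mem _, fun x _ => rfl⟩
  inv_mem' := by
    rintro a ⟨ha, ha'⟩
    refine ⟨inv_mem ha, fun x hx => ?_⟩
    rw [Equiv.Perm.inv_eq_iff_eq]
    exact (ha' x hx).symm

/-- **SysC** (140 lines; hypotheses `S_Bas`, `S_EK`). PROOF. Note 4916, Part II up to II.3. `E = EE K₀ v`, `m = n - 1`. `|K₀| ≥ n` by `rho`. For `w ∈ E` the block `Ln w 1` contains `∞` and `w + a`, `a ∈ K₀`, fixed by `τ ∈ VV H E`, so `τ '' Ln w 1 = Ln w 1`: define `C w τ`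
(a permutation of `k = acl ∅`) by `τ (w + b) = w + C w τ b`. It is a homomorphism. `card`: `ρ, ..., ρ^{n-1}`. `big`, `hv`: `S_EK`. `tr`: `τ' = t_d⁻¹ τ t_d` (`t_d = addP d`). `sub`: `σ` over `k` with `σ v = e` (`exists_aut_of_not_mem`; `e ∉ k` by `S_EK` (3)), `φ` the restriction of
`σ` to `E` (`S_EK` (5)), `τ' = (autP σ)⁻¹ τ (autP σ)`. `rig`: `w₁ ∉ k` (`S_EK` (3)); `τ` maps the line `Ln (w₀ + b) w₁` to a block with the `n` points `∞`, `w₀ + b' + a w₁` (`a ∈ s`) of `Ln (w₀ + b') w₁`, so onto it; for `a ∈ K₀`, `τ (w₀ + a w₁ + b)` is in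
`Ln (w₀ + b') w₁ ∩ Ln (w₀ + a w₁) 1`, a finite point, so it is `w₀ + b' + a w₁` (`w₁ ∉ k`). `zero`: `C 0 τ = 1` means that `τ` fixes `k`, and `e + b ∈ k` for `e ∈ K₀`. -/
def S_SysC : Prop := ∀ (F : Type u) [Field F] [IsAlgClosed F] (H : Subgroup (Equiv.Perm (OnePoint F))) (n : ℕ), St H n →
  ∀ (K₀ : Subfield F), Good K₀ n → ∀ (v : F) (hv : v ∈ EE K₀ v), v ∉ acl (∅ : Set F) →
    ∃ C : (EE K₀ v) → (VV H (EE K₀ v)) →* Equiv.Perm (acl (∅ : Set F)),
      (∀ (w : EE K₀ v) (τ : VV H (EE K₀ v)) (b : acl (∅ : Set F)),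
        (τ : Equiv.Perm (OnePoint F)) (((w : F) + (b : F) : F) : OnePoint F) = (((w : F) + (C w τ b : F) : F) : OnePoint F)) ∧
      Sys (K₀.comap (EE K₀ v).subtype) (⟨v, hv⟩ : EE K₀ v) (n - 1) C

/-- **Fld** (120 lines; hypotheses `S_Bas`, `S_EK`). PROOF. Note 4916, II.8 (A)-(E). -/
def S_Fld : Prop := ∀ (F : Type u) [Field F] [IsAlgClosed F] (H : Subgroup (Equiv.Perm (OnePoint F))) (n : ℕ), St H n →
  ∀ (K₀ : Subfield F), Good K₀ n → ∀ v : F, v ∉ acl (∅ : Set F) → ∀ τ ∈ VV H (EE K₀ v), ∀ T : Equiv.Perm (acl (∅ : Set F)),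
    (∀ w ∈ EE K₀ v, ∀ b : acl (∅ : Set F), τ ((w + (b : F) : F) : OnePoint F) = ((w + (T b : F) : F) : OnePoint F)) →
    (∀ a b, T (a + b) = T a + T b) ∧ ∀ a b, T (a * b) = T a * T b

/-- **Aut0** (60 lines). PROOF. Note 4916, II.9. Let `b ∈ k`, `P` its minimal polynomial over `ℚ` (or over the prime field), `S` the finite set of its roots in `k`, `M = S.card !`. `g = lam (h / M)` is a ring automorphism, so it maps `S` to `S`; the points `g^i b`, `i = 0, ..., S.card`, are in `S`, so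
`g^j b = b` for some `1 ≤ j ≤ S.card` (`g` injective), `j ∣ M`, so `lam h b = g^M b = b`. -/
def S_Aut0 : Prop := ∀ (F : Type u) [Field F] [CharZero F] (E : Type u) [Field E] [CharZero E] (lam : E → Equiv.Perm (acl (∅ : Set F))),
  (∀ h h', lam (h + h') = lam h * lam h') → (∀ h a b, lam h (a + b) = lam h a + lam h b) → (∀ h a b, lam h (a * b) = lam h a * lam h b) →
  ∀ h, lam h = 1

/-- **AutP** (80 lines). PROOF. Note 4916, II.9. Let `b ∈ k`, `b^{p^r} = b`, `r ≥ 1`. The set `L = {x ∈ k | x^{p^{rp}} = x}` is a finite field with `p^{rp}` elements, `T` and Frobenius map it to itself, and the automorphisms of `L` are the powers of Frobenius (its group is cyclic of order `r p`, generated by Frobenius;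
`FiniteField` library). So `T = Frob^i` on `L`, `T^p = 1` gives `rp ∣ ip`, `r ∣ i`, so `T b = b^{p^i} = b`. -/
def S_AutP : Prop := ∀ (F : Type u) [Field F] [IsAlgClosed F] (p : ℕ) [Fact p.Prime] [CharP F p] (T : Equiv.Perm (acl (∅ : Set F))),
  (∀ a b, T (a + b) = T a + T b) → (∀ a b, T (a * b) = T a * T b) → T ^ p = 1 → T = 1

/-- **TameA** (assembly of Part II; 120 lines; hypotheses `S_Bas`, `S_EK`, `S_FinGen`, `S_Alg1`, `S_Alg2`, `S_SysC`, `S_Fld`, `S_Aut0`, `S_AutP`).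
PROOF. Choose `K₀` with `Good K₀ n`: `⊥` in characteristic zero (`ρ = 2`), else a finite field in `k` generated by a root of unity `ρ` of order `> 2n` prime to `p` (`exists_unit_group` or `UU_infinite`). `A` from `S_FinGen`: `τ ∈ H` fixing `A` is in `VV H (EE K₀ v)`. `S_SysC`. If some `ν` has `C 0 ν = 1`, `C v ν ≠ 1`, then `S_Alg2`: `lam`; `S_Fld`:
every `lam h` is a ring automorphism of `k`; in characteristic zero `S_Aut0`, in characteristic `p` `lam h ^ p = lam (p h) = lam 0 = 1` and `S_AutP`: `lam h = 1` for all `h`, contradiction. So `S_Alg1`: `C v τ = C 0 τ`, which is the claim for finite `d`; `τ ∞ = ∞`; `τ '' DD F = DD F` since `τ` fixes `n` points of `DD F` (`S_Bas`). -/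
def S_TameA : Prop := S_Tame.{u}

end Pool.Agent.MPa267.M
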